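import Pool.Statements.S0056
import Pool.Agent.H9.Isotriv.Geo

set_option autoImplicit false
open Pool Pool.MP_4658d5_ag

namespace Pool.Agent.S0056

/-- The negation of the preceding statement: For every complex polynomial p in n variables whose zero set is contractible (Euclidean topology), there is a finite set S such that any two fibres p=c and p=d with c, d outside S are isomorphic affine varieties via polynomial maps. -/
theorem result :
    ¬ (∀ (n : ℕ) (p : MvPolynomial (Fin n) ℂ),
      ContractibleSpace {x : Fin n → ℂ // MvPolynomial.eval x p = 0} →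
      ∃ S : Finset ℂ, ∀ c d : ℂ, c ∉ S → d ∉ S →
        ∃ f g : Fin n → MvPolynomial (Fin n) ℂ,
          (∀ x : Fin n → ℂ, MvPolynomial.eval x p = c →
              MvPolynomial.eval (fun i => MvPolynomial.eval x (f i)) p = d ∧
              (fun j => MvPolynomial.eval (fun i => MvPolynomial.eval x (f i)) (g j)) = x) ∧
          (∀ y : Fin n → ℂ, MvPolynomial.eval y p = d →
              MvPolynomial.eval (fun i => MvPolynomial.eval y (g i)) p = c ∧
              (fun j => MvPolynomial.eval (fun i => MvPolynomial.eval y (g i)) (f j)) = y)) := by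
  intro h
  obtain ⟨-, hcon, -, hiso⟩ := Pool.Agent.H9.Isotriv.main
  obtain ⟨S, hS⟩ := h 3 Pool.Agent.H9.Isotriv.pp hcon
  obtain ⟨c, hc⟩ := Infinite.exists_notMem_finset (insert (0 : ℂ) S)
  obtain ⟨d, hd⟩ := Infinite.exists_notMem_finset (insert (0 : ℂ) (insert c S))
  simp only [Finset.mem_insert, not_or] at hc hd
  obtain ⟨f, g, h1, h2⟩ := hS c d hc.2 hd.2.2
  refine hd.2.1 (hiso c d hc.1 hd.1 ⟨f, g, ?_, ?_, ?_, ?_⟩).symm
  · exact fun v hv => (h1 v hv).1
  · exact fun w hw => (h2 w hw).1
  · exact fun v hv => (h1 v hv).2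
  · exact fun w hw => (h2 w hw).2

end Pool.Agent.S0056
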