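import Pool.Statements.S0299
import Pool.Agent.H4.LF

set_option autoImplicit false
open Pool Pool.MP_21aa77_al

namespace Pool.Agent.S0299

/-- There is a prime p and a locally finite p-group G with a proper abelian subgroup A such that every element of G lies in some conjugate of A. -/
theorem result :
    ∃ (p : ℕ) (G : Type) (_ : Group G) (A : Subgroup G),
      p.Prime ∧ IsPGroup p G ∧
      (∀ s : Set G, s.Finite → Finite ↥(Subgroup.closure s)) ∧
      A ≠ ⊤ ∧
      (∀ a ∈ A, ∀ b ∈ A, a * b = b * a) ∧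
      (∀ g : G, ∃ x : G, x⁻¹ * g * x ∈ A) := by
  obtain ⟨A, h1, h2, h3⟩ := Pool.Agent.H4.LF.main
  exact ⟨2, Pool.Agent.H4.LF.G, inferInstance, A, Nat.prime_two, Pool.Agent.H4.LF.isp,
    Pool.Agent.H4.LF.fin_closure, h1, h2, h3⟩

end Pool.Agent.S0299
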