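import Pool.Statements.S0309
import Pool.Agent.H4.WZ7

set_option autoImplicit false
open Pool Pool.MP_23cc9e_al

namespace Pool.Agent.S0309

/-- For every group G satisfying all quasi-identities true in every torsion-free nilpotent group, the restricted wreath product of G by the integers also satisfies all those quasi-identities. -/
theorem result :
    ∀ (G : Type) [Group G],
      (∀ (n : ℕ) (ps : List (FreeGroup (Fin n))) (w : FreeGroup (Fin n)),
        (∀ (N : Type) [Group N], Group.IsNilpotent N →
          (∀ g : N, g ≠ 1 → ∀ k : ℕ, 0 < k → g ^ k ≠ 1) →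
          ∀ f : FreeGroup (Fin n) →* N, (∀ p ∈ ps, f p = 1) → f w = 1) →
        ∀ f : FreeGroup (Fin n) →* G, (∀ p ∈ ps, f p = 1) → f w = 1) →
      (∀ (n : ℕ) (ps : List (FreeGroup (Fin n))) (w : FreeGroup (Fin n)),
        (∀ (N : Type) [Group N], Group.IsNilpotent N →
          (∀ g : N, g ≠ 1 → ∀ k : ℕ, 0 < k → g ^ k ≠ 1) →
          ∀ f : FreeGroup (Fin n) →* N, (∀ p ∈ ps, f p = 1) → f w = 1) →
        ∀ f : FreeGroup (Fin n) →*
            ↥(Subgroup.closure
              ((Set.range (fun g : G => SemidirectProduct.inl (Pi.mulSingle (0 : ℤ) g)) ∪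
                {SemidirectProduct.inr (Multiplicative.ofAdd (1 : ℤ))} :
                Set (SemidirectProduct (ℤ → G) (Multiplicative ℤ)
                  (zpowersHom (MulAut (ℤ → G))
                    ({ toFun := fun (x : ℤ → G) (i : ℤ) => x (i + 1),
                       invFun := fun (x : ℤ → G) (i : ℤ) => x (i - 1),
                       left_inv := fun (x : ℤ → G) => funext fun (i : ℤ) => congrArg x (sub_add_cancel i 1),
                       right_inv := fun (x : ℤ → G) => funext fun (i : ℤ) => congrArg x (add_sub_cancel_right i 1),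
                       map_mul' := fun (x y : ℤ → G) => rfl } :
                      (ℤ → G) ≃* (ℤ → G))))))),
          (∀ p ∈ ps, f p = 1) → f w = 1) := by
  intro G _ hG
  have hQ : Pool.Agent.H4.WZ.InQ G := fun n ps w hq =>
    hG n ps w fun N _ hN htf => Pool.Agent.H4.WZ.QI_nil n ps w hq N hN htf
  have e : (zpowersHom (MulAut (ℤ → G))
      ({ toFun := fun (x : ℤ → G) (i : ℤ) => x (i + 1),
         invFun := fun (x : ℤ → G) (i : ℤ) => x (i - 1),
         left_inv := fun (x : ℤ → G) => funext fun (i : ℤ) => congrArg x (sub_add_cancel i 1),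
         right_inv := fun (x : ℤ → G) => funext fun (i : ℤ) => congrArg x (add_sub_cancel_right i 1),
         map_mul' := fun (x y : ℤ → G) => rfl } : (ℤ → G) ≃* (ℤ → G))) = Pool.Agent.H4.WZ.sh G := by
    apply MonoidHom.ext_mint
    rw [zpowersHom_apply, toAdd_ofAdd, zpow_one]
    ext y i
    rfl
  rw [e]
  intro n ps w hyp f hf
  have hq : Pool.Agent.H4.WZ.QI n ps w := fun N _ hU =>
    hyp N (Pool.Agent.H4.WZ.Unip_nil hU) (Pool.Agent.H4.WZ.Unip_tf hU)
  have hle : Subgroup.closure
      ((Set.range (fun g : G => SemidirectProduct.inl (Pi.mulSingle (0 : ℤ) g)) ∪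
        {SemidirectProduct.inr (Multiplicative.ofAdd (1 : ℤ))} :
        Set (SemidirectProduct (ℤ → G) (Multiplicative ℤ) (Pool.Agent.H4.WZ.sh G))))
      ≤ Pool.Agent.H4.WZ.RW G := by
    rw [Subgroup.closure_le]
    rintro x (⟨g, rfl⟩ | hx)
    · refine ⟨0, fun i hi => ?_⟩
      have hi0 : i ≠ 0 := by omega
      show (Pi.mulSingle (0 : ℤ) g : ℤ → G) i = 1
      rw [Pi.mulSingle, Function.update_of_ne hi0]; rfl
    · rw [Set.mem_singleton_iff] at hx
      rw [hx]
      exact ⟨0, fun i _ => rfl⟩
  have h1 := Pool.Agent.H4.WZ.reduction G hQ n ps w hq ((Subgroup.inclusion hle).comp f)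
    (fun p hp => by rw [MonoidHom.comp_apply, hf p hp, map_one])
  rw [MonoidHom.comp_apply] at h1
  exact (Subgroup.inclusion_injective hle) (by rw [h1, map_one])

end Pool.Agent.S0309
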