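import Pool.Statements.S0438
import Pool.Agent.H4.PairDist

set_option autoImplicit false
open Pool Pool.MP_42baf1_al

namespace Pool.Agent.S0438

/-- The negation of the preceding statement: There is a constant C such that for every primitive G ≤ Sym(n) generated by S, every partition P and distinct points a, b: if some element of G sends a, b into one part of P, then some word over S of length at most C·n does too. -/
theorem result :
    ¬ (∃ C : ℕ, ∀ (n : ℕ) (G : Subgroup (Equiv.Perm (Fin n))),
      MulAction.IsPreprimitive G (Fin n) →
      ∀ S : Set (Equiv.Perm (Fin n)), Subgroup.closure S = G →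
      ∀ P : Setoid (Fin n), ∀ a b : Fin n, a ≠ b →
        (∃ g ∈ G, P.r (g a) (g b)) →
        ∃ w : List (Equiv.Perm (Fin n)), (∀ s ∈ w, s ∈ S) ∧
          w.length ≤ C * n ∧ P.r (w.prod a) (w.prod b)) := by
  exact Pool.Agent.H4.PairDist.main

end Pool.Agent.S0438
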