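import Pool.Statements.S0619
import Pool.Agent.H4.Mon4

set_option autoImplicit false
open Pool Pool.MP_7490a7_al

namespace Pool.Agent.S0619

/-- Some finite monoid presentation has Dehn function below ε·n² eventually for every ε>0, yet not bounded by any C·(n+1), i.e. it is subquadratic but not linear. -/
theorem result :
    ∃ (k : ℕ) (R : Finset (List (Fin k) × List (Fin k)))
      (D : List (Fin k) → List (Fin k) → ℕ → Prop),
      (∀ u v m, D u v m ↔ ∃ c : ℕ → List (Fin k), c 0 = u ∧ c m = v ∧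
          ∀ i < m, ∃ x y l r : List (Fin k), ((l, r) ∈ R ∨ (r, l) ∈ R) ∧
            c i = x ++ l ++ y ∧ c (i + 1) = x ++ r ++ y) ∧
      (∀ ε : ℝ, 0 < ε → ∃ N : ℕ, ∀ n : ℕ, N ≤ n → ∀ u v : List (Fin k),
          u.length + v.length ≤ n → (∃ m, D u v m) →
            ∃ m : ℕ, (m : ℝ) ≤ ε * (n : ℝ) ^ 2 ∧ D u v m) ∧
      ¬ ∃ C : ℕ, ∀ u v : List (Fin k), (∃ m, D u v m) →
          ∃ m : ℕ, m ≤ C * (u.length + v.length + 1) ∧ D u v m := by
  refine ⟨9, H4.Mon.R, fun u v m => H4.Mon.Path m u v, fun u v m => H4.Mon.path_iff u v m, ?_, ?_⟩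
  · intro ε hε
    obtain ⟨N, hN⟩ := H4.Mon.B_small ε hε
    refine ⟨N, fun n hn u v hl hp => ?_⟩
    obtain ⟨m, hm⟩ := hp
    obtain ⟨m', h1, h2⟩ := H4.Mon.upper hm
    refine ⟨m', le_trans ?_ (hN n hn), h2⟩
    have e1 : H4.Mon.B u.length ≤ H4.Mon.B n := H4.Mon.B_mono (by omega)
    have e2 : H4.Mon.B v.length ≤ H4.Mon.B n := H4.Mon.B_mono (by omega)
    exact_mod_cast (by omega : m' ≤ 2 * H4.Mon.B n)
  · rintro ⟨C, hC⟩
    obtain ⟨u, v, h1, h2⟩ := H4.Mon.lower C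
    obtain ⟨m, hm, hp⟩ := hC u v h1
    exact absurd hm (not_le.2 (h2 m hp))

end Pool.Agent.S0619
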