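import Pool.Statements.S0710

set_option autoImplicit false
open Pool Pool.MP_8999af_al

namespace Pool.Agent.S0710

open Filter Topology

/-- the additive group of 2-adic integers -/
abbrev Z2 : Type := ℤ_[2]
abbrev Mz : Type := Multiplicative Z2

abbrev P : Type := Z2 × Fin 3

noncomputable instance : DecidableEq P := Classical.decEq _

/-- permutation group, to be given the discrete metric -/
def H : Type := Equiv.Perm P

noncomputable instance : Group H := inferInstanceAs (Group (Equiv.Perm P))
noncomputable instance : DecidableEq H := Classical.decEq _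

noncomputable instance : MetricSpace H where
  dist x y := if x = y then 0 else 1
  dist_self x := by simp
  dist_comm x y := by simp only [eq_comm]
  dist_triangle x y z := by
    by_cases h1 : x = y
    · subst h1; simp
    · by_cases h2 : y = z
      · subst h2; simp [h1]
      · simp only [if_neg h1, if_neg h2]
        split_ifs <;> norm_num
  eq_of_dist_eq_zero := by
    intro x y h
    by_contra hne
    simp [hne] at h

theorem dist_def (x y : H) : dist x y = if x = y then 0 else 1 := rfl

instance : DiscreteTopology H := by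
  rw [discreteTopology_iff_isOpen_singleton]
  intro x
  rw [Metric.isOpen_singleton_iff]
  refine ⟨1, one_pos, fun y hy => ?_⟩
  by_contra hne
  rw [dist_def, if_neg hne] at hy
  exact lt_irrefl _ hy

instance : IsTopologicalGroup H := inferInstance

instance : CompleteSpace H := by
  apply Metric.complete_of_cauchySeq_tendsto
  intro u hu
  obtain ⟨N, hN⟩ := Metric.cauchySeq_iff'.1 hu 1 one_pos
  refine ⟨u N, tendsto_atTop_of_eventually_const (i₀ := N) fun n hn => ?_⟩
  by_contra hne
  have := hN n hn
  rw [dist_def, if_neg hne] at this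
  exact lt_irrefl _ this

instance : CompleteSpace Mz := inferInstanceAs (CompleteSpace Z2)

abbrev G : Type := Mz × H

noncomputable def mkH (e : Equiv.Perm P) : H := e

noncomputable def ap (g : H) (p : P) : P := (show Equiv.Perm P from g) p

/-- translation homomorphism -/
noncomputable def φ : Mz →* H where
  toFun x := mkH ((Equiv.addLeft (Multiplicative.toAdd x)).prodCongr (Equiv.refl _))
  map_one' := by
    apply Equiv.ext
    rintro ⟨a, i⟩
    exact Prod.ext (zero_add a) rfl
  map_mul' := by
    intro x y
    apply Equiv.ext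
    rintro ⟨a, i⟩
    exact Prod.ext (add_assoc _ _ a) rfl

noncomputable def b : H := mkH (Equiv.swap (0, 0) (0, 1))
noncomputable def b' : H := mkH (Equiv.swap (0, 1) (0, 2))

theorem conj_swap (g : H) (p q : P) :
    g * mkH (Equiv.swap p q) * g⁻¹ = mkH (Equiv.swap (ap g p) (ap g q)) :=
  (Equiv.swap_apply_apply (show Equiv.Perm P from g) p q).symm

theorem comm_ne (x : Mz) (hx : x ≠ 1) :
    b' * (φ x * b * (φ x)⁻¹) * b'⁻¹ = φ x * b * (φ x)⁻¹ := by
  have hx0 : Multiplicative.toAdd x ≠ 0 := fun h => hx (Multiplicative.toAdd.injective h)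
  have h1 : φ x * b * (φ x)⁻¹ = mkH (Equiv.swap (Multiplicative.toAdd x, 0)
      (Multiplicative.toAdd x, 1)) := by
    rw [b, conj_swap]
    congr 2
    · exact Prod.ext (add_zero _) rfl
    · exact Prod.ext (add_zero _) rfl
  rw [h1, conj_swap]
  congr 2
  · apply Equiv.swap_apply_of_ne_of_ne
    · intro h; exact hx0 (congrArg Prod.fst h)
    · intro h; exact hx0 (congrArg Prod.fst h)
  · apply Equiv.swap_apply_of_ne_of_ne
    · intro h; exact hx0 (congrArg Prod.fst h)
    · intro h; exact hx0 (congrArg Prod.fst h)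

theorem c_ne : b' * b * b'⁻¹ * b⁻¹ ≠ 1 := by
  intro h
  have h1 : b' * b * b'⁻¹ = b := by
    rwa [mul_inv_eq_one] at h
  rw [b, conj_swap] at h1
  have e1 : ap b' (0, 0) = (0, 0) := by
    apply Equiv.swap_apply_of_ne_of_ne <;> simp
  have e2 : ap b' (0, 1) = (0, 2) := Equiv.swap_apply_left _ _
  rw [e1, e2] at h1
  have h2 : (Equiv.swap (0, 0) (0, 2) : Equiv.Perm P) = Equiv.swap (0, 0) (0, 1) := h1
  have h3 := congrArg (fun f : Equiv.Perm P => f (0, 0)) h2
  simp at h3

/-- conjugate of the translation homomorphism -/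
noncomputable def conjφ (g : H) : Mz →* H := (MulAut.conj g).toMonoidHom.comp φ
noncomputable def conjφinv (g : H) : Mz →* H where
  toFun x := g * (φ x)⁻¹ * g⁻¹
  map_one' := by simp
  map_mul' := by
    intro x y
    rw [mul_comm x y, map_mul, mul_inv_rev]
    group

noncomputable def toG (f : Mz →* H) : G →* G :=
  (MonoidHom.prod 1 (f.comp (MonoidHom.fst Mz H)))

noncomputable def U : Fin 4 → G →* G :=
  ![toG (conjφ b'), toG (conjφinv (b' * b)), toG (conjφ (b' * b * b'⁻¹)),
    toG (conjφinv (b' * b * b'⁻¹ * b⁻¹))]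

open Classical in
theorem prod_eq (p : G) : (List.ofFn (fun i => U i p)).prod =
    (1, if p.1 = 1 then 1 else (b' * b * b'⁻¹ * b⁻¹)⁻¹) := by
  have h0 : (List.ofFn (fun i => U i p)).prod = (1, b' * (φ p.1 * b * (φ p.1)⁻¹) * b'⁻¹ *
      (φ p.1 * b * (φ p.1)⁻¹)⁻¹ * (b' * b * b'⁻¹ * b⁻¹)⁻¹) := by
    simp only [List.ofFn_succ, List.ofFn_zero, List.prod_cons, List.prod_nil, mul_one]
    apply Prod.ext
    · simp [U, toG]
    · show (b' * φ p.1 * b'⁻¹) * (((b' * b) * (φ p.1)⁻¹ * (b' * b)⁻¹) *
        (((b' * b * b'⁻¹) * φ p.1 * (b' * b * b'⁻¹)⁻¹) *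
        ((b' * b * b'⁻¹ * b⁻¹) * (φ p.1)⁻¹ * (b' * b * b'⁻¹ * b⁻¹)⁻¹))) = _
      group
  rw [h0]
  split_ifs with h
  · rw [h, map_one]
    congr 1
    group
  · rw [comm_ne _ h]
    congr 1
    group

theorem eq_zero_of_pow_eq_zero' {k : ℕ} {x : Z2} (h : x ^ k = 0) : x = 0 :=
  pow_eq_zero_iff (n := k) (by rintro rfl; simp at h) |>.1 h

theorem isClopen_ball (r : ℝ) : IsClopen (Metric.ball (1 : Mz) r) :=
  IsUltrametricDist.isClopen_ball (X := Z2) (0 : Z2) r

/-- The negation of the preceding statement: In a complete metric non-commutative topological group G, if U1,...,Un are homomorphisms G→G and x ↦ U1(x)⋯Un(x) is of some Baire class (iterated pointwise sequential limits of continuous maps), then that map is continuous. -/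
theorem result :
    ¬ (∀ (G : Type) [Group G] [MetricSpace G] [IsTopologicalGroup G] [CompleteSpace G],
      (∃ a b : G, a * b ≠ b * a) →
      ∀ (n : ℕ) (U : Fin n → G →* G),
        (∀ S : Set (G → G),
          (∀ f : G → G, Continuous f → f ∈ S) →
          (∀ (f : ℕ → G → G) (g : G → G), (∀ k, f k ∈ S) →
            (∀ x, Filter.Tendsto (fun k => f k x) Filter.atTop (nhds (g x))) → g ∈ S) →
          (fun x => (List.ofFn (fun i => U i x)).prod) ∈ S) →
        Continuous (fun x => (List.ofFn (fun i => U i x)).prod)) := by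
  classical
  intro hall
  let c : H := (b' * b * b'⁻¹ * b⁻¹)⁻¹
  have hc : c ≠ 1 := fun h => c_ne (inv_eq_one.1 h)
  have hcont := hall G ⟨(1, b'), (1, b), by
    intro h
    have h1 : b' * b = b * b' := congrArg Prod.snd h
    apply c_ne
    rw [h1]; group⟩ 4 U (by
    intro S hS1 hS2
    have hF : (fun x => (List.ofFn (fun i => U i x)).prod) =
        fun p : G => ((1 : Mz), if p.1 = 1 then (1 : H) else c) := funext fun p => prod_eq p
    rw [hF]
    refine hS2 (fun k p => ((1 : Mz), if p.1 ∈ Metric.ball (1 : Mz) (1 / ((k : ℝ) + 1))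
      then (1 : H) else c)) _ ?_ ?_
    · intro k
      apply hS1
      refine continuous_const.prodMk ?_
      have h1 : Continuous (Set.piecewise (Metric.ball (1 : Mz) (1 / ((k : ℝ) + 1)))
          (fun _ => (1 : H)) (fun _ => c)) := by
        apply Continuous.piecewise
        · intro a ha
          rw [(isClopen_ball _).frontier_eq] at ha
          exact absurd ha (Set.notMem_empty a)
        · exact continuous_const
        · exact continuous_const
      exact h1.comp continuous_fst
    · intro p
      refine tendsto_const_nhds.prodMk_nhds ?_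
      by_cases hp : p.1 = 1
      · have : (fun k : ℕ => if p.1 ∈ Metric.ball (1 : Mz) (1 / ((k : ℝ) + 1)) then (1 : H) else c)
            = fun _ => 1 := by
          funext k
          rw [hp, if_pos (Metric.mem_ball_self (by positivity))]
        rw [this, if_pos hp]
        exact tendsto_const_nhds
      · rw [if_neg hp]
        have hd : 0 < dist p.1 1 := dist_pos.2 hp
        obtain ⟨N, hN⟩ := exists_nat_one_div_lt hd
        refine tendsto_atTop_of_eventually_const (i₀ := N) fun k hk => ?_
        rw [if_neg]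
        rw [Metric.mem_ball, not_lt]
        refine le_trans ?_ hN.le
        apply one_div_le_one_div_of_le
        · positivity
        · have : (N : ℝ) ≤ k := by exact_mod_cast hk
          linarith)
  have hF : (fun x => (List.ofFn (fun i => U i x)).prod) =
      fun p : G => ((1 : Mz), if p.1 = 1 then (1 : H) else c) := funext fun p => prod_eq p
  rw [hF] at hcont
  -- sequence 2^k → 0
  have hseq : Tendsto (fun k : ℕ => ((2 : Z2) ^ k)) atTop (𝓝 0) := by
    apply tendsto_pow_atTop_nhds_zero_of_norm_lt_one
    exact PadicInt.norm_lt_one_iff_dvd _ |>.2 (dvd_refl _)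
  have hseq' : Tendsto (fun k : ℕ => ((Multiplicative.ofAdd ((2 : Z2) ^ k), 1) : G)) atTop
      (𝓝 (1 : G)) := by
    refine Tendsto.prodMk_nhds ?_ tendsto_const_nhds
    exact hseq
  have h1 := (hcont.tendsto (1 : G)).comp hseq'
  have h2 : Tendsto (fun k : ℕ => if Multiplicative.ofAdd ((2 : Z2) ^ k) = 1 then (1 : H) else c)
      atTop (𝓝 1) := by
    have h3 := (continuous_snd.tendsto _).comp h1
    simp only [Prod.fst_one, if_true] at h3
    exact h3
  rw [nhds_discrete, tendsto_pure] at h2
  obtain ⟨k, hk⟩ := h2.exists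
  have h3 : Multiplicative.ofAdd ((2 : Z2) ^ k) ≠ 1 := by
    intro h
    have h4 : (2 : Z2) ^ k = 0 := h
    exact two_ne_zero (eq_zero_of_pow_eq_zero' h4)
  rw [if_neg h3] at hk
  exact hc hk

end Pool.Agent.S0710
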