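import Pool.Statements.S0816

set_option autoImplicit false
open Pool Pool.MP_a19302_al

namespace Pool.Agent.S0816

open Finsupp Pointwise

abbrev k : Type := ℚ
abbrev V : Type := (ℕ × ℕ) →₀ k

/-- letter of the `m`-th word at position `i`: `true` for `y`. -/
def letter (m i : ℕ) : Bool := decide ((m + 1) ∣ i)

noncomputable def e (m i : ℕ) : V := single (m, i) 1

/-- the operators -/
noncomputable def T (b : Bool) : V →ₗ[k] V :=
  Finsupp.lift V k (ℕ × ℕ) (fun p => if p.2 ≤ p.1 * (p.1 + 1) ∧ letter p.1 p.2 = b
    then e p.1 (p.2 + 1) else 0)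

theorem T_e (b : Bool) (m i : ℕ) :
    T b (e m i) = if i ≤ m * (m + 1) ∧ letter m i = b then e m (i + 1) else 0 := by
  simp [T, e]

noncomputable abbrev A : Subalgebra k (Module.End k V) := Algebra.adjoin k (Set.range T)

noncomputable def TA (b : Bool) : A := ⟨T b, Algebra.subset_adjoin ⟨b, rfl⟩⟩

/-- words -/
noncomputable def op (L : List Bool) : A := (L.map TA).prod

theorem op_cons (b : Bool) (L : List Bool) : op (b :: L) = TA b * op L := by
  simp [op]

theorem op_nil : op [] = 1 := rfl

def seg (m i : ℕ) : ℕ → List Bool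
  | 0 => []
  | l + 1 => letter m (i + l) :: seg m i l

theorem seg_length (m i l : ℕ) : (seg m i l).length = l := by
  induction l with
  | zero => rfl
  | succ l ih => simp [seg, ih]

theorem seg_congr {m i m' i' : ℕ} (l : ℕ) (h : ∀ j < l, letter m (i + j) = letter m' (i' + j)) :
    seg m i l = seg m' i' l := by
  induction l with
  | zero => rfl
  | succ l ih =>
    rw [seg, seg, h l (Nat.lt_succ_self l), ih fun j hj => h j (Nat.lt_succ_of_lt hj)]

theorem op_e (L : List Bool) (m i : ℕ) :
    (op L : Module.End k V) (e m i) = 0 ∨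
      (L = seg m i L.length ∧ (i + L.length ≤ m * (m + 1) + 1 ∨ L = []) ∧
        (op L : Module.End k V) (e m i) = e m (i + L.length)) := by
  induction L with
  | nil => right; exact ⟨rfl, Or.inr rfl, rfl⟩
  | cons b L ih =>
    have h1 : (op (b :: L) : Module.End k V) (e m i) = T b ((op L : Module.End k V) (e m i)) := by
      rw [op_cons]; rfl
    rcases ih with h | ⟨h2, h3, h4⟩
    · left; rw [h1, h, map_zero]
    · rw [h1, h4, T_e]
      split_ifs with hc
      · right
        refine ⟨?_, Or.inl ?_, rfl⟩
        · rw [List.length_cons, seg, ← hc.2, ← h2]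
        · rw [List.length_cons]; omega
      · left; rfl

theorem end_ext {a : Module.End k V} (h : ∀ m i, a (e m i) = 0) : a = 0 := by
  apply Finsupp.lhom_ext'
  rintro ⟨m, i⟩
  apply LinearMap.ext_ring
  exact h m i

theorem op_ne_zero {L : List Bool} (h : op L ≠ 0) :
    ∃ m i, L = seg m i L.length ∧ (i + L.length ≤ m * (m + 1) + 1 ∨ L = []) := by
  by_contra hcon
  push Not at hcon
  apply h
  apply Subtype.ext
  apply end_ext
  intro m i
  rcases op_e L m i with h1 | ⟨h2, h3, -⟩
  · exact h1
  · exact absurd h3 (by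
      intro h3
      rcases h3 with h3 | h3
      · have := (hcon m i h2).1; omega
      · exact (hcon m i h2).2 h3)

/-- reduction to bounded parameters -/
theorem op_bounded {L : List Bool} (h : op L ≠ 0) :
    ∃ m i, m < L.length + 3 ∧ i < (L.length + 3) ^ 2 ∧ L = seg m i L.length := by
  obtain ⟨m, i, h1, h2⟩ := op_ne_zero h
  set l := L.length with hl
  rcases h2 with h2 | h2
  swap
  · have : l = 0 := by rw [hl, h2]; rfl
    refine ⟨0, 0, by omega, by positivity, ?_⟩
    rw [this, h2]; rfl
  rcases Nat.lt_or_ge m (l + 3) with hm | hm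
  · refine ⟨m, i, hm, ?_, h1⟩
    have h3 : m * (m + 1) ≤ (l + 2) * (l + 3) := Nat.mul_le_mul (by omega) (by omega)
    nlinarith
  · by_cases hex : ∃ j < l, (m + 1) ∣ (i + j)
    · obtain ⟨j0, hj0, hd⟩ := hex
      refine ⟨l + 2, l + 3 - j0, by omega, ?_, ?_⟩
      · have : l + 3 - j0 ≤ l + 3 := Nat.sub_le _ _
        nlinarith
      · rw [h1]
        apply seg_congr
        intro j hj
        unfold letter
        rw [decide_eq_decide]
        constructor
        · intro hd'
          have : j = j0 := by
            rcases lt_trichotomy j j0 with hlt | heq | hgt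
            · have := (Nat.dvd_sub hd hd')
              rw [show i + j0 - (i + j) = j0 - j by omega] at this
              have := Nat.le_of_dvd (by omega) this
              omega
            · exact heq
            · have := (Nat.dvd_sub hd' hd)
              rw [show i + j - (i + j0) = j - j0 by omega] at this
              have := Nat.le_of_dvd (by omega) this
              omega
          subst this
          rw [show l + 3 - j + j = l + 2 + 1 by omega]
        · intro hd'
          have : j = j0 := by
            have h0 : (l + 2 + 1) ∣ (l + 3 - j0 + j0) := by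
              rw [show l + 3 - j0 + j0 = l + 2 + 1 by omega]
            rcases lt_trichotomy j j0 with hlt | heq | hgt
            · have := (Nat.dvd_sub h0 hd')
              rw [show l + 3 - j0 + j0 - (l + 3 - j0 + j) = j0 - j by omega] at this
              have := Nat.le_of_dvd (by omega) this
              omega
            · exact heq
            · have := (Nat.dvd_sub hd' h0)
              rw [show l + 3 - j0 + j - (l + 3 - j0 + j0) = j - j0 by omega] at this
              have := Nat.le_of_dvd (by omega) this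
              omega
          subst this
          exact hd
    · push Not at hex
      refine ⟨l + 2, 1, by omega, by nlinarith, ?_⟩
      rw [h1]
      apply seg_congr
      intro j hj
      unfold letter
      rw [decide_eq_decide]
      constructor
      · intro hd; exact absurd hd (hex j hj)
      · intro hd
        have := Nat.le_of_dvd (by omega) hd
        omega

noncomputable instance instDecA : DecidableEq A := Classical.decEq _

/-- the filtered pieces -/
noncomputable def S (n : ℕ) : Finset A :=
  ((Finset.range (n + 3) ×ˢ Finset.range ((n + 3) ^ 2)) ×ˢ Finset.range (n + 1)).image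
    (fun p => op (seg p.1.1 p.1.2 p.2))

theorem S_card (n : ℕ) : (S n).card ≤ 27 * (n + 1) ^ 4 := by
  refine Finset.card_image_le.trans ?_
  rw [Finset.card_product, Finset.card_product, Finset.card_range, Finset.card_range,
    Finset.card_range]
  have h : n + 3 ≤ 3 * (n + 1) := by omega
  calc (n + 3) * (n + 3) ^ 2 * (n + 1) = (n + 3) ^ 3 * (n + 1) := by ring
    _ ≤ (3 * (n + 1)) ^ 3 * (n + 1) := Nat.mul_le_mul_right _ (Nat.pow_le_pow_left h 3)
    _ = 27 * (n + 1) ^ 4 := by ring

noncomputable def Vg : Submodule k A := Submodule.span k {1, TA true, TA false}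

theorem pow_words (n : ℕ) : ∀ a ∈ ({1, TA true, TA false} : Set A) ^ n,
    ∃ L : List Bool, L.length ≤ n ∧ a = op L := by
  induction n with
  | zero =>
    intro a ha
    rw [pow_zero, Set.mem_one] at ha
    exact ⟨[], le_rfl, ha⟩
  | succ n ih =>
    intro a ha
    rw [pow_succ'] at ha
    obtain ⟨b, hb, c, hc, rfl⟩ := Set.mem_mul.1 ha
    obtain ⟨L, hL, rfl⟩ := ih c hc
    rcases hb with rfl | rfl | rfl
    · exact ⟨L, by omega, one_mul _⟩
    · exact ⟨true :: L, by simpa using hL, by rw [op_cons]⟩
    · exact ⟨false :: L, by simpa using hL, by rw [op_cons]⟩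

theorem Vg_pow (n : ℕ) : Vg ^ n ≤ Submodule.span k (S n : Set A) := by
  rw [Vg, Submodule.span_pow, Submodule.span_le]
  intro a ha
  obtain ⟨L, hL, rfl⟩ := pow_words n a ha
  by_cases h0 : op L = 0
  · rw [h0]; exact zero_mem _
  · obtain ⟨m, i, hm, hi, hLs⟩ := op_bounded h0
    apply Submodule.subset_span
    rw [Finset.mem_coe, S, Finset.mem_image]
    refine ⟨((m, i), L.length), ?_, ?_⟩
    · simp only [Finset.mem_product, Finset.mem_range]
      refine ⟨⟨by omega, lt_of_lt_of_le hi (Nat.pow_le_pow_left (by omega) 2)⟩, by omega⟩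
    · rw [← hLs]

theorem finrank_le (n : ℕ) : Module.finrank k ↥(Vg ^ n) ≤ 27 * (n + 1) ^ 4 := by
  have := FiniteDimensional.span_finset k (S n)
  calc Module.finrank k ↥(Vg ^ n) ≤ Module.finrank k ↥(Submodule.span k (S n : Set A)) :=
        Submodule.finrank_mono (Vg_pow n)
    _ ≤ (S n).card := finrank_span_finset_le_card _
    _ ≤ _ := S_card n

/-! ### ideals -/

def Good (a : Module.End k V) : Prop :=
  ∀ m i, a (e m i) ∈ supported k k {p : ℕ × ℕ | p.1 = m ∧ i ≤ p.2 ∧ p.2 ≤ max i (m * (m + 1) + 1)}

def Q (n d : ℕ) (a : Module.End k V) : Prop :=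
  ∀ m i, a (e m i) ∈ supported k k
    {p : ℕ × ℕ | p.1 = m ∧ m = n ∧ i + d ≤ p.2 ∧ p.2 ≤ n * (n + 1) + 1}

/-- a linear map sending basis vectors of `s` into a submodule sends `supported s` into it. -/
theorem map_supported {a : Module.End k V} {s : Set (ℕ × ℕ)} {W : Submodule k V}
    (h : ∀ p ∈ s, a (e p.1 p.2) ∈ W) {v : V} (hv : v ∈ supported k k s) : a v ∈ W := by
  rw [supported_eq_span_single] at hv
  have : Submodule.span k ((fun i => single i (1 : k)) '' s) ≤ W.comap a := by
    rw [Submodule.span_le]
    rintro _ ⟨p, hp, rfl⟩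
    exact h p hp
  exact this hv

theorem e_mem {m i : ℕ} {s : Set (ℕ × ℕ)} (h : (m, i) ∈ s) : e m i ∈ supported k k s :=
  single_mem_supported k 1 h

theorem Good_T (b : Bool) : Good (T b) := by
  intro m i
  rw [T_e]
  split_ifs with h
  · apply e_mem
    refine ⟨rfl, ?_, ?_⟩ <;> simp only [] <;> omega
  · exact zero_mem _

theorem Good_mul {a b : Module.End k V} (ha : Good a) (hb : Good b) : Good (a * b) := by
  intro m i
  show a (b (e m i)) ∈ _
  refine map_supported ?_ (hb m i)
  rintro ⟨p, q⟩ ⟨h1, h2, h3⟩
  refine supported_mono ?_ (ha p q)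
  rintro ⟨r, s⟩ ⟨h4, h5, h6⟩
  simp only at *
  subst h1 h4
  refine ⟨rfl, ?_, ?_⟩ <;> simp only [] <;> omega

theorem Good_A (a : A) : Good (a : Module.End k V) := by
  obtain ⟨a, ha⟩ := a
  show Good a
  induction ha using Algebra.adjoin_induction with
  | mem x hx => obtain ⟨b, rfl⟩ := hx; exact Good_T b
  | algebraMap r =>
    intro m i
    rw [Module.algebraMap_end_apply]
    exact Submodule.smul_mem _ _ (e_mem ⟨rfl, le_rfl, le_max_left _ _⟩)
  | add x y _ _ hx hy => intro m i; exact add_mem (hx m i) (hy m i)
  | mul x y _ _ hx hy => exact Good_mul hx hy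

theorem Q_left {n d : ℕ} {a b : Module.End k V} (ha : Good a) (hb : Q n d b) : Q n d (a * b) := by
  intro m i
  show a (b (e m i)) ∈ _
  refine map_supported ?_ (hb m i)
  rintro ⟨p, q⟩ ⟨h1, h2, h3, h4⟩
  refine supported_mono ?_ (ha p q)
  rintro ⟨r, s⟩ ⟨h5, h6, h7⟩
  simp only at *
  subst h1 h5 h2
  refine ⟨rfl, rfl, ?_, ?_⟩ <;> simp only [] <;> omega

theorem Q_right {n d : ℕ} {a b : Module.End k V} (ha : Q n d a) (hb : Good b) :
    Q n d (a * b) := by
  intro m i
  show a (b (e m i)) ∈ _
  refine map_supported ?_ (hb m i)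
  rintro ⟨p, q⟩ ⟨h1, h2, h3⟩
  refine supported_mono ?_ (ha p q)
  rintro ⟨r, s⟩ ⟨h4, h5, h6, h7⟩
  simp only at *
  subst h1 h4 h5
  refine ⟨rfl, rfl, ?_, ?_⟩ <;> simp only [] <;> omega

theorem Q_mul {n d d' : ℕ} {a b : Module.End k V} (ha : Q n d a) (hb : Q n d' b) :
    Q n (d + d') (a * b) := by
  intro m i
  show a (b (e m i)) ∈ _
  refine map_supported ?_ (hb m i)
  rintro ⟨p, q⟩ ⟨h1, h2, h3, h4⟩
  refine supported_mono ?_ (ha p q)
  rintro ⟨r, s⟩ ⟨h5, h6, h7, h8⟩
  simp only at *
  subst h1 h5 h2
  refine ⟨rfl, rfl, ?_, ?_⟩ <;> simp only [] <;> omega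

theorem Q_zero {n d : ℕ} (hd : n * (n + 1) + 2 ≤ d) {a : Module.End k V} (ha : Q n d a) :
    a = 0 := by
  apply end_ext
  intro m i
  have h := ha m i
  have : {p : ℕ × ℕ | p.1 = m ∧ m = n ∧ i + d ≤ p.2 ∧ p.2 ≤ n * (n + 1) + 1} = ∅ := by
    ext p
    simp only [Set.mem_setOf_eq, Set.mem_empty_iff_false, iff_false]
    omega
  rw [this, supported_empty] at h
  exact h

def JS (n : ℕ) : Set A := {a : A | Q n 1 (a : Module.End k V)}

theorem JS_zero (n : ℕ) : (0 : A) ∈ JS n := fun _ _ => zero_mem _
theorem JS_add (n : ℕ) {x y : A} (hx : x ∈ JS n) (hy : y ∈ JS n) : x + y ∈ JS n :=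
  fun m i => add_mem (hx m i) (hy m i)
theorem JS_neg (n : ℕ) {x : A} (hx : x ∈ JS n) : -x ∈ JS n := fun m i => neg_mem (hx m i)
theorem JS_left (n : ℕ) {x y : A} (hy : y ∈ JS n) : x * y ∈ JS n := Q_left (Good_A x) hy
theorem JS_right (n : ℕ) {x y : A} (hx : x ∈ JS n) : x * y ∈ JS n := Q_right hx (Good_A y)

/-- nilpotent ideals -/
noncomputable def J (n : ℕ) : TwoSidedIdeal A :=
  TwoSidedIdeal.mk' (JS n) (JS_zero n) (JS_add n) (JS_neg n) (JS_left n) (JS_right n)

theorem mem_J {n : ℕ} {a : A} : a ∈ J n ↔ Q n 1 (a : Module.End k V) := by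
  rw [J, TwoSidedIdeal.mem_mk']; rfl

theorem J_prod {n : ℕ} (l : List A) (hl : l ≠ []) (h : ∀ a ∈ l, a ∈ J n) :
    Q n l.length (l.prod : Module.End k V) := by
  induction l with
  | nil => exact absurd rfl hl
  | cons a l ih =>
    by_cases hl' : l = []
    · subst hl'
      have := mem_J.1 (h a (by simp))
      simpa using this
    · have h1 := ih hl' fun b hb => h b (by simp [hb])
      have h2 := mem_J.1 (h a (by simp))
      rw [List.prod_cons, List.length_cons, add_comm]
      exact Q_mul h2 h1

theorem Xpow_e (j m i : ℕ) : ((T false) ^ j) (e m i) = 0 ∨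
    ((∀ t < j, ¬ (m + 1) ∣ (i + t)) ∧ ((T false) ^ j) (e m i) = e m (i + j)) := by
  induction j with
  | zero => right; exact ⟨fun t ht => absurd ht (Nat.not_lt_zero t), rfl⟩
  | succ j ih =>
    rw [pow_succ']
    rcases ih with h | ⟨h1, h2⟩
    · left; rw [Module.End.mul_apply, h, map_zero]
    · rw [Module.End.mul_apply, h2, T_e]
      split_ifs with hc
      · right
        refine ⟨fun t ht => ?_, rfl⟩
        rcases Nat.lt_succ_iff_lt_or_eq.1 ht with h | rfl
        · exact h1 t h
        · have := hc.2
          unfold letter at this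
          simpa using this
      · left; rfl

theorem Xpow_e' (j m i : ℕ) (h : ∀ t < j, ¬ (m + 1) ∣ (i + t)) (hb : i + j ≤ m * (m + 1) + 1) :
    ((T false) ^ j) (e m i) = e m (i + j) := by
  induction j with
  | zero => rfl
  | succ j ih =>
    rw [pow_succ', Module.End.mul_apply, ih (fun t ht => h t (by omega)) (by omega), T_e, if_pos]
    · rfl
    · refine ⟨by omega, ?_⟩
      unfold letter
      simpa using h j (by omega)

theorem g_mem (n : ℕ) : TA true * (TA false) ^ n * TA true ∈ J n := by
  rw [mem_J]
  intro m i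
  have h1 : ((TA true * (TA false) ^ n * TA true : A) : Module.End k V) (e m i) =
      T true (((T false) ^ n) (T true (e m i))) := rfl
  rw [h1, T_e]
  split_ifs with hc
  · rcases Xpow_e n m (i + 1) with h | ⟨h2, h3⟩
    · rw [h, map_zero]; exact zero_mem _
    · rw [h3, T_e]
      split_ifs with hc2
      · apply e_mem
        have hd : (m + 1) ∣ i := by
          have := hc.2
          unfold letter at this
          simpa using this
        have hd2 : (m + 1) ∣ (i + 1 + n) := by
          have := hc2.2
          unfold letter at this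
          simpa using this
        have hd3 : (m + 1) ∣ (n + 1) := by
          have := Nat.dvd_sub hd2 hd
          rwa [show i + 1 + n - i = n + 1 by omega] at this
        have hle : m + 1 ≤ n + 1 := Nat.le_of_dvd (by omega) hd3
        have hmn : m = n := by
          by_contra hne
          have hlt : m < n := by omega
          apply h2 m hlt
          have := Nat.dvd_add hd (dvd_refl (m + 1))
          rwa [show i + (m + 1) = i + 1 + m by omega] at this
        subst hmn
        refine ⟨rfl, rfl, ?_, ?_⟩
        · simp only []; omega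
        · simp only []; omega
      · exact zero_mem _
  · rw [map_zero, map_zero]; exact zero_mem _

theorem block (n j : ℕ) (hj : j < n) :
    (T true * (T false) ^ n) (e n (1 + j * (n + 1))) = e n (1 + (j + 1) * (n + 1)) := by
  have hle : (j + 1) * (n + 1) ≤ n * (n + 1) := Nat.mul_le_mul_right _ (by omega)
  have hexp : (j + 1) * (n + 1) = j * (n + 1) + n + 1 := by ring
  rw [Module.End.mul_apply, Xpow_e', T_e, if_pos]
  · congr 1; omega
  · refine ⟨by omega, ?_⟩
    unfold letter
    simp only [decide_eq_true_eq]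
    rw [show 1 + j * (n + 1) + n = (j + 1) * (n + 1) by omega]
    exact dvd_mul_left _ _
  · intro t ht hd
    have h1 : (n + 1) ∣ j * (n + 1) := dvd_mul_left _ _
    have := Nat.dvd_sub hd h1
    rw [show 1 + j * (n + 1) + t - j * (n + 1) = t + 1 by omega] at this
    have := Nat.le_of_dvd (by omega) this
    omega
  · omega

theorem blocks (n j : ℕ) (hj : j ≤ n) :
    ((T true * (T false) ^ n) ^ j) (e n 1) = e n (1 + j * (n + 1)) := by
  induction j with
  | zero => simp
  | succ j ih =>
    rw [pow_succ', Module.End.mul_apply, ih (by omega), block n j (by omega)]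

/-- The negation of the preceding statement: Every finitely generated associative algebra over a field with polynomially bounded growth (finite GK dimension) has a nilpotent two-sided ideal containing every nilpotent two-sided ideal. -/
theorem result :
    ¬ (∀ (k : Type) [Field k] (A : Type) [Ring A] [Algebra k A],
      Algebra.FiniteType k A →
      (∃ V : Submodule k A, FiniteDimensional k V ∧ (1 : A) ∈ V ∧
          Algebra.adjoin k (V : Set A) = ⊤ ∧
          ∃ C d : ℕ, ∀ n : ℕ, Module.finrank k ↥(V ^ n) ≤ C * (n + 1) ^ d) →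
      ∃ N : TwoSidedIdeal A,
        (∃ m : ℕ, ∀ f : Fin m → A, (∀ i, f i ∈ N) → (List.ofFn f).prod = 0) ∧
        ∀ I : TwoSidedIdeal A,
          (∃ m : ℕ, ∀ f : Fin m → A, (∀ i, f i ∈ I) → (List.ofFn f).prod = 0) → I ≤ N) := by
  intro hall
  have hgen : Algebra.adjoin k (Vg : Set A) = ⊤ := by
    rw [eq_top_iff]
    have h1 : Algebra.adjoin k (((↑) : A → Module.End k V) ⁻¹' (Set.range T)) = ⊤ :=
      Algebra.adjoin_adjoin_coe_preimage
    rw [← h1]
    apply Algebra.adjoin_mono
    rintro a ⟨b, hb⟩
    have : a = TA b := Subtype.ext hb.symm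
    rw [this]
    apply Submodule.subset_span
    cases b <;> simp
  have hfin : Module.Finite k Vg := by
    exact FiniteDimensional.span_of_finite k
      (Set.toFinite ({1, TA true, TA false} : Set A))
  obtain ⟨N, ⟨m, hm⟩, hN⟩ := hall k A (by
    rw [← Subalgebra.fg_iff_finiteType]
    exact Subalgebra.fg_def.2 ⟨Set.range T, Set.finite_range T, rfl⟩)
    ⟨Vg, hfin, Submodule.subset_span (by simp), hgen, 27, 4, finrank_le⟩
  let n := 2 * m
  have hJ : J n ≤ N := hN (J n) ⟨n * (n + 1) + 2, fun f hf => by
    apply Subtype.ext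
    have := J_prod (n := n) (List.ofFn f) (by simp) (by
      intro a ha
      obtain ⟨i, rfl⟩ := (List.mem_ofFn' _ _).1 ha
      exact hf i)
    rw [List.length_ofFn] at this
    exact Q_zero le_rfl this⟩
  have hg := hJ (g_mem n)
  have hc := N.mul_mem_right _ ((TA false) ^ n) hg
  have h0 := hm (fun _ => TA true * (TA false) ^ n * TA true * (TA false) ^ n) fun _ => hc
  rw [List.ofFn_const, List.prod_replicate] at h0
  have h1 : (TA true * (TA false) ^ n * TA true * (TA false) ^ n) ^ m =
      (TA true * (TA false) ^ n) ^ n := by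
    rw [show TA true * (TA false) ^ n * TA true * (TA false) ^ n =
      (TA true * (TA false) ^ n) ^ 2 by rw [pow_two]; noncomm_ring, ← pow_mul]
  rw [h1] at h0
  have h2 := congrArg (fun a : A => (a : Module.End k V) (e n 1)) h0
  have h3 : ((T true * (T false) ^ n) ^ n) (e n 1) = 0 := h2
  rw [blocks n n le_rfl] at h3
  have h4 := (single_eq_zero (a := (n, 1 + n * (n + 1))) (b := (1 : k))).1 h3
  exact one_ne_zero h4

end Pool.Agent.S0816
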