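import Pool.Statements.S0844

set_option autoImplicit false
open Pool Pool.MP_aa6e24_al

namespace Pool.Agent.S0844

open Equiv

set_option maxRecDepth 1000000 in
theorem cent5 : ∀ v : Perm (Fin 5), v * v = 1 → v ≠ 1 → Perm.sign v = 1 →
    ∀ w : Perm (Fin 5),  w * v = v * w → Perm.sign w = 1 → w * w = 1 := by
  decide

abbrev A5 : Type := alternatingGroup (Fin 5)
abbrev Gp : Type := Multiplicative (ZMod 2) × A5

theorem z_sq (z : Multiplicative (ZMod 2)) : z * z = 1 := by
  revert z; decide

def a : A5 := ⟨swap 0 1 * swap 2 3, by rw [Perm.mem_alternatingGroup]; decide⟩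
def y0 : A5 := ⟨swap 1 2 * swap 2 3, by rw [Perm.mem_alternatingGroup]; decide⟩
def z1 : Multiplicative (ZMod 2) := Multiplicative.ofAdd 1
def t : Gp := (z1, a)

theorem a_sq : a * a = 1 := by
  apply Subtype.ext; decide

theorem a_ne : a ≠ 1 := by
  intro h
  have := congrArg Subtype.val h
  revert this
  decide

theorem cent (v w : A5) (hv : v * v = 1) (hv1 : v ≠ 1) (hw : w * v = v * w) : w * w = 1 := by
  apply Subtype.ext
  refine cent5 v.1 (congrArg Subtype.val hv) (fun h => hv1 (Subtype.ext h)) v.2 w.1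
    (congrArg Subtype.val hw) w.2

theorem mem_D {d : Gp} (hd : (∃ x : Gp, d = x * t * x⁻¹) ∨
    (∃ x y : Gp, d = x * t * x⁻¹ * (y * t * y⁻¹) ∧ orderOf d = 2)) :
    d.2 * d.2 = 1 ∧ d.2 ≠ 1 := by
  rcases hd with ⟨x, rfl⟩ | ⟨x, y, hd, ho⟩
  · constructor
    · show (x.2 * a * x.2⁻¹) * (x.2 * a * x.2⁻¹) = 1
      calc (x.2 * a * x.2⁻¹) * (x.2 * a * x.2⁻¹) = x.2 * (a * a) * x.2⁻¹ := by group
        _ = 1 := by rw [a_sq]; group
    · intro h
      have h' : x.2 * a * x.2⁻¹ = 1 := h
      apply a_ne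
      calc a = x.2⁻¹ * (x.2 * a * x.2⁻¹) * x.2 := by group
        _ = 1 := by rw [h']; group
  · have h2 : d * d = 1 := by
      have := pow_orderOf_eq_one d
      rwa [ho, pow_two] at this
    constructor
    · exact congrArg Prod.snd h2
    · intro h
      have h1 : d.1 = 1 := by
        rw [hd]
        show x.1 * z1 * x.1⁻¹ * (y.1 * z1 * y.1⁻¹) = 1
        rw [mul_comm x.1, mul_comm y.1, mul_inv_cancel_right, mul_inv_cancel_right]
        exact z_sq z1
      have : d = 1 := Prod.ext h1 h
      rw [this, orderOf_one] at ho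
      norm_num at ho

theorem centralizer_pgroup {d : Gp} (hd : d.2 * d.2 = 1 ∧ d.2 ≠ 1) :
    IsPGroup 2 (Subgroup.centralizer ({d} : Set Gp)) := by
  rw [IsPGroup]
  intro g
  refine ⟨1, ?_⟩
  rw [pow_one, pow_two]
  apply Subtype.ext
  have hg := g.2
  rw [Subgroup.mem_centralizer_singleton_iff] at hg
  have h1 : (g : Gp).2 * (g : Gp).2 = 1 :=
    cent d.2 (g : Gp).2 hd.1 hd.2 (congrArg Prod.snd hg)
  exact Prod.ext (z_sq _) h1

/-- The negation of the preceding statement: For all finite groups G and t of order 2: if every element of D (conjugates of t, or order-2 products of two conjugates) misses some Sylow 2-subgroup, and for each d∈D commuting with t, t lies in every Sylow 2-subgroup of C_G(d), then every order-2 product of two conjugates of t is a conjugate of t. -/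
theorem result :
    ¬ (∀ (G : Type) [Group G] [Finite G] (t : G), orderOf t = 2 →
      (∀ d : G, ((∃ x : G, d = x * t * x⁻¹) ∨
          (∃ x y : G, d = x * t * x⁻¹ * (y * t * y⁻¹) ∧ orderOf d = 2)) →
        ∃ P : Sylow 2 G, d ∉ (P : Subgroup G)) →
      (∀ d : G, ((∃ x : G, d = x * t * x⁻¹) ∨
          (∃ x y : G, d = x * t * x⁻¹ * (y * t * y⁻¹) ∧ orderOf d = 2)) →
        d * t = t * d →
        ∀ P : Sylow 2 (Subgroup.centralizer ({d} : Set G)),
          t ∈ (P : Subgroup (Subgroup.centralizer ({d} : Set G))).map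
                (Subgroup.centralizer ({d} : Set G)).subtype) →
      ∀ x y : G, orderOf (x * t * x⁻¹ * (y * t * y⁻¹)) = 2 →
        ∃ z : G, x * t * x⁻¹ * (y * t * y⁻¹) = z * t * z⁻¹) := by
  intro hall
  have h := hall Gp t ?_ ?_ ?_ 1 (1, y0) ?_
  · obtain ⟨z, hz⟩ := h
    have h1 : (1 : Multiplicative (ZMod 2)) * z1 * 1⁻¹ * (1 * z1 * 1⁻¹) = z.1 * z1 * z.1⁻¹ :=
      congrArg Prod.fst hz
    rw [mul_comm z.1, mul_inv_cancel_right] at h1
    revert h1
    decide
  · -- order of t
    apply orderOf_eq_prime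
    · rw [pow_two]
      exact Prod.ext (z_sq _) a_sq
    · intro h
      exact a_ne (congrArg Prod.snd h)
  · -- D misses O_2
    intro d hd
    by_contra hcon
    push Not at hcon
    obtain ⟨hd1, hd2⟩ := mem_D hd
    obtain ⟨P⟩ : Nonempty (Sylow 2 Gp) := inferInstance
    have hconj : ∀ g : Gp, g * d * g⁻¹ ∈ (P : Subgroup Gp) := by
      intro g
      have h1 := hcon (g⁻¹ • P)
      rw [Sylow.coe_subgroup_smul] at h1
      have h2 := (Subgroup.mem_pointwise_smul_iff_inv_smul_mem).1 h1
      simpa [MulAut.smul_def] using h2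
    have hnc : Subgroup.normalClosure ({d} : Set Gp) ≤ (P : Subgroup Gp) := by
      rw [Subgroup.normalClosure, Subgroup.closure_le]
      intro x hx
      obtain ⟨s, hs, hsx⟩ := Group.mem_conjugatesOfSet_iff.1 hx
      rw [Set.mem_singleton_iff] at hs
      subst hs
      obtain ⟨c, rfl⟩ := isConj_iff.1 hsx
      exact hconj c
    have hp : IsPGroup 2 (Subgroup.normalClosure ({d} : Set Gp)) := P.isPGroup'.to_le hnc
    let N : Subgroup A5 := (Subgroup.normalClosure ({d} : Set Gp)).map (MonoidHom.snd _ A5)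
    have hN : N.Normal := Subgroup.normalClosure_normal.map _ (fun b => ⟨(1, b), rfl⟩)
    have hNp : IsPGroup 2 N := hp.map _
    have hdN : d.2 ∈ N := ⟨d, Subgroup.subset_normalClosure rfl, rfl⟩
    rcases hN.eq_bot_or_eq_top with h1 | h1
    · rw [h1, Subgroup.mem_bot] at hdN
      exact hd2 hdN
    · rw [h1] at hNp
      let c3 : A5 := ⟨swap 0 1 * swap 1 2, by rw [Perm.mem_alternatingGroup]; decide⟩
      obtain ⟨k, hk⟩ := hNp ⟨c3, Subgroup.mem_top _⟩
      have h3 : c3 ^ 3 = 1 := by apply Subtype.ext; decide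
      have h4 : c3 ^ 2 ^ k = 1 := congrArg Subtype.val hk
      have h5 : c3 = 1 := by
        have h6 : orderOf c3 ∣ 3 := orderOf_dvd_of_pow_eq_one h3
        have h7 : orderOf c3 ∣ 2 ^ k := orderOf_dvd_of_pow_eq_one h4
        have h8 : orderOf c3 ∣ 1 := by
          have : Nat.Coprime 3 (2 ^ k) := Nat.Coprime.pow_right k (by norm_num)
          rw [← this]
          exact Nat.dvd_gcd h6 h7
        exact orderOf_eq_one_iff.1 (Nat.dvd_one.1 h8)
      have h9 := congrArg Subtype.val h5
      revert h9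
      decide
  · intro d hd hdt P
    have hp := centralizer_pgroup (mem_D hd)
    have hP : (P : Subgroup (Subgroup.centralizer ({d} : Set Gp))) = ⊤ :=
      (P.is_maximal' (hp.to_subgroup ⊤) le_top).symm
    rw [hP]
    refine ⟨⟨t, ?_⟩, Subgroup.mem_top _, rfl⟩
    rw [Subgroup.mem_centralizer_singleton_iff]
    exact hdt.symm
  · apply orderOf_eq_prime
    · apply Prod.ext
      · rfl
      · apply Subtype.ext; decide
    · intro h
      have h1 := congrArg (fun g : Gp => (g.2 : Perm (Fin 5))) h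
      revert h1
      decide

end Pool.Agent.S0844
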