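import Pool.Statements.S0878
import Pool.Agent.H5.Sl2Chain

set_option autoImplicit false
open Pool Pool.MP_b39e30_al

namespace Pool.Agent.S0878

open Pool.Agent.H5.Ext Pool.Agent.H5.Chain Matrix

/-! ### A filtration -/

section fil

variable {R : Type} [CommRing R]

def Fil (I : Ideal R) (k : ℕ) (M : Mat R) : Prop :=
  M 0 0 ∈ I ^ ((k + 1) / 2) ∧ M 0 1 ∈ I ^ (k / 2) ∧ M 1 0 ∈ I ^ (k / 2 + 1) ∧
    M 1 1 ∈ I ^ ((k + 1) / 2)

theorem Fil.mono {I : Ideal R} {k l : ℕ} (h : k ≤ l) {M : Mat R} (hM : Fil I l M) : Fil I k M :=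
  ⟨Ideal.pow_le_pow_right (by omega) hM.1, Ideal.pow_le_pow_right (by omega) hM.2.1,
    Ideal.pow_le_pow_right (by omega) hM.2.2.1, Ideal.pow_le_pow_right (by omega) hM.2.2.2⟩

theorem Fil.add {I : Ideal R} {k : ℕ} {M N : Mat R} (hM : Fil I k M) (hN : Fil I k N) :
    Fil I k (M + N) :=
  ⟨add_mem hM.1 hN.1, add_mem hM.2.1 hN.2.1, add_mem hM.2.2.1 hN.2.2.1, add_mem hM.2.2.2 hN.2.2.2⟩

theorem Fil.neg {I : Ideal R} {k : ℕ} {M : Mat R} (hM : Fil I k M) : Fil I k (-M) :=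
  ⟨neg_mem hM.1, neg_mem hM.2.1, neg_mem hM.2.2.1, neg_mem hM.2.2.2⟩

theorem Fil.sub {I : Ideal R} {k : ℕ} {M N : Mat R} (hM : Fil I k M) (hN : Fil I k N) :
    Fil I k (M - N) := by
  rw [sub_eq_add_neg]; exact hM.add hN.neg

theorem mul_pow_mem {I : Ideal R} {a b c : ℕ} (h : c ≤ a + b) {x y : R} (hx : x ∈ I ^ a)
    (hy : y ∈ I ^ b) : x * y ∈ I ^ c :=
  Ideal.pow_le_pow_right h (by rw [pow_add]; exact Ideal.mul_mem_mul hx hy)

theorem Fil.mul {I : Ideal R} {k l : ℕ} {M N : Mat R} (hM : Fil I k M) (hN : Fil I l N) :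
    Fil I (k + l) (M * N) := by
  refine ⟨?_, ?_, ?_, ?_⟩ <;> rw [Matrix.mul_apply, Fin.sum_univ_two]
  · exact add_mem (mul_pow_mem (by omega) hM.1 hN.1) (mul_pow_mem (by omega) hM.2.1 hN.2.2.1)
  · exact add_mem (mul_pow_mem (by omega) hM.1 hN.2.1) (mul_pow_mem (by omega) hM.2.1 hN.2.2.2)
  · exact add_mem (mul_pow_mem (by omega) hM.2.2.1 hN.1) (mul_pow_mem (by omega) hM.2.2.2 hN.2.2.1)
  · exact add_mem (mul_pow_mem (by omega) hM.2.2.1 hN.2.1)
      (mul_pow_mem (by omega) hM.2.2.2 hN.2.2.2)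

theorem Fil.one (I : Ideal R) : Fil I 0 1 := by
  refine ⟨?_, ?_, ?_, ?_⟩ <;> simp

theorem fil_one_of {I : Ideal R} {M : Mat R} (h1 : M 0 0 - 1 ∈ I) (h2 : M 1 0 ∈ I)
    (h3 : M 1 1 - 1 ∈ I) : Fil I 1 (M - 1) := by
  refine ⟨?_, ?_, ?_, ?_⟩
  · simpa using h1
  · simp
  · simpa using h2
  · simpa using h3

theorem Fil.zero_of {I : Ideal R} {M : Mat R} (h : Fil I 1 (M - 1)) : Fil I 0 M := by
  have := (h.mono (Nat.zero_le 1)).add (Fil.one I)
  rwa [sub_add_cancel] at this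

theorem Fil.inv {I : Ideal R} {u : (Mat R)ˣ} (h : Fil I 1 ((u : Mat R) - 1)) :
    Fil I 1 (((u⁻¹ : (Mat R)ˣ) : Mat R) - 1) := by
  have h0 : Fil I 0 (((u⁻¹ : (Mat R)ˣ) : Mat R)) := by
    rw [Matrix.coe_units_inv, Matrix.inv_def, Matrix.adjugate_fin_two]
    have hu := h.zero_of
    refine ⟨?_, ?_, ?_, ?_⟩ <;> simp only [Matrix.smul_apply, smul_eq_mul]
    · simp
    · simp
    · apply Ideal.mul_mem_left
      simpa using hu.2.2.1
    · simp
  have h1 : ((u⁻¹ : (Mat R)ˣ) : Mat R) - 1 = -(((u⁻¹ : (Mat R)ˣ) : Mat R) * ((u : Mat R) - 1)) := by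
    rw [mul_sub, Units.inv_mul, mul_one]; abel
  rw [h1]
  have := (h0.mul h).neg
  rwa [zero_add] at this

/-- The group of units congruent to `1` at level one. -/
def D (I : Ideal R) : Subgroup (Mat R)ˣ where
  carrier := {u | Fil I 1 ((u : Mat R) - 1)}
  one_mem' := by
    show Fil I 1 (((1 : (Mat R)ˣ) : Mat R) - 1)
    rw [Units.val_one, sub_self]
    refine ⟨?_, ?_, ?_, ?_⟩ <;> simp
  mul_mem' := by
    intro a b ha hb
    show Fil I 1 (((a * b : (Mat R)ˣ) : Mat R) - 1)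
    have : ((a * b : (Mat R)ˣ) : Mat R) - 1 = (a : Mat R) * ((b : Mat R) - 1) + ((a : Mat R) - 1) := by
      rw [Units.val_mul, mul_sub, mul_one]; abel
    rw [this]
    have h1 := (Fil.zero_of ha).mul hb
    rw [zero_add] at h1
    exact h1.add ha
  inv_mem' := fun h => Fil.inv h

theorem comm_fil {I : Ideal R} {k : ℕ} (hk : 1 ≤ k) {y b : (Mat R)ˣ}
    (hy : Fil I k ((y : Mat R) - 1)) (hb : b ∈ D I) :
    Fil I (k + 1) (((y⁻¹ * b⁻¹ * y * b : (Mat R)ˣ) : Mat R) - 1) := by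
  have hy1 : y ∈ D I := hy.mono hk
  have e : ((y⁻¹ * b⁻¹ * y * b : (Mat R)ˣ) : Mat R) - 1 =
      ((y⁻¹ : (Mat R)ˣ) : Mat R) * ((b⁻¹ : (Mat R)ˣ) : Mat R) *
        (((y : Mat R) - 1) * ((b : Mat R) - 1) - ((b : Mat R) - 1) * ((y : Mat R) - 1)) := by
    have e1 : ((y : Mat R) - 1) * ((b : Mat R) - 1) - ((b : Mat R) - 1) * ((y : Mat R) - 1)
        = (y : Mat R) * b - b * y := by noncomm_ring
    rw [e1, mul_sub]
    have e2 : ((y⁻¹ : (Mat R)ˣ) : Mat R) * ((b⁻¹ : (Mat R)ˣ) : Mat R) * ((b : Mat R) * y) = 1 := by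
      rw [mul_assoc, ← mul_assoc _ (b : Mat R), Units.inv_mul, one_mul, Units.inv_mul]
    rw [e2]
    simp only [Units.val_mul, mul_assoc]
  rw [e]
  have h1 : Fil I 0 ((y⁻¹ : (Mat R)ˣ) : Mat R) := Fil.zero_of ((D I).inv_mem hy1)
  have h2 : Fil I 0 ((b⁻¹ : (Mat R)ˣ) : Mat R) := Fil.zero_of ((D I).inv_mem hb)
  have h3 := hy.mul (show Fil I 1 ((b : Mat R) - 1) from hb)
  have h4 := (show Fil I 1 ((b : Mat R) - 1) from hb).mul hy
  rw [add_comm 1 k] at h4
  have h5 := (h1.mul h2).mul (h3.sub h4)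
  rwa [zero_add, zero_add] at h5

theorem foldl_fil {I : Ideal R} (hs : List (Mat R)ˣ) : ∀ (k : ℕ) (y : (Mat R)ˣ), 1 ≤ k →
    Fil I k ((y : Mat R) - 1) → (∀ b ∈ hs, b ∈ D I) →
    Fil I (k + hs.length)
      (((hs.foldl (fun a b : (Mat R)ˣ => a⁻¹ * b⁻¹ * a * b) y : (Mat R)ˣ) : Mat R) - 1) := by
  induction hs with
  | nil => intro k y _ hy _; simpa using hy
  | cons b l ih =>
    intro k y hk hy hb
    rw [List.foldl_cons, List.length_cons]
    have := ih (k + 1) (y⁻¹ * b⁻¹ * y * b) (by omega) (comm_fil hk hy (hb b (by simp)))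
      (fun c hc => hb c (by simp [hc]))
    rwa [show k + 1 + l.length = k + (l.length + 1) by ring] at this

theorem fil_zero {I : Ideal R} {N k : ℕ} (hI : I ^ N = ⊥) (hk : 2 * N ≤ k) {M : Mat R}
    (h : Fil I k M) : M = 0 := by
  have key : ∀ a x, N ≤ a → x ∈ I ^ a → x = 0 := by
    intro a x ha hx
    have := Ideal.pow_le_pow_right ha hx
    rw [hI] at this
    simpa using this
  ext i j
  fin_cases i <;> fin_cases j
  · exact key _ _ (by omega) h.1
  · exact key _ _ (by omega) h.2.1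
  · exact key _ _ (by omega) h.2.2.1
  · exact key _ _ (by omega) h.2.2.2

end fil

/-! ### The group -/

/-- reduction modulo the augmentation ideal -/
noncomputable def rho : (Mat Lam)ˣ →* (Mat (ZMod 3))ˣ :=
  Units.map (eps.mapMatrix : Mat Lam →+* Mat (ZMod 3)).toMonoidHom

theorem rho_apply (u : (Mat Lam)ˣ) (i j : Fin 2) :
    ((rho u : (Mat (ZMod 3))ˣ) : Mat (ZMod 3)) i j = eps ((u : Mat Lam) i j) := rfl

/-- upper unitriangular matrices over the field with three elements -/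
def Ugp : Subgroup (Mat (ZMod 3))ˣ where
  carrier := {u | ∃ c : ZMod 3, (u : Mat (ZMod 3)) = !![1, c; 0, 1]}
  one_mem' := ⟨0, by
    rw [Units.val_one]
    ext i j; fin_cases i <;> fin_cases j <;> rfl⟩
  mul_mem' := by
    rintro a b ⟨c, hc⟩ ⟨d, hd⟩
    refine ⟨c + d, ?_⟩
    rw [Units.val_mul, hc, hd]
    ext i j
    fin_cases i <;> fin_cases j <;> simp [add_comm]
  inv_mem' := by
    rintro a ⟨c, hc⟩
    refine ⟨-c, ?_⟩
    have h1 : (a : Mat (ZMod 3)) * !![1, -c; 0, 1] = 1 := by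
      rw [hc]
      ext i j
      fin_cases i <;> fin_cases j <;> simp
    calc ((a⁻¹ : (Mat (ZMod 3))ˣ) : Mat (ZMod 3))
        = (a⁻¹ : (Mat (ZMod 3))ˣ) * ((a : Mat (ZMod 3)) * !![1, -c; 0, 1]) := by
          rw [h1, mul_one]
      _ = !![1, -c; 0, 1] := by rw [← mul_assoc, Units.inv_mul, one_mul]

/-- our group -/
noncomputable def G : Subgroup (Mat Lam)ˣ := Ugp.comap rho

theorem G_entries {u : (Mat Lam)ˣ} (hu : u ∈ G) :
    eps ((u : Mat Lam) 0 0) = 1 ∧ eps ((u : Mat Lam) 1 0) = 0 ∧ eps ((u : Mat Lam) 1 1) = 1 := by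
  obtain ⟨c, hc⟩ := hu
  refine ⟨?_, ?_, ?_⟩ <;> rw [← rho_apply, hc] <;> rfl

theorem mem_G {u : (Mat Lam)ˣ} (h1 : eps ((u : Mat Lam) 0 0) = 1)
    (h2 : eps ((u : Mat Lam) 1 0) = 0) (h3 : eps ((u : Mat Lam) 1 1) = 1) : u ∈ G := by
  refine ⟨eps ((u : Mat Lam) 0 1), ?_⟩
  ext i j
  rw [rho_apply]
  fin_cases i <;> fin_cases j
  · exact h1
  · rfl
  · exact h2
  · exact h3

/-- Local nilpotency. -/
theorem G_locnil (F : Set G) (hF : F.Finite) : ∃ n : ℕ, ∀ h0 : G, h0 ∈ Subgroup.closure F →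
    ∀ hs : List G, hs.length = n → (∀ b : G, b ∈ hs → b ∈ Subgroup.closure F) →
      hs.foldl (fun a b : G => a⁻¹ * b⁻¹ * a * b) h0 = 1 := by
  classical
  let f : G → Set Lam := fun u =>
    {((u : (Mat Lam)ˣ) : Mat Lam) 0 0 - 1, ((u : (Mat Lam)ˣ) : Mat Lam) 1 0,
      ((u : (Mat Lam)ˣ) : Mat Lam) 1 1 - 1}
  let T : Set Lam := ⋃ u ∈ F, f u
  have hT : T.Finite := hF.biUnion fun u _ => by
    show ({_, _, _} : Set Lam).Finite
    exact Set.toFinite _
  let I : Ideal Lam := Ideal.span T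
  have hIfg : I.FG := ⟨hT.toFinset, by rw [Set.Finite.coe_toFinset]⟩
  have hInil : IsNilpotent I := by
    rw [hIfg.isNilpotent_iff_le_nilradical, Ideal.span_le]
    intro x hx
    simp only [T, Set.mem_iUnion] at hx
    obtain ⟨u, hu, hx⟩ := hx
    obtain ⟨e1, e2, e3⟩ := G_entries u.2
    have : eps x = 0 := by
      rcases hx with rfl | rfl | rfl
      · rw [map_sub, e1, map_one, sub_self]
      · exact e2
      · rw [map_sub, e3, map_one, sub_self]
    exact (mem_nilradical).2 ⟨3, nilp this⟩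
  obtain ⟨N, hN⟩ := hInil
  have hcl : ∀ b : G, b ∈ Subgroup.closure F → (b : (Mat Lam)ˣ) ∈ D I := by
    intro b hb
    have : Subgroup.closure F ≤ (D I).comap G.subtype := by
      rw [Subgroup.closure_le]
      intro u hu
      have hsub : f u ⊆ T := Set.subset_biUnion_of_mem (u := f) hu
      exact fil_one_of (Ideal.subset_span (hsub (by simp [f])))
        (Ideal.subset_span (hsub (by simp [f]))) (Ideal.subset_span (hsub (by simp [f])))
    exact this hb
  refine ⟨2 * N, fun h0 hh0 hs hlen hhs => ?_⟩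
  have key : ∀ (l : List G) (a : G),
      ((l.foldl (fun a b : G => a⁻¹ * b⁻¹ * a * b) a : G) : (Mat Lam)ˣ) =
      (l.map (fun g : G => (g : (Mat Lam)ˣ))).foldl
        (fun a b : (Mat Lam)ˣ => a⁻¹ * b⁻¹ * a * b) (a : (Mat Lam)ˣ) := by
    intro l
    induction l with
    | nil => intro a; rfl
    | cons b l ih =>
      intro a
      rw [List.foldl_cons, ih, List.map_cons, List.foldl_cons]
      rfl
  apply Subtype.ext
  apply Units.ext
  rw [key]
  have h1 := foldl_fil (I := I) (hs.map (fun g : G => (g : (Mat Lam)ˣ))) 1 (h0 : (Mat Lam)ˣ) le_rfl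
    (hcl h0 hh0) (by
      intro b hb
      obtain ⟨g, hg, rfl⟩ := List.mem_map.1 hb
      exact hcl g (hhs g hg))
  have h2 := fil_zero (N := N) hN (by rw [List.length_map, hlen]; omega) h1
  exact sub_eq_zero.1 h2

/-- The bad element. -/
noncomputable def x0u : (Mat Lam)ˣ where
  val := !![1, 1; 0, 1]
  inv := !![1, -1; 0, 1]
  val_inv := by
    ext i j
    fin_cases i <;> fin_cases j <;> simp
  inv_val := by
    ext i j
    fin_cases i <;> fin_cases j <;> simp

theorem x0_mem : x0u ∈ G := by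
  apply mem_G <;> simp [x0u]

noncomputable def x0 : G := ⟨x0u, x0_mem⟩

theorem x0_mem_D (I : Ideal Lam) : x0u ∈ D I := by
  apply fil_one_of <;> simp [x0u]

theorem engel (g : G) : (fun y : G => y⁻¹ * x0⁻¹ * y * x0)^[6] g = 1 := by
  let u : (Mat Lam)ˣ := g
  let r : Lam := (u : Mat Lam) 1 0
  let I : Ideal Lam := Ideal.span {r}
  have hr : eps r = 0 := (G_entries g.2).2.1
  have hI : I ^ 3 = ⊥ := by
    rw [Ideal.span_singleton_pow, nilp hr, Ideal.span_singleton_eq_bot]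
  have hrI : r ∈ I := Ideal.mem_span_singleton_self r
  have h1 : u⁻¹ * x0u⁻¹ * u ∈ D I := by
    show Fil I 1 (((u⁻¹ * x0u⁻¹ * u : (Mat Lam)ˣ) : Mat Lam) - 1)
    have hv : ((u⁻¹ : (Mat Lam)ˣ) : Mat Lam) * (u : Mat Lam) = 1 := Units.inv_mul u
    have hv' : (u : Mat Lam) * ((u⁻¹ : (Mat Lam)ˣ) : Mat Lam) = 1 := Units.mul_inv u
    have e1 : ((u⁻¹ * x0u⁻¹ * u : (Mat Lam)ˣ) : Mat Lam) - 1 =
        ((u⁻¹ : (Mat Lam)ˣ) : Mat Lam) * !![0, -1; 0, 0] * (u : Mat Lam) := by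
      have : (!![0, -1; 0, 0] : Mat Lam) = ((x0u⁻¹ : (Mat Lam)ˣ) : Mat Lam) - 1 := by
        show _ = (!![1, -1; 0, 1] : Mat Lam) - 1
        ext i j
        fin_cases i <;> fin_cases j <;> simp
      rw [this, mul_sub, sub_mul, mul_one, hv, Units.val_mul, Units.val_mul]
    rw [e1]
    generalize hV : ((u⁻¹ : (Mat Lam)ˣ) : Mat Lam) = V at *
    have hent : ∀ i j, (V * !![0, -1; 0, 0] * (u : Mat Lam) : Mat Lam) i j =
        - V i 0 * (u : Mat Lam) 1 j := by
      intro i j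
      simp [Matrix.mul_apply, Fin.sum_univ_two, -neg_mul, -mul_neg]
      ring
    have h10 : (u : Mat Lam) 1 0 * V 0 0 + (u : Mat Lam) 1 1 * V 1 0 = 0 := by
      have := congrArg (fun M : Mat Lam => M 1 0) hv'
      simpa [Matrix.mul_apply, Fin.sum_univ_two] using this
    refine ⟨?_, ?_, ?_, ?_⟩
    · rw [hent, pow_one]; exact Ideal.mul_mem_left _ _ hrI
    · simp
    · rw [hent, pow_one]; exact Ideal.mul_mem_left _ _ hrI
    · rw [hent, pow_one]
      have : -V 1 0 * (u : Mat Lam) 1 1 = V 0 0 * r := by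
        show -V 1 0 * (u : Mat Lam) 1 1 = V 0 0 * (u : Mat Lam) 1 0
        linear_combination (-1 : Lam) * h10
      rw [this]
      exact Ideal.mul_mem_left _ _ hrI
  have h2 : u⁻¹ * x0u⁻¹ * u * x0u ∈ D I := mul_mem h1 (x0_mem_D I)
  have key : ∀ m : ℕ, Fil I (m + 1)
      (((((fun y : G => y⁻¹ * x0⁻¹ * y * x0)^[m + 1] g : G) : (Mat Lam)ˣ) : Mat Lam) - 1) := by
    intro m
    induction m with
    | zero => exact h2
    | succ m ih =>
      rw [Function.iterate_succ_apply']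
      exact comm_fil (by omega) ih (x0_mem_D I)
  apply Subtype.ext
  apply Units.ext
  exact sub_eq_zero.1 (fil_zero hI (by norm_num) (key 5))

/-! ### Non-subnormality -/

theorem chain_main {U : Finset ℕ} (n : ℕ) (L : ℕ → Subgroup (Mat Lam)ˣ) {x : (Mat Lam)ˣ}
    (hx : ∀ i, x ∈ L i) {c : Lam} (hxc : (x : Mat Lam) = !![1, c; 0, 1]) (hc : c = 1 ∨ c = -1)
    (hn : ∀ i < n, ∀ a ∈ L (i + 1), ∀ b ∈ L i, a * b * a⁻¹ ∈ L i)
    (htop : ∀ S : Finset ℕ, S.Nonempty → Disjoint S U → ∀ (hs : tauS S * tauS S = 0) (A : Mat Lam),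
      (phi U).mapMatrix A = A → E (tauS S) hs A ∈ L n) :
    ∀ j ≤ n, ∀ S : Finset ℕ, Disjoint S U → S.card = 2 ^ j → ∀ hs : tauS S * tauS S = 0,
      E (tauS S) hs H ∈ L (n - j) ∧ E (tauS S) hs F ∈ L (n - j) := by
  intro j
  induction j with
  | zero =>
    intro _ S hSU hS hs
    have hne : S.Nonempty := by
      rw [← Finset.card_pos, hS]; norm_num
    rw [Nat.sub_zero]
    constructor
    · apply htop S hne hSU
      ext i j
      fin_cases i <;> fin_cases j <;> simp [H]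
    · apply htop S hne hSU
      ext i j
      fin_cases i <;> fin_cases j <;> simp [F]
  | succ j ih =>
    intro hj S hSU hS hs
    obtain ⟨S1, hS1, hS1c⟩ := Finset.exists_subset_card_eq (s := S) (n := 2 ^ j) (by
      rw [hS]; exact Nat.pow_le_pow_right (by norm_num) (by omega))
    let S2 := S \ S1
    have hS2c : S2.card = 2 ^ j := by
      rw [Finset.card_sdiff_of_subset hS1, hS, hS1c, pow_succ]; omega
    have hdis : Disjoint S1 S2 := Finset.disjoint_sdiff
    have hun : S1 ∪ S2 = S := Finset.union_sdiff_of_subset hS1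
    have hS1U : Disjoint S1 U := Finset.disjoint_of_subset_left hS1 hSU
    have hS2U : Disjoint S2 U := Finset.disjoint_of_subset_left Finset.sdiff_subset hSU
    have hs1 : tauS S1 * tauS S1 = 0 := tauS_sq (by
      rw [← Finset.card_pos, hS1c]; positivity)
    have hs2 : tauS S2 * tauS S2 = 0 := tauS_sq (by
      rw [← Finset.card_pos, hS2c]; positivity)
    have hprod : tauS S = tauS S1 * tauS S2 := by rw [← hun, tauS_union hdis]
    have hst : (tauS S1 * tauS S2) * (tauS S1 * tauS S2) = 0 := by rw [← hprod]; exact hs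
    obtain ⟨a1, a2⟩ := ih (by omega) S1 hS1U hS1c hs1
    obtain ⟨b1, b2⟩ := ih (by omega) S2 hS2U hS2c hs2
    have hidx : n - j = (n - (j + 1)) + 1 := by omega
    rw [hidx] at a1 a2 b2
    have := step (L0 := L (n - (j + 1) + 1)) (L1 := L (n - (j + 1)))
      (hn (n - (j + 1)) (by omega)) three_eq_zero (hx _) hxc hc hs1 hs2 hst a1 a2 b2
    rw [E_congr hprod hs hst, E_congr hprod hs hst]
    exact this

theorem not_subnormal (y : G) (hy : eps (((y : (Mat Lam)ˣ) : Mat Lam) 0 1) ≠ 0) (n : ℕ)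
    (K : ℕ → Subgroup G) (h0 : K 0 = Subgroup.zpowers y) (htop : K n = ⊤)
    (hK : ∀ i : ℕ, i < n → (K i ≤ K (i + 1) ∧
      ∀ a : G, a ∈ K (i + 1) → ∀ b : G, b ∈ K i → a * b * a⁻¹ ∈ K i)) : False := by
  classical
  -- choose `U` killing all the non-constant parts of the entries of `y`
  have hU : ∃ U : Finset ℕ, ∀ i j : Fin 2, phi U (((y : (Mat Lam)ˣ) : Mat Lam) i j) =
      algebraMap (ZMod 3) Lam (eps (((y : (Mat Lam)ˣ) : Mat Lam) i j)) := by
    choose V hV using fun p : Fin 2 × Fin 2 => exists_phi (((y : (Mat Lam)ˣ) : Mat Lam) p.1 p.2)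
    refine ⟨Finset.univ.biUnion V, fun i j => hV (i, j) _ ?_⟩
    exact Finset.subset_biUnion_of_mem V (Finset.mem_univ (i, j))
  obtain ⟨U, hU⟩ := hU
  let φ : G →* (Mat Lam)ˣ :=
    (Units.map ((phi U).mapMatrix : Mat Lam →+* Mat Lam).toMonoidHom).comp G.subtype
  have hφ : ∀ (g : G) (i j : Fin 2), ((φ g : (Mat Lam)ˣ) : Mat Lam) i j =
      phi U (((g : (Mat Lam)ˣ) : Mat Lam) i j) := fun g i j => rfl
  -- extend the chain beyond n to be top
  let K' : ℕ → Subgroup G := fun i => if i < n then K i else ⊤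
  have hyK : ∀ i, y ∈ K' i := by
    intro i
    by_cases hi : i < n
    · simp only [K', if_pos hi]
      have : ∀ i, i ≤ n → y ∈ K i := by
        intro i
        induction i with
        | zero => intro _; rw [h0]; exact Subgroup.mem_zpowers y
        | succ i ih => intro hi; exact (hK i (by omega)).1 (ih (by omega))
      exact this i hi.le
    · simp only [K', if_neg hi]; exact Subgroup.mem_top y
  have hK' : ∀ i, i ≤ n → K' i = K i := by
    intro i hi
    rcases lt_or_eq_of_le hi with h | h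
    · simp only [K', if_pos h]
    · subst h; simp only [K', lt_irrefl, if_false]; exact htop.symm
  let L : ℕ → Subgroup (Mat Lam)ˣ := fun i => (K' i).map φ
  have hc : algebraMap (ZMod 3) Lam (eps (((y : (Mat Lam)ˣ) : Mat Lam) 0 1)) = 1 ∨
      algebraMap (ZMod 3) Lam (eps (((y : (Mat Lam)ˣ) : Mat Lam) 0 1)) = -1 := by
    generalize eps (((y : (Mat Lam)ˣ) : Mat Lam) 0 1) = c at hy
    have : c = 1 ∨ c = -1 := by revert c; decide
    rcases this with rfl | rfl
    · left; exact map_one _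
    · right; rw [map_neg, map_one]
  have hxc : ((φ y : (Mat Lam)ˣ) : Mat Lam) =
      !![1, algebraMap (ZMod 3) Lam (eps (((y : (Mat Lam)ˣ) : Mat Lam) 0 1)); 0, 1] := by
    obtain ⟨e1, e2, e3⟩ := G_entries y.2
    ext i j
    rw [hφ, hU]
    fin_cases i <;> fin_cases j
    · show algebraMap (ZMod 3) Lam (eps (((y : (Mat Lam)ˣ) : Mat Lam) 0 0)) = 1
      rw [e1, map_one]
    · rfl
    · show algebraMap (ZMod 3) Lam (eps (((y : (Mat Lam)ˣ) : Mat Lam) 1 0)) = 0
      rw [e2, map_zero]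
    · show algebraMap (ZMod 3) Lam (eps (((y : (Mat Lam)ˣ) : Mat Lam) 1 1)) = 1
      rw [e3, map_one]
  obtain ⟨S, hSU, hScard⟩ : ∃ S : Finset ℕ, Disjoint S U ∧ S.card = 2 ^ n := by
    obtain ⟨S, hS1, hS2⟩ := (Set.Finite.infinite_compl U.finite_toSet).exists_subset_card_eq (2 ^ n)
    refine ⟨S, ?_, hS2⟩
    rw [Finset.disjoint_left]
    intro a ha haU
    exact hS1 ha haU
  have hSne : S.Nonempty := by
    rw [← Finset.card_pos, hScard]; positivity
  have main := chain_main (U := U) n L (x := φ y) (fun i => ⟨y, hyK i, rfl⟩) hxc hc (by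
    rintro i hi _ ⟨a, ha, rfl⟩ _ ⟨b, hb, rfl⟩
    rw [SetLike.mem_coe, hK' _ (by omega)] at ha hb
    refine ⟨a * b * a⁻¹, ?_, by simp⟩
    rw [SetLike.mem_coe, hK' _ (by omega)]
    exact (hK i hi).2 a ha b hb) (by
    intro S hne hSU hs A hA
    have hmem : E (tauS S) hs A ∈ G := by
      apply mem_G <;> rw [E_val] <;> simp [eps_tauS hne]
    refine ⟨⟨E (tauS S) hs A, hmem⟩, ?_, ?_⟩
    · rw [SetLike.mem_coe, hK' n le_rfl, htop]; exact Subgroup.mem_top _
    · apply Units.ext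
      show (phi U).mapMatrix (1 + tauS S • A) = 1 + tauS S • A
      rw [map_add, map_one]
      congr 1
      ext i j
      have h7 : phi U (A i j) = A i j := congrArg (fun M : Mat Lam => M i j) hA
      show phi U (tauS S * A i j) = tauS S * A i j
      rw [map_mul, phi_tauS hSU, h7]) n le_rfl S hSU hScard (tauS_sq hSne)
  obtain ⟨-, g, hg, hgE⟩ := main
  rw [Nat.sub_self, SetLike.mem_coe, hK' 0 (Nat.zero_le n), h0] at hg
  obtain ⟨k, rfl⟩ := Subgroup.mem_zpowers_iff.1 hg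
  -- lower left entry of powers of φ y is zero
  let T : Subgroup (Mat Lam)ˣ := D (⊥ : Ideal Lam)
  have hT : φ y ∈ T := by
    show Fil (⊥ : Ideal Lam) 1 (((φ y : (Mat Lam)ˣ) : Mat Lam) - 1)
    rw [hxc]
    apply fil_one_of <;> simp
  have hT2 : φ (y ^ k) ∈ T := by
    rw [map_zpow]; exact zpow_mem hT k
  rw [hgE] at hT2
  have h9 : (E (tauS S) (tauS_sq hSne) F : Mat Lam) 1 0 - (1 : Mat Lam) 1 0 ∈ (⊥ : Ideal Lam) ^ 1 :=
    hT2.2.2.1
  rw [E_val, pow_one, Ideal.mem_bot, Matrix.one_apply_ne (by decide)] at h9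
  apply tauS_ne_zero S
  simpa [F] using h9

/-- The negation of the preceding statement: In every radical group (ascending series with locally nilpotent factors), an element is a bounded left Engel element exactly when it lies in the subgroup generated by all elements generating subnormal cyclic subgroups, i.e. the Baer radical. -/
theorem result :
    ¬ (∀ (G : Type) [Group G],
      (∃ S : Ordinal.{0} → Subgroup G,
        Monotone S ∧
        (∀ α : Ordinal.{0}, ∀ g : G, g ∈ S α →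
          g = 1 ∨ ∃ β : Ordinal.{0}, β < α ∧ g ∈ S (Order.succ β)) ∧
        (∀ α : Ordinal.{0}, ∀ a : G, a ∈ S (Order.succ α) →
          ∀ b : G, b ∈ S α → a * b * a⁻¹ ∈ S α) ∧
        (∀ α : Ordinal.{0}, ∀ F : Set G, F.Finite →
          F ⊆ (S (Order.succ α) : Set G) →
          ∃ n : ℕ, ∀ h0 : G, h0 ∈ Subgroup.closure F →
            ∀ hs : List G, hs.length = n →
              (∀ b : G, b ∈ hs → b ∈ Subgroup.closure F) →
                hs.foldl (fun a b : G => a⁻¹ * b⁻¹ * a * b) h0 ∈ S α) ∧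
        (∃ β : Ordinal.{0}, S β = ⊤)) →
      ∀ x : G,
        (∃ n : ℕ, ∀ g : G, (fun y : G => y⁻¹ * x⁻¹ * y * x)^[n] g = 1) ↔
          x ∈ Subgroup.closure
            {y : G | ∃ n : ℕ, ∃ K : ℕ → Subgroup G,
              K 0 = Subgroup.zpowers y ∧ K n = ⊤ ∧
              ∀ i : ℕ, i < n → (K i ≤ K (i + 1) ∧
                ∀ a : G, a ∈ K (i + 1) → ∀ b : G, b ∈ K i → a * b * a⁻¹ ∈ K i)}) := by
  intro hall
  have h := hall G (by
    classical
    refine ⟨fun α => if α = 0 then ⊥ else ⊤, ?_, ?_, ?_, ?_, ?_⟩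
    · intro α β hαβ
      by_cases h : α = 0
      · simp [h]
      · have : β ≠ 0 := by
          rintro rfl; exact h (nonpos_iff_eq_zero.1 hαβ)
        simp [h, this]
    · intro α g hg
      by_cases h : α = 0
      · left; simpa [h] using hg
      · right
        exact ⟨0, pos_of_ne_zero h, by simp⟩
    · intro α a _ b hb
      by_cases h : α = 0
      · simp only [h, if_true, Subgroup.mem_bot] at hb ⊢
        rw [hb]; group
      · simp [h]
    · intro α F hF _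
      obtain ⟨n, hn⟩ := G_locnil F hF
      refine ⟨n, fun h0 hh0 hs hlen hhs => ?_⟩
      rw [hn h0 hh0 hs hlen hhs]
      exact one_mem _
    · exact ⟨1, by simp⟩) x0
  have h1 := h.1 ⟨6, engel⟩
  -- the kernel of reduction
  let Γ : Subgroup G := (rho.comp G.subtype).ker
  have h2 : Subgroup.closure
            {y : G | ∃ n : ℕ, ∃ K : ℕ → Subgroup G,
              K 0 = Subgroup.zpowers y ∧ K n = ⊤ ∧
              ∀ i : ℕ, i < n → (K i ≤ K (i + 1) ∧
                ∀ a : G, a ∈ K (i + 1) → ∀ b : G, b ∈ K i → a * b * a⁻¹ ∈ K i)} ≤ Γ := by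
    rw [Subgroup.closure_le]
    rintro y ⟨n, K, hK0, hKn, hK⟩
    by_contra hy
    apply not_subnormal y _ n K hK0 hKn hK
    intro h3
    apply hy
    rw [SetLike.mem_coe, MonoidHom.mem_ker]
    apply Units.ext
    obtain ⟨e1, e2, e3⟩ := G_entries y.2
    ext i j
    show eps (((y : (Mat Lam)ˣ) : Mat Lam) i j) = (1 : Mat (ZMod 3)) i j
    fin_cases i <;> fin_cases j
    · exact e1
    · exact h3
    · exact e2
    · exact e3
  have h3 : x0 ∈ Γ := h2 h1
  have h4 : rho x0u = 1 := h3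
  have h5 := congrArg (fun u : (Mat (ZMod 3))ˣ => (u : Mat (ZMod 3)) 0 1) h4
  have h6 : eps (1 : Lam) = 0 := h5
  rw [map_one] at h6
  exact one_ne_zero h6

end Pool.Agent.S0878
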