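import Pool.Statements.S0916
import Pool.Agent.H5.Semilinear

set_option autoImplicit false
open Pool Pool.MP_b93de1_al

namespace Pool.Agent.S0916

open Pool.Agent.H5.Tri
open scoped commutatorElement

/-! ### The `ℚ`-space `W` with its `Gam`-action -/

/-- functions on which translation of coordinate zero acts as doubling -/
def W : Submodule ℚ (X → ℚ) where
  carrier := {w | ∀ x, w (x + Pi.single 0 1) = 2 * w x}
  zero_mem' := fun x => by simp
  add_mem' := by
    intro a b ha hb x
    rw [Pi.add_apply, Pi.add_apply, ha x, hb x, mul_add]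
  smul_mem' := by
    intro c a ha x
    rw [Pi.smul_apply, Pi.smul_apply, ha x, smul_eq_mul, smul_eq_mul]
    ring

theorem W_mem {g : Equiv.Perm X} (hg : g ∈ Gam) {w : X → ℚ} (hw : w ∈ W) : w ∘ g ∈ W := by
  obtain ⟨N, hN⟩ := hg
  intro x
  rw [Function.comp_apply, Function.comp_apply, sh_comm hN (Or.inl rfl)]
  exact hw _

/-- the action as multiplicative automorphisms -/
def actM (g : Gam) : MulAut (Multiplicative W) where
  toFun w := Multiplicative.ofAdd ⟨(Multiplicative.toAdd w).1 ∘ ((g⁻¹ : Gam) : Equiv.Perm X),
    W_mem (g⁻¹).2 (Multiplicative.toAdd w).2⟩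
  invFun w := Multiplicative.ofAdd ⟨(Multiplicative.toAdd w).1 ∘ ((g : Gam) : Equiv.Perm X),
    W_mem g.2 (Multiplicative.toAdd w).2⟩
  left_inv w := by
    apply Multiplicative.toAdd.injective
    apply Subtype.ext
    funext x
    show (Multiplicative.toAdd w).1 (((g⁻¹ : Gam) : Equiv.Perm X) ((g : Equiv.Perm X) x)) = _
    exact congrArg (Multiplicative.toAdd w).1 (Equiv.symm_apply_apply (g : Equiv.Perm X) x)
  right_inv w := by
    apply Multiplicative.toAdd.injective
    apply Subtype.ext
    funext x
    show (Multiplicative.toAdd w).1 ((g : Equiv.Perm X) (((g⁻¹ : Gam) : Equiv.Perm X) x)) = _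
    exact congrArg (Multiplicative.toAdd w).1 (Equiv.apply_symm_apply (g : Equiv.Perm X) x)
  map_mul' v w := rfl

theorem actM_apply (g : Gam) (w : Multiplicative W) (x : X) :
    (Multiplicative.toAdd (actM g w)).1 x =
      (Multiplicative.toAdd w).1 (((g⁻¹ : Gam) : Equiv.Perm X) x) := rfl

def actH : Gam →* MulAut (Multiplicative W) where
  toFun := actM
  map_one' := by
    ext w x
    rw [actM_apply]
    simp
  map_mul' g h := by
    ext w x
    rw [actM_apply]
    show _ = (Multiplicative.toAdd (actM g (actM h w))).1 x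
    rw [actM_apply, actM_apply, mul_inv_rev]
    rfl

abbrev B := MonoidAlgebra (ZMod 2) (Multiplicative W)

variable {F : Type} [Field F] [Algebra B F] [IsFractionRing B F]

noncomputable def ringM (g : Gam) : B ≃+* B :=
  (MonoidAlgebra.domCongrAut (R := ZMod 2) (A := ZMod 2) (actH g)).toRingEquiv

theorem ringM_one (b : B) : ringM 1 b = b := by
  unfold ringM
  rw [map_one, map_one]
  rfl

theorem ringM_mul (g h : Gam) (b : B) : ringM (g * h) b = ringM g (ringM h b) := by
  unfold ringM
  rw [map_mul, map_mul]
  rfl

theorem ringM_single (g : Gam) (w : Multiplicative W) :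
    ringM g (MonoidAlgebra.single w 1) = MonoidAlgebra.single (actM g w) 1 := by
  show MonoidAlgebra.domCongr (ZMod 2) (ZMod 2) (actH g) _ = _
  simp
  rfl

/-- the action on `F` by field automorphisms -/
noncomputable def Psi (F : Type) [Field F] [Algebra B F] [IsFractionRing B F] :
    Gam →* (F ≃+* F) where
  toFun g := IsFractionRing.ringEquivOfRingEquiv (ringM g)
  map_one' := by
    ext x
    obtain ⟨x, y, -, rfl⟩ := IsFractionRing.div_surjective B x
    rw [map_div₀, IsFractionRing.ringEquivOfRingEquiv_algebraMap,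
      IsFractionRing.ringEquivOfRingEquiv_algebraMap, ringM_one, ringM_one]
    rfl
  map_mul' g h := by
    ext x
    obtain ⟨x, y, -, rfl⟩ := IsFractionRing.div_surjective B x
    rw [map_div₀, IsFractionRing.ringEquivOfRingEquiv_algebraMap,
      IsFractionRing.ringEquivOfRingEquiv_algebraMap, ringM_mul, ringM_mul, RingAut.mul_apply,
      map_div₀, IsFractionRing.ringEquivOfRingEquiv_algebraMap,
      IsFractionRing.ringEquivOfRingEquiv_algebraMap, map_div₀,
      IsFractionRing.ringEquivOfRingEquiv_algebraMap,
      IsFractionRing.ringEquivOfRingEquiv_algebraMap]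

theorem Psi_algebraMap (g : Gam) (b : B) : Psi F g (algebraMap B F b) = algebraMap B F (ringM g b) :=
  IsFractionRing.ringEquivOfRingEquiv_algebraMap _ _

theorem actM_fr (w : Multiplicative W) : actM fr w = w * w := by
  apply Multiplicative.toAdd.injective
  apply Subtype.ext
  funext x
  rw [actM_apply]
  have : ((fr⁻¹ : Gam) : Equiv.Perm X) x = x + Pi.single 0 1 := by
    show ((sh 0)⁻¹)⁻¹ x = _
    rw [inv_inv]
    rfl
  rw [this, (Multiplicative.toAdd w).2 x, two_mul]
  rfl

instance : CharP B 2 := charP_of_injective_algebraMap (algebraMap (ZMod 2) B).injective 2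

theorem ringM_fr (b : B) : ringM fr b = b ^ 2 := by
  have key : (ringM fr : B →+* B) = frobenius B 2 := by
    apply MonoidAlgebra.ringHom_ext
    · intro r
      exact congrArg (fun f : ZMod 2 →+* B => f r)
        (Subsingleton.elim
          ((ringM fr : B →+* B).comp (algebraMap (ZMod 2) B : ZMod 2 →+* B))
          ((frobenius B 2).comp (algebraMap (ZMod 2) B)))
    · intro w
      show ringM fr (MonoidAlgebra.single w 1) = (MonoidAlgebra.single w 1) ^ 2
      rw [ringM_single, actM_fr, MonoidAlgebra.single_pow, one_pow, pow_two]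
  exact congrArg (fun f : B →+* B => f b) key

theorem Psi_fr (x : F) : Psi F fr x = x ^ 2 := by
  obtain ⟨x, y, -, rfl⟩ := IsFractionRing.div_surjective B x
  rw [map_div₀, Psi_algebraMap, Psi_algebraMap, ringM_fr, ringM_fr, map_pow, map_pow, div_pow]

/-! ### `F` is infinite -/

noncomputable def w0 : W := ⟨fun x => (2 : ℚ) ^ (x 0), fun x => by
  show (2 : ℚ) ^ (x 0 + Pi.single (M := fun _ => ℤ) 0 1 0) = 2 * 2 ^ (x 0)
  rw [Pi.single_eq_same, zpow_add₀ (by norm_num), zpow_one, mul_comm]⟩

theorem w0_ne : w0 ≠ 0 := by
  intro h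
  have := congrArg (fun w : W => w.1 0) h
  simp [w0] at this

theorem infF (F : Type) [Field F] [Algebra B F] [IsFractionRing B F] : Infinite F := by
  apply Infinite.of_injective (fun n : ℕ =>
    algebraMap B F (MonoidAlgebra.single (Multiplicative.ofAdd ((n : ℚ) • w0)) 1))
  intro m n h
  have h1 := IsFractionRing.injective B F h
  have h2 := MonoidAlgebra.of_injective (R := ZMod 2) (M := Multiplicative W) h1
  have h3 : (m : ℚ) • w0 = (n : ℚ) • w0 := h2
  have h4 := smul_left_injective ℚ w0_ne h3
  exact_mod_cast h4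

theorem final (F : Type) [Field F] [Algebra B F] [IsFractionRing B F] :
    ¬ (∀ (G X : Type) [Group G] [MulAction G X], FaithfulSMul G X → Infinite G →
      MulAction.IsMultiplyPretransitive G X 2 →
      (∀ x : X, ∀ S : Finset G,
        ((↑S : Set G) ⊆ (MulAction.stabilizer G x : Set G)) →
          IsSolvable (Subgroup.closure (↑S : Set G))) →
      ∃ (K : Type) (_ : Field K) (V : Type) (_ : AddCommGroup V) (_ : Module K V),
        FiniteDimensional K V ∧ ∃ ρ : Representation K G V,
          Nontrivial V ∧
          (∀ W : Submodule K V, (∀ g : G, ∀ v ∈ W, ρ g v ∈ W) → W = ⊥ ∨ W = ⊤) ∧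
          ∃ g : G, ρ g ≠ 1) := by
  intro H
  have := infF F
  obtain ⟨K, _, V, _, _, hfd, ρ, _, _, g, hg⟩ := H (Pool.Agent.H5.Tri.G (Psi F)) F inferInstance
    (Infinite.of_injective (tG (Psi F)) (tG_inj (Psi F))) (two_trans (Psi F))
    (fun _ S _ => local_solv (Psi F) S)
  exact hg (rep_trivial (Psi F) Psi_fr ρ g)

/-- The negation of the preceding statement: Every infinite group acting faithfully and 2-transitively on a set, whose point stabilizers are locally solvable, has a finite-dimensional irreducible representation over some field on which some element acts nontrivially. -/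
theorem result :
    ¬ (∀ (G X : Type) [Group G] [MulAction G X], FaithfulSMul G X → Infinite G →
      MulAction.IsMultiplyPretransitive G X 2 →
      (∀ x : X, ∀ S : Finset G,
        ((↑S : Set G) ⊆ (MulAction.stabilizer G x : Set G)) →
          IsSolvable (Subgroup.closure (↑S : Set G))) →
      ∃ (K : Type) (_ : Field K) (V : Type) (_ : AddCommGroup V) (_ : Module K V),
        FiniteDimensional K V ∧ ∃ ρ : Representation K G V,
          Nontrivial V ∧
          (∀ W : Submodule K V, (∀ g : G, ∀ v ∈ W, ρ g v ∈ W) → W = ⊥ ∨ W = ⊤) ∧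
          ∃ g : G, ρ g ≠ 1) := by
  exact final (FractionRing B)

end Pool.Agent.S0916
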