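import Pool.Statements.S0926
-- import your own Pool.Agent.* helpers here

set_option autoImplicit false
open Pool Pool.MP_bd517a_al

namespace Pool.Agent.S0926

/-! The group `2^3 : 7 = AGL(1,8)`. -/

abbrev V := ZMod 2 × ZMod 2 × ZMod 2

/-- multiplication by a root of `t^3+t+1` -/
def A (v : V) : V := (v.2.2, v.1 + v.2.2, v.2.1)

def act (i : ZMod 7) (v : V) : V := A^[i.val] v

@[ext] structure G where
  v : V
  i : ZMod 7
deriving DecidableEq

theorem act_zero : ∀ v, act 0 v = v := by decide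
theorem act_act : ∀ i j v, act (i + j) v = act i (act j v) := by decide
theorem act_add : ∀ i v w, act i (v + w) = act i v + act i w := by decide
theorem act_z : ∀ i, act i 0 = 0 := by decide

instance : Mul G := ⟨fun x y => ⟨x.v + act x.i y.v, x.i + y.i⟩⟩
instance : One G := ⟨⟨0, 0⟩⟩
instance : Inv G := ⟨fun x => ⟨act (-x.i) (-x.v), -x.i⟩⟩

theorem mul_def (x y : G) : x * y = ⟨x.v + act x.i y.v, x.i + y.i⟩ := rfl
theorem one_def : (1 : G) = ⟨0, 0⟩ := rfl
theorem inv_def (x : G) : x⁻¹ = ⟨act (-x.i) (-x.v), -x.i⟩ := rfl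

instance : Group G := Group.ofLeftAxioms
  (by
    intro x y z
    simp only [mul_def, act_add, act_act, add_assoc])
  (by
    intro x
    simp only [mul_def, one_def, act_zero, zero_add])
  (by
    intro x
    simp only [mul_def, one_def, inv_def]
    rw [← act_add, neg_add_cancel, neg_add_cancel, act_z])

/-- `G` as a product -/
def eqv : V × ZMod 7 ≃ G where
  toFun p := ⟨p.1, p.2⟩
  invFun g := (g.v, g.i)
  left_inv _ := rfl
  right_inv _ := rfl

instance : Fintype G := Fintype.ofEquiv _ eqv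

def tab (i : ZMod 7) : V × V × V :=
  match i with
  | 0 => ((1, 0, 0), (0, 0, 1), (1, 1, 0))
  | 1 => ((1, 0, 0), (1, 0, 1), (0, 1, 0))
  | 2 => ((0, 0, 1), (1, 0, 1), (1, 1, 1))
  | 3 => ((0, 0, 1), (0, 1, 0), (1, 1, 1))
  | 4 => ((0, 0, 1), (0, 1, 0), (1, 0, 0))
  | 5 => ((1, 1, 1), (0, 1, 0), (1, 0, 0))
  | 6 => ((1, 1, 0), (0, 1, 1), (1, 0, 0))

/-- the linear map on the `i`-th layer -/
def M (i : ZMod 7) (v : V) : V :=
  (v.1 * (tab i).1.1 + v.2.1 * (tab i).2.1.1 + v.2.2 * (tab i).2.2.1,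
   v.1 * (tab i).1.2.1 + v.2.1 * (tab i).2.1.2.1 + v.2.2 * (tab i).2.2.2.1,
   v.1 * (tab i).1.2.2 + v.2.1 * (tab i).2.1.2.2 + v.2.2 * (tab i).2.2.2.2)

/-- the isomorphism of Cayley digraphs -/
def f (g : G) : G := ⟨M g.i g.v, -g.i⟩

theorem M_inj : ∀ i v w, M i v = M i w → v = w := by decide

theorem f_inj : Function.Injective f := by
  rintro ⟨v, i⟩ ⟨w, j⟩ h
  simp only [f, G.mk.injEq] at h
  have hij : i = j := neg_injective h.2
  subst hij
  rw [M_inj i v w h.1]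

def a : G := ⟨0, 1⟩
def b : G := ⟨(1, 0, 0), 1⟩
def c : G := ⟨0, -1⟩
def d : G := ⟨(1, 0, 0), -1⟩

theorem key' : ∀ v i, (f (⟨v, i⟩ * a) = f ⟨v, i⟩ * c ∧ f (⟨v, i⟩ * b) = f ⟨v, i⟩ * d) ∨
    (f (⟨v, i⟩ * a) = f ⟨v, i⟩ * d ∧ f (⟨v, i⟩ * b) = f ⟨v, i⟩ * c) := by
  decide

theorem key (x : G) : (f (x * a) = f x * c ∧ f (x * b) = f x * d) ∨
    (f (x * a) = f x * d ∧ f (x * b) = f x * c) := key' x.v x.i

noncomputable def F : G ≃ G := Equiv.ofBijective f (Finite.injective_iff_bijective.1 f_inj)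

theorem F_apply (x : G) : F x = f x := rfl

theorem arcs (x y : G) : x⁻¹ * y ∈ ({a, b} : Set G) ↔ (F x)⁻¹ * F y ∈ ({c, d} : Set G) := by
  simp only [Set.mem_insert_iff, Set.mem_singleton_iff, inv_mul_eq_iff_eq_mul, F_apply]
  rcases key x with ⟨h1, h2⟩ | ⟨h1, h2⟩
  · rw [← h1, ← h2, f_inj.eq_iff, f_inj.eq_iff]
  · rw [← h1, ← h2, f_inj.eq_iff, f_inj.eq_iff, or_comm]

/-- the relation `t^3+t+1 = 0`, for the pair `(x, y)` -/
def rel (x y : G) : Prop :=
  (x⁻¹ * y) * (x * (x⁻¹ * y) * x⁻¹) * (x * (x * (x * (x⁻¹ * y) * x⁻¹) * x⁻¹) * x⁻¹) = 1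

theorem rel_ab : rel a b := by unfold rel; decide
theorem rel_cd : ¬ rel c d := by unfold rel; decide
theorem rel_dc : ¬ rel d c := by unfold rel; decide

theorem rel_map (σ : MulAut G) (x y : G) (h : rel x y) : rel (σ x) (σ y) := by
  unfold rel at *
  have := congrArg σ h
  simpa only [map_mul, map_inv, map_one] using this

theorem gen' : ∀ v i, (⟨v, i⟩ : G) = (b * a⁻¹) ^ v.1.val * (a * (b * a⁻¹) * a⁻¹) ^ v.2.1.val *
    (a * (a * (b * a⁻¹) * a⁻¹) * a⁻¹) ^ v.2.2.val * a ^ i.val := by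
  decide

theorem gen : Subgroup.closure ({a, b} : Set G) = ⊤ := by
  rw [eq_top_iff]
  intro g _
  have ha : a ∈ Subgroup.closure ({a, b} : Set G) := Subgroup.subset_closure (by simp)
  have hb : b ∈ Subgroup.closure ({a, b} : Set G) := Subgroup.subset_closure (by simp)
  rw [show g = ⟨g.v, g.i⟩ from rfl, gen' g.v g.i]
  have h1 := mul_mem hb (inv_mem ha)
  have h2 := mul_mem (mul_mem ha h1) (inv_mem ha)
  have h3 := mul_mem (mul_mem ha h2) (inv_mem ha)
  exact mul_mem (mul_mem (mul_mem (pow_mem h1 _) (pow_mem h2 _)) (pow_mem h3 _)) (pow_mem ha _)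

theorem ne_comm : a * b ≠ b * a := by decide

theorem not_cyclic (x : G) : Subgroup.closure ({x} : Set G) ≠ ⊤ := by
  intro h
  have ha : a ∈ Subgroup.closure ({x} : Set G) := h ▸ Subgroup.mem_top _
  have hb : b ∈ Subgroup.closure ({x} : Set G) := h ▸ Subgroup.mem_top _
  rw [Subgroup.mem_closure_singleton] at ha hb
  obtain ⟨m, hm⟩ := ha
  obtain ⟨n, hn⟩ := hb
  apply ne_comm
  rw [← hm, ← hn]
  exact zpow_mul_comm x m n

theorem minimal (S' : Set G) (h : S' ⊂ ({a, b} : Set G)) : Subgroup.closure S' ≠ ⊤ := by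
  intro htop
  obtain ⟨hsub, hne⟩ := h
  have : S' ⊆ {a} ∨ S' ⊆ {b} := by
    by_contra hcon
    rw [not_or, Set.not_subset, Set.not_subset] at hcon
    obtain ⟨⟨p, hp, hpa⟩, ⟨q, hq, hqb⟩⟩ := hcon
    have hp' := hsub hp
    have hq' := hsub hq
    simp only [Set.mem_insert_iff, Set.mem_singleton_iff] at hp' hq' hpa hqb
    apply hne
    intro x hx
    simp only [Set.mem_insert_iff, Set.mem_singleton_iff] at hx
    rcases hx with rfl | rfl
    · rcases hq' with h | h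
      · rwa [← h]
      · exact absurd h hqb
    · rcases hp' with h | h
      · exact absurd h hpa
      · rwa [← h]
  rcases this with h | h
  · exact not_cyclic a (top_le_iff.1 (htop ▸ Subgroup.closure_mono h))
  · exact not_cyclic b (top_le_iff.1 (htop ▸ Subgroup.closure_mono h))

/-- The negation of the preceding statement: In every finite group, every inclusion-minimal generating set S is a CI-subset: if Cay(G,S) and Cay(G,T) are isomorphic digraphs, some group automorphism maps S onto T. -/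
theorem result :
    ¬ (∀ (G : Type) [Group G] [Finite G] (S : Set G),
      (Subgroup.closure S = ⊤ ∧ ∀ S' : Set G, S' ⊂ S → Subgroup.closure S' ≠ ⊤) →
      ∀ T : Set G,
        (∃ f : G ≃ G, ∀ x y : G, x⁻¹ * y ∈ S ↔ (f x)⁻¹ * f y ∈ T) →
        ∃ σ : MulAut G, ⇑σ '' S = T) := by
  intro H
  obtain ⟨σ, hσ⟩ := H G {a, b} ⟨gen, minimal⟩ {c, d} ⟨F, arcs⟩
  have ha : σ a ∈ ({c, d} : Set G) := hσ ▸ ⟨a, by simp, rfl⟩
  have hb : σ b ∈ ({c, d} : Set G) := hσ ▸ ⟨b, by simp, rfl⟩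
  have hab : σ a ≠ σ b := fun h => absurd (σ.injective h) (by decide)
  have hrel := rel_map σ a b rel_ab
  simp only [Set.mem_insert_iff, Set.mem_singleton_iff] at ha hb
  rcases ha with ha | ha <;> rcases hb with hb | hb
  · exact hab (ha.trans hb.symm)
  · rw [ha, hb] at hrel; exact rel_cd hrel
  · rw [ha, hb] at hrel; exact rel_dc hrel
  · exact hab (ha.trans hb.symm)

end Pool.Agent.S0926
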