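import Pool.Statements.S0942
-- import your own Pool.Agent.* helpers here

set_option autoImplicit false
open Pool Pool.MP_c12e41_al

namespace Pool.Agent.S0942

abbrev V := ℕ × ℤ → ℚ

/-- the sign function: the points `(n, j)` with `0 < j < n` are positive -/
def s (p : ℕ × ℤ) : ℚ := if 0 < p.2 ∧ p.2 < p.1 then 1 else -1

theorem s_sq (p : ℕ × ℤ) : s p * s p = 1 := by
  unfold s
  split_ifs <;> norm_num

/-- multiplication by the sign function -/
def aL : V ≃ₗ[ℚ] V where
  toFun F := fun p => s p * F p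
  invFun F := fun p => s p * F p
  left_inv F := by
    funext p
    show s p * (s p * F p) = F p
    rw [← mul_assoc, s_sq, one_mul]
  right_inv F := by
    funext p
    show s p * (s p * F p) = F p
    rw [← mul_assoc, s_sq, one_mul]
  map_add' F H := by
    funext p
    show s p * (F p + H p) = s p * F p + s p * H p
    ring
  map_smul' c F := by
    funext p
    show s p * (c * F p) = c * (s p * F p)
    ring

/-- the shift -/
def tL : V ≃ₗ[ℚ] V where
  toFun F := fun p => F (p.1, p.2 + 1)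
  invFun F := fun p => F (p.1, p.2 - 1)
  left_inv F := by
    funext p
    simp
  right_inv F := by
    funext p
    simp
  map_add' F H := rfl
  map_smul' c F := rfl

theorem aL_apply (F : V) (p : ℕ × ℤ) : aL F p = s p * F p := rfl
theorem tL_apply (F : V) (p : ℕ × ℤ) : tL F p = F (p.1, p.2 + 1) := rfl
theorem tL_inv_apply (F : V) (p : ℕ × ℤ) : tL⁻¹ F p = F (p.1, p.2 - 1) := rfl

theorem tL_pow (n : ℕ) (F : V) (p : ℕ × ℤ) : (tL ^ n) F p = F (p.1, p.2 + n) := by
  induction n generalizing p with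
  | zero => simp
  | succ n ih =>
    rw [pow_succ', LinearEquiv.mul_apply, tL_apply, ih]
    congr 2
    push_cast
    ring

theorem aL_mul : aL * aL = 1 := by
  ext1 F
  funext p
  rw [LinearEquiv.mul_apply, aL_apply, aL_apply, ← mul_assoc, s_sq, one_mul]
  rfl

/-- the group -/
def G : Subgroup (V ≃ₗ[ℚ] V) := Subgroup.closure {aL, tL}

def a : G := ⟨aL, Subgroup.subset_closure (by simp)⟩
def t : G := ⟨tL, Subgroup.subset_closure (by simp)⟩

/-- the conjugates of `a` -/
def an (n : ℕ) : G := t ^ n * a * (t ^ n)⁻¹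

theorem an_apply (n : ℕ) (F : V) (p : ℕ × ℤ) :
    (an n : V ≃ₗ[ℚ] V) F p = s (p.1, p.2 + n) * F p := by
  have h : (an n : V ≃ₗ[ℚ] V) F = (tL ^ n) (aL (((tL ^ n)⁻¹ : V ≃ₗ[ℚ] V) F)) := rfl
  have h2 : (tL ^ n) (((tL ^ n)⁻¹ : V ≃ₗ[ℚ] V) F) = F := by
    rw [← LinearEquiv.mul_apply, mul_inv_cancel]
    rfl
  rw [h, tL_pow, aL_apply, ← tL_pow n (((tL ^ n)⁻¹ : V ≃ₗ[ℚ] V) F) p, h2]

theorem a_mul : a * a = 1 := Subtype.ext aL_mul

theorem an_mul (n : ℕ) : an n * an n = 1 := by
  unfold an
  have : t ^ n * a * (t ^ n)⁻¹ * (t ^ n * a * (t ^ n)⁻¹) = t ^ n * (a * a) * (t ^ n)⁻¹ := by group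
  rw [this, a_mul]
  group

theorem a_an (n : ℕ) : a * an n = an n * a := by
  apply Subtype.ext
  ext1 F
  funext p
  show aL ((an n : V ≃ₗ[ℚ] V) F) p = (an n : V ≃ₗ[ℚ] V) (aL F) p
  rw [an_apply, aL_apply, aL_apply, an_apply]
  ring

theorem t_a (n : ℕ) : t ^ n * a = an n * t ^ n := by
  unfold an
  group

/-! ### finite range -/

def FR (N : ℕ) (T : V → V) : Prop :=
  ∀ F p, (∀ k : ℤ, |k| ≤ N → F (p.1, p.2 + k) = 0) → T F p = 0

theorem FR.comp {N M : ℕ} {T T' : V → V} (h : FR N T) (h' : FR M T') : FR (N + M) (T ∘ T') := by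
  intro F p hF
  apply h
  intro k hk
  apply h'
  intro l hl
  rw [add_assoc]
  apply hF
  push_cast
  exact (abs_add_le k l).trans (add_le_add hk hl)

theorem FR.mono {N M : ℕ} {T : V → V} (h : FR N T) (hNM : N ≤ M) : FR M T := by
  intro F p hF
  apply h
  intro k hk
  apply hF
  exact hk.trans (by exact_mod_cast hNM)

theorem FR_G (g : V ≃ₗ[ℚ] V) (hg : g ∈ G) : ∃ N, FR N g ∧ FR N (g⁻¹ : V ≃ₗ[ℚ] V) := by
  induction hg using Subgroup.closure_induction with
  | mem x hx =>
    refine ⟨1, ?_⟩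
    rcases hx with rfl | hx
    · have hinv : (aL⁻¹ : V ≃ₗ[ℚ] V) = aL := inv_eq_of_mul_eq_one_right aL_mul
      rw [hinv]
      have : FR 1 aL := by
        intro F p hF
        have := hF 0 (by simp)
        rw [aL_apply]
        simp at this
        rw [this, mul_zero]
      exact ⟨this, this⟩
    · rw [Set.mem_singleton_iff] at hx
      subst hx
      constructor
      · intro F p hF
        exact hF 1 (by simp)
      · intro F p hF
        exact hF (-1) (by simp)
  | one =>
    refine ⟨0, ?_, ?_⟩ <;>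
    · intro F p hF
      have := hF 0 (by simp)
      simpa using this
  | mul x y _ _ hx hy =>
    obtain ⟨N, h1, h2⟩ := hx
    obtain ⟨M, h3, h4⟩ := hy
    refine ⟨N + M, h1.comp h3, ?_⟩
    rw [mul_inv_rev, add_comm]
    exact h4.comp h2
  | inv x _ hx =>
    obtain ⟨N, h1, h2⟩ := hx
    exact ⟨N, h2, by rwa [inv_inv]⟩

abbrev A := MonoidAlgebra ℚ G

/-- the action of `G` -/
def rho : G →* Module.End ℚ V where
  toFun g := ((g : V ≃ₗ[ℚ] V) : V →ₗ[ℚ] V)
  map_one' := rfl
  map_mul' _ _ := rfl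

/-- the action of the group algebra -/
noncomputable def Th : A →ₐ[ℚ] Module.End ℚ V := MonoidAlgebra.lift ℚ _ G rho

theorem Th_of (g : G) : Th (MonoidAlgebra.of ℚ G g) = rho g := MonoidAlgebra.lift_of _ _

theorem FR_Th (b : A) : ∃ N, FR N (Th b) := by
  induction b using MonoidAlgebra.induction_on with
  | of g =>
    obtain ⟨N, hN, _⟩ := FR_G g g.2
    exact ⟨N, by rw [Th_of]; exact hN⟩
  | add x y hx hy =>
    obtain ⟨N, hN⟩ := hx
    obtain ⟨M, hM⟩ := hy
    refine ⟨max N M, fun F p hF => ?_⟩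
    rw [map_add, LinearMap.add_apply, Pi.add_apply, hN.mono (le_max_left _ _) F p hF,
      hM.mono (le_max_right _ _) F p hF, add_zero]
  | smul c x hx =>
    obtain ⟨N, hN⟩ := hx
    refine ⟨N, fun F p hF => ?_⟩
    rw [map_smul, LinearMap.smul_apply, Pi.smul_apply, hN F p hF, smul_zero]

/-! ### the element -/

noncomputable def oA : A := MonoidAlgebra.of ℚ G a
noncomputable def oT : A := MonoidAlgebra.of ℚ G t
noncomputable def oN (n : ℕ) : A := MonoidAlgebra.of ℚ G (an n)

noncomputable def al : A := (oT - 1) * (1 + oA)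

noncomputable def ka (n : ℕ) : A := (1 - oA) * (1 - oN n) * ∑ i ∈ Finset.range n, oT ^ i

theorem ka_al (n : ℕ) : ka n * al = 0 := by
  have h1 : oA * oA = 1 := by
    unfold oA
    rw [← map_mul, a_mul, map_one]
  have h2 : oN n * oN n = 1 := by
    unfold oN
    rw [← map_mul, an_mul, map_one]
  have h3 : oA * oN n = oN n * oA := by
    unfold oN oA
    rw [← map_mul, ← map_mul, a_an]
  have h4 : oT ^ n * oA = oN n * oT ^ n := by
    unfold oN oA oT
    rw [← map_pow, ← map_mul, ← map_mul, t_a]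
  have h5 : (∑ i ∈ Finset.range n, oT ^ i) * (oT - 1) = oT ^ n - 1 := geom_sum_mul oT n
  calc ka n * al = (1 - oA) * (1 - oN n) * ((∑ i ∈ Finset.range n, oT ^ i) * (oT - 1)) * (1 + oA) := by
        unfold ka al
        simp only [mul_assoc]
    _ = (1 - oA) * (1 - oN n) * (oT ^ n * (1 + oA)) - (1 - oA) * (1 - oN n) * (1 + oA) := by
        rw [h5]
        noncomm_ring
    _ = (1 - oA) * ((1 - oN n) * (1 + oN n)) * oT ^ n - (1 - oA) * (1 - oN n) * (1 + oA) := by
        rw [mul_add (oT ^ n), h4]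
        noncomm_ring
    _ = - ((1 - oN n) * ((1 - oA) * (1 + oA))) := by
        have e1 : (1 - oN n) * (1 + oN n) = 0 := by
          have : (1 - oN n) * (1 + oN n) = 1 - oN n * oN n := by noncomm_ring
          rw [this, h2, sub_self]
        have e2 : (1 - oA) * (1 - oN n) = (1 - oN n) * (1 - oA) := by
          have l : (1 - oA) * (1 - oN n) = 1 - oA - oN n + oA * oN n := by noncomm_ring
          have r : (1 - oN n) * (1 - oA) = 1 - oA - oN n + oN n * oA := by noncomm_ring
          rw [l, r, h3]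
        rw [e1, e2, mul_zero, zero_mul, zero_sub, mul_assoc]
    _ = 0 := by
        have e1 : (1 - oA) * (1 + oA) = 0 := by
          have : (1 - oA) * (1 + oA) = 1 - oA * oA := by noncomm_ring
          rw [this, h1, sub_self]
        rw [e1, mul_zero, neg_zero]

/-- delta functions -/
def dl (n : ℕ) (j : ℤ) : V := fun p => if p = (n, j) then 1 else 0

theorem Th_al_dl (n : ℕ) (j : ℤ) (h0 : 0 < j) (hn : j < n) :
    Th al (dl n j) = (2 : ℚ) • (dl n (j - 1) - dl n j) := by
  have h1 : Th al = (rho t - 1) * (1 + rho a) := by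
    unfold al oA oT
    rw [map_mul, map_sub, map_add, map_one, Th_of, Th_of]
  have h2 : (1 + rho a) (dl n j) = (2 : ℚ) • dl n j := by
    funext p
    show dl n j p + s p * dl n j p = 2 * dl n j p
    unfold dl
    by_cases h : p = (n, j)
    · rw [if_pos h, h]
      unfold s
      rw [if_pos ⟨h0, hn⟩]
      norm_num
    · rw [if_neg h]
      norm_num
  rw [h1, Module.End.mul_apply, h2, map_smul]
  congr 1
  funext p
  show dl n j (p.1, p.2 + 1) - dl n j p = dl n (j - 1) p - dl n j p
  congr 1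
  unfold dl
  congr 1
  rw [eq_iff_iff, Prod.ext_iff, Prod.ext_iff]
  simp only
  constructor
  · rintro ⟨h1, h2⟩; exact ⟨h1, by omega⟩
  · rintro ⟨h1, h2⟩; exact ⟨h1, by omega⟩

theorem step_eq (b : A) (hb : b * al = 0) (n : ℕ) (j : ℤ) (h0 : 0 < j) (hn : j < n) :
    Th b (dl n (j - 1)) = Th b (dl n j) := by
  have h1 : Th b (Th al (dl n j)) = 0 := by
    rw [← Module.End.mul_apply, ← map_mul, hb, map_zero]
    rfl
  rw [Th_al_dl n j h0 hn, map_smul, map_sub] at h1
  have h2 : Th b (dl n (j - 1)) - Th b (dl n j) = 0 := by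
    rcases smul_eq_zero.1 h1 with h | h
    · norm_num at h
    · exact h
  exact sub_eq_zero.1 h2

theorem chain_eq (b : A) (hb : b * al = 0) (n : ℕ) (j : ℕ) (hn : j < n) :
    Th b (dl n 0) = Th b (dl n j) := by
  induction j with
  | zero => rfl
  | succ j ih =>
    rw [ih (by omega)]
    have := step_eq b hb n ((j + 1 : ℕ) : ℤ) (by positivity) (by exact_mod_cast hn)
    rw [← this]
    congr 2
    push_cast
    ring

theorem vanish (b : A) (hb : b * al = 0) (N : ℕ) (hN : FR N (Th b)) (n : ℕ) (hn : 2 * N + 2 ≤ n) :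
    Th b (dl n 0) = 0 := by
  funext p
  by_cases h : |p.2| ≤ N
  · rw [chain_eq b hb n (2 * N + 1) (by omega)]
    apply hN
    intro k hk
    unfold dl
    rw [if_neg]
    intro h2
    rw [Prod.ext_iff] at h2
    have h3 := h2.2
    simp only at h3
    rw [abs_le] at h hk
    push_cast at h3
    omega
  · apply hN
    intro k hk
    unfold dl
    rw [if_neg]
    intro h2
    rw [Prod.ext_iff] at h2
    have h3 := h2.2
    simp only at h3
    apply h
    rw [abs_le] at hk ⊢
    omega

theorem ka_ne (n : ℕ) (hn : 1 ≤ n) : Th (ka n) (dl n 0) (n, 0) = 4 := by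
  have h1 : Th (ka n) = (1 - rho a) * (1 - rho (an n)) * ∑ i ∈ Finset.range n, rho t ^ i := by
    unfold ka oA oN oT
    rw [map_mul, map_mul, map_sub, map_sub, map_sum, map_one, Th_of, Th_of]
    simp only [map_pow, Th_of]
  have h2 : ∀ i, ((rho t ^ i) (dl n 0)) (n, 0) = if i = 0 then 1 else 0 := by
    intro i
    rw [← map_pow]
    show (tL ^ i) (dl n 0) (n, 0) = _
    rw [tL_pow]
    unfold dl
    simp
  rw [h1, Module.End.mul_apply, Module.End.mul_apply, LinearMap.sum_apply]
  generalize hH : (∑ i ∈ Finset.range n, (rho t ^ i) (dl n 0)) = H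
  have h3 : H (n, 0) = 1 := by
    rw [← hH, Finset.sum_apply]
    simp only [h2]
    rw [Finset.sum_ite_eq' (Finset.range n) 0]
    rw [if_pos (Finset.mem_range.2 (by omega))]
  show (H (n, 0) - (an n : V ≃ₗ[ℚ] V) H (n, 0)) -
    s (n, 0) * (H (n, 0) - (an n : V ≃ₗ[ℚ] V) H (n, 0)) = 4
  rw [an_apply, h3]
  unfold s
  simp
  norm_num

/-- The negation of the preceding statement: For every field K, every group G and every element a of the group algebra K[G], the set of x with x·a = 0 equals the left ideal generated by some finite set of elements of K[G]. -/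
theorem result :
    ¬ (∀ (K : Type) [Field K] (G : Type) [Group G] (a : MonoidAlgebra K G),
      ∃ s : Finset (MonoidAlgebra K G),
        ((Submodule.span (MonoidAlgebra K G) (s : Set (MonoidAlgebra K G)) :
            Set (MonoidAlgebra K G)) = {x : MonoidAlgebra K G | x * a = 0})) := by
  intro H
  obtain ⟨S, hS⟩ := H ℚ G al
  have hann : ∀ b ∈ S, b * al = 0 := by
    intro b hb
    have : b ∈ (Submodule.span A (S : Set A) : Set A) := Submodule.subset_span hb
    rw [hS] at this
    exact this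
  have hN : ∃ N, ∀ b ∈ S, FR N (Th b) := by
    choose f hf using FR_Th
    exact ⟨S.sup f, fun b hb => (hf b).mono (Finset.le_sup hb)⟩
  obtain ⟨N, hN⟩ := hN
  have hmem : ka (2 * N + 2) ∈ (Submodule.span A (S : Set A) : Set A) := by
    rw [hS]
    exact ka_al _
  have hzero : ∀ x ∈ Submodule.span A (S : Set A), Th x (dl (2 * N + 2) 0) = 0 := by
    intro x hx
    induction hx using Submodule.span_induction with
    | mem x hx => exact vanish x (hann x hx) N (hN x hx) _ le_rfl
    | zero => rw [map_zero]; rfl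
    | add x y _ _ hx hy => rw [map_add, LinearMap.add_apply, hx, hy, add_zero]
    | smul c x _ hx => rw [smul_eq_mul, map_mul, Module.End.mul_apply, hx, map_zero]
  have h1 := ka_ne (2 * N + 2) (by omega)
  rw [hzero _ hmem] at h1
  norm_num at h1

end Pool.Agent.S0942
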