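import Pool.Statements.S1019
import Pool.Agent.H5.Md4adc1

set_option autoImplicit false
open Pool Pool.MP_d4adc1_al

namespace Pool.Agent.S1019

/-- There exist two bi-ordered groups and a common subgroup embedded in both with the same induced order, whose amalgamated free product admits a bi-invariant lattice order but no bi-invariant total order. -/
theorem result :
    ∃ (G : Fin 2 → Type) (_ : ∀ i, Group (G i)) (_ : ∀ i, LinearOrder (G i))
      (A : Type) (_ : Group A) (φ : ∀ i, A →* G i),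
      (∀ (i : Fin 2) (a b c : G i), a ≤ b → c * a ≤ c * b ∧ a * c ≤ b * c) ∧
      (∀ i, Function.Injective (φ i)) ∧
      (∀ a b : A, φ 0 a ≤ φ 0 b ↔ φ 1 a ≤ φ 1 b) ∧
      (∃ L : Lattice (Monoid.PushoutI φ), ∀ a b c : Monoid.PushoutI φ,
          L.le a b → L.le (c * a) (c * b) ∧ L.le (a * c) (b * c)) ∧
      ¬ ∃ O : LinearOrder (Monoid.PushoutI φ), ∀ a b c : Monoid.PushoutI φ,
          O.le a b → O.le (c * a) (c * b) ∧ O.le (a * c) (b * c) := by
  exact ⟨fun _ => Pool.Agent.H5.Md4adc1.Z2, fun _ => inferInstance, fun _ => inferInstance,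
    Pool.Agent.H5.Md4adc1.Z2, inferInstance, Pool.Agent.H5.Md4adc1.phi,
    fun _ a b c h => ⟨mul_le_mul_right h c, mul_le_mul_left h c⟩,
    Pool.Agent.H5.Md4adc1.phi_inj, Pool.Agent.H5.Md4adc1.phi_le,
    ⟨Pool.Agent.H5.Md4adc1.lat, Pool.Agent.H5.Md4adc1.lat_inv⟩,
    Pool.Agent.H5.Md4adc1.no_order⟩

end Pool.Agent.S1019
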