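import Pool.Statements.S1056

set_option autoImplicit false
open Pool Pool.MP_df51bf_al

namespace Pool.Agent.S1056

/-- The negation of the preceding statement: Take a free group X of rank at least 2, a nontrivial normal subgroup N that is not a maximal subgroup, and a proper subgroup T containing N. Then [T,N] is a proper subgroup of [X,N]. -/
theorem result :
    ¬ (∀ (α : Type) (a b : α), a ≠ b →
      ∀ (N T : Subgroup (FreeGroup α)), N.Normal → N ≠ ⊥ → ¬ IsCoatom N →
        N ≤ T → T ≠ ⊤ →
          ⁅T, N⁆ < ⁅(⊤ : Subgroup (FreeGroup α)), N⁆) := by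
  intro H
  classical
  let A : FreeGroup (Fin 2) := FreeGroup.of 0
  let B : FreeGroup (Fin 2) := FreeGroup.of 1
  let N : Subgroup (FreeGroup (Fin 2)) := Subgroup.normalClosure {A ^ 2}
  let χ : FreeGroup (Fin 2) →* Multiplicative (ZMod 2) :=
    FreeGroup.lift (fun i : Fin 2 => if i = 0 then Multiplicative.ofAdd (1 : ZMod 2) else 1)
  let T : Subgroup (FreeGroup (Fin 2)) := χ.ker
  have hNn : N.Normal := Subgroup.normalClosure_normal
  have hTn : T.Normal := χ.normal_ker
  have hA2 : A ^ 2 ∈ N := Subgroup.subset_normalClosure (Set.mem_singleton _)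
  have hχA : χ A = Multiplicative.ofAdd (1 : ZMod 2) := by
    (exact (FreeGroup.lift_apply_of).trans (if_pos rfl))
  have hχB : χ B = 1 := by
    (exact (FreeGroup.lift_apply_of).trans (if_neg (by decide)))
  have hNT : N ≤ T := by
    apply Subgroup.normalClosure_le_normal
    rintro x (rfl : x = A ^ 2)
    show χ (A ^ 2) = 1
    rw [map_pow, hχA]
    decide
  have hTtop : T ≠ ⊤ := by
    intro h
    have : A ∈ T := by rw [h]; trivial
    have h1 : χ A = 1 := this
    rw [hχA] at h1
    revert h1
    decide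
  have hNbot : N ≠ ⊥ := by
    intro h
    rw [h, Subgroup.mem_bot] at hA2
    let ψ : FreeGroup (Fin 2) →* Multiplicative ℤ :=
      FreeGroup.lift (fun i : Fin 2 => if i = 0 then Multiplicative.ofAdd (1 : ℤ) else 1)
    have h1 : ψ (A ^ 2) = 1 := by rw [hA2, map_one]
    have h2 : ψ A = Multiplicative.ofAdd (1 : ℤ) := by (exact (FreeGroup.lift_apply_of).trans (if_pos rfl))
    rw [map_pow, h2] at h1
    revert h1
    decide
  have hNco : ¬ IsCoatom N := by
    intro h
    have hBT : B ∈ T := hχB
    have hBN : B ∉ N := by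
      intro hB
      let ψ : FreeGroup (Fin 2) →* Multiplicative ℤ :=
        FreeGroup.lift (fun i : Fin 2 => if i = 0 then 1 else Multiplicative.ofAdd (1 : ℤ))
      have hk : N ≤ ψ.ker := by
        apply Subgroup.normalClosure_le_normal
        rintro x (rfl : x = A ^ 2)
        show ψ (A ^ 2) = 1
        have : ψ A = 1 := by (exact (FreeGroup.lift_apply_of).trans (if_pos rfl))
        rw [map_pow, this, one_pow]
      have h1 : ψ B = 1 := hk hB
      have h2 : ψ B = Multiplicative.ofAdd (1 : ℤ) := by (exact (FreeGroup.lift_apply_of).trans (if_neg (by decide)))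
      rw [h2] at h1
      revert h1
      decide
    have hlt : N < T := lt_of_le_of_ne hNT (by
      intro h'
      exact hBN (h' ▸ hBT))
    exact hTtop (h.2 T hlt)
  have key := H (Fin 2) 0 1 (by decide) N T hNn hNbot hNco hNT hTtop
  refine key.not_ge ?_
  have hCn : (⁅T, N⁆ : Subgroup (FreeGroup (Fin 2))).Normal := Subgroup.commutator_normal T N
  let π : FreeGroup (Fin 2) →* FreeGroup (Fin 2) ⧸ (⁅T, N⁆ : Subgroup (FreeGroup (Fin 2))) := QuotientGroup.mk' _
  have hπ : ∀ x, π x = 1 ↔ x ∈ (⁅T, N⁆ : Subgroup (FreeGroup (Fin 2))) := fun x => QuotientGroup.eq_one_iff x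
  have hcomm : ∀ t ∈ T, ∀ n ∈ N, π t * π n = π n * π t := by
    intro t ht n hn
    have h1 : π (t * n * t⁻¹ * n⁻¹) = 1 := (hπ _).2 (Subgroup.commutator_mem_commutator ht hn)
    rw [map_mul, map_mul, map_mul, map_inv, map_inv] at h1
    rw [mul_inv_eq_one, mul_inv_eq_iff_eq_mul] at h1
    exact h1
  have hsplit : ∀ x : FreeGroup (Fin 2), x ∈ T ∨ x * A⁻¹ ∈ T := by
    intro x
    have h1 : ∀ z : Multiplicative (ZMod 2), z = 1 ∨ z * (Multiplicative.ofAdd (1 : ZMod 2))⁻¹ = 1 := by
      decide
    rcases h1 (χ x) with h | h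
    · exact Or.inl h
    · right
      show χ (x * A⁻¹) = 1
      rw [map_mul, map_inv, hχA]
      exact h
  have hcen : N ≤ (Subgroup.center (FreeGroup (Fin 2) ⧸ (⁅T, N⁆ : Subgroup (FreeGroup (Fin 2))))).comap π := by
    apply Subgroup.normalClosure_le_normal
    rintro y (rfl : y = A ^ 2)
    show π (A ^ 2) ∈ Subgroup.center _
    rw [Subgroup.mem_center_iff]
    intro g
    obtain ⟨x, rfl⟩ := QuotientGroup.mk'_surjective _ g
    show π x * π (A ^ 2) = π (A ^ 2) * π x
    rcases hsplit x with h | h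
    · exact hcomm x h _ hA2
    · have h1 := hcomm _ h _ hA2
      have h2 : π x = π (x * A⁻¹) * π A := by rw [← map_mul, inv_mul_cancel_right]
      have h3 : π A * π (A ^ 2) = π (A ^ 2) * π A := by
        rw [← map_mul, ← map_mul, ← pow_succ, ← pow_succ']
      rw [h2, mul_assoc, h3, ← mul_assoc, h1, mul_assoc]
  rw [Subgroup.commutator_le]
  intro x _ n hn
  have := hcen hn
  rw [Subgroup.mem_comap, Subgroup.mem_center_iff] at this
  have h4 := this (π x)
  rw [← hπ]
  show π (x * n * x⁻¹ * n⁻¹) = 1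
  rw [map_mul, map_mul, map_mul, map_inv, map_inv, mul_inv_eq_one, mul_inv_eq_iff_eq_mul]
  exact h4

end Pool.Agent.S1056
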