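import Pool.Statements.S1064
import Pool.Agent.H5.Me00c87D

set_option autoImplicit false
open Pool Pool.MP_e00c87_al

namespace Pool.Agent.S1064

/-- The negation of the preceding statement: For any saturated formation F and finite soluble minimal non-F-group G whose F-residual is a Sylow p-subgroup, that residual is a homomorphic image of the Sylow p-subgroup of PSU(3,q) over the field of order q², q = p^n, for some n ≥ 1. -/
theorem result :
    ¬ (∀ (F : ∀ (H : Type) [Group H], Prop),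
    (∀ (H K : Type) [Group H] [Group K] [Finite H] (f : H →* K),
        Function.Surjective f → F H → F K) →
    (∀ (H K₁ K₂ : Type) [Group H] [Group K₁] [Group K₂] [Finite H]
        (f₁ : H →* K₁) (f₂ : H →* K₂),
        Function.Surjective f₁ → Function.Surjective f₂ → F K₁ → F K₂ →
        F ↥(f₁.prod f₂).range) →
    (∀ (H K : Type) [Group H] [Group K] [Finite H] (f : H →* K),
        Function.Surjective f → (∀ M : Subgroup H, IsCoatom M → f.ker ≤ M) →
        F K → F H) →
    ∀ (G : Type) [Group G] [Finite G],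
      IsSolvable G → ¬ F G → (∀ K : Subgroup G, K ≠ ⊤ → F ↥K) →
      ∀ (p : ℕ) [Fact p.Prime] (R : Subgroup G),
        R = sInf {K : Subgroup G | ∃ (H : Type) (_ : Group H) (_ : Finite H),
              F H ∧ ∃ f : G →* H, Function.Surjective f ∧ f.ker = K} →
        (∃ P : Sylow p G, (P : Subgroup G) = R) →
        ∃ n : ℕ, 0 < n ∧
          ∃ φ : GaloisField p (2 * n) × GaloisField p (2 * n) → G,
            (∀ x : GaloisField p (2 * n) × GaloisField p (2 * n),
                x.2 + x.2 ^ (p ^ n) + x.1 ^ (p ^ n + 1) = 0 → φ x ∈ R) ∧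
            (∀ g ∈ R, ∃ x : GaloisField p (2 * n) × GaloisField p (2 * n),
                x.2 + x.2 ^ (p ^ n) + x.1 ^ (p ^ n + 1) = 0 ∧ φ x = g) ∧
            (∀ x y : GaloisField p (2 * n) × GaloisField p (2 * n),
                x.2 + x.2 ^ (p ^ n) + x.1 ^ (p ^ n + 1) = 0 →
                y.2 + y.2 ^ (p ^ n) + y.1 ^ (p ^ n + 1) = 0 →
                φ (x.1 + y.1, x.2 + y.2 - x.1 * y.1 ^ (p ^ n)) = φ x * φ y)) := by
  intro hmain
  haveI hf3 : Fact (Nat.Prime 3) := ⟨Nat.prime_three⟩
  obtain ⟨n, hn, φ, h1, h2, h3⟩ := hmain (fun H _ => Pool.Agent.H5.Me00c87.FF H)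
    (fun H K _ _ _ f hf h => Pool.Agent.H5.Me00c87.FF_quot f hf h)
    (fun H K₁ K₂ _ _ _ _ f₁ f₂ _ _ h1 h2 => Pool.Agent.H5.Me00c87.FF_sub _ h1 h2)
    (fun H K _ _ _ f hf hM h => Pool.Agent.H5.Me00c87.FF_sat f hf hM h)
    Pool.Agent.H5.Me00c87.GG Pool.Agent.H5.Me00c87.solv Pool.Agent.H5.Me00c87.not_FF
    (fun K hK => Pool.Agent.H5.Me00c87.FF_proper K hK) 3 Pool.Agent.H5.Me00c87.pr.ker
    (by
      apply le_antisymm
      · apply le_sInf
        rintro _ ⟨H, _, _, hH, f, _, rfl⟩
        exact Pool.Agent.H5.Me00c87.resid f hH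
      · apply sInf_le
        exact ⟨Pool.Agent.H5.Me00c87.HH, inferInstance, inferInstance,
          Pool.Agent.H5.Me00c87.FF_HH, Pool.Agent.H5.Me00c87.pr,
          Pool.Agent.H5.Me00c87.pr_surj, rfl⟩)
    Pool.Agent.H5.Me00c87.syl
  exact Pool.Agent.H5.Me00c87.unitary n hn φ h2 h3 h1

end Pool.Agent.S1064
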