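import Pool.Statements.S1066
import Pool.Agent.H5.Me05a1e

set_option autoImplicit false
open Pool Pool.MP_e05a1e_al

namespace Pool.Agent.S1066

/-- The negation of the preceding statement: For every algebraically closed K and every Zariski-closed irreducible subgroup of GL_n(K) that is simple as an abstract group, every word map from a word that is nontrivial and not a proper power is surjective. -/
theorem result :
    ¬ (∀ (K : Type) [Field K] [IsAlgClosed K] (n : ℕ) (H : Subgroup (GL (Fin n) K)),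
      (∃ S : Set (MvPolynomial (Fin n × Fin n) K), ∀ g : GL (Fin n) K,
        g ∈ H ↔ ∀ p ∈ S,
          MvPolynomial.eval (fun ij : Fin n × Fin n => (↑g : Matrix (Fin n) (Fin n) K) ij.1 ij.2) p = 0) →
      (∀ p q : MvPolynomial (Fin n × Fin n) K,
        (∀ g ∈ H, MvPolynomial.eval
            (fun ij : Fin n × Fin n => (↑g : Matrix (Fin n) (Fin n) K) ij.1 ij.2) (p * q) = 0) →
        (∀ g ∈ H, MvPolynomial.eval
            (fun ij : Fin n × Fin n => (↑g : Matrix (Fin n) (Fin n) K) ij.1 ij.2) p = 0) ∨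
        (∀ g ∈ H, MvPolynomial.eval
            (fun ij : Fin n × Fin n => (↑g : Matrix (Fin n) (Fin n) K) ij.1 ij.2) q = 0)) →
      IsSimpleGroup H →
      ∀ (d : ℕ) (w : FreeGroup (Fin d)), w ≠ 1 →
        (∀ (v : FreeGroup (Fin d)) (k : ℕ), 2 ≤ k → w ≠ v ^ k) →
        ∀ h : H, ∃ x : Fin d → H, FreeGroup.lift x w = h) := by
  intro Hyp
  classical
  have : Fact (Nat.Prime 2) := ⟨Nat.prime_two⟩
  have hchar : CharP (AlgebraicClosure (ZMod 2)) 2 :=
    charP_of_injective_algebraMap (FaithfulSMul.algebraMap_injective (ZMod 2) _) 2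
  have hinf : Infinite (AlgebraicClosure (ZMod 2)) := IsAlgClosed.instInfinite
  have hex : ∃ a : AlgebraicClosure (ZMod 2), a ≠ 0 ∧ a ≠ 1 := by
    obtain ⟨a, ha⟩ := Infinite.exists_notMem_finset ({0, 1} : Finset (AlgebraicClosure (ZMod 2)))
    simp only [Finset.mem_insert, Finset.mem_singleton, not_or] at ha
    exact ⟨a, ha.1, ha.2⟩
  obtain ⟨h, hh⟩ := Pool.Agent.H5.Me05a1e.not_surj (K := AlgebraicClosure (ZMod 2))
  obtain ⟨x, hx⟩ := Hyp (AlgebraicClosure (ZMod 2)) 2 (Pool.Agent.H5.Me05a1e.H _)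
    Pool.Agent.H5.Me05a1e.closed_H Pool.Agent.H5.Me05a1e.irred_H
    (Pool.Agent.H5.Me05a1e.simple_H hex) 2 Pool.Agent.H5.Me05a1e.w
    Pool.Agent.H5.Me05a1e.w_ne_one Pool.Agent.H5.Me05a1e.not_pow h
  exact hh x hx

end Pool.Agent.S1066
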