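import Pool.Statements.S1292
-- import your own Pool.Agent.* helpers here

set_option autoImplicit false
open Pool Pool.MP_275f89_an

namespace Pool.Agent.S1292

/-- the unit step -/
noncomputable def e0 : ℝ → ℝ := fun x : ℝ => if 0 < x then (1 : ℝ) else 0

/-- the set of distance distribution functions -/
def DD : Set (ℝ → ℝ) :=
  {F : ℝ → ℝ | Monotone F ∧ (∀ x, 0 ≤ F x ∧ F x ≤ 1) ∧ (∀ x : ℝ, x ≤ 0 → F x = 0) ∧
            ∀ x : ℝ, ContinuousWithinAt F (Set.Iio x) x}

/-- `F` has limit one at infinity -/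
def Proper (F : ℝ → ℝ) : Prop := ∀ ε : ℝ, 0 < ε → ∃ x, 1 - ε < F x

open Classical in
/-- the triangle function: pointwise minimum on functions with limit one at infinity, and
the least element as soon as a function other than the unit has limit less than one. -/
noncomputable def T (F G : ℝ → ℝ) : ℝ → ℝ :=
  if F = e0 then G else if G = e0 then F else if Proper F ∧ Proper G then F ⊓ G else 0

lemma e0_mem : e0 ∈ DD := by
  refine ⟨?_, ?_, ?_, ?_⟩
  · intro x y hxy
    unfold e0
    by_cases hx : 0 < x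
    · have hy : 0 < y := lt_of_lt_of_le hx hxy
      simp [hx, hy]
    · simp only [hx, if_false]
      split_ifs <;> norm_num
  · intro x
    unfold e0
    split_ifs <;> norm_num
  · intro x hx
    unfold e0
    simp [not_lt.mpr hx]
  · intro x
    unfold e0
    by_cases hx : 0 < x
    · have h1 : (fun x : ℝ => if 0 < x then (1 : ℝ) else 0) =ᶠ[nhdsWithin x (Set.Iio x)]
          fun _ => (1:ℝ) := by
        have : Set.Ioi (0:ℝ) ∈ nhdsWithin x (Set.Iio x) :=
          mem_nhdsWithin_of_mem_nhds (Ioi_mem_nhds hx)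
        filter_upwards [this] with y hy
        simp only [Set.mem_Ioi] at hy
        simp [hy]
      exact ContinuousWithinAt.congr_of_eventuallyEq continuousWithinAt_const h1 (by simp [hx])
    · have h1 : (fun x : ℝ => if 0 < x then (1 : ℝ) else 0) =ᶠ[nhdsWithin x (Set.Iio x)]
          fun _ => (0:ℝ) := by
        filter_upwards [self_mem_nhdsWithin] with y hy
        simp only [Set.mem_Iio] at hy
        have : ¬ 0 < y := by intro h; exact hx (lt_trans h hy)
        simp [this]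
      exact ContinuousWithinAt.congr_of_eventuallyEq continuousWithinAt_const h1 (by simp [hx])

lemma zero_mem : (0 : ℝ → ℝ) ∈ DD := by
  refine ⟨?_, ?_, ?_, ?_⟩
  · intro x y _; simp
  · intro x; simp
  · intro x _; rfl
  · intro x; exact continuousWithinAt_const

lemma le_e0 {F : ℝ → ℝ} (hF : F ∈ DD) : F ≤ e0 := by
  intro x
  unfold e0
  by_cases hx : 0 < x
  · simpa [hx] using (hF.2.1 x).2
  · simp only [hx, if_false]
    exact (hF.2.2.1 x (not_lt.mp hx)).le

lemma zero_le' {F : ℝ → ℝ} (hF : F ∈ DD) : 0 ≤ F := fun x => (hF.2.1 x).1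

lemma inf_mem {F G : ℝ → ℝ} (hF : F ∈ DD) (hG : G ∈ DD) : F ⊓ G ∈ DD := by
  refine ⟨hF.1.inf hG.1, ?_, ?_, ?_⟩
  · intro x
    constructor
    · exact le_inf (hF.2.1 x).1 (hG.2.1 x).1
    · exact le_trans inf_le_left (hF.2.1 x).2
  · intro x hx
    simp [hF.2.2.1 x hx, hG.2.2.1 x hx]
  · intro x
    exact (hF.2.2.2 x).inf (hG.2.2.2 x)

lemma proper_inf {F G : ℝ → ℝ} (hF : F ∈ DD) (hG : G ∈ DD) (pF : Proper F) (pG : Proper G) :
    Proper (F ⊓ G) := by
  intro ε hε
  obtain ⟨x, hx⟩ := pF ε hε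
  obtain ⟨y, hy⟩ := pG ε hε
  refine ⟨max x y, ?_⟩
  simp only [Pi.inf_apply]
  exact lt_inf_iff.mpr ⟨lt_of_lt_of_le hx (hF.1 (le_max_left _ _)),
    lt_of_lt_of_le hy (hG.1 (le_max_right _ _))⟩

lemma proper_mono {F G : ℝ → ℝ} (h : F ≤ G) (pF : Proper F) : Proper G := by
  intro ε hε
  obtain ⟨x, hx⟩ := pF ε hε
  exact ⟨x, lt_of_lt_of_le hx (h x)⟩

lemma not_proper_zero : ¬ Proper (0 : ℝ → ℝ) := by
  intro h
  obtain ⟨x, hx⟩ := h 1 one_pos
  simp at hx

lemma proper_e0 : Proper e0 := by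
  intro ε hε
  refine ⟨1, ?_⟩
  unfold e0
  simp [hε]

lemma zero_ne_e0 : (0 : ℝ → ℝ) ≠ e0 := by
  intro h
  have := congrFun h 1
  unfold e0 at this
  simp at this

lemma inf_ne_e0 {F G : ℝ → ℝ} (hF : F ∈ DD) (h : F ≠ e0) : F ⊓ G ≠ e0 := by
  intro h1
  apply h
  apply le_antisymm (le_e0 hF)
  rw [← h1]
  exact inf_le_left

lemma T_e0_left (G : ℝ → ℝ) : T e0 G = G := by
  unfold T; simp

lemma T_e0_right (F : ℝ → ℝ) : T F e0 = F := by
  unfold T
  by_cases h : F = e0
  · simp [h]
  · simp [h]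

lemma T_proper {F G : ℝ → ℝ} (hF : F ≠ e0) (hG : G ≠ e0) (pF : Proper F) (pG : Proper G) :
    T F G = F ⊓ G := by
  unfold T; simp [hF, hG, pF, pG]

lemma T_not_left {F G : ℝ → ℝ} (hF : F ≠ e0) (hG : G ≠ e0) (pF : ¬ Proper F) :
    T F G = 0 := by
  unfold T; simp [hF, hG, pF]

lemma T_not_right {F G : ℝ → ℝ} (hF : F ≠ e0) (hG : G ≠ e0) (pG : ¬ Proper G) :
    T F G = 0 := by
  unfold T; simp [hF, hG, pG]

lemma T_comm (F G : ℝ → ℝ) : T F G = T G F := by
  by_cases hF : F = e0
  · subst hF; rw [T_e0_left, T_e0_right]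
  by_cases hG : G = e0
  · subst hG; rw [T_e0_left, T_e0_right]
  by_cases pF : Proper F
  · by_cases pG : Proper G
    · rw [T_proper hF hG pF pG, T_proper hG hF pG pF, inf_comm]
    · rw [T_not_right hF hG pG, T_not_left hG hF pG]
  · rw [T_not_left hF hG pF, T_not_right hG hF pF]

lemma T_mem {F G : ℝ → ℝ} (hF : F ∈ DD) (hG : G ∈ DD) : T F G ∈ DD := by
  unfold T
  split_ifs
  · exact hG
  · exact hF
  · exact inf_mem hF hG
  · exact zero_mem

lemma T_assoc {F G H : ℝ → ℝ} (hF : F ∈ DD) (hG : G ∈ DD) (hH : H ∈ DD) :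
    T (T F G) H = T F (T G H) := by
  by_cases eF : F = e0
  · subst eF; rw [T_e0_left, T_e0_left]
  by_cases eG : G = e0
  · subst eG; rw [T_e0_left, T_e0_right]
  by_cases eH : H = e0
  · subst eH; rw [T_e0_right, T_e0_right]
  by_cases pF : Proper F
  · by_cases pG : Proper G
    · rw [T_proper eF eG pF pG]
      by_cases pH : Proper H
      · rw [T_proper eG eH pG pH,
          T_proper (inf_ne_e0 hF eF) eH (proper_inf hF hG pF pG) pH,
          T_proper eF (inf_ne_e0 hG eG) pF (proper_inf hG hH pG pH), inf_assoc]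
      · rw [T_not_right eG eH pH, T_not_right (inf_ne_e0 hF eF) eH pH,
          T_not_right eF zero_ne_e0 not_proper_zero]
    · rw [T_not_right eF eG pG, T_not_left eG eH pG, T_not_left zero_ne_e0 eH not_proper_zero,
        T_not_right eF zero_ne_e0 not_proper_zero]
  · rw [T_not_left eF eG pF, T_not_left zero_ne_e0 eH not_proper_zero]
    by_cases h : T G H = e0
    · exfalso
      have : T G H ≤ G := by
        unfold T
        simp only [eG, eH, if_false]
        split_ifs
        · exact inf_le_left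
        · exact zero_le' hG
      apply eG
      apply le_antisymm (le_e0 hG)
      rw [← h]; exact this
    · rw [T_not_left eF h pF]

lemma T_mono {F F' G : ℝ → ℝ} (hF : F ∈ DD) (hF' : F' ∈ DD) (hG : G ∈ DD) (h : F ≤ F') :
    T F G ≤ T F' G := by
  by_cases eG : G = e0
  · subst eG; rw [T_e0_right, T_e0_right]; exact h
  by_cases eF' : F' = e0
  · subst eF'
    rw [T_e0_left]
    unfold T
    split_ifs
    · exact le_rfl
    · exact inf_le_right
    · exact zero_le' hG
  have eF : F ≠ e0 := by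
    intro e
    apply eF'
    apply le_antisymm (le_e0 hF')
    rw [← e]; exact h
  by_cases pF : Proper F
  · by_cases pG : Proper G
    · rw [T_proper eF eG pF pG, T_proper eF' eG (proper_mono h pF) pG]
      exact inf_le_inf_right _ h
    · rw [T_not_right eF eG pG]
      exact zero_le' (T_mem hF' hG)
  · rw [T_not_left eF eG pF]
    exact zero_le' (T_mem hF' hG)

/-- the step function with value `1/2` on `(0,1]` and `c` beyond `1` -/
noncomputable def stp (c : ℝ) : ℝ → ℝ := fun x => if 1 < x then c else if 0 < x then 1/2 else 0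

lemma stp_mem {c : ℝ} (h1 : 1/2 ≤ c) (h2 : c ≤ 1) : stp c ∈ DD := by
  refine ⟨?_, ?_, ?_, ?_⟩
  · intro x y hxy
    unfold stp
    split_ifs <;> first | linarith | (exfalso; linarith)
  · intro x
    unfold stp
    split_ifs <;> constructor <;> linarith
  · intro x hx
    unfold stp
    rw [if_neg (by linarith), if_neg (by linarith)]
  · intro x
    have hloc : stp c =ᶠ[nhdsWithin x (Set.Iio x)] fun _ => stp c x := by
      by_cases hx : 1 < x
      · have : Set.Ioi (1:ℝ) ∈ nhdsWithin x (Set.Iio x) :=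
          mem_nhdsWithin_of_mem_nhds (Ioi_mem_nhds hx)
        filter_upwards [this] with y hy
        simp only [Set.mem_Ioi] at hy
        simp [stp, hy, hx]
      · by_cases hx0 : 0 < x
        · have : Set.Ioi (0:ℝ) ∈ nhdsWithin x (Set.Iio x) :=
            mem_nhdsWithin_of_mem_nhds (Ioi_mem_nhds hx0)
          filter_upwards [this, self_mem_nhdsWithin] with y hy hy2
          simp only [Set.mem_Ioi] at hy
          simp only [Set.mem_Iio] at hy2
          have h3 : ¬ 1 < y := by linarith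
          simp [stp, hy, hx0, hx, h3]
        · filter_upwards [self_mem_nhdsWithin] with y hy2
          simp only [Set.mem_Iio] at hy2
          have h3 : ¬ 1 < y := by linarith
          have h4 : ¬ 0 < y := by linarith
          simp [stp, hx0, hx, h3, h4]
    exact ContinuousWithinAt.congr_of_eventuallyEq continuousWithinAt_const hloc rfl

lemma stp_ne (c : ℝ) : stp c ≠ e0 := by
  intro h
  have := congrFun h 1
  simp [stp, e0] at this

/-- The negation of the preceding statement: Every commutative, associative, monotone operation on distance distribution functions with identity ε₀ is causal: if F₁≤F₂ and G₁≤G₂ on (−∞,a] with a>0, then τ(F₁,G₁)≤τ(F₂,G₂) on (−∞,a]. -/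
theorem result :
    ¬ (∀ D : Set (ℝ → ℝ),
      D = {F : ℝ → ℝ | Monotone F ∧ (∀ x, 0 ≤ F x ∧ F x ≤ 1) ∧ (∀ x : ℝ, x ≤ 0 → F x = 0) ∧
            ∀ x : ℝ, ContinuousWithinAt F (Set.Iio x) x} →
      ∀ τ : (ℝ → ℝ) → (ℝ → ℝ) → (ℝ → ℝ),
        (∀ F ∈ D, ∀ G ∈ D, τ F G ∈ D) →
        (∀ F ∈ D, ∀ G ∈ D, τ F G = τ G F) →
        (∀ F ∈ D, ∀ G ∈ D, ∀ H ∈ D, τ (τ F G) H = τ F (τ G H)) →
        (∀ F ∈ D, τ F (fun x : ℝ => if 0 < x then (1 : ℝ) else 0) = F) →
        (∀ F₁ ∈ D, ∀ F₂ ∈ D, ∀ G ∈ D, F₁ ≤ F₂ → τ F₁ G ≤ τ F₂ G) →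
        ∀ a : ℝ, 0 < a →
          ∀ F₁ ∈ D, ∀ F₂ ∈ D, ∀ G₁ ∈ D, ∀ G₂ ∈ D,
            (∀ x : ℝ, x ≤ a → F₁ x ≤ F₂ x) →
            (∀ x : ℝ, x ≤ a → G₁ x ≤ G₂ x) →
            ∀ x : ℝ, x ≤ a → τ F₁ G₁ x ≤ τ F₂ G₂ x) := by
  intro hall
  have key := hall DD rfl T (fun F hF G hG => T_mem hF hG) (fun F _ G _ => T_comm F G)
    (fun F hF G hG H hH => T_assoc hF hG hH) (fun F _ => T_e0_right F)
    (fun F₁ h1 F₂ h2 G hG h => T_mono h1 h2 hG h) 1 one_pos
    (stp 1) (stp_mem (by norm_num) le_rfl) (stp (1/2)) (stp_mem le_rfl (by norm_num))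
    (stp 1) (stp_mem (by norm_num) le_rfl) (stp (1/2)) (stp_mem le_rfl (by norm_num))
    (fun x hx => by simp [stp, not_lt.mpr hx]) (fun x hx => by simp [stp, not_lt.mpr hx])
    1 le_rfl
  have p1 : Proper (stp 1) := by
    intro ε hε
    refine ⟨2, ?_⟩
    simp [stp, hε]
  have p2 : ¬ Proper (stp (1/2)) := by
    intro h
    obtain ⟨x, hx⟩ := h (1/2) (by norm_num)
    have : stp (1/2) x ≤ 1/2 := by
      unfold stp
      split_ifs <;> norm_num
    linarith
  rw [T_proper (stp_ne 1) (stp_ne 1) p1 p1, T_not_left (stp_ne _) (stp_ne _) p2] at key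
  simp [stp] at key
  norm_num at key

end Pool.Agent.S1292
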