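import Pool.Statements.S1332
-- import your own Pool.Agent.* helpers here

set_option autoImplicit false
open Pool Pool.MP_3153bb_an

namespace Pool.Agent.S1332

open Polynomial in
/-- the snake polynomial of degree four -/
noncomputable def w : Polynomial ℝ := C 25 - C (531/2) * X ^ 2 + C (567/2) * X ^ 4

lemma w_eval (x : ℝ) : w.eval x = 25 - 531/2 * x^2 + 567/2 * x^4 := by
  simp [w]

lemma T2_eval (x : ℝ) : (Polynomial.Chebyshev.T ℝ 2).eval x = 2*x^2 - 1 := by
  rw [Polynomial.Chebyshev.T_two]; simp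

lemma T3_eval (x : ℝ) : (Polynomial.Chebyshev.T ℝ 3).eval x = 4*x^3 - 3*x := by
  have h : (Polynomial.Chebyshev.T ℝ 3) = 2 * Polynomial.X * Polynomial.Chebyshev.T ℝ 2 - Polynomial.Chebyshev.T ℝ 1 := by
    exact Polynomial.Chebyshev.T_add_two ℝ 1
  rw [h, Polynomial.Chebyshev.T_two]
  simp
  ring

lemma T4_eval (x : ℝ) : (Polynomial.Chebyshev.T ℝ 4).eval x = 8*x^4 - 8*x^2 + 1 := by
  have h : (Polynomial.Chebyshev.T ℝ 4) = 2 * Polynomial.X * Polynomial.Chebyshev.T ℝ 3 - Polynomial.Chebyshev.T ℝ 2 := by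
    exact Polynomial.Chebyshev.T_add_two ℝ 2
  rw [h]
  rw [Polynomial.eval_sub, Polynomial.eval_mul, T3_eval, T2_eval]
  simp
  ring

/-- The negation of the preceding statement: For μ continuous, convex, even, nonnegative on [-1,1], every degree-≤n polynomial bounded by μ there and alternating ±μ at n+1 points (ending at +μ) is a nonnegative combination of Chebyshev polynomials T_0..T_n. -/
theorem result :
    ¬ (∀ (μ : ℝ → ℝ), ContinuousOn μ (Set.Icc (-1) 1) →
      ConvexOn ℝ (Set.Icc (-1) 1) μ →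
      (∀ x ∈ Set.Icc (-1 : ℝ) 1, μ (-x) = μ x) →
      (∀ x ∈ Set.Icc (-1 : ℝ) 1, 0 ≤ μ x) →
      ∀ (n : ℕ) (p : Polynomial ℝ), p.natDegree ≤ n →
        (∀ x ∈ Set.Icc (-1 : ℝ) 1, |p.eval x| ≤ μ x) →
        (∃ τ : Fin (n + 1) → ℝ, StrictMono τ ∧ (∀ i, τ i ∈ Set.Icc (-1 : ℝ) 1) ∧
          ∀ i, p.eval (τ i) = (-1 : ℝ) ^ (n - (i : ℕ)) * μ (τ i)) →
        ∃ c : ℕ → ℝ, (∀ j, 0 ≤ c j) ∧
          p = ∑ j ∈ Finset.range (n + 1),
            Polynomial.C (c j) * Polynomial.Chebyshev.T ℝ (j : ℤ)) := by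
  intro hall
  have key := hall (fun x => 25 + 18 * |x|) (by fun_prop) (by
      have h1 : ConvexOn ℝ (Set.Icc (-1:ℝ) 1) (fun x : ℝ => |x|) :=
        (convexOn_norm (convex_Icc (-1:ℝ) 1))
      have h2 := (h1.smul (c := 18) (by norm_num)).add_const 25
      simp only [smul_eq_mul] at h2
      have h3 : (fun x : ℝ => 25 + 18 * |x|) = (fun x : ℝ => 18 * |x| + 25) := by
        funext x; ring
      rw [h3]
      exact h2)
    (fun x _ => by simp) (fun x _ => by positivity) 4 w (by
      unfold w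
      compute_degree) (by
      intro x hx
      rw [w_eval]
      have hx1 : |x| ≤ 1 := abs_le.mpr hx
      have hx0 : 0 ≤ |x| := abs_nonneg x
      have e2 : x^2 = |x|^2 := (sq_abs x).symm
      have e4 : x^4 = |x|^4 := by
        have : x^4 = (x^2)^2 := by ring
        rw [this, e2]; ring
      rw [e2, e4]
      set u := |x|
      rw [abs_le]
      constructor
      · have : 25 - 531/2 * u^2 + 567/2 * u^4 + (25 + 18 * u)
            = 567/2 * (u - 2/3)^2 * (u^2 + 4/3*u + 25/63) := by ring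
        have h2 : 0 ≤ 567/2 * (u - 2/3)^2 * (u^2 + 4/3*u + 25/63) := by positivity
        linarith
      · have h1 : 0 ≤ 18 + 531/2 * u - 567/2 * u^3 := by
          nlinarith [mul_nonneg hx0 (sub_nonneg.mpr hx1), mul_nonneg (mul_nonneg hx0 hx0) (sub_nonneg.mpr hx1)]
        have h2 : 0 ≤ u * (18 + 531/2 * u - 567/2 * u^3) := mul_nonneg hx0 h1
        nlinarith)
    (by
      refine ⟨![-1, -2/3, 0, 2/3, 1], ?_, ?_, ?_⟩
      · rw [Fin.strictMono_iff_lt_succ]
        intro i
        fin_cases i <;> simp <;> norm_num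
      · intro i
        fin_cases i <;> simp [Set.mem_Icc] <;> norm_num
      · intro i
        rw [w_eval]
        fin_cases i <;> simp [abs_of_neg, abs_of_pos] <;> norm_num [abs_of_neg, abs_of_pos])
  obtain ⟨c, hc, hp⟩ := key
  have ev : ∀ x : ℝ, 25 - 531/2 * x^2 + 567/2 * x^4 =
      c 0 + c 1 * x + c 2 * (2*x^2 - 1) + c 3 * (4*x^3 - 3*x) + c 4 * (8*x^4 - 8*x^2 + 1) := by
    intro x
    have h := congrArg (Polynomial.eval x) hp
    rw [w_eval, Polynomial.eval_finsetSum] at h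
    rw [h]
    simp only [Finset.sum_range_succ, Finset.sum_range_zero, Polynomial.eval_mul, Polynomial.eval_C]
    have e2 := T2_eval x
    have e3 := T3_eval x
    have e4 := T4_eval x
    norm_num
    rw [e3, e4]
    simp
    exact Or.inl e2
  have h0 := ev 0
  have h1 := ev 1
  have h2 := ev (-1)
  have h3 := ev 2
  have h4 := ev (-2)
  have h5 := hc 0
  norm_num at h0 h1 h2 h3 h4
  linarith

end Pool.Agent.S1332
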