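import Pool.Statements.S1422
-- import your own Pool.Agent.* helpers here

set_option autoImplicit false
open Pool Pool.MP_529e31_an

namespace Pool.Agent.S1422

open Filter Topology

/-- The radii `2^(4^j)`. -/
noncomputable def rad (j : ℕ) : ℝ := 2 ^ (4 ^ j)

lemma rad_pos (j : ℕ) : 0 < rad j := by unfold rad; positivity

lemma rad_ge (j : ℕ) : (j : ℝ) ≤ rad j := by
  unfold rad
  have h1 : j < 2 ^ j := Nat.lt_two_pow_self
  have h2 : j ≤ 4 ^ j := le_trans h1.le (Nat.pow_le_pow_left (by norm_num) j)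
  have h3 : (2 : ℕ) ^ j ≤ 2 ^ (4 ^ j) := Nat.pow_le_pow_right (by norm_num) h2
  exact_mod_cast le_trans h1.le h3

/-- The union of the circles of radius `2^(4^j)`. -/
def SS : Set ℂ := {z | ∃ j : ℕ, ‖z‖ = rad j}

lemma bdd_iff (f : ℂ → ℂ) (hf : Differentiable ℂ f) :
    Bornology.IsBounded (f '' SS) ↔ Bornology.IsBounded (Set.range f) := by
  constructor
  · intro h
    obtain ⟨M, hM⟩ := h.exists_norm_le
    rw [isBounded_iff_forall_norm_le]
    refine ⟨M, ?_⟩
    rintro _ ⟨z, rfl⟩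
    obtain ⟨j, hj⟩ := exists_nat_ge ‖z‖
    have hz : ‖z‖ ≤ rad j := hj.trans (rad_ge j)
    have hb : Bornology.IsBounded (Metric.ball (0 : ℂ) (rad j)) := Metric.isBounded_ball
    refine Complex.norm_le_of_forall_mem_frontier_norm_le hb (f := f) (C := M)
      hf.diffContOnCl ?_ ?_
    · intro w hw
      rw [frontier_ball _ (rad_pos j).ne', mem_sphere_zero_iff_norm] at hw
      exact hM _ ⟨w, ⟨j, hw⟩, rfl⟩
    · rw [closure_ball _ (rad_pos j).ne', mem_closedBall_zero_iff]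
      exact hz
  · intro h
    exact h.subset (Set.image_subset_range _ _)

/-- The exponent `8·4^j - 2(j+1)`. -/
def ex (j : ℕ) : ℕ := 8 * 4 ^ j - 2 * (j + 1)

lemma ex_eq (j : ℕ) : ex j + 2 * (j + 1) = 8 * 4 ^ j := by
  unfold ex
  have h1 : j < 2 ^ j := Nat.lt_two_pow_self
  have h2 : 2 ^ j ≤ 4 ^ j := Nat.pow_le_pow_left (by norm_num) j
  omega

def nn (j : ℕ) : ℕ := 2 ^ ex j

noncomputable def F (j : ℕ) (z : ℂ) : ℂ := (z / (rad j : ℂ)) ^ (nn j)

lemma F_diff (j : ℕ) : Differentiable ℂ (F j) := by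
  unfold F
  fun_prop

lemma norm_F (j : ℕ) (z : ℂ) : ‖F j z‖ = (‖z‖ / rad j) ^ nn j := by
  unfold F
  rw [norm_pow, norm_div, Complex.norm_real, Real.norm_of_nonneg (rad_pos j).le]

/-- bound on `SS`. -/
lemma F_le (j : ℕ) (z : ℂ) (hz : z ∈ SS) : ‖F j z‖ ≤ Real.exp (‖z‖ ^ 2) := by
  obtain ⟨i, hi⟩ := hz
  rw [norm_F, hi]
  by_cases hij : i ≤ j
  · have h1 : rad i / rad j ≤ 1 := by
      rw [div_le_one (rad_pos j)]
      unfold rad
      exact pow_le_pow_right₀ (by norm_num) (Nat.pow_le_pow_right (by norm_num) hij)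
    calc (rad i / rad j) ^ nn j ≤ 1 := pow_le_one₀ (div_nonneg (rad_pos i).le (rad_pos j).le) h1
      _ ≤ Real.exp (rad i ^ 2) := Real.one_le_exp (by positivity)
  · push Not at hij
    obtain ⟨m, rfl⟩ : ∃ m, i = j + 1 + m := ⟨i - (j + 1), by omega⟩
    have h1 : rad (j + 1 + m) / rad j ≤ rad (j + 1 + m) := by
      apply div_le_self (rad_pos _).le
      unfold rad
      exact one_le_pow₀ (by norm_num)
    have h2 : (rad (j + 1 + m)) ^ nn j ≤ Real.exp (rad (j + 1 + m) ^ 2) := by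
      have h3 : (rad (j + 1 + m)) ^ nn j = 2 ^ (4 ^ (j + 1 + m) * nn j) := by
        unfold rad
        rw [← pow_mul]
      have h4 : (2 : ℝ) ≤ Real.exp 1 := by
        have := Real.add_one_le_exp (1 : ℝ)
        linarith
      have h5 : (2 : ℝ) ^ (4 ^ (j + 1 + m) * nn j) ≤ (Real.exp 1) ^ (4 ^ (j + 1 + m) * nn j) :=
        pow_le_pow_left₀ (by norm_num) h4 _
      rw [h3]
      refine h5.trans ?_
      rw [← Real.exp_nat_mul, mul_one]
      apply Real.exp_le_exp.mpr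
      have h6 : 4 ^ (j + 1 + m) * nn j ≤ (2 ^ (4 ^ (j + 1 + m))) ^ 2 := by
        unfold nn
        rw [← pow_mul, show (4 : ℕ) = 2 ^ 2 by norm_num, ← pow_mul, ← pow_add]
        apply Nat.pow_le_pow_right (by norm_num)
        have e1 := ex_eq j
        have e2 : (2 ^ (2 * (j + 1 + m))) * 2 = 8 * 4 ^ j * 4 ^ m := by
          rw [show (4 : ℕ) = 2 ^ 2 by norm_num, ← pow_mul, ← pow_mul]
          ring
        rw [e2]
        have e3 : m + 1 ≤ 4 ^ m := by
          have h1 : m < 2 ^ m := Nat.lt_two_pow_self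
          have h2 : 2 ^ m ≤ 4 ^ m := Nat.pow_le_pow_left (by norm_num) m
          omega
        have e4 : 1 ≤ 4 ^ j := Nat.one_le_pow _ _ (by norm_num)
        have e5 : 8 * 4 ^ j * (m + 1) ≤ 8 * 4 ^ j * 4 ^ m := Nat.mul_le_mul_left _ e3
        nlinarith
      unfold rad
      exact_mod_cast h6
    calc (rad (j + 1 + m) / rad j) ^ nn j ≤ (rad (j + 1 + m)) ^ nn j :=
          pow_le_pow_left₀ (div_nonneg (rad_pos _).le (rad_pos j).le) h1 _
      _ ≤ _ := h2

/-- The value at `rad j ^ 2`. -/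
lemma F_big (j : ℕ) : Real.exp (rad j ^ 8 / 8) ≤ ‖F j ((rad j ^ 2 : ℝ) : ℂ)‖ := by
  rw [norm_F, Complex.norm_real, Real.norm_of_nonneg (by positivity)]
  have h1 : rad j ^ 2 / rad j = rad j := by
    have := (rad_pos j).ne'
    field_simp
  rw [h1]
  have h2 : rad j ^ nn j = 2 ^ (4 ^ j * nn j) := by
    unfold rad
    rw [← pow_mul]
  have h3 : (4 ^ j * nn j : ℕ) * 4 = (2 ^ (4 ^ j)) ^ 8 := by
    unfold nn
    rw [← pow_mul, mul_comm (4 ^ j) 8, ← ex_eq j, pow_add, pow_mul 2 2 (j + 1)]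
    ring
  have h4 : ((4 ^ j * nn j : ℕ) : ℝ) = rad j ^ 8 / 4 := by
    have : (((4 ^ j * nn j : ℕ) * 4 : ℕ) : ℝ) = ((2 ^ (4 ^ j)) ^ 8 : ℕ) := by rw [h3]
    unfold rad
    push_cast at this ⊢
    linarith
  rw [h2]
  have h5 : (2 : ℝ) ^ (4 ^ j * nn j) = Real.exp (Real.log 2 * ((4 ^ j * nn j : ℕ) : ℝ)) := by
    rw [← Real.rpow_natCast, Real.rpow_def_of_pos (by norm_num)]
  rw [h5, h4]
  apply Real.exp_le_exp.mpr
  have h6 : (1 / 2 : ℝ) ≤ Real.log 2 := by
    have := Real.log_two_gt_d9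
    linarith
  have h7 : 0 ≤ rad j ^ 8 := by have := rad_pos j; positivity
  nlinarith


/-- The negation of the preceding statement: For every ρ>0 and S in ℂ: if each entire f of order ρ finite type is bounded on S iff bounded on ℂ, then for each weight k in K_ρ there are k' in K_ρ and C>0 with ∣f∣≤k' on S implying ∣f∣≤Ck on ℂ (S sufficient). -/
theorem result :
    ¬ (∀ ρ : ℝ, 0 < ρ → ∀ S : Set ℂ,
      (∀ f : ℂ → ℂ, Differentiable ℂ f →
        (∃ A B : ℝ, 0 < A ∧ 0 < B ∧ ∀ z : ℂ, ‖f z‖ ≤ B * Real.exp (A * ‖z‖ ^ ρ)) →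
        (Bornology.IsBounded (f '' S) ↔ Bornology.IsBounded (Set.range f))) →
      ∀ k : ℂ → ℝ, Continuous k → (∀ z : ℂ, 0 < k z) →
        (∀ A : ℝ, 0 < A →
          Asymptotics.IsLittleO (Filter.cocompact ℂ) (fun z : ℂ => Real.exp (A * ‖z‖ ^ ρ)) k) →
        ∃ k' : ℂ → ℝ, Continuous k' ∧ (∀ z : ℂ, 0 < k' z) ∧
          (∀ A : ℝ, 0 < A →
            Asymptotics.IsLittleO (Filter.cocompact ℂ) (fun z : ℂ => Real.exp (A * ‖z‖ ^ ρ)) k') ∧
          ∃ C : ℝ, 0 < C ∧
            ∀ f : ℂ → ℂ, Differentiable ℂ f →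
              (∃ A B : ℝ, 0 < A ∧ 0 < B ∧ ∀ z : ℂ, ‖f z‖ ≤ B * Real.exp (A * ‖z‖ ^ ρ)) →
              (∀ z ∈ S, ‖f z‖ ≤ k' z) → ∀ z : ℂ, ‖f z‖ ≤ C * k z) := by
  intro H
  have hk : ∀ A : ℝ, 0 < A → Asymptotics.IsLittleO (Filter.cocompact ℂ)
      (fun z : ℂ => Real.exp (A * ‖z‖ ^ (2 : ℝ))) (fun z : ℂ => Real.exp (‖z‖ ^ 3)) := by
    intro A hA
    rw [Real.isLittleO_exp_comp_exp_comp]
    have h1 : Tendsto (fun z : ℂ => ‖z‖) (Filter.cocompact ℂ) atTop := tendsto_norm_cocompact_atTop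
    have h2 : Tendsto (fun x : ℝ => x ^ 3 - A * x ^ (2 : ℝ)) atTop atTop := by
      have h3 : Tendsto (fun x : ℝ => x ^ 2 * (x - A)) atTop atTop := by
        apply Tendsto.atTop_mul_atTop₀
        · exact tendsto_pow_atTop (by norm_num)
        · exact tendsto_atTop_add_const_right _ _ tendsto_id
      refine h3.congr ?_
      intro x
      rw [Real.rpow_two]
      ring
    exact h2.comp h1
  obtain ⟨k', k'c, k'pos, k'o, C, Cpos, hC⟩ := H 2 (by norm_num) SS
    (fun f hf _ => bdd_iff f hf) (fun z => Real.exp (‖z‖ ^ 3)) (by fun_prop)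
    (fun z => Real.exp_pos _) hk
  -- lower bound for k'
  have h1 := (k'o 1 one_pos).bound one_pos
  rw [Filter.eventually_iff, Filter.mem_cocompact] at h1
  obtain ⟨K, hK, hKs⟩ := h1
  have hcont : Continuous (fun z : ℂ => Real.exp (‖z‖ ^ 2) / k' z) :=
    Continuous.div (by fun_prop) k'c (fun z => (k'pos z).ne')
  obtain ⟨D, hD⟩ := hK.exists_bound_of_continuousOn hcont.continuousOn
  set D' := max 1 D with hD'
  have hD'pos : 0 < D' := lt_of_lt_of_le one_pos (le_max_left _ _)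
  have hlow : ∀ z : ℂ, Real.exp (‖z‖ ^ 2) ≤ D' * k' z := by
    intro z
    by_cases hz : z ∈ K
    · have := hD z hz
      rw [Real.norm_of_nonneg (div_nonneg (Real.exp_pos _).le (k'pos z).le),
        div_le_iff₀ (k'pos z)] at this
      exact this.trans (mul_le_mul_of_nonneg_right (le_max_right _ _) (k'pos z).le)
    · have := hKs hz
      simp only [Set.mem_ofPred_eq] at this
      rw [Real.norm_of_nonneg (Real.exp_pos _).le, Real.norm_of_nonneg (k'pos z).le,
        Real.rpow_two, one_mul] at this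
      exact this.trans (mul_le_mul_of_nonneg_right (le_max_left _ _) (k'pos z).le)
  -- choose j large
  obtain ⟨j, hj⟩ := exists_nat_gt (max 4 (D' * C))
  have hR1 : max 4 (D' * C) < rad j := hj.trans_le (rad_ge j)
  have hR4 : 4 < rad j := (le_max_left _ _).trans_lt hR1
  have hRC : D' * C < rad j := (le_max_right _ _).trans_lt hR1
  have hfun := hC (fun z => (D' : ℂ)⁻¹ * F j z) (by
      have := F_diff j
      fun_prop) ?_ ?_ ((rad j ^ 2 : ℝ) : ℂ)
  · rw [norm_mul, norm_inv, Complex.norm_real, Real.norm_of_nonneg hD'pos.le, Complex.norm_real,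
      Real.norm_of_nonneg (by positivity)] at hfun
    have hbig := F_big j
    have h3 : ‖F j ((rad j ^ 2 : ℝ) : ℂ)‖ ≤ D' * C * Real.exp ((rad j ^ 2) ^ 3) := by
      have := mul_le_mul_of_nonneg_left hfun hD'pos.le
      rw [← mul_assoc, mul_inv_cancel₀ hD'pos.ne', one_mul] at this
      linarith
    have h4 : Real.exp (rad j ^ 8 / 8) ≤ D' * C * Real.exp ((rad j ^ 2) ^ 3) := hbig.trans h3
    have h5 : D' * C < Real.exp (rad j ^ 6) := by
      have e1 : rad j ≤ rad j ^ 6 := by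
        apply le_self_pow₀ (by linarith) (by norm_num)
      have e2 := Real.add_one_le_exp (rad j ^ 6)
      linarith
    have h6 : Real.exp (rad j ^ 6) * Real.exp ((rad j ^ 2) ^ 3) ≤ Real.exp (rad j ^ 8 / 8) := by
      rw [← Real.exp_add]
      apply Real.exp_le_exp.mpr
      have e1 : 0 ≤ rad j ^ 6 := by have := rad_pos j; positivity
      have e2 : 16 ≤ rad j ^ 2 := by nlinarith
      nlinarith
    have h7 : D' * C * Real.exp ((rad j ^ 2) ^ 3) <
        Real.exp (rad j ^ 6) * Real.exp ((rad j ^ 2) ^ 3) :=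
      mul_lt_mul_of_pos_right h5 (Real.exp_pos _)
    linarith
  · -- growth
    refine ⟨1, (D')⁻¹ * ((Nat.factorial (nn j)) * Real.exp 1), one_pos, by positivity, fun z => ?_⟩
    rw [norm_mul, norm_inv, Complex.norm_real, Real.norm_of_nonneg hD'pos.le, mul_assoc]
    apply mul_le_mul_of_nonneg_left _ (by positivity)
    rw [norm_F, Real.rpow_two, one_mul]
    have h1 : ‖z‖ / rad j ≤ ‖z‖ := div_le_self (norm_nonneg _) (by linarith)
    have h2 : (‖z‖ / rad j) ^ nn j ≤ (1 + ‖z‖ ^ 2) ^ nn j := by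
      apply pow_le_pow_left₀ (by positivity)
      nlinarith [sq_nonneg (‖z‖ - 1)]
    have h3 := Real.pow_div_factorial_le_exp (1 + ‖z‖ ^ 2) (by positivity) (nn j)
    rw [div_le_iff₀ (by positivity), Real.exp_add] at h3
    calc (‖z‖ / rad j) ^ nn j ≤ (1 + ‖z‖ ^ 2) ^ nn j := h2
      _ ≤ Real.exp 1 * Real.exp (‖z‖ ^ 2) * (Nat.factorial (nn j)) := h3
      _ = _ := by ring
  · intro z hz
    rw [norm_mul, norm_inv, Complex.norm_real, Real.norm_of_nonneg hD'pos.le,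
      inv_mul_le_iff₀ hD'pos]
    exact (F_le j z hz).trans (hlow z)


end Pool.Agent.S1422
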