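import Pool.Statements.S1438
-- import your own Pool.Agent.* helpers here

set_option autoImplicit false
open Pool Pool.MP_5bcbac_an

namespace Pool.Agent.S1438

open Matrix Polynomial

abbrev E2 := EuclideanSpace ℂ (Fin 2)

noncomputable def Φ : Matrix (Fin 2) (Fin 2) ℂ ≃⋆ₐ[ℂ] (E2 →L[ℂ] E2) :=
  Matrix.toEuclideanCLM (n := Fin 2) (𝕜 := ℂ)

noncomputable def mP : Matrix (Fin 2) (Fin 2) ℂ := !![(9/10 : ℂ), 3/10; 3/10, 1/10]
noncomputable def mQ : Matrix (Fin 2) (Fin 2) ℂ := !![(9/10 : ℂ), -(3/10); -(3/10), 1/10]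

lemma mP_sq : mP * mP = mP := by
  ext i j; fin_cases i <;> fin_cases j <;> simp [mP, Matrix.mul_apply, Fin.sum_univ_two] <;> norm_num

lemma mQ_sq : mQ * mQ = mQ := by
  ext i j; fin_cases i <;> fin_cases j <;> simp [mQ, Matrix.mul_apply, Fin.sum_univ_two] <;> norm_num

lemma mP_star : star mP = mP := by
  ext i j; fin_cases i <;> fin_cases j <;> simp [mP, Matrix.star_apply]

lemma mQ_star : star mQ = mQ := by
  ext i j; fin_cases i <;> fin_cases j <;> simp [mQ, Matrix.star_apply]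

lemma nonneg_of {m : Matrix (Fin 2) (Fin 2) ℂ} (h : m * m = m) (hs : star m = m) :
    0 ≤ Φ m := by
  have : Φ m = star (Φ m) * Φ m := by
    rw [← map_star, hs, ← map_mul, h]
  rw [this]
  exact star_mul_self_nonneg _

lemma cfc_proj {m : Matrix (Fin 2) (Fin 2) ℂ} (h : m * m = m) (hs : star m = m) (g : ℝ → ℝ)
    (h0 : g 0 = 0) (h1 : g 1 = 1) : cfc g (Φ m) = Φ m := by
  have hsa : IsSelfAdjoint (Φ m) := by
    rw [isSelfAdjoint_iff, ← map_star, hs]
  have hid : IsIdempotentElem (Φ m) := by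
    rw [IsIdempotentElem, ← map_mul, h]
  have hsp : spectrum ℝ (Φ m) ⊆ {0, 1} := hid.spectrum_subset ℝ
  have : cfc g (Φ m) = cfc (fun x : ℝ => x) (Φ m) := by
    apply cfc_congr
    intro x hx
    rcases hsp hx with h | h
    · rw [h]; exact h0
    · rw [Set.mem_singleton_iff] at h; rw [h]; exact h1
  rw [this, cfc_id' ℝ (Φ m)]

noncomputable def mD : Matrix (Fin 2) (Fin 2) ℂ := !![(9/10 : ℂ), 0; 0, 1/10]

lemma mD_star : star mD = mD := by
  ext i j; fin_cases i <;> fin_cases j <;> simp [mD, Matrix.star_apply]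

lemma specD : spectrum ℝ (Φ mD) ⊆ {9/10, 1/10} := by
  intro x hx
  have h := spectrum.subset_polynomial_aeval (Φ mD) ((X - C (9/10)) * (X - C (1/10)) : ℝ[X])
    ⟨x, hx, rfl⟩
  have h0 : aeval (Φ mD) ((X - C (9/10)) * (X - C (1/10)) : ℝ[X]) = 0 := by
    have e1 : (algebraMap ℝ (E2 →L[ℂ] E2)) (9/10) = Φ (!![(9/10 : ℂ), 0; 0, 9/10]) := by
      have : (!![(9/10 : ℂ), 0; 0, 9/10]) = (9/10 : ℂ) • (1 : Matrix (Fin 2) (Fin 2) ℂ) := by
        ext i j; fin_cases i <;> fin_cases j <;> simp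
      rw [this, map_smul, map_one, Algebra.algebraMap_eq_smul_one]
      rw [← Complex.coe_smul]; norm_num
    have e2 : (algebraMap ℝ (E2 →L[ℂ] E2)) (1/10) = Φ (!![(1/10 : ℂ), 0; 0, 1/10]) := by
      have : (!![(1/10 : ℂ), 0; 0, 1/10]) = (1/10 : ℂ) • (1 : Matrix (Fin 2) (Fin 2) ℂ) := by
        ext i j; fin_cases i <;> fin_cases j <;> simp
      rw [this, map_smul, map_one, Algebra.algebraMap_eq_smul_one]
      rw [← Complex.coe_smul]; norm_num
    rw [map_mul, map_sub, map_sub, aeval_X, aeval_C, aeval_C, e1, e2, ← map_sub, ← map_sub,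
      ← map_mul]
    have : (mD - !![(9/10 : ℂ), 0; 0, 9/10]) * (mD - !![(1/10 : ℂ), 0; 0, 1/10]) = 0 := by
      ext i j; fin_cases i <;> fin_cases j <;>
        simp [mD, Matrix.mul_apply, Fin.sum_univ_two]
    rw [this, map_zero]
  rw [h0, spectrum.zero_eq] at h
  simp only [eval_mul, eval_sub, eval_X, eval_C, Set.mem_singleton_iff, mul_eq_zero] at h
  rcases h with h | h
  · left; linarith
  · right; rw [Set.mem_singleton_iff]; linarith

lemma cfc_D (g : ℝ → ℝ) :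
    cfc g (Φ mD) = Φ (!![((g (9/10) : ℝ) : ℂ), 0; 0, ((g (1/10) : ℝ) : ℂ)]) := by
  have hsa : IsSelfAdjoint (Φ mD) := by
    rw [isSelfAdjoint_iff, ← map_star, mD_star]
  set a := g (9/10) with ha
  set b := g (1/10) with hb
  have : cfc g (Φ mD) = cfc (fun x : ℝ => (a - b) / (8/10) * x + (b - (a - b) / 8)) (Φ mD) := by
    apply cfc_congr
    intro x hx
    rcases specD hx with h | h
    · rw [h, ← ha]; ring
    · rw [Set.mem_singleton_iff] at h; rw [h, ← hb]; ring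
  rw [this, cfc_add_const _ (fun x : ℝ => (a - b) / (8/10) * x) (Φ mD), cfc_const_mul_id _ (Φ mD)]
  have e2 : (algebraMap ℝ (E2 →L[ℂ] E2)) (b - (a - b) / 8) =
      Φ (((b - (a - b) / 8 : ℝ) : ℂ) • (1 : Matrix (Fin 2) (Fin 2) ℂ)) := by
    rw [map_smul, map_one, Algebra.algebraMap_eq_smul_one, ← Complex.coe_smul]
  have e3 : ((a - b) / (8/10)) • Φ mD = Φ ((((a - b) / (8/10) : ℝ) : ℂ) • mD) := by
    rw [map_smul]
    exact (Complex.coe_smul ((a - b) / (8/10)) (Φ mD)).symm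
  rw [e2, e3, ← map_add]
  congr 1
  ext i j; fin_cases i <;> fin_cases j <;> simp [mD] <;> ring

lemma trace_Φ (m : Matrix (Fin 2) (Fin 2) ℂ) :
    LinearMap.trace ℂ E2 ((Φ m : E2 →L[ℂ] E2) : E2 →ₗ[ℂ] E2) = m.trace := by
  have : ((Φ m : E2 →L[ℂ] E2) : E2 →ₗ[ℂ] E2) = Matrix.toEuclideanLin m :=
    Matrix.coe_toEuclideanCLM_eq_toEuclideanLin m
  rw [this, Matrix.toEuclideanLin, Matrix.toLpLin_eq_toLin, Matrix.trace_toLin_eq]

/-- The negation of the preceding statement: For all positive semidefinite operators X, Y on C^n and all p ≥ 2, the map t ↦ Tr[(Y − (tX^p + (1−t)Y^p)^(1/p))^2] is non-decreasing on [0,1]. -/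
theorem result :
    ¬ (∀ (n : ℕ) (X Y : EuclideanSpace ℂ (Fin n) →L[ℂ] EuclideanSpace ℂ (Fin n)) (p : ℝ),
      0 ≤ X → 0 ≤ Y → 2 ≤ p →
      MonotoneOn
        (fun t : ℝ =>
          (LinearMap.trace ℂ (EuclideanSpace ℂ (Fin n))
            (((Y - cfc (fun x : ℝ => x ^ (1 / p))
                ((t : ℂ) • cfc (fun x : ℝ => x ^ p) X
                  + ((1 - t : ℝ) : ℂ) • cfc (fun x : ℝ => x ^ p) Y)) ^ 2 :
                EuclideanSpace ℂ (Fin n) →L[ℂ] EuclideanSpace ℂ (Fin n)) :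
              EuclideanSpace ℂ (Fin n) →ₗ[ℂ] EuclideanSpace ℂ (Fin n))).re)
        (Set.Icc (0 : ℝ) 1)) := by
  intro H
  have h := H 2 (Φ mP) (Φ mQ) 20 (nonneg_of mP_sq mP_star) (nonneg_of mQ_sq mQ_star) (by norm_num)
    (a := 1/2) (b := 1) (by constructor <;> norm_num) (by constructor <;> norm_num) (by norm_num)
  simp only at h
  have c1 : cfc (fun x : ℝ => x ^ (20 : ℝ)) (Φ mP) = Φ mP :=
    cfc_proj mP_sq mP_star _ (by norm_num) (by norm_num)
  have c2 : cfc (fun x : ℝ => x ^ (20 : ℝ)) (Φ mQ) = Φ mQ :=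
    cfc_proj mQ_sq mQ_star _ (by norm_num) (by norm_num)
  have c3 : cfc (fun x : ℝ => x ^ (1 / (20 : ℝ))) (Φ mP) = Φ mP :=
    cfc_proj mP_sq mP_star _ (by norm_num) (by norm_num)
  rw [c1, c2] at h
  have d1 : (((1 : ℝ) : ℂ) • Φ mP + ((1 - 1 : ℝ) : ℂ) • Φ mQ) = Φ mP := by
    rw [sub_self, Complex.ofReal_zero, Complex.ofReal_one, one_smul, ← map_smul, zero_smul,
      map_zero, add_zero]
  have d2 : (((1/2 : ℝ) : ℂ) • Φ mP + ((1 - 1/2 : ℝ) : ℂ) • Φ mQ) = Φ mD := by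
    rw [← map_smul, ← map_smul, ← map_add]
    congr 1
    ext i j; fin_cases i <;> fin_cases j <;> simp [mP, mQ, mD] <;> norm_num
  rw [d1, d2, c3, cfc_D, ← map_sub, ← map_sub, ← map_pow, ← map_pow] at h
  have t1 := trace_Φ ((mQ - mP) ^ 2)
  have t2 := trace_Φ ((mQ - !![(((fun x : ℝ => x ^ (1 / (20 : ℝ))) (9/10) : ℝ) : ℂ), 0; 0, (((fun x : ℝ => x ^ (1 / (20 : ℝ))) (1/10) : ℝ) : ℂ)]) ^ 2)
  rw [t1, t2] at h
  simp only at h
  set a : ℝ := (9/10 : ℝ) ^ (1 / (20 : ℝ)) with ha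
  set b : ℝ := (1/10 : ℝ) ^ (1 / (20 : ℝ)) with hb
  have hA : (99/100 : ℝ) ≤ a := by
    rw [ha]
    have : (99/100 : ℝ) = (((99/100 : ℝ)) ^ (20 : ℝ)) ^ (1 / (20 : ℝ)) := by
      rw [← Real.rpow_mul (by norm_num)]; norm_num
    rw [this]
    apply Real.rpow_le_rpow
    · positivity
    · norm_num
    · norm_num
  have hB : (85/100 : ℝ) ≤ b := by
    rw [hb]
    have : (85/100 : ℝ) = (((85/100 : ℝ)) ^ (20 : ℝ)) ^ (1 / (20 : ℝ)) := by
      rw [← Real.rpow_mul (by norm_num)]; norm_num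
    rw [this]
    apply Real.rpow_le_rpow
    · positivity
    · norm_num
    · norm_num
  have v1 : (((mQ - mP) ^ 2).trace) = ((72/100 : ℝ) : ℂ) := by
    simp [pow_two, Matrix.trace, Fin.sum_univ_two, Matrix.mul_apply, mP, mQ]
    norm_num
  have v2 : (((mQ - !![((a : ℝ) : ℂ), 0; 0, ((b : ℝ) : ℂ)]) ^ 2).trace) =
      (((9/10 - a)^2 + (1/10 - b)^2 + 18/100 : ℝ) : ℂ) := by
    simp [pow_two, Matrix.trace, Fin.sum_univ_two, Matrix.mul_apply, mQ]
    ring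
  rw [v1, v2, Complex.ofReal_re, Complex.ofReal_re] at h
  nlinarith

end Pool.Agent.S1438
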