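import Pool.Statements.S1495
import Pool.Agent.H7.Univalent

set_option autoImplicit false
open Pool Pool.MP_6f6574_an

namespace Pool.Agent.S1495

open Set Filter Topology Metric Pool.Agent.H7

lemma study {f : ℂ → ℂ} (hf : DifferentiableOn ℂ f (ball 0 1)) (hinj : InjOn f (ball 0 1))
    (h0 : f 0 = 0) (hconv : Convex ℝ (f '' ball 0 1)) {z₀ z₁ : ℂ} (hz₀ : z₀ ∈ ball (0 : ℂ) 1)
    (hz0 : z₀ ≠ 0) (h10 : ‖z₁‖ ≤ ‖z₀‖) :
    0 ≤ ((f z₀ - f z₁) / (z₀ * deriv f z₀)).re := by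
  set g := Function.invFunOn f (ball 0 1) with hgdef
  have hg : ∀ z ∈ ball (0 : ℂ) 1, g (f z) = z := fun z hz => hinj.leftInvOn_invFunOn hz
  have hd0 : deriv f z₀ ≠ 0 := deriv_ne_zero_of_injOn isOpen_ball hf hinj hz₀
  set a := z₁ / z₀ with ha
  have hna : ‖a‖ ≤ 1 := by
    rw [ha, norm_div]
    exact div_le_one_of_le₀ h10 (norm_nonneg _)
  have haz : a * z₀ = z₁ := by rw [ha]; field_simp
  have hmem : ∀ ζ ∈ ball (0 : ℂ) 1, a * ζ ∈ ball (0 : ℂ) 1 := by
    intro ζ hζ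
    rw [mem_ball_zero_iff] at hζ ⊢
    rw [norm_mul]
    calc ‖a‖ * ‖ζ‖ ≤ 1 * ‖ζ‖ := mul_le_mul_of_nonneg_right hna (norm_nonneg _)
      _ < 1 := by linarith
  -- the bound from the Schwarz lemma
  have key : ∀ t : ℝ, 0 ≤ t → t ≤ 1 → ‖g (f z₀ + (t : ℂ) * (f z₁ - f z₀))‖ ≤ ‖z₀‖ := by
    intro t ht0 ht1
    set G : ℂ → ℂ := fun ζ => (1 - (t : ℂ)) * f ζ + (t : ℂ) * f (a * ζ) with hG
    have hGmem : ∀ ζ ∈ ball (0 : ℂ) 1, G ζ ∈ f '' ball 0 1 := by
      intro ζ hζ
      have := hconv ⟨ζ, hζ, rfl⟩ ⟨a * ζ, hmem ζ hζ, rfl⟩ (sub_nonneg.mpr ht1) ht0 (by ring)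
      simpa [hG, Complex.real_smul] using this
    have hGd : DifferentiableOn ℂ G (ball 0 1) := by
      apply DifferentiableOn.add
      · exact hf.const_mul _
      · apply DifferentiableOn.const_mul
        exact hf.comp (by fun_prop) hmem
    have hH : DifferentiableOn ℂ (fun ζ => g (G ζ)) (ball 0 1) := by
      intro ζ hζ
      obtain ⟨x, hx, hxG⟩ := hGmem ζ hζ
      have h1 : DifferentiableAt ℂ g (G ζ) := by
        rw [← hxG]
        exact (analyticAt_inv isOpen_ball hf hinj hg hx).differentiableAt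
      have h2 : DifferentiableAt ℂ G ζ := hGd.differentiableAt (isOpen_ball.mem_nhds hζ)
      exact (h1.comp ζ h2).differentiableWithinAt
    have hmaps : MapsTo (fun ζ => g (G ζ)) (ball 0 1) (closedBall 0 1) := by
      intro ζ hζ
      obtain ⟨x, hx, hxG⟩ := hGmem ζ hζ
      show g (G ζ) ∈ closedBall (0 : ℂ) 1
      rw [← hxG, hg x hx]
      exact ball_subset_closedBall hx
    have h00 : (fun ζ => g (G ζ)) 0 = 0 := by
      have : G 0 = f 0 := by simp [hG, h0]
      show g (G 0) = 0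
      rw [this, hg 0 (mem_ball_self one_pos)]
    have := Complex.norm_le_norm_of_mapsTo_ball hH hmaps h00 (mem_ball_zero_iff.mp hz₀)
    have e : G z₀ = f z₀ + (t : ℂ) * (f z₁ - f z₀) := by
      simp only [hG, haz]
      ring
    simpa only [e] using this
  -- differentiate
  have hgd := hasDerivAt_inv isOpen_ball hf hinj hg hz₀ hd0
  have hline : HasDerivAt (fun t : ℝ => f z₀ + (t : ℂ) * (f z₁ - f z₀)) (f z₁ - f z₀) (0 : ℝ) := by
    have h1 : HasDerivAt (fun t : ℝ => (t : ℂ)) 1 (0 : ℝ) := Complex.ofRealCLM.hasDerivAt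
    have h2 := (h1.mul_const (f z₁ - f z₀)).const_add (f z₀)
    simpa using h2
  have hcomp : HasDerivAt (fun t : ℝ => g (f z₀ + (t : ℂ) * (f z₁ - f z₀)))
      ((deriv f z₀)⁻¹ * (f z₁ - f z₀)) (0 : ℝ) := by
    have h3 : HasDerivAt g (deriv f z₀)⁻¹ (f z₀ + ((0 : ℝ) : ℂ) * (f z₁ - f z₀)) := by
      simpa using hgd
    exact h3.comp (0 : ℝ) hline
  have hsq := hcomp.norm_sq
  have hlim := hsq.tendsto_slope_zero_right
  have hle : 2 * inner ℝ (g (f z₀ + ((0 : ℝ) : ℂ) * (f z₁ - f z₀)))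
      ((deriv f z₀)⁻¹ * (f z₁ - f z₀)) ≤ 0 := by
    apply le_of_tendsto hlim
    have : ∀ᶠ t in 𝓝[>] (0 : ℝ), t ∈ Ioo (0 : ℝ) 1 := Ioo_mem_nhdsGT one_pos
    filter_upwards [this] with t ht
    have h1 := key t ht.1.le ht.2.le
    have h2 : g (f z₀ + ((0 : ℝ) : ℂ) * (f z₁ - f z₀)) = z₀ := by simp [hg z₀ hz₀]
    simp only [zero_add, h2, smul_eq_mul]
    apply mul_nonpos_of_nonneg_of_nonpos
    · exact inv_nonneg.mpr ht.1.le
    · have := pow_le_pow_left₀ (norm_nonneg _) h1 2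
      linarith
  have h2 : g (f z₀ + ((0 : ℝ) : ℂ) * (f z₁ - f z₀)) = z₀ := by simp [hg z₀ hz₀]
  rw [h2, Complex.inner] at hle
  have h3 : ((f z₀ - f z₁) / (z₀ * deriv f z₀)) =
      ((‖z₀‖ ^ 2 : ℝ) : ℂ)⁻¹ * -(((starRingEnd ℂ) z₀) * ((deriv f z₀)⁻¹ * (f z₁ - f z₀))) := by
    have h4 : (((‖z₀‖ ^ 2 : ℝ) : ℂ)) = z₀ * (starRingEnd ℂ) z₀ := by
      rw [Complex.mul_conj, Complex.normSq_eq_norm_sq]
    have h5 : (starRingEnd ℂ) z₀ ≠ 0 := by simpa using hz0
    rw [h4]
    field_simp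
    ring
  rw [h3, ← Complex.ofReal_inv, Complex.re_ofReal_mul, Complex.neg_re]
  apply mul_nonneg
  · positivity
  · rw [mul_comm ((starRingEnd ℂ) z₀)]
    linarith

lemma pointwise {f : ℂ → ℂ} (hf : DifferentiableOn ℂ f (ball 0 1)) (hinj : InjOn f (ball 0 1))
    (h0 : f 0 = 0) (hconv : Convex ℝ (f '' ball 0 1)) {M : ℝ} (hM : 0 < M)
    (hb : ∀ z ∈ ball (0 : ℂ) 1, ‖z‖ ≤ M * ‖f z‖) {z₀ : ℂ} (hz₀ : z₀ ∈ ball (0 : ℂ) 1)
    (hz0 : z₀ ≠ 0) :
    ‖(deriv f z₀)⁻¹‖ ≤ M * (f z₀ / (z₀ * deriv f z₀)).re := by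
  have hd0 : deriv f z₀ ≠ 0 := deriv_ne_zero_of_injOn isOpen_ball hf hinj hz₀
  set r := ‖z₀‖ with hr
  have hr0 : 0 < r := norm_pos_iff.mpr hz0
  have hr1 : r < 1 := mem_ball_zero_iff.mp hz₀
  -- the small disc is covered
  have hcov : ball (0 : ℂ) (r / M) ⊆ f '' ball 0 r := by
    have hu : IsOpen (f '' ball 0 r) :=
      isOpen_image isOpen_ball hf hinj (ball_subset_ball hr1.le) isOpen_ball
    have hv : IsOpen (f '' closedBall 0 r)ᶜ := by
      rw [isOpen_compl_iff]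
      apply IsCompact.isClosed
      apply (isCompact_closedBall (0 : ℂ) r).image_of_continuousOn
      exact hf.continuousOn.mono (closedBall_subset_ball hr1)
    apply IsPreconnected.subset_left_of_subset_union hu hv
    · rw [disjoint_compl_right_iff_subset]
      exact image_mono ball_subset_closedBall
    · intro w hw
      by_cases h : w ∈ f '' closedBall 0 r
      · left
        obtain ⟨x, hx, rfl⟩ := h
        refine ⟨x, ?_, rfl⟩
        have h1 := hb x (closedBall_subset_ball hr1 hx)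
        rw [mem_ball_zero_iff] at hw ⊢
        have h2 : M * ‖f x‖ < M * (r / M) := mul_lt_mul_of_pos_left hw hM
        rw [mul_div_cancel₀ _ hM.ne'] at h2
        linarith
      · right; exact h
    · refine ⟨0, mem_ball_self (by positivity), 0, mem_ball_self hr0, h0⟩
    · exact (convex_ball (0 : ℂ) (r / M)).isPreconnected
  set n : ℂ := z₀ * deriv f z₀ with hn
  have hn0 : n ≠ 0 := mul_ne_zero hz0 hd0
  have hnpos : 0 < ‖n‖ := norm_pos_iff.mpr hn0
  have hkey : ∀ c : ℝ, 0 ≤ c → c < r / M → c / ‖n‖ ≤ (f z₀ / n).re := by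
    intro c hc0 hc1
    have hw : ((c / ‖n‖ : ℝ) : ℂ) * n ∈ ball (0 : ℂ) (r / M) := by
      rw [mem_ball_zero_iff, norm_mul, Complex.norm_real, Real.norm_of_nonneg (by positivity),
        div_mul_cancel₀ _ hnpos.ne']
      exact hc1
    obtain ⟨z₁, hz₁, hfz₁⟩ := hcov hw
    have h1 := study hf hinj h0 hconv hz₀ hz0 (z₁ := z₁) (mem_ball_zero_iff.mp hz₁).le
    rw [hfz₁, ← hn, sub_div, mul_div_cancel_right₀ _ hn0, Complex.sub_re, Complex.ofReal_re] at h1
    linarith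
  have hfin : (r / M) / ‖n‖ ≤ (f z₀ / n).re := by
    by_contra hcon
    push Not at hcon
    have hpos : 0 < r / M := by positivity
    obtain ⟨c, hc1, hc2⟩ := exists_between (max_lt hpos ((lt_div_iff₀ hnpos).mp hcon))
    have hc0 : 0 ≤ c := (le_max_left _ _).trans hc1.le
    have h1 := hkey c hc0 hc2
    have h2 : (f z₀ / n).re * ‖n‖ < c := (le_max_right _ _).trans_lt hc1
    rw [div_le_iff₀ hnpos] at h1
    linarith
  rw [norm_inv]
  have h3 : (r / M) / ‖n‖ = (1 / M) * ‖deriv f z₀‖⁻¹ := by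
    rw [hn, norm_mul, ← hr]
    have : ‖deriv f z₀‖ ≠ 0 := by simpa using hd0
    field_simp
  rw [h3] at hfin
  have h4 := mul_le_mul_of_nonneg_left hfin hM.le
  rw [← mul_assoc, mul_one_div_cancel hM.ne', one_mul] at h4
  exact h4


/-- For every normalized univalent map f of the unit disc onto a convex domain, and every 0<r<1, the mean over the circle of radius r of ∣1/f'∣ is at most any upper bound M of ∣z/f(z)∣ on the punctured disc. -/
theorem result :
    ∀ f : ℂ → ℂ, DifferentiableOn ℂ f (Metric.ball 0 1) →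
      Set.InjOn f (Metric.ball 0 1) → f 0 = 0 → deriv f 0 = 1 →
      Convex ℝ (f '' Metric.ball 0 1) →
      ∀ M : ℝ, (∀ z ∈ Metric.ball (0:ℂ) 1, z ≠ 0 → ‖z / f z‖ ≤ M) →
      ∀ r : ℝ, 0 < r → r < 1 →
        (1 / (2 * Real.pi)) * ∫ θ in (0:ℝ)..(2 * Real.pi), ‖(deriv f (circleMap 0 r θ))⁻¹‖ ≤ M := by
  intro f hf hinj h0 hd hconv M hMb r hr0 hr1
  have hne : ∀ z ∈ ball (0 : ℂ) 1, z ≠ 0 → f z ≠ 0 := by
    intro z hz hz0 h
    apply hz0
    apply hinj hz (mem_ball_self one_pos)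
    rw [h, h0]
  have hM : 0 < M := by
    have h1 : (1 / 2 : ℂ) ∈ ball (0 : ℂ) 1 := by
      rw [mem_ball_zero_iff]; norm_num
    have h2 := hMb _ h1 (by norm_num)
    refine lt_of_lt_of_le ?_ h2
    rw [norm_pos_iff]
    exact div_ne_zero (by norm_num) (hne _ h1 (by norm_num))
  have hb : ∀ z ∈ ball (0 : ℂ) 1, ‖z‖ ≤ M * ‖f z‖ := by
    intro z hz
    by_cases hz0 : z = 0
    · simp [hz0, h0]
    · have := hMb z hz hz0
      rw [norm_div, div_le_iff₀ (norm_pos_iff.mpr (hne z hz hz0))] at this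
      exact this
  have hdne : ∀ z ∈ ball (0 : ℂ) 1, deriv f z ≠ 0 := fun z hz =>
    deriv_ne_zero_of_injOn isOpen_ball hf hinj hz
  -- the holomorphic function `f(z)/(z f'(z))`
  set G : ℂ → ℂ := fun z => dslope f 0 z / deriv f z with hG
  have hGd : DifferentiableOn ℂ G (ball 0 1) := by
    apply DifferentiableOn.div
    · exact (Complex.differentiableOn_dslope (ball_mem_nhds 0 one_pos)).mpr hf
    · exact hf.deriv isOpen_ball
    · exact hdne
  have hG0 : G 0 = 1 := by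
    simp [hG, dslope_same, hd]
  have hGe : ∀ z ∈ ball (0 : ℂ) 1, z ≠ 0 → G z = f z / (z * deriv f z) := by
    intro z hz hz0
    simp only [hG]
    rw [dslope_of_ne _ hz0, slope_def_field, h0, sub_zero, sub_zero, div_div]
  have havg : Real.circleAverage G 0 r = 1 := by
    rw [← hG0]
    apply DiffContOnCl.circleAverage
    rw [abs_of_pos hr0]
    apply DifferentiableOn.diffContOnCl
    rw [closure_ball _ hr0.ne']
    exact hGd.mono (closedBall_subset_ball hr1)
  rw [Real.circleAverage_def] at havg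
  have hmemc : ∀ θ : ℝ, circleMap 0 r θ ∈ ball (0 : ℂ) 1 := by
    intro θ
    rw [mem_ball_zero_iff, norm_circleMap_zero, abs_of_pos hr0]
    exact hr1
  have hnec : ∀ θ : ℝ, circleMap 0 r θ ≠ 0 := fun θ => circleMap_ne_center hr0.ne'
  have hcontG : Continuous (fun θ : ℝ => G (circleMap 0 r θ)) := by
    apply hGd.continuousOn.comp_continuous (continuous_circleMap 0 r) hmemc
  have hcontI : Continuous (fun θ : ℝ => ‖(deriv f (circleMap 0 r θ))⁻¹‖) := by
    apply Continuous.norm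
    apply Continuous.inv₀
    · exact (hf.deriv isOpen_ball).continuousOn.comp_continuous (continuous_circleMap 0 r) hmemc
    · exact fun θ => hdne _ (hmemc θ)
  have hre : ∫ θ in (0:ℝ)..(2 * Real.pi), (G (circleMap 0 r θ)).re = 2 * Real.pi := by
    have h1 : ∫ θ in (0:ℝ)..(2 * Real.pi), (G (circleMap 0 r θ)).re =
        (∫ θ in (0:ℝ)..(2 * Real.pi), G (circleMap 0 r θ)).re := by
      have := Complex.reCLM.intervalIntegral_comp_comm (a := 0) (b := 2 * Real.pi)
        (hcontG.intervalIntegrable (μ := MeasureTheory.volume) _ _)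
      simpa using this
    have h2 : (∫ θ in (0:ℝ)..(2 * Real.pi), G (circleMap 0 r θ)) = ((2 * Real.pi : ℝ) : ℂ) := by
      rw [Complex.real_smul] at havg
      have hpi : ((2 * Real.pi : ℝ) : ℂ) ≠ 0 := by
        exact_mod_cast Real.two_pi_pos.ne'
      rw [Complex.ofReal_inv, inv_mul_eq_iff_eq_mul₀ hpi, mul_one] at havg
      exact havg
    rw [h1, h2, Complex.ofReal_re]
  have hmono : ∫ θ in (0:ℝ)..(2 * Real.pi), ‖(deriv f (circleMap 0 r θ))⁻¹‖ ≤
      ∫ θ in (0:ℝ)..(2 * Real.pi), M * (G (circleMap 0 r θ)).re := by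
    apply intervalIntegral.integral_mono_on Real.two_pi_pos.le
    · exact hcontI.intervalIntegrable _ _
    · exact (continuous_const.mul (Complex.continuous_re.comp hcontG)).intervalIntegrable _ _
    · intro θ _
      have := pointwise hf hinj h0 hconv hM hb (hmemc θ) (hnec θ)
      rw [hGe _ (hmemc θ) (hnec θ)]
      exact this
  rw [intervalIntegral.integral_const_mul, hre] at hmono
  rw [one_div, inv_mul_le_iff₀ Real.two_pi_pos]
  linarith


end Pool.Agent.S1495
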