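import Pool.Statements.S1524
import Pool.Agent.H7.QRCP

set_option autoImplicit false
open Matrix
open Pool Pool.MP_79babf_an

namespace Pool.Agent.S1524

open Pool.Agent.H7.QRCP

/-- The vector `y`. -/
noncomputable def yv (c : ℝ) : ℕ → ℝ
  | 0 => 1
  | (l + 1) => c * (1 + c) ^ l

lemma ysum (c : ℝ) (l : ℕ) : ∑ j ∈ Finset.range (l + 1), yv c j = (1 + c) ^ l := by
  induction l with
  | zero => simp [yv]
  | succ l ih =>
    rw [Finset.sum_range_succ, ih]
    simp only [yv]
    ring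

lemma rowsum {c s : ℝ} (hs : 0 < s) {k l : ℕ} (hl : l < k) :
    ∑ j ∈ Finset.range k, K c s j l * (yv c j / s ^ j) = if l = 0 then 1 else 0 := by
  have h1 : ∑ j ∈ Finset.range (l + 1), K c s j l * (yv c j / s ^ j) =
      ∑ j ∈ Finset.range k, K c s j l * (yv c j / s ^ j) := by
    apply Finset.sum_subset
    · intro j hj
      rw [Finset.mem_range] at hj ⊢
      omega
    · intro j _ hj'
      rw [Finset.mem_range] at hj'
      rw [K_gt c s (by omega : l < j), zero_mul]
  rw [← h1, Finset.sum_range_succ, K_diag]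
  have h2 : ∑ j ∈ Finset.range l, K c s j l * (yv c j / s ^ j) =
      ∑ j ∈ Finset.range l, -c * yv c j := by
    apply Finset.sum_congr rfl
    intro j hj
    rw [Finset.mem_range] at hj
    rw [K_lt c s hj]
    have : s ^ j ≠ 0 := (pow_pos hs j).ne'
    field_simp
  rw [h2, ← Finset.mul_sum]
  have h3 : s ^ l * (yv c l / s ^ l) = yv c l := by
    have : s ^ l ≠ 0 := (pow_pos hs l).ne'
    field_simp
  rw [h3]
  cases l with
  | zero => simp [yv]
  | succ l =>
    rw [ysum]
    simp [yv]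

lemma exists_M (C : ℝ) (d : ℕ) : ∃ M : ℕ, 1 ≤ M ∧
    C * (81 * (M : ℝ) ^ 6) ^ d < 2 ^ (M - 1) / (2 * (M : ℝ)) := by
  have h := tendsto_pow_const_div_const_pow_of_one_lt (6 * d + 1) (one_lt_two : (1 : ℝ) < 2)
  have hpos : (0 : ℝ) < 1 / (4 * ((|C| + 1) * 81 ^ d)) := by positivity
  obtain ⟨M, hM1, hM2⟩ := ((h.eventually (gt_mem_nhds hpos)).and
    (Filter.eventually_ge_atTop 1)).exists
  refine ⟨M, hM2, ?_⟩
  have hMpos : (0 : ℝ) < M := by exact_mod_cast hM2
  rw [div_lt_div_iff₀ (by positivity) (by positivity), one_mul] at hM1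
  have h2 : (2 : ℝ) ^ M = 2 * 2 ^ (M - 1) := by
    rw [← pow_succ']
    congr 1
    omega
  rw [h2] at hM1
  rw [lt_div_iff₀ (by positivity)]
  have h3 : C * (81 * (M : ℝ) ^ 6) ^ d * (2 * (M : ℝ)) ≤
      (|C| + 1) * (81 * (M : ℝ) ^ 6) ^ d * (2 * (M : ℝ)) := by
    have : C ≤ |C| + 1 := by linarith [le_abs_self C]
    have h4 : 0 ≤ (81 * (M : ℝ) ^ 6) ^ d * (2 * (M : ℝ)) := by positivity
    nlinarith
  have h5 : (|C| + 1) * (81 * (M : ℝ) ^ 6) ^ d * (2 * (M : ℝ)) * 2 =
      (M : ℝ) ^ (6 * d + 1) * (4 * ((|C| + 1) * 81 ^ d)) := by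
    rw [mul_pow, ← pow_mul]
    ring
  linarith


/-- The negation of the preceding statement: There are constants C, d such that for every n×k real Q with orthonormal columns (k<n), the k rows picked by greedy column-pivoted QR on Qᵀ (first index on ties) give a k×k block whose inverse has 2-norm at most C·n^d. -/
theorem result :
    ¬ (∃ C : ℝ, ∃ d : ℕ, ∀ n k : ℕ, k < n →
      ∀ Q : Matrix (Fin n) (Fin k) ℝ, Qᵀ * Q = 1 →
      ∀ σ : Fin k → Fin n,
        (∀ j : Fin k, ∀ r : Fin n,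
          Metric.infDist (WithLp.toLp 2 (Q r) : EuclideanSpace ℝ (Fin k))
              (Submodule.span ℝ
                ((fun i : Fin k => (WithLp.toLp 2 (Q (σ i)) : EuclideanSpace ℝ (Fin k))) ''
                  {i | i < j}) : Set (EuclideanSpace ℝ (Fin k)))
            ≤ Metric.infDist (WithLp.toLp 2 (Q (σ j)) : EuclideanSpace ℝ (Fin k))
              (Submodule.span ℝ
                ((fun i : Fin k => (WithLp.toLp 2 (Q (σ i)) : EuclideanSpace ℝ (Fin k))) ''
                  {i | i < j}) : Set (EuclideanSpace ℝ (Fin k)))) →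
        (∀ j : Fin k, ∀ r : Fin n, r < σ j →
          Metric.infDist (WithLp.toLp 2 (Q r) : EuclideanSpace ℝ (Fin k))
              (Submodule.span ℝ
                ((fun i : Fin k => (WithLp.toLp 2 (Q (σ i)) : EuclideanSpace ℝ (Fin k))) ''
                  {i | i < j}) : Set (EuclideanSpace ℝ (Fin k)))
            < Metric.infDist (WithLp.toLp 2 (Q (σ j)) : EuclideanSpace ℝ (Fin k))
              (Submodule.span ℝ
                ((fun i : Fin k => (WithLp.toLp 2 (Q (σ i)) : EuclideanSpace ℝ (Fin k))) ''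
                  {i | i < j}) : Set (EuclideanSpace ℝ (Fin k)))) →
        ∀ x : Fin k → ℝ,
          ‖(WithLp.toLp 2 x : EuclideanSpace ℝ (Fin k))‖ ≤
            C * (n : ℝ) ^ d *
              ‖(WithLp.toLp 2 ((Q.submatrix σ id) *ᵥ x) : EuclideanSpace ℝ (Fin k))‖) := by
  rintro ⟨C, d, H⟩
  obtain ⟨M, hM1, hM⟩ := exists_M |C| d
  have hMpos : (0 : ℝ) < M := by exact_mod_cast hM1
  have hM1' : (1 : ℝ) ≤ M := by exact_mod_cast hM1
  set c : ℝ := 1 / (2 * M) with hc
  have hcpos : 0 < c := by positivity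
  have hc1 : c ≤ 1 / 2 := by
    rw [hc]
    apply one_div_le_one_div_of_le <;> linarith
  have hc2 : c ^ 2 ≤ 1 / 4 := by nlinarith
  set s : ℝ := Real.sqrt (1 - c ^ 2) with hs
  have hspos : 0 < s := Real.sqrt_pos.mpr (by linarith)
  have hss : s ^ 2 = 1 - c ^ 2 := Real.sq_sqrt (by linarith)
  have hcs : c ^ 2 + s ^ 2 = 1 := by linarith
  have hs1 : s ≤ 1 := by
    rw [hs]
    apply Real.sqrt_le_one.mpr
    nlinarith
  set k : ℕ := 2 * M ^ 2 + 1 with hk
  have hkpos : 0 < k := by omega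
  have hkposR : (0 : ℝ) < k := by exact_mod_cast hkpos
  set m : ℕ := 2 * k ^ 2 with hm
  have hmpos : 0 < m := by positivity
  set ρ : ℝ := (Real.sqrt k)⁻¹ with hρ
  have hρpos : 0 < ρ := by positivity
  have hρ2 : ρ ^ 2 = 1 / k := by
    rw [hρ, inv_pow, Real.sq_sqrt hkposR.le, one_div]
  have hρk : ρ ^ 2 * k ≤ 1 := by
    rw [hρ2]
    field_simp
    exact le_rfl
  have hρ1 : ρ ≤ 1 := by
    rw [hρ]
    apply inv_le_one_of_one_le₀
    rw [Real.one_le_sqrt]
    exact_mod_cast hkpos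
  obtain ⟨B, hB1, hB2⟩ := exists_B hcs k hρk
  set Q := QQ m c s ρ B with hQ
  set σ : Fin k → Fin (k + m * k) := Fin.castAdd (m * k) with hσ
  have hQσ : ∀ l a : Fin k, Q (σ l) a = ρ * K c s a l := fun l a => QQ_left m c s ρ B l a
  have hupper : ∀ i a : Fin k, i < a → Q (σ i) a = 0 := by
    intro i a hia
    rw [hQσ, K_gt c s hia, mul_zero]
  have hdiagv : ∀ i : Fin k, Q (σ i) i = ρ * s ^ (i : ℕ) := by
    intro i
    rw [hQσ, K_diag]
  have hdiag : ∀ i : Fin k, Q (σ i) i ≠ 0 := by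
    intro i
    rw [hdiagv]
    positivity
  -- lower bound for the pivot
  have hpiv : ∀ j : Fin k, ρ * s ^ (j : ℕ) ≤
      Metric.infDist (WithLp.toLp 2 (Q (σ j)) : EuclideanSpace ℝ (Fin k)) (Sp Q σ j : Set _) := by
    intro j
    have := le_infDist Q σ hupper j
    rwa [hdiagv, abs_of_pos (by positivity)] at this
  have hsk : ∀ j : Fin k, 1 / 2 ≤ s ^ (2 * (j : ℕ)) := by
    intro j
    rw [pow_mul, hss]
    have h1 : (1 - c ^ 2) ^ (2 * M ^ 2) ≤ (1 - c ^ 2) ^ (j : ℕ) := by
      apply pow_le_pow_of_le_one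
      · linarith
      · nlinarith
      · have := j.isLt
        omega
    have h2 := one_add_mul_le_pow (show (-2 : ℝ) ≤ -c ^ 2 by linarith) (2 * M ^ 2)
    have h3 : (1 : ℝ) + ((2 * M ^ 2 : ℕ) : ℝ) * -c ^ 2 = 1 / 2 := by
      rw [hc]
      push_cast
      field_simp
      norm_num
    rw [h3, ← sub_eq_add_neg] at h2
    linarith
  have hub : ∀ j : Fin k, ∀ r : Fin (k + m * k),
      Metric.infDist (WithLp.toLp 2 (Q r) : EuclideanSpace ℝ (Fin k)) (Sp Q σ j : Set _) ≤
        ρ * s ^ (j : ℕ) := by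
    intro j r
    apply infDist_le Q σ hupper hdiag j (Q r) (by positivity)
    have ht : (ρ * s ^ (j : ℕ)) ^ 2 = ρ ^ 2 * s ^ (2 * (j : ℕ)) := by ring
    rw [ht]
    refine Fin.addCases (fun l => ?_) (fun t => ?_) r
    · have h1 : ∀ i : Fin k, (if j ≤ i then Q (Fin.castAdd (m * k) l) i ^ 2 else 0) =
          ρ ^ 2 * (if j ≤ i then K c s i l ^ 2 else 0) := by
        intro i
        have : Q (Fin.castAdd (m * k) l) i = ρ * K c s i l := hQσ l i
        rw [this]
        split_ifs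
        · ring
        · ring
      simp only [h1]
      rw [← Finset.mul_sum]
      apply mul_le_mul_of_nonneg_left _ (sq_nonneg _)
      by_cases hjl : j ≤ l
      · rw [tail_sum_fin hcs j l hjl]
      · push Not at hjl
        have h2 : ∑ i : Fin k, (if j ≤ i then K c s i l ^ 2 else 0) = 0 := by
          apply Finset.sum_eq_zero
          intro i _
          split_ifs with h
          · rw [K_gt c s (lt_of_lt_of_le hjl h)]
            norm_num
          · rfl
        rw [h2]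
        positivity
    · have h1 : ∑ i : Fin k, (if j ≤ i then Q (Fin.natAdd k t) i ^ 2 else 0) ≤
          ∑ i : Fin k, Q (Fin.natAdd k t) i ^ 2 := by
        apply Finset.sum_le_sum
        intro i _
        split_ifs
        · exact le_rfl
        · exact sq_nonneg _
      have h2 : ∑ i : Fin k, Q (Fin.natAdd k t) i ^ 2 ≤ k / m := by
        have h3 : ∀ i : Fin k, Q (Fin.natAdd k t) i ^ 2 =
            B (finProdFinEquiv.symm t).2 i ^ 2 / m := by
          intro i
          rw [hQ, QQ_right, div_pow, Real.sq_sqrt (Nat.cast_nonneg m)]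
        simp only [h3]
        rw [← Finset.sum_div]
        apply div_le_div_of_nonneg_right (hB2 _) (Nat.cast_nonneg m)
      have h4 : (k : ℝ) / m = ρ ^ 2 * (1 / 2) := by
        rw [hρ2, hm]
        push_cast
        field_simp
      have h5 : ρ ^ 2 * (1 / 2) ≤ ρ ^ 2 * s ^ (2 * (j : ℕ)) :=
        mul_le_mul_of_nonneg_left (hsk j) (sq_nonneg _)
      linarith
  -- the vector
  set x : Fin k → ℝ := fun l => yv c l / s ^ (l : ℕ) with hx
  have hfin := H (k + m * k) k (by nlinarith) Q (QQ_orth hmpos c s ρ B hB1) σ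
    (fun j r => (hub j r).trans (hpiv j)) ?_ x
  · -- evaluate
    have hmv : (WithLp.toLp 2 ((Q.submatrix σ id) *ᵥ x) : EuclideanSpace ℝ (Fin k)) =
        ρ • EuclideanSpace.single (⟨0, hkpos⟩ : Fin k) (1 : ℝ) := by
      ext l
      have h1 : ((Q.submatrix σ id) *ᵥ x) l = ρ * (if (l : ℕ) = 0 then 1 else 0) := by
        rw [← rowsum (c := c) hspos l.isLt]
        simp only [mulVec, dotProduct, submatrix_apply, id_eq, hQσ, hx]
        rw [Finset.mul_sum, Finset.sum_range]
        apply Finset.sum_congr rfl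
        intro j _
        ring
      show ((Q.submatrix σ id) *ᵥ x) l = ρ * (EuclideanSpace.single (⟨0, hkpos⟩ : Fin k) (1 : ℝ)) l
      rw [h1]
      congr 1
      by_cases h : (l : ℕ) = 0
      · have : l = ⟨0, hkpos⟩ := by ext; exact h
        rw [if_pos h, this]
        simp
      · have : l ≠ ⟨0, hkpos⟩ := by
          intro h2; apply h; rw [h2]
        rw [if_neg h]
        rw [PiLp.single_apply, if_neg this]
    rw [hmv, norm_smul, EuclideanSpace.norm_single, norm_one, mul_one, Real.norm_of_nonneg hρpos.le]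
      at hfin
    -- lower bound for `x`
    have hklast : k - 1 < k := by omega
    have hxl : c * (1 + c) ^ (2 * M ^ 2 - 1) ≤ ‖(WithLp.toLp 2 x : EuclideanSpace ℝ (Fin k))‖ := by
      have h1 := PiLp.norm_apply_le (WithLp.toLp 2 x : EuclideanSpace ℝ (Fin k)) ⟨k - 1, hklast⟩
      refine le_trans ?_ h1
      have h2 : (WithLp.toLp 2 x : EuclideanSpace ℝ (Fin k)) ⟨k - 1, hklast⟩ =
          yv c (k - 1) / s ^ (k - 1) := rfl
      rw [h2]
      have h3 : yv c (k - 1) = c * (1 + c) ^ (2 * M ^ 2 - 1) := by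
        have : k - 1 = (2 * M ^ 2 - 1) + 1 := by
          have : 1 ≤ M ^ 2 := Nat.one_le_pow _ _ hM1
          omega
        rw [this]
        rfl
      rw [h3, Real.norm_of_nonneg (by positivity)]
      rw [le_div_iff₀ (by positivity)]
      have h4 : s ^ (k - 1) ≤ 1 := pow_le_one₀ hspos.le hs1
      have h5 : 0 ≤ c * (1 + c) ^ (2 * M ^ 2 - 1) := by positivity
      nlinarith
    have hbig : 2 ^ (M - 1) / (2 * (M : ℝ)) ≤ c * (1 + c) ^ (2 * M ^ 2 - 1) := by
      have h1 : (2 : ℝ) ≤ (1 + c) ^ (2 * M) := by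
        have h2 := one_add_mul_le_pow (show (-2 : ℝ) ≤ c by linarith) (2 * M)
        have h3 : (1 : ℝ) + ((2 * M : ℕ) : ℝ) * c = 2 := by
          rw [hc]; push_cast; field_simp; norm_num
        linarith
      have h4 : (2 : ℝ) ^ (M - 1) ≤ (1 + c) ^ (2 * M ^ 2 - 1) := by
        calc (2 : ℝ) ^ (M - 1) ≤ ((1 + c) ^ (2 * M)) ^ (M - 1) :=
              pow_le_pow_left₀ (by norm_num) h1 _
          _ = (1 + c) ^ (2 * M * (M - 1)) := by rw [← pow_mul]
          _ ≤ (1 + c) ^ (2 * M ^ 2 - 1) := by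
              apply pow_le_pow_right₀ (by linarith)
              obtain ⟨N, rfl⟩ : ∃ N, M = N + 1 := ⟨M - 1, by omega⟩
              have : 2 * (N + 1) * (N + 1 - 1) + 1 ≤ 2 * (N + 1) ^ 2 := by
                simp only [Nat.add_sub_cancel]
                nlinarith
              omega
      rw [div_eq_mul_one_div, mul_comm]
      exact mul_le_mul_of_nonneg_left h4 hcpos.le
    have hn : (((k + m * k : ℕ) : ℝ)) ≤ 81 * (M : ℝ) ^ 6 := by
      have hk3 : (k : ℝ) ≤ 3 * (M : ℝ) ^ 2 := by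
        rw [hk]; push_cast; nlinarith
      have hk1 : (1 : ℝ) ≤ k := by exact_mod_cast hkpos
      have h1 : (((k + m * k : ℕ) : ℝ)) = k + 2 * (k : ℝ) ^ 3 := by
        rw [hm]; push_cast; ring
      rw [h1]
      have h2 : (k : ℝ) ^ 3 ≤ (3 * (M : ℝ) ^ 2) ^ 3 := pow_le_pow_left₀ hkposR.le hk3 3
      have h3 : (k : ℝ) ≤ (k : ℝ) ^ 3 := le_self_pow₀ hk1 (by norm_num)
      have h4 : (3 * (M : ℝ) ^ 2) ^ 3 = 27 * (M : ℝ) ^ 6 := by ring
      linarith
    have hCn : C * (((k + m * k : ℕ) : ℝ)) ^ d * ρ ≤ |C| * (81 * (M : ℝ) ^ 6) ^ d := by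
      have h1 : (((k + m * k : ℕ) : ℝ)) ^ d ≤ (81 * (M : ℝ) ^ 6) ^ d :=
        pow_le_pow_left₀ (Nat.cast_nonneg _) hn d
      have h2 : 0 ≤ (((k + m * k : ℕ) : ℝ)) ^ d := by positivity
      calc C * (((k + m * k : ℕ) : ℝ)) ^ d * ρ ≤ |C| * (((k + m * k : ℕ) : ℝ)) ^ d * ρ := by
            apply mul_le_mul_of_nonneg_right _ hρpos.le
            exact mul_le_mul_of_nonneg_right (le_abs_self C) h2
        _ ≤ |C| * (((k + m * k : ℕ) : ℝ)) ^ d := by
            apply mul_le_of_le_one_right _ hρ1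
            positivity
        _ ≤ _ := mul_le_mul_of_nonneg_left h1 (abs_nonneg C)
    linarith
  · -- ties
    intro j r hr
    have h0 : Metric.infDist (WithLp.toLp 2 (Q r) : EuclideanSpace ℝ (Fin k))
        (Sp Q σ j : Set _) = 0 := by
      apply Metric.infDist_zero_of_mem
      have hrk : (r : ℕ) < k := lt_of_lt_of_le (show (r : ℕ) < j from hr) j.isLt.le
      have hr2 : r = σ ⟨r, hrk⟩ := by
        ext; rfl
      rw [hr2]
      exact mem_Sp Q σ (i := ⟨r, hrk⟩) (show (r : ℕ) < j from hr)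
    have h1 := hpiv j
    have h2 : 0 < ρ * s ^ (j : ℕ) := by positivity
    show Metric.infDist (WithLp.toLp 2 (Q r) : EuclideanSpace ℝ (Fin k))
        (Sp Q σ j : Set _) < _
    rw [h0]
    exact lt_of_lt_of_le h2 h1


end Pool.Agent.S1524
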