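import Pool.Statements.S1584
-- import your own Pool.Agent.* helpers here

set_option autoImplicit false
open Filter Topology
open Pool Pool.MP_8ba4a6_an

namespace Pool.Agent.S1584

open Filter Topology

/-- The nonlinearity. -/
noncomputable def ff (x y : ℝ) : ℝ :=
  Real.exp (-(Real.log x) / 2 - (Real.log x) ^ 3 - (Real.log y) / 2)

lemma ff_pos (x y : ℝ) : 0 < ff x y := Real.exp_pos _

/-- The Lyapunov function. -/
noncomputable def V (a b : ℝ) : ℝ := a ^ 2 - a * b / 2 + b ^ 2 / 2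

lemma V_ge (a b : ℝ) : (a ^ 2 + b ^ 2) / 4 ≤ V a b := by
  unfold V
  nlinarith [sq_nonneg (a - b / 3), sq_nonneg b]

lemma V_le (a b : ℝ) : V a b ≤ 2 * (a ^ 2 + b ^ 2) := by
  unfold V
  nlinarith [sq_nonneg (a + b), sq_nonneg (a - b), sq_nonneg a, sq_nonneg b]

lemma V_step (a b : ℝ) (h : V a b ≤ 1 / 64) :
    V (a / 2 - a ^ 3 - b / 2) a ≤ 3 / 4 * V a b := by
  have h1 := V_ge a b
  have ha : a ^ 2 ≤ 1 / 16 := by nlinarith [sq_nonneg b]
  have e : V (a / 2 - a ^ 3 - b / 2) a = V a b / 2 - a ^ 4 / 2 + a ^ 3 * b + a ^ 6 := by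
    unfold V; ring
  rw [e]
  have h2 : a ^ 3 * b ≤ (a ^ 2 + b ^ 2) / 32 := by
    have h3 : a * b ≤ (a ^ 2 + b ^ 2) / 2 := by nlinarith [sq_nonneg (a - b)]
    have h4 : -(a * b) ≤ (a ^ 2 + b ^ 2) / 2 := by nlinarith [sq_nonneg (a + b)]
    have h5 : a ^ 3 * b = a ^ 2 * (a * b) := by ring
    rw [h5]
    have h6 : 0 ≤ a ^ 2 := sq_nonneg a
    by_cases hab : 0 ≤ a * b
    · calc a ^ 2 * (a * b) ≤ 1 / 16 * (a * b) := mul_le_mul_of_nonneg_right ha hab
        _ ≤ _ := by linarith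
    · push Not at hab
      have : a ^ 2 * (a * b) ≤ 0 := mul_nonpos_of_nonneg_of_nonpos h6 hab.le
      nlinarith [sq_nonneg b]
  have h7 : a ^ 6 ≤ a ^ 2 / 256 := by
    have h8 : a ^ 6 = a ^ 2 * (a ^ 2 * a ^ 2) := by ring
    rw [h8]
    have h9 : 0 ≤ a ^ 2 := sq_nonneg a
    have h10 : a ^ 2 * a ^ 2 ≤ 1 / 256 := by nlinarith
    nlinarith
  have h11 : 0 ≤ a ^ 4 := by positivity
  nlinarith [sq_nonneg b, sq_nonneg a]

lemma pos_of_rec {x : ℕ → ℝ} (h0 : 0 < x 0) (h1 : 0 < x 1)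
    (hx : ∀ n : ℕ, x (n + 2) = x (n + 1) * ff (x (n + 1)) (x n)) : ∀ n, 0 < x n := by
  have key : ∀ n, 0 < x n ∧ 0 < x (n + 1) := by
    intro n
    induction n with
    | zero => exact ⟨h0, h1⟩
    | succ n ih =>
      refine ⟨ih.2, ?_⟩
      rw [hx n]
      exact mul_pos ih.2 (ff_pos _ _)
  exact fun n => (key n).1

lemma log_rec {x : ℕ → ℝ} (h0 : 0 < x 0) (h1 : 0 < x 1)
    (hx : ∀ n : ℕ, x (n + 2) = x (n + 1) * ff (x (n + 1)) (x n)) (n : ℕ) :
    Real.log (x (n + 2)) =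
      Real.log (x (n + 1)) / 2 - Real.log (x (n + 1)) ^ 3 - Real.log (x n) / 2 := by
  have hp := pos_of_rec h0 h1 hx
  rw [hx n, Real.log_mul (hp _).ne' (ff_pos _ _).ne']
  unfold ff
  rw [Real.log_exp]
  ring

lemma V_decay {x : ℕ → ℝ} (h0 : 0 < x 0) (h1 : 0 < x 1)
    (hx : ∀ n : ℕ, x (n + 2) = x (n + 1) * ff (x (n + 1)) (x n))
    (hV : V (Real.log (x 1)) (Real.log (x 0)) ≤ 1 / 64) (n : ℕ) :
    V (Real.log (x (n + 1))) (Real.log (x n)) ≤
      (3 / 4) ^ n * V (Real.log (x 1)) (Real.log (x 0)) := by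
  set V0 := V (Real.log (x 1)) (Real.log (x 0)) with hV0
  have hV0n : 0 ≤ V0 := by
    have := V_ge (Real.log (x 1)) (Real.log (x 0))
    nlinarith [sq_nonneg (Real.log (x 1)), sq_nonneg (Real.log (x 0))]
  induction n with
  | zero => simp [hV0]
  | succ n ih =>
    have h2 : (3 / 4 : ℝ) ^ n * V0 ≤ V0 :=
      mul_le_of_le_one_left hV0n (pow_le_one₀ (by norm_num) (by norm_num))
    have h3 : V (Real.log (x (n + 1))) (Real.log (x n)) ≤ 1 / 64 := by linarith
    have h4 := V_step _ _ h3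
    rw [← log_rec h0 h1 hx n] at h4
    calc V (Real.log (x (n + 1 + 1))) (Real.log (x (n + 1))) ≤
          3 / 4 * V (Real.log (x (n + 1))) (Real.log (x n)) := h4
      _ ≤ 3 / 4 * ((3 / 4) ^ n * V0) := by linarith
      _ = _ := by ring

lemma log_bound {x : ℕ → ℝ} (h0 : 0 < x 0) (h1 : 0 < x 1)
    (hx : ∀ n : ℕ, x (n + 2) = x (n + 1) * ff (x (n + 1)) (x n))
    (hV : V (Real.log (x 1)) (Real.log (x 0)) ≤ 1 / 64) (n : ℕ) :
    (Real.log (x n)) ^ 2 ≤ (3 / 4) ^ n * (4 * V (Real.log (x 1)) (Real.log (x 0))) := by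
  have h := V_decay h0 h1 hx hV n
  have h2 := V_ge (Real.log (x (n + 1))) (Real.log (x n))
  nlinarith [sq_nonneg (Real.log (x (n + 1)))]

lemma small_logs (t : ℝ) (ht : 0 < t) : ∃ δ : ℝ, 0 < δ ∧ ∀ a b : ℝ, 0 < a → 0 < b →
    |a - 1| + |b - 1| < δ → V (Real.log b) (Real.log a) ≤ t := by
  have hc : ContinuousAt Real.log 1 := Real.continuousAt_log one_ne_zero
  rw [Metric.continuousAt_iff] at hc
  obtain ⟨δ, hδ, h⟩ := hc (Real.sqrt (t / 4)) (Real.sqrt_pos.mpr (by linarith))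
  refine ⟨δ, hδ, fun a b _ _ hab => ?_⟩
  have ha : dist a 1 < δ := by
    rw [Real.dist_eq]
    linarith [abs_nonneg (b - 1)]
  have hb : dist b 1 < δ := by
    rw [Real.dist_eq]
    linarith [abs_nonneg (a - 1)]
  have h1 := h ha
  have h2 := h hb
  rw [Real.log_one, Real.dist_eq, sub_zero] at h1 h2
  have h3 : Real.log a ^ 2 ≤ t / 4 := by
    rw [← sq_abs, ← Real.sq_sqrt (show (0 : ℝ) ≤ t / 4 by linarith)]
    exact pow_le_pow_left₀ (abs_nonneg _) h1.le 2
  have h4 : Real.log b ^ 2 ≤ t / 4 := by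
    rw [← sq_abs, ← Real.sq_sqrt (show (0 : ℝ) ≤ t / 4 by linarith)]
    exact pow_le_pow_left₀ (abs_nonneg _) h2.le 2
  have h5 := V_le (Real.log b) (Real.log a)
  linarith

/-- The two-cycle. -/
noncomputable def cyc (n : ℕ) : ℝ := Real.exp (Real.sqrt 2 * (-1) ^ n)


/-- The negation of the preceding statement: If f>0 is continuous on the positive quadrant, nonincreasing in x, strictly decreasing in y, x·f(x,x) strictly decreasing, and the unique positive equilibrium of x_{n+1}=x_n f(x_n,x_{n-1}) is locally asymptotically stable, then every positive solution converges to it. -/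
theorem result :
    ¬ (∀ (f : ℝ → ℝ → ℝ) (xbar : ℝ),
      ContinuousOn (fun p : ℝ × ℝ => f p.1 p.2) (Set.Ioi (0:ℝ) ×ˢ Set.Ioi (0:ℝ)) →
      (∀ x y : ℝ, 0 < x → 0 < y → 0 < f x y) →
      (∀ x₁ x₂ y : ℝ, 0 < x₁ → x₁ ≤ x₂ → 0 < y → f x₂ y ≤ f x₁ y) →
      (∀ x y₁ y₂ : ℝ, 0 < x → 0 < y₁ → y₁ < y₂ → f x y₂ < f x y₁) →
      (∀ x₁ x₂ : ℝ, 0 < x₁ → x₁ < x₂ → x₂ * f x₂ x₂ < x₁ * f x₁ x₁) →
      0 < xbar →
      f xbar xbar = 1 →
      (∀ y : ℝ, 0 < y → f y y = 1 → y = xbar) →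
      (∀ ε : ℝ, 0 < ε → ∃ δ : ℝ, 0 < δ ∧
        ∀ x : ℕ → ℝ, 0 < x 0 → 0 < x 1 →
          (∀ n : ℕ, x (n + 2) = x (n + 1) * f (x (n + 1)) (x n)) →
          |x 0 - xbar| + |x 1 - xbar| < δ →
          ∀ n : ℕ, |x n - xbar| < ε) →
      (∃ γ : ℝ, 0 < γ ∧
        ∀ x : ℕ → ℝ, 0 < x 0 → 0 < x 1 →
          (∀ n : ℕ, x (n + 2) = x (n + 1) * f (x (n + 1)) (x n)) →
          |x 0 - xbar| + |x 1 - xbar| < γ →
          Tendsto x atTop (𝓝 xbar)) →
      ∀ x : ℕ → ℝ, 0 < x 0 → 0 < x 1 →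
        (∀ n : ℕ, x (n + 2) = x (n + 1) * f (x (n + 1)) (x n)) →
        Tendsto x atTop (𝓝 xbar)) := by
  intro H
  have key := H ff 1 ?_ (fun x y _ _ => ff_pos x y) ?_ ?_ ?_ one_pos ?_ ?_ ?_ ?_ cyc
    (Real.exp_pos _) (Real.exp_pos _) ?_
  · -- contradiction
    have h2 : Tendsto (fun n : ℕ => cyc (2 * n)) atTop (𝓝 1) :=
      key.comp (tendsto_id.const_mul_atTop' (by norm_num : 0 < 2))
    have h3 : (fun n : ℕ => cyc (2 * n)) = fun _ => Real.exp (Real.sqrt 2) := by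
      ext n
      simp [cyc, pow_mul]
    rw [h3, tendsto_const_nhds_iff] at h2
    have h4 : Real.sqrt 2 = 0 := by
      rw [← Real.exp_eq_one_iff]
      exact h2
    rw [Real.sqrt_eq_zero (by norm_num)] at h4
    norm_num at h4
  · -- continuity
    unfold ff
    apply Continuous.comp_continuousOn Real.continuous_exp
    have h1 : ContinuousOn (fun p : ℝ × ℝ => Real.log p.1) (Set.Ioi (0:ℝ) ×ˢ Set.Ioi (0:ℝ)) := by
      apply ContinuousOn.log continuous_fst.continuousOn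
      rintro ⟨x, y⟩ ⟨hx, _⟩
      exact (ne_of_gt hx)
    have h2 : ContinuousOn (fun p : ℝ × ℝ => Real.log p.2) (Set.Ioi (0:ℝ) ×ˢ Set.Ioi (0:ℝ)) := by
      apply ContinuousOn.log continuous_snd.continuousOn
      rintro ⟨x, y⟩ ⟨_, hy⟩
      exact (ne_of_gt hy)
    exact (((h1.neg).div_const 2).sub (h1.pow 3)).sub (h2.div_const 2)
  · intro x₁ x₂ y h1 h12 _
    unfold ff
    apply Real.exp_le_exp.mpr
    have hl : Real.log x₁ ≤ Real.log x₂ := Real.log_le_log h1 h12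
    have hl3 : Real.log x₁ ^ 3 ≤ Real.log x₂ ^ 3 := by
      have := (Odd.strictMono_pow (R := ℝ) (n := 3) (by decide)).monotone hl
      exact this
    linarith
  · intro x y₁ y₂ _ h1 h12
    unfold ff
    apply Real.exp_lt_exp.mpr
    have hl : Real.log y₁ < Real.log y₂ := Real.log_lt_log h1 h12
    linarith
  · intro x₁ x₂ h1 h12
    have h2 : 0 < x₂ := h1.trans h12
    have hl : Real.log x₁ < Real.log x₂ := Real.log_lt_log h1 h12
    have hl3 : Real.log x₁ ^ 3 < Real.log x₂ ^ 3 := by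
      exact (Odd.strictMono_pow (R := ℝ) (n := 3) (by decide)) hl
    have e : ∀ x : ℝ, 0 < x → x * ff x x = Real.exp (-(Real.log x) ^ 3) := by
      intro x hx
      unfold ff
      conv_lhs => rw [← Real.exp_log hx]
      rw [Real.log_exp, ← Real.exp_add]
      congr 1
      ring
    rw [e x₁ h1, e x₂ h2]
    apply Real.exp_lt_exp.mpr
    linarith
  · simp [ff]
  · intro y hy hyy
    unfold ff at hyy
    rw [Real.exp_eq_one_iff] at hyy
    have h1 : Real.log y * (1 + Real.log y ^ 2) = 0 := by linarith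
    have h2 : Real.log y = 0 := by
      rcases mul_eq_zero.mp h1 with h | h
      · exact h
      · nlinarith [sq_nonneg (Real.log y)]
    exact Real.eq_one_of_pos_of_log_eq_zero hy h2
  · -- stability
    intro ε hε
    have hc : ContinuousAt Real.exp 0 := Real.continuous_exp.continuousAt
    rw [Metric.continuousAt_iff] at hc
    obtain ⟨η, hη, hexp⟩ := hc ε hε
    obtain ⟨δ, hδ, h⟩ := small_logs (min (1 / 64) (η ^ 2 / 16)) (by positivity)
    refine ⟨δ, hδ, fun x h0 h1 hx hd n => ?_⟩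
    have hp := pos_of_rec h0 h1 hx
    have hV := h (x 0) (x 1) h0 h1 hd
    have hV1 := hV.trans (min_le_left _ _)
    have hV2 := hV.trans (min_le_right _ _)
    have hb := log_bound h0 h1 hx hV1 n
    have hV0n : 0 ≤ V (Real.log (x 1)) (Real.log (x 0)) := by
      have := V_ge (Real.log (x 1)) (Real.log (x 0))
      nlinarith [sq_nonneg (Real.log (x 1)), sq_nonneg (Real.log (x 0))]
    have h2 : (Real.log (x n)) ^ 2 < η ^ 2 := by
      have h3 : (3 / 4 : ℝ) ^ n * (4 * V (Real.log (x 1)) (Real.log (x 0))) ≤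
          4 * V (Real.log (x 1)) (Real.log (x 0)) :=
        mul_le_of_le_one_left (by linarith) (pow_le_one₀ (by norm_num) (by norm_num))
      have : 0 < η ^ 2 := by positivity
      linarith
    have h3 : |Real.log (x n)| < η := abs_lt_of_sq_lt_sq h2 hη.le
    have h4 : dist (Real.log (x n)) 0 < η := by
      rw [Real.dist_eq, sub_zero]; exact h3
    have h5 := hexp h4
    rw [Real.exp_log (hp n), Real.exp_zero, Real.dist_eq] at h5
    exact h5
  · -- attractivity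
    obtain ⟨δ, hδ, h⟩ := small_logs (1 / 64) (by norm_num)
    refine ⟨δ, hδ, fun x h0 h1 hx hd => ?_⟩
    have hp := pos_of_rec h0 h1 hx
    have hV := h (x 0) (x 1) h0 h1 hd
    have hlog : Tendsto (fun n => Real.log (x n)) atTop (𝓝 0) := by
      have h2 : Tendsto (fun n => (Real.log (x n)) ^ 2) atTop (𝓝 0) := by
        apply squeeze_zero (fun n => sq_nonneg _) (fun n => log_bound h0 h1 hx hV n)
        have h3 := (tendsto_pow_atTop_nhds_zero_of_lt_one (r := (3 / 4 : ℝ)) (by norm_num)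
          (by norm_num)).mul_const (4 * V (Real.log (x 1)) (Real.log (x 0)))
        simpa using h3
      have h4 := h2.sqrt
      simp only [Real.sqrt_zero, Real.sqrt_sq_eq_abs] at h4
      exact (tendsto_zero_iff_abs_tendsto_zero _).mpr h4
    have h5 := (Real.continuous_exp.tendsto 0).comp hlog
    rw [Real.exp_zero] at h5
    refine h5.congr ?_
    intro n
    simp [Real.exp_log (hp n)]
  · -- the cycle
    intro n
    have hs : Real.sqrt 2 ^ 2 = 2 := Real.sq_sqrt (by norm_num)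
    unfold cyc ff
    rw [Real.log_exp, Real.log_exp, ← Real.exp_add]
    congr 1
    have h1 : ((-1 : ℝ) ^ n) ^ 2 = 1 := by
      rw [← pow_mul, mul_comm, pow_mul]; norm_num
    have h3 : (Real.sqrt 2 * (-1) ^ (n + 1)) ^ 3 = -(2 * (Real.sqrt 2 * (-1) ^ n)) := by
      have : (Real.sqrt 2 * (-1) ^ (n + 1)) ^ 3 =
          -((Real.sqrt 2) ^ 2 * ((-1 : ℝ) ^ n) ^ 2 * (Real.sqrt 2 * (-1) ^ n)) := by ring
      rw [this, hs, h1]
      ring
    rw [h3]
    ring


end Pool.Agent.S1584
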