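import Pool.Statements.S1620
import Pool.Agent.H7.Bloch.Series

set_option autoImplicit false
open Pool Pool.MP_983584_an

namespace Pool.Agent.S1620




/-- The negation of the preceding statement: If f is holomorphic on the unit disc with f(0)=1, positive real part, the Bloch condition sup (1−∣z∣²)∣f′(z)∣ < ∞, and all Taylor coefficients a_n (n≥1) real and nonnegative, then Σ a_n² converges. -/
theorem result :
    ¬ (∀ f : ℂ → ℂ, DifferentiableOn ℂ f (Metric.ball (0 : ℂ) 1) → f 0 = 1 →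
      (∀ z ∈ Metric.ball (0 : ℂ) 1, 0 < (f z).re) →
      (∃ C : ℝ, ∀ z ∈ Metric.ball (0 : ℂ) 1, (1 - ‖z‖ ^ 2) * ‖deriv f z‖ ≤ C) →
      ∀ a : ℕ → ℝ,
        (∀ n : ℕ, 1 ≤ n → 0 ≤ a n ∧ iteratedDeriv n f 0 = ((n.factorial : ℂ) * (a n : ℂ))) →
        Summable (fun n : ℕ => a n ^ 2)) := by
  intro H
  obtain ⟨f, h1, h2, h3, h4, a, h5, h6⟩ := Pool.Agent.H7.Bloch.counterexample
  exact h6 (H f h1 h2 h3 h4 a h5)


end Pool.Agent.S1620
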