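import Pool.Statements.S1654
import Pool.Agent.H7.OneR.Main

set_option autoImplicit false
open MeasureTheory
open Pool Pool.MP_a19bc9_an

namespace Pool.Agent.S1654




/-- The negation of the preceding statement: In the unit ball of C^n, a bounded continuous real u that at every point equals its invariant sphere mean for one radius in (0,1) equals it for every radius in (0,1), i.e. u is M-harmonic. -/
theorem result :
    ¬ (∀ n : ℕ, 1 ≤ n →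
  ∀ φ : (Fin n → ℂ) → (Fin n → ℂ) → (Fin n → ℂ),
  (∀ z w : Fin n → ℂ, φ z w =
      (1 - ∑ j, w j * starRingEnd ℂ (z j))⁻¹ •
        (z - ((∑ j, w j * starRingEnd ℂ (z j)) / (∑ j, z j * starRingEnd ℂ (z j))) • z
          - ((Real.sqrt (1 - ∑ j, Complex.normSq (z j)) : ℝ) : ℂ) •
            (w - ((∑ j, w j * starRingEnd ℂ (z j)) / (∑ j, z j * starRingEnd ℂ (z j))) • z))) →
  ∀ u : (Fin n → ℂ) → ℝ,
  ContinuousOn u {z : Fin n → ℂ | ∑ j, Complex.normSq (z j) < 1} →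
  (∃ C : ℝ, ∀ z ∈ {z : Fin n → ℂ | ∑ j, Complex.normSq (z j) < 1}, |u z| ≤ C) →
  (∀ z ∈ {z : Fin n → ℂ | ∑ j, Complex.normSq (z j) < 1}, ∃ r : ℝ, 0 < r ∧ r < 1 ∧
     u z = ⨍ x in {x : Fin n → ℂ | ∑ j, Complex.normSq (x j) < 1},
        u (φ z (((r : ℂ) * ((Real.sqrt (∑ j, Complex.normSq (x j)) : ℝ) : ℂ)⁻¹) • x))) →
  ∀ z ∈ {z : Fin n → ℂ | ∑ j, Complex.normSq (z j) < 1}, ∀ r : ℝ, 0 < r → r < 1 →
     u z = ⨍ x in {x : Fin n → ℂ | ∑ j, Complex.normSq (x j) < 1},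
        u (φ z (((r : ℂ) * ((Real.sqrt (∑ j, Complex.normSq (x j)) : ℝ) : ℂ)⁻¹) • x))) := by
  intro H
  have hB : ∀ z : Fin 1 → ℂ, z ∈ Pool.Agent.H7.OneR.B → Complex.normSq (z 0) < 1 := by
    intro z hz
    simpa [Pool.Agent.H7.OneR.B] using hz
  obtain ⟨r, h0, h1, h2⟩ := Pool.Agent.H7.OneR.not_harmonic
  refine h2 (H 1 le_rfl Pool.Agent.H7.OneR.ph (fun _ _ => rfl) Pool.Agent.H7.OneR.u Pool.Agent.H7.OneR.u_cont
    ⟨1, fun z hz => Pool.Agent.H7.OneR.u_bdd hz⟩ (fun z hz => ?_) 0 (by simp) r h0 h1)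
  exact Pool.Agent.H7.OneR.one_radius (hB z hz)


end Pool.Agent.S1654
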