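import Pool.Statements.S1713
import Pool.Agent.H7.BanachD

set_option autoImplicit false
open MeasureTheory
open Pool Pool.MP_bbfc99_an

namespace Pool.Agent.S1713

/-- There is a complete orthonormal sequence of measurable L² functions on [0,1] such that, for every nonzero polynomial, the partial sums of its expansion in that sequence fail to converge at almost every point of [0,1]. -/
theorem result :
  ∃ φ : ℕ → ℝ → ℝ,
    (∀ n, Measurable (φ n)) ∧
    (∀ n, MemLp (φ n) 2 (volume.restrict (Set.Icc (0:ℝ) 1))) ∧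
    (∀ n m, ∫ t in Set.Icc (0:ℝ) 1, φ n t * φ m t = if n = m then (1:ℝ) else 0) ∧
    (∀ f : ℝ → ℝ, MemLp f 2 (volume.restrict (Set.Icc (0:ℝ) 1)) →
      (∀ n, ∫ t in Set.Icc (0:ℝ) 1, f t * φ n t = 0) →
      f =ᵐ[volume.restrict (Set.Icc (0:ℝ) 1)] 0) ∧
    ∀ p : Polynomial ℝ, p ≠ 0 →
      ∀ᵐ t ∂(volume.restrict (Set.Icc (0:ℝ) 1)),
        ¬ ∃ L : ℝ, Filter.Tendsto
          (fun N : ℕ => ∑ n ∈ Finset.range N,
            (∫ s in Set.Icc (0:ℝ) 1, p.eval s * φ n s) * φ n t)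
          Filter.atTop (nhds L) := by
  obtain ⟨e, h1, h2, h3⟩ := Pool.Agent.H7.Banach.main
  have hinner : ∀ (f : ℝ → ℝ) (hf : MemLp f 2 (volume.restrict (Set.Icc (0:ℝ) 1))) (n : ℕ),
      ∫ t in Set.Icc (0:ℝ) 1, f t * (e n : ℝ → ℝ) t = inner ℝ (e n) (hf.toLp f) := by
    intro f hf n
    rw [Pool.Agent.H7.Banach.inner_eq]
    apply integral_congr_ae
    filter_upwards [hf.coeFn_toLp] with t ht
    rw [ht]
  refine ⟨fun n => (e n : ℝ → ℝ), fun n => (Lp.stronglyMeasurable (e n)).measurable,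
    fun n => Lp.memLp (e n), ?_, ?_, ?_⟩
  · intro n m
    rw [← h1 n m, real_inner_comm, Pool.Agent.H7.Banach.inner_eq]
  · intro f hf h
    have h4 := h2 (hf.toLp f) (fun n => by rw [← hinner f hf n]; exact h n)
    have h5 := hf.coeFn_toLp
    rw [h4] at h5
    exact h5.symm.trans (Lp.coeFn_zero ℝ 2 _)
  · intro p hp
    filter_upwards [h3 p hp] with t ht
    have h6 : ∀ n, ∫ s in Set.Icc (0:ℝ) 1, p.eval s * (e n : ℝ → ℝ) s =
        inner ℝ (e n) (Pool.Agent.H7.Banach.pl p) := fun n =>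
      hinner (fun s => p.eval s) (Pool.Agent.H7.Banach.poly_memLp p) n
    simp only [h6]
    exact ht

end Pool.Agent.S1713
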