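import Pool.Statements.S1717
import Pool.Agent.H0.Colloc.Bwd

set_option autoImplicit false
open MeasureTheory Filter Topology
open Pool Pool.MP_be0a19_an

namespace Pool.Agent.S1717

/-- For piecewise continuous a, b on the circle, with S the Cauchy singular integral operator (Riesz symbol ±1), condition (3) on the one-sided limits holds iff aI+bS, and likewise aI+SbI, times some nonvanishing PC Θ is strongly elliptic on L². -/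
theorem result :
  ∀ (a b : AddCircle (1:ℝ) → ℂ),
    (∀ x : ℝ, (∃ l : ℂ, Tendsto (fun s : ℝ => a (↑s : AddCircle (1:ℝ))) (𝓝[<] x) (𝓝 l)) ∧
      (∃ r : ℂ, Tendsto (fun s : ℝ => a (↑s : AddCircle (1:ℝ))) (𝓝[>] x) (𝓝 r))) →
    (∀ x : ℝ, (∃ l : ℂ, Tendsto (fun s : ℝ => b (↑s : AddCircle (1:ℝ))) (𝓝[<] x) (𝓝 l)) ∧
      (∃ r : ℂ, Tendsto (fun s : ℝ => b (↑s : AddCircle (1:ℝ))) (𝓝[>] x) (𝓝 r))) →
    ∀ (S Ma Mb : Lp ℂ 2 (AddCircle.haarAddCircle (T := (1:ℝ))) →L[ℂ]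
        Lp ℂ 2 (AddCircle.haarAddCircle (T := (1:ℝ)))),
    (∀ n : ℤ, S (fourierLp (T := (1:ℝ)) 2 n) =
        (if 0 ≤ n then (1:ℂ) else -1) • fourierLp (T := (1:ℝ)) 2 n) →
    (∀ f : Lp ℂ 2 (AddCircle.haarAddCircle (T := (1:ℝ))),
        (Ma f : AddCircle (1:ℝ) → ℂ) =ᵐ[AddCircle.haarAddCircle (T := (1:ℝ))]
          fun x => a x * f x) →
    (∀ f : Lp ℂ 2 (AddCircle.haarAddCircle (T := (1:ℝ))),
        (Mb f : AddCircle (1:ℝ) → ℂ) =ᵐ[AddCircle.haarAddCircle (T := (1:ℝ))]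
          fun x => b x * f x) →
    ((∀ x : ℝ, ∀ ap am bp bm : ℂ,
        Tendsto (fun s : ℝ => a (↑s : AddCircle (1:ℝ))) (𝓝[>] x) (𝓝 ap) →
        Tendsto (fun s : ℝ => a (↑s : AddCircle (1:ℝ))) (𝓝[<] x) (𝓝 am) →
        Tendsto (fun s : ℝ => b (↑s : AddCircle (1:ℝ))) (𝓝[>] x) (𝓝 bp) →
        Tendsto (fun s : ℝ => b (↑s : AddCircle (1:ℝ))) (𝓝[<] x) (𝓝 bm) →
        ∀ μ ν : ℝ, 0 ≤ μ → μ ≤ 1 → 0 ≤ ν → ν ≤ 1 →
          ((ap + bp) * (am - bm) * (μ : ℂ) + (am + bm) * (ap - bp) * (1 - (μ : ℂ))) * (ν : ℂ)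
            + (ap - bp) * (am - bm) * (1 - (ν : ℂ)) ≠ 0)
      ↔
      ∃ Θ : AddCircle (1:ℝ) → ℂ,
        (∀ x : ℝ, (∃ l : ℂ, Tendsto (fun s : ℝ => Θ (↑s : AddCircle (1:ℝ))) (𝓝[<] x) (𝓝 l)) ∧
          (∃ r : ℂ, Tendsto (fun s : ℝ => Θ (↑s : AddCircle (1:ℝ))) (𝓝[>] x) (𝓝 r))) ∧
        (∀ t : AddCircle (1:ℝ), Θ t ≠ 0) ∧
        ∀ MΘ : Lp ℂ 2 (AddCircle.haarAddCircle (T := (1:ℝ))) →L[ℂ]
            Lp ℂ 2 (AddCircle.haarAddCircle (T := (1:ℝ))),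
          (∀ f : Lp ℂ 2 (AddCircle.haarAddCircle (T := (1:ℝ))),
            (MΘ f : AddCircle (1:ℝ) → ℂ) =ᵐ[AddCircle.haarAddCircle (T := (1:ℝ))]
              fun x => Θ x * f x) →
          ∃ D K : Lp ℂ 2 (AddCircle.haarAddCircle (T := (1:ℝ))) →L[ℂ]
              Lp ℂ 2 (AddCircle.haarAddCircle (T := (1:ℝ))),
            IsSelfAdjoint D ∧ IsCompactOperator K ∧
            (∃ c : ℝ, 0 < c ∧ ∀ x : Lp ℂ 2 (AddCircle.haarAddCircle (T := (1:ℝ))),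
              c * ‖x‖ ^ 2 ≤ (inner ℂ (D x) x).re) ∧
            (1/2 : ℂ) • (MΘ.comp (Ma + Mb.comp S) +
              ContinuousLinearMap.adjoint (MΘ.comp (Ma + Mb.comp S))) = D + K) ∧
    ((∀ x : ℝ, ∀ ap am bp bm : ℂ,
        Tendsto (fun s : ℝ => a (↑s : AddCircle (1:ℝ))) (𝓝[>] x) (𝓝 ap) →
        Tendsto (fun s : ℝ => a (↑s : AddCircle (1:ℝ))) (𝓝[<] x) (𝓝 am) →
        Tendsto (fun s : ℝ => b (↑s : AddCircle (1:ℝ))) (𝓝[>] x) (𝓝 bp) →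
        Tendsto (fun s : ℝ => b (↑s : AddCircle (1:ℝ))) (𝓝[<] x) (𝓝 bm) →
        ∀ μ ν : ℝ, 0 ≤ μ → μ ≤ 1 → 0 ≤ ν → ν ≤ 1 →
          ((ap + bp) * (am - bm) * (μ : ℂ) + (am + bm) * (ap - bp) * (1 - (μ : ℂ))) * (ν : ℂ)
            + (ap - bp) * (am - bm) * (1 - (ν : ℂ)) ≠ 0)
      ↔
      ∃ Θ : AddCircle (1:ℝ) → ℂ,
        (∀ x : ℝ, (∃ l : ℂ, Tendsto (fun s : ℝ => Θ (↑s : AddCircle (1:ℝ))) (𝓝[<] x) (𝓝 l)) ∧
          (∃ r : ℂ, Tendsto (fun s : ℝ => Θ (↑s : AddCircle (1:ℝ))) (𝓝[>] x) (𝓝 r))) ∧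
        (∀ t : AddCircle (1:ℝ), Θ t ≠ 0) ∧
        ∀ MΘ : Lp ℂ 2 (AddCircle.haarAddCircle (T := (1:ℝ))) →L[ℂ]
            Lp ℂ 2 (AddCircle.haarAddCircle (T := (1:ℝ))),
          (∀ f : Lp ℂ 2 (AddCircle.haarAddCircle (T := (1:ℝ))),
            (MΘ f : AddCircle (1:ℝ) → ℂ) =ᵐ[AddCircle.haarAddCircle (T := (1:ℝ))]
              fun x => Θ x * f x) →
          ∃ D K : Lp ℂ 2 (AddCircle.haarAddCircle (T := (1:ℝ))) →L[ℂ]
              Lp ℂ 2 (AddCircle.haarAddCircle (T := (1:ℝ))),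
            IsSelfAdjoint D ∧ IsCompactOperator K ∧
            (∃ c : ℝ, 0 < c ∧ ∀ x : Lp ℂ 2 (AddCircle.haarAddCircle (T := (1:ℝ))),
              c * ‖x‖ ^ 2 ≤ (inner ℂ (D x) x).re) ∧
            (1/2 : ℂ) • (MΘ.comp (Ma + S.comp Mb) +
              ContinuousLinearMap.adjoint (MΘ.comp (Ma + S.comp Mb))) = D + K) := by
  intro a b ha hb S Ma Mb hS hMa hMb
  have key : (∀ x : ℝ, ∀ ap am bp bm : ℂ,
        Tendsto (fun s : ℝ => a (↑s : AddCircle (1:ℝ))) (𝓝[>] x) (𝓝 ap) →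
        Tendsto (fun s : ℝ => a (↑s : AddCircle (1:ℝ))) (𝓝[<] x) (𝓝 am) →
        Tendsto (fun s : ℝ => b (↑s : AddCircle (1:ℝ))) (𝓝[>] x) (𝓝 bp) →
        Tendsto (fun s : ℝ => b (↑s : AddCircle (1:ℝ))) (𝓝[<] x) (𝓝 bm) →
        ∀ μ ν : ℝ, 0 ≤ μ → μ ≤ 1 → 0 ≤ ν → ν ≤ 1 →
          ((ap + bp) * (am - bm) * (μ : ℂ) + (am + bm) * (ap - bp) * (1 - (μ : ℂ))) * (ν : ℂ)
            + (ap - bp) * (am - bm) * (1 - (ν : ℂ)) ≠ 0) ↔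
      Pool.Agent.Colloc.Cond3 (fun t => a t + b t) (fun t => a t - b t) := by
    constructor
    · intro h x cp cm dp dm hcp hcm hdp hdm μ ν h1 h2 h3 h4
      have ea : (fun s : ℝ => a (↑s : AddCircle (1:ℝ))) = fun s : ℝ =>
          ((a (↑s : AddCircle (1:ℝ)) + b (↑s : AddCircle (1:ℝ))) +
            (a (↑s : AddCircle (1:ℝ)) - b (↑s : AddCircle (1:ℝ)))) / 2 := by
        funext s; ring
      have eb : (fun s : ℝ => b (↑s : AddCircle (1:ℝ))) = fun s : ℝ =>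
          ((a (↑s : AddCircle (1:ℝ)) + b (↑s : AddCircle (1:ℝ))) -
            (a (↑s : AddCircle (1:ℝ)) - b (↑s : AddCircle (1:ℝ)))) / 2 := by
        funext s; ring
      have hap : Tendsto (fun s : ℝ => a (↑s : AddCircle (1:ℝ))) (𝓝[>] x) (𝓝 ((cp + dp) / 2)) := by
        rw [ea]; exact (hcp.add hdp).div_const 2
      have ham : Tendsto (fun s : ℝ => a (↑s : AddCircle (1:ℝ))) (𝓝[<] x) (𝓝 ((cm + dm) / 2)) := by
        rw [ea]; exact (hcm.add hdm).div_const 2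
      have hbp : Tendsto (fun s : ℝ => b (↑s : AddCircle (1:ℝ))) (𝓝[>] x) (𝓝 ((cp - dp) / 2)) := by
        rw [eb]; exact (hcp.sub hdp).div_const 2
      have hbm : Tendsto (fun s : ℝ => b (↑s : AddCircle (1:ℝ))) (𝓝[<] x) (𝓝 ((cm - dm) / 2)) := by
        rw [eb]; exact (hcm.sub hdm).div_const 2
      have hh := h x _ _ _ _ hap ham hbp hbm μ ν h1 h2 h3 h4
      intro h0
      apply hh
      rw [← h0]
      ring
    · intro h x ap am bp bm hap ham hbp hbm μ ν h1 h2 h3 h4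
      exact h x _ _ _ _ (hap.add hbp) (ham.add hbm) (hap.sub hbp) (ham.sub hbm) μ ν h1 h2 h3 h4
  refine ⟨⟨fun h => ?_, fun h => ?_⟩, ⟨fun h => ?_, fun h => ?_⟩⟩
  · exact (Pool.Agent.Colloc.forward hS ha hb hMa hMb (key.1 h)).1
  · obtain ⟨Θ, hΘ, _, hSE⟩ := h
    exact key.2 (Pool.Agent.Colloc.backward1 hS ha hb hMa hMb hΘ hSE)
  · exact (Pool.Agent.Colloc.forward hS ha hb hMa hMb (key.1 h)).2
  · obtain ⟨Θ, hΘ, _, hSE⟩ := h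
    exact key.2 (Pool.Agent.Colloc.backward2 hS ha hb hMa hMb hΘ hSE)

end Pool.Agent.S1717
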