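import Pool.Statements.S1789
import Pool.Agent.H0.Canon.Final

set_option autoImplicit false
open Pool Pool.MP_d393fc_an

namespace Pool.Agent.S1789

/-- For ω continuous, positive, nonincreasing, with all moments finite and x·ω′/ω eventually decreasing to −∞, and zeros with summable ∫_{∣a_k∣}^∞ω/x: the products ∏A(z;a_k) converge uniformly to a nonvanishing limit on compacts avoiding the a_k. -/
theorem result :
    ∀ ω : ℝ → ℝ, ContinuousOn ω (Set.Ici 0) → (∀ x : ℝ, 0 ≤ x → 0 < ω x) →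
      AntitoneOn ω (Set.Ici 0) →
      (∀ j : ℕ, MeasureTheory.IntegrableOn (fun x : ℝ => ω x * x ^ j) (Set.Ioi 0)) →
      (∃ R : ℝ, 0 < R ∧ (∀ x : ℝ, R < x → DifferentiableAt ℝ ω x) ∧
        AntitoneOn (fun x : ℝ => x * deriv ω x / ω x) (Set.Ioi R) ∧
        Filter.Tendsto (fun x : ℝ => x * deriv ω x / ω x) Filter.atTop Filter.atBot) →
      ∀ a : ℕ → ℂ, (∀ k, 0 < ‖a k‖) → (∀ k, ‖a k‖ ≤ ‖a (k + 1)‖) →
        Summable (fun k : ℕ => ∫ x in Set.Ioi ‖a k‖, ω x / x) →
        ∀ K : Set ℂ, IsCompact K → (∀ k, a k ∉ K) →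
          ∃ g : ℂ → ℂ,
            TendstoUniformlyOn
              (fun (n : ℕ) (w : ℂ) => ∏ k ∈ Finset.range n,
                (1 - w / a k) * Complex.exp (-(
                  (((∫ x in Set.Ioi ‖a k‖, ω x / x : ℝ)) : ℂ) -
                  ∑' j : ℕ,
                    ((a k)⁻¹ ^ (j + 1) *
                        (((∫ x in Set.Ioc 0 ‖a k‖, ω x * x ^ j : ℝ)) : ℂ) -
                      ((starRingEnd ℂ) (a k))⁻¹ ^ (j + 1) *
                        (((∫ x in Set.Ioi ‖a k‖, ω x * (x ^ (j + 2))⁻¹ : ℝ)) : ℂ)) *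
                    w ^ (j + 1) /
                    (((j : ℂ) + 1) * (((∫ x in Set.Ioi 0, ω x * x ^ j : ℝ)) : ℂ)))))
              g Filter.atTop K ∧
            ∀ w ∈ K, g w ≠ 0 := by
  exact Pool.Agent.Canon.main

end Pool.Agent.S1789
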