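import Pool.Statements.S1832
import Pool.Agent.H8.S1832aux
-- import your own Pool.Agent.* helpers here

set_option autoImplicit false
open Pool Pool.MP_df9bac_an

namespace Pool.Agent.S1832

/-- The negation of the preceding statement: For every bounded f from [0,1] into real c_0, the set of all norm limits of Riemann sums of f along tagged partitions of [0,1] whose mesh tends to 0 is a convex set. -/
theorem result :
    ¬ (∀ f : ℝ → ZeroAtInftyContinuousMap ℕ ℝ,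
      (∃ M : ℝ, ∀ s ∈ Set.Icc (0:ℝ) 1, ‖f s‖ ≤ M) →
      Convex ℝ {v : ZeroAtInftyContinuousMap ℕ ℝ |
        ∃ (n : ℕ → ℕ) (x t : ℕ → ℕ → ℝ),
          (∀ k, x k 0 = 0 ∧ x k (n k) = 1 ∧
            (∀ i, i < n k → x k i < x k (i+1)) ∧
            (∀ i, i < n k → x k i ≤ t k i ∧ t k i ≤ x k (i+1))) ∧
          (∀ ε : ℝ, 0 < ε → ∃ K : ℕ, ∀ k, K ≤ k → ∀ i, i < n k → x k (i+1) - x k i < ε) ∧
          Filter.Tendsto
            (fun k => ∑ i ∈ Finset.range (n k), (x k (i+1) - x k i) • f (t k i))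
            Filter.atTop (nhds v)}) := by
  intro h
  have hconv := h Pool.Agent.H8.S1832aux.fn ⟨1, fun s _ => Pool.Agent.H8.S1832aux.norm_fn s⟩
  have h1 := Pool.Agent.H8.S1832aux.mem_of (fun k => 2 * k) (fun k => by omega) _
    Pool.Agent.H8.S1832aux.mem_pos
  have h2 := Pool.Agent.H8.S1832aux.mem_of (fun k => 2 * k + 1) (fun k => by omega) _
    Pool.Agent.H8.S1832aux.mem_neg
  have h3 := hconv h1 h2 (show (0 : ℝ) ≤ 1 / 2 by norm_num) (show (0 : ℝ) ≤ 1 / 2 by norm_num)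
    (by norm_num)
  have h0 : (1 / 2 : ℝ) • Pool.Agent.H8.S1832aux.e1 + (1 / 2 : ℝ) • (-Pool.Agent.H8.S1832aux.e1) = 0 := by
    ext n
    change (1 / 2 : ℝ) * Pool.Agent.H8.S1832aux.e1 n +
      (1 / 2 : ℝ) * (-(Pool.Agent.H8.S1832aux.e1 n)) = 0
    ring
  rw [h0] at h3
  obtain ⟨n, x, t, hp, -, hlim⟩ := h3
  have h4 : ∀ k, 1 / 100 ≤ ‖∑ i ∈ Finset.range (n k),
      (x k (i+1) - x k i) • Pool.Agent.H8.S1832aux.fn (t k i)‖ := fun k =>
    Pool.Agent.H8.S1832aux.far (n k) (x k) (t k) (hp k).1 (hp k).2.1 (hp k).2.2.1 (hp k).2.2.2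
  have h5 := hlim.norm
  rw [norm_zero] at h5
  have h6 := ge_of_tendsto' h5 h4
  norm_num at h6

end Pool.Agent.S1832
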