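import Pool.Statements.S2055
import Pool.Agent.H0.Uf.Free

set_option autoImplicit false
open Pool Pool.MP_238aad_co

namespace Pool.Agent.S2055

/-- For every nonprincipal ultrafilter U on ℕ (ordered by inclusion) and monotone f:U→U whose images of coatoms have no common lower bound in f(U), U is a retract of f(U) via monotone maps g, h with g∘h = id. -/
theorem result :
    ∀ U : Ultrafilter ℕ, (∀ n : ℕ, U ≠ pure n) →
      ∀ f : {s : Set ℕ // s ∈ U} → {s : Set ℕ // s ∈ U}, Monotone f →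
        (¬ ∃ y : {s : Set ℕ // s ∈ U}, y ∈ Set.range f ∧
            ∀ c : {s : Set ℕ // s ∈ U},
              (c.1 ≠ Set.univ ∧ ∀ t : {s : Set ℕ // s ∈ U}, c.1 ⊆ t.1 → t.1 = c.1 ∨ t.1 = Set.univ) →
              y ≤ f c) →
        ∃ g : ↥(Set.range f) → {s : Set ℕ // s ∈ U},
          ∃ h : {s : Set ℕ // s ∈ U} → ↥(Set.range f),
            Monotone g ∧ Monotone h ∧ ∀ x, g (h x) = x := by
  classical
  intro U hU f hf hC
  -- the complement of a small set as an element of `U`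
  let co : (S : Set ℕ) → Pool.Agent.Uf.Sm U S → {s : Set ℕ // s ∈ U} := fun S hS => ⟨Sᶜ, hS⟩
  have hsing : ∀ n : ℕ, Pool.Agent.Uf.Sm U {n} := fun n => Pool.Agent.Uf.sm_finite hU (Set.finite_singleton n)
  let X : ℕ → {s : Set ℕ // s ∈ U} := fun n => f (co {n} (hsing n))
  -- closure operator
  let cl : Set ℕ → Set ℕ := fun S => {n | ∀ hS : Pool.Agent.Uf.Sm U S, f (co S hS) ≤ X n}
  have hcomono : ∀ S S' (hS : Pool.Agent.Uf.Sm U S) (hS' : Pool.Agent.Uf.Sm U S'), S ⊆ S' → f (co S' hS') ≤ f (co S hS) := by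
    intro S S' hS hS' h
    apply hf
    change S'ᶜ ⊆ Sᶜ
    exact Set.compl_subset_compl.2 h
  have hm : ∀ S S', S ⊆ S' → Pool.Agent.Uf.Sm U S' → cl S ⊆ cl S' := by
    intro S S' h hS' n hn hS'2
    have hS : Pool.Agent.Uf.Sm U S := hS'.mono h
    exact (hcomono S S' hS hS'2 h).trans (hn hS)
  have he : ∀ S, Pool.Agent.Uf.Sm U S → S ⊆ cl S := by
    intro S hS n hn hS2
    exact hcomono {n} S (hsing n) hS2 (Set.singleton_subset_iff.2 hn)
  have hi : ∀ S, Pool.Agent.Uf.Sm U S → Pool.Agent.Uf.Sm U (cl S) := by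
    intro S hS
    rw [← Pool.Agent.Uf.not_mem_sm]
    intro hcl
    apply hC
    have hA : Sᶜ ∩ cl S ∈ U := Filter.inter_mem hS hcl
    refine ⟨f ⟨Sᶜ ∩ cl S, hA⟩, ⟨_, rfl⟩, ?_⟩
    rintro c ⟨hc1, hc2⟩
    obtain ⟨n, hn⟩ := (Set.ne_univ_iff_exists_notMem _).1 hc1
    have hcn : c.1 = {n}ᶜ := by
      have h1 : c.1 ⊆ (co {n} (hsing n)).1 := by
        intro x hx hxn
        rw [Set.mem_singleton_iff] at hxn
        exact hn (hxn ▸ hx)
      rcases hc2 (co {n} (hsing n)) h1 with h2 | h2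
      · exact h2.symm
      · exfalso
        have : n ∈ (co {n} (hsing n)).1 := by rw [h2]; exact Set.mem_univ n
        exact this rfl
    have hceq : c = co {n} (hsing n) := Subtype.ext hcn
    rw [hceq]
    by_cases hncl : n ∈ cl S
    · refine le_trans ?_ (hncl hS)
      apply hf
      change Sᶜ ∩ cl S ⊆ Sᶜ
      exact Set.inter_subset_left
    · apply hf
      change Sᶜ ∩ cl S ⊆ {n}ᶜ
      intro x hx hxn
      rw [Set.mem_singleton_iff] at hxn
      exact hncl (hxn ▸ hx.2)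
  obtain ⟨M, hM, ζ, hζ, hdis, hfree⟩ := Pool.Agent.Uf.exists_free hm he hi hU
  have hrange : Pool.Agent.Uf.Sm U (Set.range ζ) := by
    refine Filter.mem_of_superset hM ?_
    intro x hx hx'
    exact (Set.disjoint_left.1 hdis) hx' hx
  let Ψ : Set ℕ → Set ℕ := fun B => (B ∩ M) ∪ ζ '' B
  have hΨ : ∀ B, Pool.Agent.Uf.Sm U B → Pool.Agent.Uf.Sm U (Ψ B) := fun B hB =>
    (hB.mono Set.inter_subset_left).union (hrange.mono (Set.image_subset_range _ _))
  have hΨm : ∀ B B', B ⊆ B' → Ψ B ⊆ Ψ B' := fun B B' h =>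
    Set.union_subset_union (Set.inter_subset_inter_left _ h) (Set.image_mono h)
  have hsmc : ∀ A : {s : Set ℕ // s ∈ U}, Pool.Agent.Uf.Sm U A.1ᶜ := fun A => by
    unfold Pool.Agent.Uf.Sm
    rw [compl_compl]
    exact A.2
  let h : {s : Set ℕ // s ∈ U} → ↥(Set.range f) := fun A => ⟨f (co (Ψ A.1ᶜ) (hΨ _ (hsmc A))), ⟨_, rfl⟩⟩
  let H : ℕ → {s : Set ℕ // s ∈ U} := fun n => f (co (Ψ {n}) (hΨ _ (hsing n)))
  have hg : ∀ Y : ↥(Set.range f), {n | ¬ Y.1 ≤ H n} ∈ U := by
    rintro ⟨Y, A, rfl⟩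
    have h1 : Pool.Agent.Uf.Sm U (cl A.1ᶜ) := hi _ (hsmc A)
    refine Filter.mem_of_superset (Filter.inter_mem hM h1) ?_
    rintro n ⟨hnM, hncl⟩ hle
    apply hncl
    intro hS
    have h2 : f (co A.1ᶜ hS) = f A := by
      congr 1
      apply Subtype.ext
      exact compl_compl _
    rw [h2]
    refine le_trans hle ?_
    apply hcomono
    intro x hx
    rw [Set.mem_singleton_iff] at hx
    subst hx
    exact Or.inl ⟨rfl, hnM⟩
  refine ⟨fun Y => ⟨{n | ¬ Y.1 ≤ H n}, hg Y⟩, h, ?_, ?_, ?_⟩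
  · intro Y Y' hYY' n hn hle
    exact hn (le_trans hYY' hle)
  · intro A A' hAA'
    apply hcomono
    exact hΨm _ _ (Set.compl_subset_compl.2 hAA')
  · intro A
    apply Subtype.ext
    ext n
    change ¬ (f (co (Ψ A.1ᶜ) (hΨ _ (hsmc A))) ≤ H n) ↔ n ∈ A.1
    constructor
    · intro hn
      by_contra hnA
      apply hn
      apply hcomono
      exact hΨm _ _ (Set.singleton_subset_iff.2 hnA)
    · intro hnA hle
      have h3 : ζ n ∈ cl (Ψ A.1ᶜ) := by
        intro hS
        refine le_trans hle ?_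
        apply hcomono
        intro x hx
        rw [Set.mem_singleton_iff] at hx
        subst hx
        exact Or.inr ⟨n, rfl, rfl⟩
      have hs1 : Pool.Agent.Uf.Sm U (A.1ᶜ ∩ M) := (hsmc A).mono Set.inter_subset_left
      apply hfree n (A.1ᶜ ∩ M) hs1 Set.inter_subset_right
      refine hm _ _ ?_ (hs1.union (hrange.mono (Set.image_subset_range _ _))) h3
      apply Set.union_subset_union_right
      apply Set.image_mono
      intro m hm' hmn
      rw [Set.mem_singleton_iff] at hmn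
      exact hm' (hmn ▸ hnA)

end Pool.Agent.S2055
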