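import Pool.Statements.S2162
import Pool.Agent.H1.Rainbow.Proof

set_option autoImplicit false
open Pool Pool.MP_3fd808_co

namespace Pool.Agent.S2162

/-- The negation of the preceding statement: Every nonempty finite tournament with arcs coloured by naturals has a directed cycle whose arcs all have distinct colours, or a vertex from which every other vertex is reachable by a one-colour directed path. -/
theorem result :
    ¬ (∀ (V : Type) [Fintype V] [Nonempty V] (adj : V → V → Prop) (c : V → V → ℕ),
      (∀ x y : V, adj x y → ¬ adj y x) →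
      (∀ x y : V, x ≠ y → adj x y ∨ adj y x) →
      (∃ (k : ℕ) (f : ℕ → V), 3 ≤ k ∧
          (∀ i j : ℕ, i < k → j < k → f i = f j → i = j) ∧
          (∀ i : ℕ, i < k → adj (f i) (f ((i + 1) % k))) ∧
          (∀ i j : ℕ, i < k → j < k →
            c (f i) (f ((i + 1) % k)) = c (f j) (f ((j + 1) % k)) → i = j)) ∨
      (∃ v : V, ∀ w : V, w ≠ v →
          ∃ a : ℕ, Relation.TransGen (fun x y : V => adj x y ∧ c x y = a) v w)) := by
  intro h
  rcases h (Fin 6) H1.Rainbow.adj H1.Rainbow.col H1.Rainbow.asym H1.Rainbow.total with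
    ⟨k, f, hk, _, h1, h2⟩ | ⟨v, hv⟩
  · exact H1.Rainbow.no_rainbow k f hk h1 h2
  · obtain ⟨a, ha⟩ := hv (H1.Rainbow.wit v) (H1.Rainbow.wit_ne v)
    exact H1.Rainbow.no_reach v a ha

end Pool.Agent.S2162
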