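import Pool.Statements.S2180
-- import your own Pool.Agent.* helpers here

set_option autoImplicit false
open Pool Pool.MP_455b0c_co

namespace Pool.Agent.S2180

/-- left endpoints (times 10) of the first representation -/
def A : Fin 13 → ℕ := ![0, 11, 22, 33, 44, 10, 28, 12, 2, 32, 13, 6, 17]
/-- lengths (times 10) of the first representation, with `r = 9/5` -/
def l : Fin 13 → ℕ := ![10, 10, 10, 10, 10, 18, 18, 10, 10, 10, 18, 10, 10]
/-- left endpoints (times 10) of the second representation -/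
def B : Fin 13 → ℕ := ![0, 11, 22, 48, 59, 10, 35, 19, 9, 47, 20, 10, 21]
/-- lengths (times 10) of the second representation, with `r = 5/2` -/
def m : Fin 13 → ℕ := ![10, 10, 25, 10, 10, 25, 25, 10, 10, 10, 25, 10, 10]

/-- the order; elements `0 < 1 < 2 < 3 < 4` form a chain, `2` is the interval whose length may be
short or long, `5`, `6` and `10` are forced to be long -/
def P (i j : Fin 13) : Prop := A i + l i < A j

instance : DecidableRel P := fun i j => by unfold P; infer_instance

theorem same : ∀ i j, P i j ↔ B i + m i < B j := by decide +kernel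

theorem scale (x y z : ℕ) : x + y < z ↔ (x : ℝ) / 10 + (y : ℝ) / 10 < (z : ℝ) / 10 := by
  rw [← add_div, div_lt_div_iff_of_pos_right (by norm_num : (0 : ℝ) < 10)]
  exact_mod_cast Iff.rfl

theorem lvals : ∀ i, l i = 10 ∨ l i = 18 := by decide +kernel

theorem mvals : ∀ i, m i = 10 ∨ m i = 25 := by decide +kernel

theorem rep1 : ∃ a L : Fin 13 → ℝ,
    (∀ i, L i = 1 ∨ L i = 9 / 5) ∧ ∀ i j, P i j ↔ a i + L i < a j := by
  refine ⟨fun i => (A i : ℝ) / 10, fun i => (l i : ℝ) / 10, fun i => ?_, fun i j => scale _ _ _⟩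
  rcases lvals i with h | h
  · left; beta_reduce; rw [h]; norm_num
  · right; beta_reduce; rw [h]; norm_num

theorem rep2 : ∃ a L : Fin 13 → ℝ,
    (∀ i, L i = 1 ∨ L i = 5 / 2) ∧ ∀ i j, P i j ↔ a i + L i < a j := by
  refine ⟨fun i => (B i : ℝ) / 10, fun i => (m i : ℝ) / 10, fun i => ?_,
    fun i j => (same i j).trans (scale _ _ _)⟩
  rcases mvals i with h | h
  · left; beta_reduce; rw [h]; norm_num
  · right; beta_reduce; rw [h]; norm_num

/-- `P` has no representation with lengths `1` and `2`, and none with one length. -/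
theorem norep (a L : Fin 13 → ℝ) (h : ∀ i j, P i j ↔ a i + L i < a j) :
    (L 1 < L 5 ∧ L 3 < L 6 ∧ L 7 < L 5 ∧ L 12 < L 10) ∧
      (L 10 < L 7 + L 2) ∧ (L 1 + L 2 + L 3 < L 5 + L 6) := by
  have pos : ∀ i j, P i j → a i + L i < a j := fun i j hij => (h i j).mp hij
  have neg : ∀ i j, ¬ P i j → a j ≤ a i + L i := fun i j hij => not_lt.mp fun hlt =>
    hij ((h i j).mpr hlt)
  have p01 := pos 0 1 (by decide)
  have p12 := pos 1 2 (by decide)
  have p23 := pos 2 3 (by decide)
  have p34 := pos 3 4 (by decide)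
  have n05 := neg 0 5 (by decide)
  have n52 := neg 5 2 (by decide)
  have n56 := neg 5 6 (by decide)
  have n64 := neg 6 4 (by decide)
  have n26 := neg 2 6 (by decide)
  have p07 := pos 0 7 (by decide)
  have p76 := pos 7 6 (by decide)
  have p810 := pos 8 10 (by decide)
  have p109 := pos 10 9 (by decide)
  have n87 := neg 8 7 (by decide)
  have n72 := neg 7 2 (by decide)
  have n29 := neg 2 9 (by decide)
  have p1112 := pos 11 12 (by decide)
  have p126 := pos 12 6 (by decide)
  have n1110 := neg 11 10 (by decide)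
  have n106 := neg 10 6 (by decide)
  refine ⟨⟨?_, ?_, ?_, ?_⟩, ?_, ?_⟩ <;> linarith

/-- The negation of the preceding statement: For every finite order representable by closed real intervals of two positive lengths but not by intervals of one length, the set of r > 1 for which it is representable with lengths 1 and r is an interval. -/
theorem result :
    ¬ (∀ (n : ℕ) (P : Fin n → Fin n → Prop),
      (¬ ∃ a : Fin n → ℝ, ∀ i j, P i j ↔ a i + 1 < a j) →
      (∃ s t : ℝ, 0 < s ∧ 0 < t ∧ ∃ a L : Fin n → ℝ,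
          (∀ i, L i = s ∨ L i = t) ∧ ∀ i j, P i j ↔ a i + L i < a j) →
      Set.OrdConnected
        {r : ℝ | 1 < r ∧ ∃ a L : Fin n → ℝ,
          (∀ i, L i = 1 ∨ L i = r) ∧ ∀ i j, P i j ↔ a i + L i < a j}) := by
  intro hall
  have hS := hall 13 P ?_ ?_
  · have h2 : (2 : ℝ) ∈ {r : ℝ | 1 < r ∧ ∃ a L : Fin 13 → ℝ,
        (∀ i, L i = 1 ∨ L i = r) ∧ ∀ i j, P i j ↔ a i + L i < a j} :=
      hS.out (x := 9 / 5) (y := 5 / 2) ⟨by norm_num, rep1⟩ ⟨by norm_num, rep2⟩
        ⟨by norm_num, by norm_num⟩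
    obtain ⟨_, a, L, hL, h⟩ := h2
    obtain ⟨⟨h1, h2, h3, h4⟩, h5, h6⟩ := norep a L h
    have e5 : L 5 = 2 := by rcases hL 5 with h | h <;> rcases hL 1 with h' | h' <;> linarith
    have e1 : L 1 = 1 := by rcases hL 1 with h | h <;> linarith
    have e6 : L 6 = 2 := by rcases hL 6 with h | h <;> rcases hL 3 with h' | h' <;> linarith
    have e3 : L 3 = 1 := by rcases hL 3 with h | h <;> linarith
    have e7 : L 7 = 1 := by rcases hL 7 with h | h <;> linarith
    have e10 : L 10 = 2 := by rcases hL 10 with h | h <;> rcases hL 12 with h' | h' <;> linarith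
    rcases hL 2 with h | h <;> linarith
  · rintro ⟨a, ha⟩
    obtain ⟨⟨h1, _⟩, _⟩ := norep a (fun _ => 1) ha
    exact lt_irrefl _ h1
  · obtain ⟨a, L, hL, h⟩ := rep1
    exact ⟨1, 9 / 5, by norm_num, by norm_num, a, L, hL, h⟩

end Pool.Agent.S2180
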