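import Pool.Statements.S2186
import Pool.Agent.H1.GS.Explicit

set_option autoImplicit false
open Pool Pool.MP_476d97_co

namespace Pool.Agent.S2186

def va : Fin 9 → ℤ := ![-1, -1, 1, -1, -1, -1, 1, 1, 1]
def vb : Fin 9 → ℤ := ![-1, 1, -1, -1, -1, 1, -1, 1, 1]
def vc : Fin 9 → ℤ := ![-1, -1, 1, -1, 1, -1, -1, 1, -1]
def vd : Fin 9 → ℤ := ![-1, -1, 1, 1, -1, -1, -1, -1, -1]

theorem vals : ∀ i, (va i = 1 ∨ va i = -1) ∧ (vb i = 1 ∨ vb i = -1) ∧
    (vc i = 1 ∨ vc i = -1) ∧ (vd i = 1 ∨ vd i = -1) := by decide +kernel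

theorem orth : Matrix.circulant va * (Matrix.circulant va).transpose
      + Matrix.circulant vb * (Matrix.circulant vb).transpose
      + Matrix.circulant vc * (Matrix.circulant vc).transpose
      + Matrix.circulant vd * (Matrix.circulant vd).transpose
      = ((4 * 9 : ℕ) : ℤ) • (1 : Matrix (Fin 9) (Fin 9) ℤ) := by
  ext i j
  rw [Matrix.smul_apply, Matrix.one_apply, smul_eq_mul]
  simp only [Matrix.add_apply, Matrix.mul_apply, Matrix.transpose_apply,
    Matrix.circulant_apply]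
  revert i j
  decide +kernel

theorem mulR (M : Matrix (Fin 9) (Fin 9) ℤ) (i j : Fin 9) :
    (M * Matrix.of (fun i j : Fin 9 => if (i : ℕ) + (j : ℕ) + 1 = 9 then (1 : ℤ) else 0)) i j
      = M i (Fin.rev j) := by
  rw [Matrix.mul_apply, Finset.sum_eq_single (Fin.rev j)]
  · rw [Matrix.of_apply, if_pos, mul_one]
    rw [Fin.val_rev]; omega
  · intro k _ hk
    rw [Matrix.of_apply, if_neg, mul_zero]
    intro h
    apply hk
    ext
    rw [Fin.val_rev]; omega
  · intro h
    exact absurd (Finset.mem_univ _) h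

theorem Rmul (M : Matrix (Fin 9) (Fin 9) ℤ) (i j : Fin 9) :
    (Matrix.of (fun i j : Fin 9 => if (i : ℕ) + (j : ℕ) + 1 = 9 then (1 : ℤ) else 0) * M) i j
      = M (Fin.rev i) j := by
  rw [Matrix.mul_apply, Finset.sum_eq_single (Fin.rev i)]
  · rw [Matrix.of_apply, if_pos, one_mul]
    rw [Fin.val_rev]; omega
  · intro k _ hk
    rw [Matrix.of_apply, if_neg, zero_mul]
    intro h
    apply hk
    ext
    rw [Fin.val_rev]; omega
  · intro h
    exact absurd (Finset.mem_univ _) h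

def mA : Matrix (Fin 9) (Fin 9) ℤ := Matrix.of fun i j => va (i - j)
def mA' : Matrix (Fin 9) (Fin 9) ℤ := Matrix.of fun i j => -va (i - j)
def mBR : Matrix (Fin 9) (Fin 9) ℤ := Matrix.of fun i j => vb (i - Fin.rev j)
def mCR : Matrix (Fin 9) (Fin 9) ℤ := Matrix.of fun i j => vc (i - Fin.rev j)
def mDR : Matrix (Fin 9) (Fin 9) ℤ := Matrix.of fun i j => vd (i - Fin.rev j)
def mRB : Matrix (Fin 9) (Fin 9) ℤ := Matrix.of fun i j => vb (Fin.rev i - j)
def mRC : Matrix (Fin 9) (Fin 9) ℤ := Matrix.of fun i j => vc (Fin.rev i - j)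
def mRD : Matrix (Fin 9) (Fin 9) ℤ := Matrix.of fun i j => vd (Fin.rev i - j)
def mRB' : Matrix (Fin 9) (Fin 9) ℤ := Matrix.of fun i j => -vb (Fin.rev i - j)
def mRC' : Matrix (Fin 9) (Fin 9) ℤ := Matrix.of fun i j => -vc (Fin.rev i - j)
def mRD' : Matrix (Fin 9) (Fin 9) ℤ := Matrix.of fun i j => -vd (Fin.rev i - j)

/-- the same matrix without matrix products -/
def E (p q : Fin 4 × Fin 9) : ℤ :=
  (![![mA, mBR, mCR, mDR],
     ![mBR, mA', mRD, mRC'],
     ![mCR, mRD', mA', mRB],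
     ![mDR, mRC, mRB', mA']] : Fin 4 → Fin 4 → Matrix (Fin 9) (Fin 9) ℤ) p.1 q.1 p.2 q.2

theorem E_codes : ∀ p k, E p k = Pool.Agent.H1.GS.sgn
    ((Pool.Agent.H1.GS.code (Pool.Agent.H1.GS.idx p)).testBit (Pool.Agent.H1.GS.idx k)) := by
  decide +kernel

theorem H_eq (R : Matrix (Fin 9) (Fin 9) ℤ) (hR1 : ∀ (M : Matrix (Fin 9) (Fin 9) ℤ) i j,
      (M * R) i j = M i (Fin.rev j))
    (hR2 : ∀ (M : Matrix (Fin 9) (Fin 9) ℤ) i j, (R * M) i j = M (Fin.rev i) j)
    (p q : Fin 4 × Fin 9) :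
    (![![Matrix.circulant va, Matrix.circulant vb * R, Matrix.circulant vc * R, Matrix.circulant vd * R],
         ![Matrix.circulant vb * R, -Matrix.circulant va, R * Matrix.circulant vd, -(R * Matrix.circulant vc)],
         ![Matrix.circulant vc * R, -(R * Matrix.circulant vd), -Matrix.circulant va, R * Matrix.circulant vb],
         ![Matrix.circulant vd * R, R * Matrix.circulant vc, -(R * Matrix.circulant vb), -Matrix.circulant va]]
        : Fin 4 → Fin 4 → Matrix (Fin 9) (Fin 9) ℤ) p.1 q.1 p.2 q.2 = E p q := by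
  have e0' : -Matrix.circulant va = mA' := by
    ext i j; rw [Matrix.neg_apply, Matrix.circulant_apply, mA', Matrix.of_apply]
  have e0 : Matrix.circulant va = mA := by
    ext i j; rw [Matrix.circulant_apply, mA, Matrix.of_apply]
  have eb : Matrix.circulant vb * R = mBR := by
    ext i j; rw [hR1, Matrix.circulant_apply, mBR, Matrix.of_apply]
  have ec : Matrix.circulant vc * R = mCR := by
    ext i j; rw [hR1, Matrix.circulant_apply, mCR, Matrix.of_apply]
  have ed : Matrix.circulant vd * R = mDR := by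
    ext i j; rw [hR1, Matrix.circulant_apply, mDR, Matrix.of_apply]
  have fb : R * Matrix.circulant vb = mRB := by
    ext i j; rw [hR2, Matrix.circulant_apply, mRB, Matrix.of_apply]
  have fc : R * Matrix.circulant vc = mRC := by
    ext i j; rw [hR2, Matrix.circulant_apply, mRC, Matrix.of_apply]
  have fd : R * Matrix.circulant vd = mRD := by
    ext i j; rw [hR2, Matrix.circulant_apply, mRD, Matrix.of_apply]
  have fb' : -(R * Matrix.circulant vb) = mRB' := by
    ext i j; rw [Matrix.neg_apply, hR2, Matrix.circulant_apply, mRB', Matrix.of_apply]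
  have fc' : -(R * Matrix.circulant vc) = mRC' := by
    ext i j; rw [Matrix.neg_apply, hR2, Matrix.circulant_apply, mRC', Matrix.of_apply]
  have fd' : -(R * Matrix.circulant vd) = mRD' := by
    ext i j; rw [Matrix.neg_apply, hR2, Matrix.circulant_apply, mRD', Matrix.of_apply]
  rw [fb', fc', fd', e0', e0, eb, ec, ed, fb, fc, fd, E]

/-- The negation of the preceding statement: For odd w ≥ 7 and ±1 circulants A,B,C,D with AAᵀ+BBᵀ+CCᵀ+DDᵀ=4wI, the displayed Goethals–Seidel Hadamard matrix is, up to row/column permutation and negation, the matrix of a ±1 2-cocycle on some group of order 4w. -/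
theorem result :
    ¬ (∀ (w : ℕ), 7 ≤ w → Odd w →
  ∀ (a b c d : Fin w → ℤ),
    (∀ i, (a i = 1 ∨ a i = -1) ∧ (b i = 1 ∨ b i = -1) ∧
          (c i = 1 ∨ c i = -1) ∧ (d i = 1 ∨ d i = -1)) →
    Matrix.circulant a * (Matrix.circulant a).transpose
      + Matrix.circulant b * (Matrix.circulant b).transpose
      + Matrix.circulant c * (Matrix.circulant c).transpose
      + Matrix.circulant d * (Matrix.circulant d).transpose
      = ((4 * w : ℕ) : ℤ) • (1 : Matrix (Fin w) (Fin w) ℤ) →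
  ∀ (R : Matrix (Fin w) (Fin w) ℤ),
    R = Matrix.of (fun i j : Fin w => if (i : ℕ) + (j : ℕ) + 1 = w then (1 : ℤ) else 0) →
  ∀ (H : Matrix (Fin 4 × Fin w) (Fin 4 × Fin w) ℤ),
    H = Matrix.of (fun p q : Fin 4 × Fin w =>
      (![![Matrix.circulant a, Matrix.circulant b * R, Matrix.circulant c * R, Matrix.circulant d * R],
         ![Matrix.circulant b * R, -Matrix.circulant a, R * Matrix.circulant d, -(R * Matrix.circulant c)],
         ![Matrix.circulant c * R, -(R * Matrix.circulant d), -Matrix.circulant a, R * Matrix.circulant b],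
         ![Matrix.circulant d * R, R * Matrix.circulant c, -(R * Matrix.circulant b), -Matrix.circulant a]]
        : Fin 4 → Fin 4 → Matrix (Fin w) (Fin w) ℤ) p.1 q.1 p.2 q.2) →
  ∃ (G : Type) (_ : Group G) (ψ : G → G → ℤ) (σ τ : (Fin 4 × Fin w) ≃ G)
    (r s : Fin 4 × Fin w → ℤ),
    (∀ g h : G, ψ g h = 1 ∨ ψ g h = -1) ∧
    (∀ g h k : G, ψ g h * ψ (g * h) k = ψ g (h * k) * ψ h k) ∧
    (∀ i, r i = 1 ∨ r i = -1) ∧
    (∀ j, s j = 1 ∨ s j = -1) ∧
    (∀ i j, H i j = r i * s j * ψ (σ i) (τ j))) := by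
  intro hall
  obtain ⟨R, hR⟩ : ∃ R : Matrix (Fin 9) (Fin 9) ℤ,
    R = Matrix.of (fun i j : Fin 9 => if (i : ℕ) + (j : ℕ) + 1 = 9 then (1 : ℤ) else 0) := ⟨_, rfl⟩
  have hR1 : ∀ (M : Matrix (Fin 9) (Fin 9) ℤ) i j, (M * R) i j = M i (Fin.rev j) := by
    rw [hR]; exact mulR
  have hR2 : ∀ (M : Matrix (Fin 9) (Fin 9) ℤ) i j, (R * M) i j = M (Fin.rev i) j := by
    rw [hR]; exact Rmul
  obtain ⟨G, iG, ψ, σ, τ, r, s, h1, h2, h3, h4, h5⟩ :=
    hall 9 (by norm_num) (by decide) va vb vc vd vals orth R hR _ rfl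
  refine Pool.Agent.H1.GS.not_cocyclic E E_codes ψ σ τ r s h1 h2 h3 h4 ?_
  intro i j
  exact (H_eq R hR1 hR2 i j).symm.trans (h5 i j)

end Pool.Agent.S2186
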