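import Pool.Statements.S2242
-- import your own Pool.Agent.* helpers here

set_option autoImplicit false
open Pool Pool.MP_5833ce_co

namespace Pool.Agent.S2242

/-- fifteen vectors of norm one in a quadratic space of dimension seven over the field with
three elements -/
def T : Fin 15 → Fin 7 → ZMod 3 :=
  ![![0, 0, 1, 1, 1, 2, 0],
    ![0, 1, 0, 1, 1, 2, 0],
    ![0, 1, 0, 2, 2, 1, 0],
    ![2, 0, 0, 0, 0, 0, 0],
    ![2, 0, 1, 0, 2, 2, 0],
    ![2, 0, 1, 2, 0, 2, 0],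
    ![2, 2, 0, 1, 2, 2, 2],
    ![2, 2, 0, 2, 1, 2, 2],
    ![2, 2, 1, 0, 0, 1, 0],
    ![2, 2, 1, 1, 1, 0, 1],
    ![2, 2, 1, 1, 1, 0, 2],
    ![2, 2, 2, 0, 2, 0, 0],
    ![2, 2, 2, 2, 0, 0, 0],
    ![2, 2, 2, 2, 2, 0, 1],
    ![2, 2, 2, 2, 2, 0, 2]]

def ip (u v : Fin 7 → ZMod 3) : ZMod 3 :=
  u 0 * v 0 + u 1 * v 1 + u 2 * v 2 + u 3 * v 3 + u 4 * v 4 + u 5 * v 5 + 2 * (u 6 * v 6)

theorem ip_self : ∀ i, ip (T i) (T i) = 1 := by decide +kernel

theorem ip_off : ∀ i j, ip (T i) (T j) = 0 ∨ ip (T i) (T j) = 1 := by decide +kernel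

theorem ip_comm (u v : Fin 7 → ZMod 3) : ip u v = ip v u := by
  simp only [ip]; ring

/-- every vector is orthogonal to one of the fifteen -/
theorem cover : ∀ a b c d e f g : ZMod 3, ∃ i : Fin 15,
    T i 0 * a + T i 1 * b + T i 2 * c + T i 3 * d + T i 4 * e + T i 5 * f + 2 * (T i 6 * g) = 0 := by
  decide +kernel

def G : SimpleGraph (Fin 15) where
  Adj i j := i ≠ j ∧ ip (T i) (T j) = 1
  symm := ⟨fun i j h => ⟨h.1.symm, by rw [ip_comm]; exact h.2⟩⟩
  loopless := ⟨fun i h => h.1 rfl⟩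

instance : DecidableRel G.Adj := fun i j => inferInstanceAs (Decidable (i ≠ j ∧ ip (T i) (T j) = 1))

theorem nbhd_sum (f : Fin 15 → ZMod 3) (v : Fin 15) :
    f v + ∑ w ∈ G.neighborFinset v, f w = ∑ w, ip (T v) (T w) * f w := by
  rw [SimpleGraph.neighborFinset_eq_filter, Finset.sum_filter, ← Finset.add_sum_erase _ _
    (Finset.mem_univ v), ← Finset.add_sum_erase Finset.univ (fun w => ip (T v) (T w) * f w)
    (Finset.mem_univ v), ip_self, one_mul, if_neg (G.loopless.irrefl v), zero_add]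
  congr 1
  apply Finset.sum_congr rfl
  intro w hw
  have hne : v ≠ w := (Finset.ne_of_mem_erase hw).symm
  rcases ip_off v w with h | h
  · rw [h, zero_mul, if_neg]
    intro hadj
    have h2 : ip (T v) (T w) = 1 := hadj.2
    rw [h] at h2
    exact absurd h2 (by decide)
  · rw [h, one_mul, if_pos]
    exact ⟨hne, h⟩

/-- The negation of the preceding statement: For every k ≥ 2 and every finite simple graph, some labeling of the vertices by integers mod k makes the sum of labels over each vertex's closed neighbourhood nonzero mod k. -/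
theorem result :
    ¬ (∀ k : ℕ, 2 ≤ k →
      ∀ (V : Type) [Fintype V] (G : SimpleGraph V) [DecidableRel G.Adj],
        ∃ f : V → ZMod k, ∀ v : V, f v + ∑ w ∈ G.neighborFinset v, f w ≠ 0) := by
  intro H
  obtain ⟨f, hf⟩ := H 3 (by norm_num) (Fin 15) G
  obtain ⟨v, hv⟩ := cover (∑ w, T w 0 * f w) (∑ w, T w 1 * f w) (∑ w, T w 2 * f w)
    (∑ w, T w 3 * f w) (∑ w, T w 4 * f w) (∑ w, T w 5 * f w) (∑ w, T w 6 * f w)
  apply hf v
  rw [nbhd_sum, ← hv]
  simp only [ip, Finset.mul_sum, ← Finset.sum_add_distrib]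
  apply Finset.sum_congr rfl
  intro w _
  ring

end Pool.Agent.S2242
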