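import Pool.Statements.S2317

set_option autoImplicit false
open Pool Pool.MP_63a4dd_co

namespace Pool.Agent.S2317

/-- Adjacency coming from the sets of smaller neighbours. -/
def BAdj (B : ℕ → Set ℕ) (x y : ℕ) : Prop := x ∈ B y ∨ y ∈ B x

lemma BAdj.symm {B : ℕ → Set ℕ} {x y : ℕ} (h : BAdj B x y) : BAdj B y x := Or.symm h

/-- The pair treated at step `n`; every pair is treated infinitely often. -/
def dec (n : ℕ) : ℕ × ℕ := Nat.unpair (Nat.unpair n).1

/-- The condition for joining the new vertex `n` to the two vertices of the pair `dec n`. -/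
def Cond (f : ℕ → Set ℕ) (n : ℕ) : Prop :=
  (dec n).1 < n ∧ (dec n).2 < n ∧ (dec n).1 ≠ (dec n).2 ∧ ¬ BAdj f (dec n).1 (dec n).2 ∧
    ∀ z < n, ¬ (BAdj f (dec n).1 z ∧ BAdj f z (dec n).2)

/-- The smaller neighbours of the vertex `n`, given those of the earlier vertices. -/
def stepSet (m : ℕ) (P : ℕ → Set ℕ) (f : ℕ → Set ℕ) (n : ℕ) : Set ℕ :=
  {x | (n < m ∧ x ∈ P n ∧ x < n) ∨ (m ≤ n ∧ Cond f n ∧ (x = (dec n).1 ∨ x = (dec n).2))}

/-- The first `k` steps. -/
noncomputable def build (m : ℕ) (P : ℕ → Set ℕ) : ℕ → (ℕ → Set ℕ)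
  | 0 => fun _ => ∅
  | k + 1 => Function.update (build m P k) k (stepSet m P (build m P k) k)

/-- The sets of smaller neighbours of the final graph. -/
noncomputable def back (m : ℕ) (P : ℕ → Set ℕ) (n : ℕ) : Set ℕ := stepSet m P (build m P n) n

lemma build_lt (m : ℕ) (P : ℕ → Set ℕ) : ∀ k n, n < k → build m P k n = back m P n := by
  intro k
  induction k with
  | zero => intro n hn; exact absurd hn (Nat.not_lt_zero n)
  | succ k ih =>
    intro n hn
    rw [build]
    by_cases h : n = k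
    · subst h; rw [Function.update_self]; rfl
    · rw [Function.update_of_ne h]
      exact ih n (by omega)

lemma back_lt {m : ℕ} {P : ℕ → Set ℕ} {n x : ℕ} (h : x ∈ back m P n) : x < n := by
  rcases h with h | ⟨_, h, rfl | rfl⟩
  · exact h.2.2
  · exact h.1
  · exact h.2.1

lemma badj_build {m : ℕ} {P : ℕ → Set ℕ} {n x y : ℕ} (hx : x < n) (hy : y < n) :
    BAdj (build m P n) x y ↔ BAdj (back m P) x y := by
  unfold BAdj
  rw [build_lt m P n x hx, build_lt m P n y hy]

/-- The final graph. -/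
def gr (m : ℕ) (P : ℕ → Set ℕ) : SimpleGraph ℕ where
  Adj := BAdj (back m P)
  symm := ⟨fun _ _ h => h.symm⟩
  loopless := ⟨fun x h => by
    rcases h with h | h <;> exact lt_irrefl _ (back_lt h)⟩

lemma back_spec {m : ℕ} {P : ℕ → Set ℕ} {n : ℕ} (hn : m ≤ n) {x : ℕ} (hx : x ∈ back m P n) :
    ∃ a b, a ≠ b ∧ a < n ∧ b < n ∧ (∀ z, z ∈ back m P n ↔ z = a ∨ z = b) ∧
      ¬ (gr m P).Adj a b ∧ ∀ z < n, ¬ ((gr m P).Adj a z ∧ (gr m P).Adj z b) := by
  rcases hx with h | ⟨_, hc, _⟩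
  · omega
  · refine ⟨(dec n).1, (dec n).2, hc.2.2.1, hc.1, hc.2.1, ?_, ?_, ?_⟩
    · intro z
      constructor
      · rintro (h | ⟨_, _, h⟩)
        · omega
        · exact h
      · intro h
        exact Or.inr ⟨hn, hc, h⟩
    · intro h
      exact hc.2.2.2.1 ((badj_build hc.1 hc.2.1).2 h)
    · intro z hz h
      exact hc.2.2.2.2 z hz ⟨(badj_build hc.1 hz).2 h.1, (badj_build hz hc.2.1).2 h.2⟩

lemma adj_of_lt {m : ℕ} {P : ℕ → Set ℕ} {x n : ℕ} (h : (gr m P).Adj x n) (hx : x < n) :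
    x ∈ back m P n := by
  rcases h with h | h
  · exact h
  · exact absurd (back_lt h) (by omega)

/-- the pairs are all treated beyond any bound -/
lemma dec_surj (a b N : ℕ) : ∃ n, N ≤ n ∧ dec n = (a, b) := by
  refine ⟨Nat.pair (Nat.pair a b) N, Nat.right_le_pair _ _, ?_⟩
  unfold dec
  rw [Nat.unpair_pair]
  exact Nat.unpair_pair a b

lemma diam_two (m : ℕ) (P : ℕ → Set ℕ) {a b : ℕ} (hab : a ≠ b) :
    (gr m P).Adj a b ∨ ∃ z, (gr m P).Adj a z ∧ (gr m P).Adj z b := by
  by_contra hcon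
  push Not at hcon
  obtain ⟨h1, h2⟩ := hcon
  obtain ⟨n, hn, hd⟩ := dec_surj a b (m + a + b + 1)
  have ha : a < n := by omega
  have hb : b < n := by omega
  have hc : Cond (build m P n) n := by
    refine ⟨by rw [hd]; exact ha, by rw [hd]; exact hb, by rw [hd]; exact hab, ?_, ?_⟩
    · rw [hd]; intro h; exact h1 ((badj_build ha hb).1 h)
    · intro z hz h
      rw [hd] at h
      exact h2 z ((badj_build ha hz).1 h.1) ((badj_build hz hb).1 h.2)
  have hA : (gr m P).Adj a n := Or.inl (Or.inr ⟨by omega, hc, Or.inl (by rw [hd])⟩)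
  have hB : (gr m P).Adj b n := Or.inl (Or.inr ⟨by omega, hc, Or.inr (by rw [hd])⟩)
  exact h2 n hA hB.symm

/-- infinitely many vertices have no smaller neighbour -/
lemma isolated (m : ℕ) (P : ℕ → Set ℕ) (N : ℕ) : ∃ n, N ≤ n ∧ back m P n = ∅ := by
  obtain ⟨n, hn, hd⟩ := dec_surj 0 0 (m + N)
  refine ⟨n, by omega, ?_⟩
  ext x
  constructor
  · rintro (h | ⟨_, hc, _⟩)
    · omega
    · exact absurd (by rw [hd]) hc.2.2.1
  · intro h; exact absurd h (Set.notMem_empty x)

lemma unbounded (m : ℕ) (P : ℕ → Set ℕ) (v N : ℕ) : ∃ u, N < u ∧ (gr m P).Adj v u := by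
  obtain ⟨n, hn, h0⟩ := isolated m P (N + v + 1)
  have hvn : v ≠ n := by omega
  rcases diam_two m P hvn with h | ⟨u, hvu, hun⟩
  · have := adj_of_lt h (by omega)
    rw [h0] at this
    exact absurd this (Set.notMem_empty _)
  · refine ⟨u, ?_, hvu⟩
    by_contra hle
    have hlt : u < n := by omega
    have := adj_of_lt hun hlt
    rw [h0] at this
    exact absurd this (Set.notMem_empty _)

lemma degree (m : ℕ) (P : ℕ → Set ℕ) (v : ℕ) :
    Cardinal.mk ((gr m P).neighborSet v) = Cardinal.aleph0 := by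
  have hinf : ((gr m P).neighborSet v).Infinite := by
    apply Set.infinite_of_not_bddAbove
    rintro ⟨N, hN⟩
    obtain ⟨u, hu, hadj⟩ := unbounded m P v N
    have := hN hadj
    omega
  have : Infinite ((gr m P).neighborSet v) := hinf.to_subtype
  exact Cardinal.mk_eq_aleph0 _

/-- the part of the graph on the first `m` vertices has no triangle and no 4-cycle -/
def Good (m : ℕ) (P : ℕ → Set ℕ) : Prop :=
  (∀ a b c, a < m → b < m → c < m → ¬ ((gr m P).Adj a b ∧ (gr m P).Adj b c ∧ (gr m P).Adj a c)) ∧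
  (∀ x y u v, x < m → y < m → u < m → v < m → x ≠ y → u ≠ v →
    ¬ ((gr m P).Adj x u ∧ (gr m P).Adj u y ∧ (gr m P).Adj x v ∧ (gr m P).Adj v y))

lemma no_tri_aux {m : ℕ} {P : ℕ → Set ℕ} (hg : Good m P) {a b c : ℕ} (hac : a < c) (hbc : b < c)
    (hab : (gr m P).Adj a b) (h1 : (gr m P).Adj a c) (h2 : (gr m P).Adj b c) : False := by
  rcases lt_or_ge c m with hc | hc
  · exact hg.1 a b c (by omega) (by omega) hc ⟨hab, h2, h1⟩
  · have ha := adj_of_lt h1 hac
    have hb := adj_of_lt h2 hbc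
    obtain ⟨p, q, hpq, _, _, hs, hn, _⟩ := back_spec hc ha
    rcases (hs a).1 ha with rfl | rfl <;> rcases (hs b).1 hb with rfl | rfl
    · exact hab.ne rfl
    · exact hn hab
    · exact hn hab.symm
    · exact hab.ne rfl

lemma no_tri {m : ℕ} {P : ℕ → Set ℕ} (hg : Good m P) {a b c : ℕ}
    (hab : (gr m P).Adj a b) (h1 : (gr m P).Adj a c) (h2 : (gr m P).Adj b c) : False := by
  have e1 := hab.ne
  have e2 := h1.ne
  have e3 := h2.ne
  rcases lt_or_gt_of_ne e1 with u1 | u1 <;> rcases lt_or_gt_of_ne e2 with u2 | u2 <;>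
    rcases lt_or_gt_of_ne e3 with u3 | u3
  · exact no_tri_aux hg u2 u3 hab h1 h2
  · exact no_tri_aux hg u1 u3 h1 hab h2.symm
  · omega
  · exact no_tri_aux hg u1 u3 h1 hab h2.symm
  · exact no_tri_aux hg u2 u3 hab h1 h2
  · omega
  · exact no_tri_aux hg u1 u2 h2 hab.symm h1.symm
  · exact no_tri_aux hg u1 u2 h2 hab.symm h1.symm

/-- a 4-cycle `a - c - b - z - a` with largest vertex `c` -/
lemma no_c4_aux {m : ℕ} {P : ℕ → Set ℕ} (hg : Good m P) {a b c z : ℕ} (hac : a < c) (hbc : b < c)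
    (hzc : z < c) (hab : a ≠ b)
    (h1 : (gr m P).Adj a c) (h2 : (gr m P).Adj c b) (h3 : (gr m P).Adj a z)
    (h4 : (gr m P).Adj z b) : False := by
  rcases lt_or_ge c m with hc | hc
  · exact hg.2 a b c z (by omega) (by omega) hc (by omega) hab (by omega) ⟨h1, h2, h3, h4⟩
  · have ha := adj_of_lt h1 hac
    have hb := adj_of_lt h2.symm hbc
    obtain ⟨p, q, hpq, _, _, hs, _, hn⟩ := back_spec hc ha
    rcases (hs a).1 ha with rfl | rfl <;> rcases (hs b).1 hb with rfl | rfl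
    · exact hab rfl
    · exact hn z hzc ⟨h3, h4⟩
    · exact hn z hzc ⟨h4.symm, h3.symm⟩
    · exact hab rfl

lemma no_c4 {m : ℕ} {P : ℕ → Set ℕ} (hg : Good m P) {x y u v : ℕ} (hxy : x ≠ y) (huv : u ≠ v)
    (h1 : (gr m P).Adj x u) (h2 : (gr m P).Adj u y) (h3 : (gr m P).Adj x v)
    (h4 : (gr m P).Adj v y) : False := by
  have e1 := h1.ne
  have e2 := h2.ne
  have e3 := h3.ne
  have e4 := h4.ne
  have hmax : (x < u ∧ y < u ∧ v < u) ∨ (x < v ∧ y < v ∧ u < v) ∨ (u < x ∧ v < x ∧ y < x) ∨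
      (u < y ∧ v < y ∧ x < y) := by omega
  rcases hmax with h | h | h | h
  · exact no_c4_aux hg h.1 h.2.1 h.2.2 hxy h1 h2 h3 h4
  · exact no_c4_aux hg h.1 h.2.1 h.2.2 hxy h3 h4 h1 h2
  · exact no_c4_aux hg h.1 h.2.1 h.2.2 huv h1.symm h3 h2 h4.symm
  · exact no_c4_aux hg h.1 h.2.1 h.2.2 huv h2 h4.symm h1.symm h3

lemma girth {m : ℕ} {P : ℕ → Set ℕ} (hg : Good m P) :
    ((2 * 2 : ℕ) : ℕ∞) < (gr m P).egirth := by
  have h5 : ((5 : ℕ) : ℕ∞) ≤ (gr m P).egirth := by
    rw [SimpleGraph.le_egirth]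
    intro a w hw
    by_contra hlt
    have hlt' : w.length < 5 := by
      by_contra h
      exact hlt (by exact_mod_cast (not_lt.1 h))
    have h3 := hw.three_le_length
    have hnd := hw.support_nodup
    match w, hw, hlt', h3, hnd with
    | .cons p1 (.cons p2 (.cons p3 .nil)), hw, _, _, hnd =>
      exact no_tri hg p1 p3.symm p2
    | .cons p1 (.cons p2 (.cons p3 (.cons p4 .nil))), hw, _, _, hnd =>
      simp only [SimpleGraph.Walk.support_cons, SimpleGraph.Walk.support_nil, List.tail_cons,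
        List.nodup_cons, List.mem_cons] at hnd
      refine no_c4 hg ?_ ?_ p1 p2 p4.symm p3.symm
      · rintro rfl
        exact hnd.2.1 (Or.inr (Or.inl rfl))
      · rintro rfl
        exact hnd.1 (Or.inr (Or.inl rfl))
    | .cons p1 (.cons p2 (.cons p3 (.cons p4 (.cons p5 q)))), _, hl, _, _ =>
      simp only [SimpleGraph.Walk.length_cons] at hl
      omega
    | .cons p1 (.cons p2 .nil), _, _, h3, _ =>
      simp only [SimpleGraph.Walk.length_cons, SimpleGraph.Walk.length_nil] at h3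
      omega
    | .cons p1 .nil, _, _, h3, _ =>
      simp only [SimpleGraph.Walk.length_cons, SimpleGraph.Walk.length_nil] at h3
      omega
    | .nil, _, _, h3, _ =>
      simp only [SimpleGraph.Walk.length_nil] at h3
      omega
  refine lt_of_lt_of_le ?_ h5
  exact_mod_cast (by norm_num : 2 * 2 < 5)

lemma ediam_eq {m : ℕ} {P : ℕ → Set ℕ} (hg : Good m P) : (gr m P).ediam = ((2 : ℕ) : ℕ∞) := by
  have hle : (gr m P).ediam ≤ ((2 : ℕ) : ℕ∞) := by
    rw [SimpleGraph.ediam_le_iff]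
    intro u v
    by_cases huv : u = v
    · subst huv
      rw [SimpleGraph.edist_self]
      exact zero_le
    · rcases diam_two m P huv with h | ⟨z, h1, h2⟩
      · have := (SimpleGraph.Walk.cons h SimpleGraph.Walk.nil).edist_le
        refine this.trans ?_
        exact_mod_cast (by simp : (SimpleGraph.Walk.cons h SimpleGraph.Walk.nil).length ≤ 2)
      · have := (SimpleGraph.Walk.cons h1 (SimpleGraph.Walk.cons h2 SimpleGraph.Walk.nil)).edist_le
        refine this.trans ?_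
        exact_mod_cast (by simp :
          (SimpleGraph.Walk.cons h1 (SimpleGraph.Walk.cons h2 SimpleGraph.Walk.nil)).length ≤ 2)
  have h0 : (gr m P).ediam ≠ 0 := SimpleGraph.ediam_ne_zero
  have h1 : (gr m P).ediam ≠ 1 := by
    intro h
    rw [SimpleGraph.ediam_eq_one] at h
    have a01 : (gr m P).Adj 0 1 := by rw [h, SimpleGraph.top_adj]; norm_num
    have a02 : (gr m P).Adj 0 2 := by rw [h, SimpleGraph.top_adj]; norm_num
    have a12 : (gr m P).Adj 1 2 := by rw [h, SimpleGraph.top_adj]; norm_num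
    exact no_tri hg a01 a02 a12
  have hne : (gr m P).ediam ≠ ⊤ := by
    intro h
    rw [h] at hle
    exact absurd hle (by simp)
  obtain ⟨k, hk⟩ := ENat.ne_top_iff_exists.1 hne
  rw [← hk] at hle h0 h1 ⊢
  have e1 : k ≤ 2 := by exact_mod_cast hle
  have e2 : k ≠ 0 := by exact_mod_cast h0
  have e3 : k ≠ 1 := by exact_mod_cast h1
  have : k = 2 := by omega
  rw [this]

/-- smaller neighbours in the Petersen graph on `0, ..., 9` -/
def petL : ℕ → List ℕ
  | 1 => [0]
  | 2 => [1]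
  | 3 => [2]
  | 4 => [3, 0]
  | 5 => [0]
  | 6 => [1]
  | 7 => [2, 5]
  | 8 => [3, 5, 6]
  | 9 => [4, 7, 6]
  | _ => []

def petP (n : ℕ) : Set ℕ := {x | x ∈ petL n}

def padj (x y : ℕ) : Bool := (petL y).contains x || (petL x).contains y

lemma petL_lt : ∀ y < 10, ∀ x ∈ petL y, x < y := by decide

lemma adj_pet {x y : ℕ} (hx : x < 10) (hy : y < 10) :
    (gr 10 petP).Adj x y ↔ padj x y = true := by
  have key : ∀ a b, b < 10 → (a ∈ back 10 petP b ↔ a ∈ petL b) := by
    intro a b hb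
    constructor
    · rintro (h | ⟨h, _⟩)
      · exact h.2.1
      · omega
    · intro h
      exact Or.inl ⟨hb, h, petL_lt b hb a h⟩
  unfold padj
  rw [Bool.or_eq_true, List.contains_iff_mem, List.contains_iff_mem]
  exact or_congr (key x y hy) (key y x hx)

lemma pet_tri : ∀ a : Fin 10, ∀ b : Fin 10, ∀ c : Fin 10,
    ¬ (padj a b = true ∧ padj b c = true ∧ padj a c = true) := by decide +kernel

lemma pet_c4 : ∀ x : Fin 10, ∀ y : Fin 10, ∀ u : Fin 10, ∀ v : Fin 10, x ≠ y → u ≠ v →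
    ¬ (padj x u = true ∧ padj u y = true ∧ padj x v = true ∧ padj v y = true) := by
  decide +kernel

lemma pet_deg : ∀ i : Fin 10, ∃ a b c : Fin 10, a ≠ b ∧ a ≠ c ∧ b ≠ c ∧
    padj a i = true ∧ padj b i = true ∧ padj c i = true := by decide +kernel

lemma good_pet : Good 10 petP := by
  constructor
  · intro a b c ha hb hc
    rw [adj_pet ha hb, adj_pet hb hc, adj_pet ha hc]
    exact pet_tri ⟨a, ha⟩ ⟨b, hb⟩ ⟨c, hc⟩
  · intro x y u v hx hy hu hv hxy huv
    rw [adj_pet hx hu, adj_pet hu hy, adj_pet hx hv, adj_pet hv hy]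
    exact pet_c4 ⟨x, hx⟩ ⟨y, hy⟩ ⟨u, hu⟩ ⟨v, hv⟩ (fun h => hxy (congrArg Fin.val h))
      (fun h => huv (congrArg Fin.val h))

lemma good_zero : Good 0 (fun _ => ∅) :=
  ⟨fun _ _ _ h => absurd h (Nat.not_lt_zero _), fun _ _ _ _ h => absurd h (Nat.not_lt_zero _)⟩

lemma not_iso : IsEmpty (gr 10 petP ≃g gr 0 (fun _ => ∅)) := by
  constructor
  intro e
  obtain ⟨i, _, hi⟩ := Finset.exists_max_image (Finset.univ : Finset (Fin 10))
    (fun j => e (j : ℕ)) ⟨0, Finset.mem_univ _⟩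
  obtain ⟨a, b, c, hab, hac, hbc, h1, h2, h3⟩ := pet_deg i
  have key : ∀ j : Fin 10, padj j i = true → e (j : ℕ) ∈ back 0 (fun _ => ∅) (e (i : ℕ)) := by
    intro j hj
    have hadj : (gr 10 petP).Adj j i := (adj_pet j.2 i.2).2 hj
    have h' : (gr 0 (fun _ => ∅)).Adj (e (j : ℕ)) (e (i : ℕ)) := e.map_adj_iff.2 hadj
    have hle := hi j (Finset.mem_univ _)
    exact adj_of_lt h' (lt_of_le_of_ne hle h'.ne)
  obtain ⟨p, q, _, _, _, hs, _, _⟩ := back_spec (Nat.zero_le _) (key a h1)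
  have inj : ∀ x y : Fin 10, e (x : ℕ) = e (y : ℕ) → x = y := fun x y h =>
    Fin.ext (e.injective h)
  have ka := (hs _).1 (key a h1)
  have kb := (hs _).1 (key b h2)
  have kc := (hs _).1 (key c h3)
  rcases ka with ka | ka <;> rcases kb with kb | kb <;> rcases kc with kc | kc
  · exact hab (inj _ _ (ka.trans kb.symm))
  · exact hab (inj _ _ (ka.trans kb.symm))
  · exact hac (inj _ _ (ka.trans kc.symm))
  · exact hbc (inj _ _ (kb.trans kc.symm))
  · exact hbc (inj _ _ (kb.trans kc.symm))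
  · exact hac (inj _ _ (ka.trans kc.symm))
  · exact hab (inj _ _ (ka.trans kb.symm))
  · exact hab (inj _ _ (ka.trans kb.symm))

/-- There exist a cardinal d and an integer k>1 and two non-isomorphic graphs, each d-regular with diameter exactly k and with no cycle of length at most 2k. -/
theorem result :
    ∃ d : Cardinal.{0}, ∃ k : ℕ, 1 < k ∧
      ∃ (V W : Type) (G : SimpleGraph V) (H : SimpleGraph W),
        (∀ v : V, Cardinal.mk (G.neighborSet v) = d) ∧
        G.ediam = (k : ℕ∞) ∧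
        ((2 * k : ℕ) : ℕ∞) < G.egirth ∧
        (∀ w : W, Cardinal.mk (H.neighborSet w) = d) ∧
        H.ediam = (k : ℕ∞) ∧
        ((2 * k : ℕ) : ℕ∞) < H.egirth ∧
        IsEmpty (G ≃g H) :=
  ⟨Cardinal.aleph0, 2, one_lt_two, ℕ, ℕ, gr 10 petP, gr 0 (fun _ => ∅),
    degree _ _, ediam_eq good_pet, girth good_pet, degree _ _, ediam_eq good_zero,
    girth good_zero, not_iso⟩

end Pool.Agent.S2317
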