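import Pool.Statements.S2342

set_option autoImplicit false
open Pool Pool.MP_6b8a7b_co

namespace Pool.Agent.S2342

/-- The negation of the preceding statement: Take any hypergraph whose edges are all finite and in which every vertex lies in some edge. Then some edge cover C exists such that, for every edge cover C', the cardinality of C minus C' is at most the cardinality of C' minus C. -/
theorem result :
    ¬ (∀ (V : Type) (E : Set (Set V)),
      (∀ e ∈ E, e.Finite) →
      (∀ v : V, ∃ e ∈ E, v ∈ e) →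
      ∃ C ⊆ E, ⋃₀ C = Set.univ ∧
        ∀ C' ⊆ E, ⋃₀ C' = Set.univ →
          Cardinal.mk ↥(C \ C') ≤ Cardinal.mk ↥(C' \ C)) := by
  intro h
  obtain ⟨C, hCE, hCcov, hmin⟩ := h ℕ {e : Set ℕ | e.Finite} (fun e he => he)
    (fun v => ⟨{v}, Set.finite_singleton v, rfl⟩)
  -- `C` has two distinct members
  have htwo : ∃ a ∈ C, ∃ b ∈ C, a ≠ b := by
    by_contra hcon
    push Not at hcon
    have hfin : (⋃₀ C).Finite := by
      rcases C.eq_empty_or_nonempty with h0 | ⟨a, ha⟩
      · rw [h0, Set.sUnion_empty]; exact Set.finite_empty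
      · have : C = {a} := by
          ext x
          constructor
          · intro hx; exact (hcon x hx a ha)
          · intro hx; rw [Set.mem_singleton_iff] at hx; rw [hx]; exact ha
        rw [this, Set.sUnion_singleton]
        exact hCE ha
    rw [hCcov] at hfin
    exact Set.infinite_univ hfin
  obtain ⟨a, ha, b, hb, hab⟩ := htwo
  have hcE : (a ∪ b).Finite := Set.Finite.union (hCE ha) (hCE hb)
  have hC' := hmin ((C \ {a, b}) ∪ {a ∪ b}) (by
    rintro x (hx | hx)
    · exact hCE hx.1
    · rw [Set.mem_singleton_iff] at hx; rw [hx]; exact hcE) (by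
    apply Set.eq_univ_of_forall
    intro v
    have hv : v ∈ ⋃₀ C := by rw [hCcov]; exact Set.mem_univ v
    obtain ⟨e, heC, hve⟩ := hv
    by_cases hea : e = a
    · exact ⟨a ∪ b, Or.inr rfl, Or.inl (hea ▸ hve)⟩
    · by_cases heb : e = b
      · exact ⟨a ∪ b, Or.inr rfl, Or.inr (heb ▸ hve)⟩
      · refine ⟨e, Or.inl ⟨heC, ?_⟩, hve⟩
        rintro (h1 | h1)
        · exact hea h1
        · exact heb h1)
  by_cases hc : (a ∪ b) ∈ C
  · -- nothing new is used
    have hempty : ((C \ {a, b}) ∪ {a ∪ b}) \ C = ∅ := by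
      ext x
      constructor
      · rintro ⟨hx | hx, hxC⟩
        · exact absurd hx.1 hxC
        · rw [Set.mem_singleton_iff] at hx
          exact absurd (hx ▸ hc) hxC
      · intro hx; exact absurd hx (Set.notMem_empty x)
    rw [hempty] at hC'
    have h0 : Cardinal.mk ↥(∅ : Set (Set ℕ)) = 0 := Cardinal.mk_eq_zero _
    rw [h0] at hC'
    have hz : Cardinal.mk ↥(C \ ((C \ {a, b}) ∪ {a ∪ b})) = 0 := le_antisymm hC' zero_le
    rw [Cardinal.mk_set_eq_zero_iff] at hz
    by_cases hac : a = a ∪ b
    · have hbc : b ≠ a ∪ b := fun h => hab (hac.trans h.symm)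
      have : b ∈ C \ ((C \ {a, b}) ∪ {a ∪ b}) := by
        refine ⟨hb, ?_⟩
        rintro (h1 | h1)
        · exact h1.2 (Or.inr rfl)
        · exact hbc h1
      rw [hz] at this
      exact this
    · have : a ∈ C \ ((C \ {a, b}) ∪ {a ∪ b}) := by
        refine ⟨ha, ?_⟩
        rintro (h1 | h1)
        · exact h1.2 (Or.inl rfl)
        · exact hac h1
      rw [hz] at this
      exact this
  · have hone : ((C \ {a, b}) ∪ {a ∪ b}) \ C = {a ∪ b} := by
      ext x
      constructor
      · rintro ⟨hx | hx, hxC⟩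
        · exact absurd hx.1 hxC
        · exact hx
      · intro hx
        rw [Set.mem_singleton_iff] at hx
        subst hx
        exact ⟨Or.inr rfl, hc⟩
    rw [hone, Cardinal.mk_singleton] at hC'
    have hac : a ≠ a ∪ b := fun h => hc (h ▸ ha)
    have hbc : b ≠ a ∪ b := fun h => hc (h ▸ hb)
    have ham : a ∈ C \ ((C \ {a, b}) ∪ {a ∪ b}) := by
      refine ⟨ha, ?_⟩
      rintro (h1 | h1)
      · exact h1.2 (Or.inl rfl)
      · exact hac h1
    have hbm : b ∈ C \ ((C \ {a, b}) ∪ {a ∪ b}) := by
      refine ⟨hb, ?_⟩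
      rintro (h1 | h1)
      · exact h1.2 (Or.inr rfl)
      · exact hbc h1
    rw [Cardinal.le_one_iff_subsingleton] at hC'
    have := @Subsingleton.elim _ hC' ⟨a, ham⟩ ⟨b, hbm⟩
    exact hab (congrArg Subtype.val this)

end Pool.Agent.S2342
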