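import Pool.Statements.S2356

set_option autoImplicit false
open Pool Pool.MP_6f5d90_co

namespace Pool.Agent.S2356

/-- The 66 blocks as bit masks on the points `0, …, 11`. -/
def tbl : List ℕ :=
  [2145, 1185, 801, 2130, 1170, 786, 2124, 1164, 780, 2210, 354, 1570, 2181, 325, 1541, 2200, 344,
   1560, 2340, 676, 1124, 2314, 650, 1098, 2321, 657, 1105, 2600, 1320, 232, 2580, 1300, 212, 2563,
   1283, 195, 3120, 624, 432, 3081, 585, 393, 3078, 582, 390, 7, 11, 19, 35, 13, 21, 37, 25, 41, 49,
   14, 22, 38, 26, 42, 50, 28, 44, 52, 56, 4032]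

def inBl (i : Fin 66) (a : Fin 12) : Bool := (tbl.getD i.1 0).testBit a.1

def blk (i : Fin 66) : Finset (Fin 12) := Finset.univ.filter (fun a => inBl i a = true)

theorem mem_blk (i : Fin 66) (a : Fin 12) : a ∈ blk i ↔ inBl i a = true := by
  simp [blk]

theorem P1 : ∀ a b c : Fin 12, ∃ i : Fin 66, inBl i a = true ∧ inBl i b = true ∧ inBl i c = true := by
  decide +kernel

theorem P2 : ∀ i j : Fin 66, i ≠ j → (blk i ∩ blk j).card ≤ 2 := by
  decide +kernel

/-- independent sets: at most four points, and four points are not inside a block -/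
def Ind (I : Finset (Fin 12)) : Prop := I.card ≤ 4 ∧ (I.card = 4 → ∀ i, ¬ I ⊆ blk i)

theorem ind_of_card_le {I : Finset (Fin 12)} (h : I.card ≤ 3) : Ind I :=
  ⟨by omega, fun h4 => by omega⟩

theorem exists_blk {T : Finset (Fin 12)} (h : T.card = 3) : ∃ i, T ⊆ blk i := by
  obtain ⟨a, b, c, -, -, -, rfl⟩ := Finset.card_eq_three.1 h
  obtain ⟨i, ha, hb, hc⟩ := P1 a b c
  refine ⟨i, ?_⟩
  intro x hx
  simp only [Finset.mem_insert, Finset.mem_singleton] at hx
  rw [mem_blk]
  rcases hx with rfl | rfl | rfl <;> assumption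

theorem blk_unique {T : Finset (Fin 12)} (h : 3 ≤ T.card) {i j : Fin 66} (hi : T ⊆ blk i)
    (hj : T ⊆ blk j) : i = j := by
  by_contra hne
  have h1 := P2 i j hne
  have h2 := Finset.card_le_card (Finset.subset_inter hi hj)
  omega

theorem ind_insert {T : Finset (Fin 12)} (h : T.card = 3) {i : Fin 66} (hi : T ⊆ blk i)
    {e : Fin 12} (he : e ∉ blk i) : Ind (insert e T) := by
  have heT : e ∉ T := fun h => he (hi h)
  have hc : (insert e T).card = 4 := by rw [Finset.card_insert_of_notMem heT, h]
  refine ⟨by omega, fun _ j hj => ?_⟩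
  have hT : T ⊆ blk j := (Finset.subset_insert e T).trans hj
  have := blk_unique (by omega) hi hT
  subst this
  exact he (hj (Finset.mem_insert_self e T))

def IM : IndepMatroid (Fin 12) :=
  IndepMatroid.ofFinset Set.univ Ind (ind_of_card_le (by simp))
    (by
      intro I J hJ hIJ
      refine ⟨(Finset.card_le_card hIJ).trans hJ.1, fun h4 i hi => ?_⟩
      have h5 : I = J := Finset.eq_of_subset_of_card_le hIJ (by rw [h4]; exact hJ.1)
      subst h5
      exact hJ.2 h4 i hi)
    (by
      intro I J hI hJ hlt
      by_cases h : I.card ≤ 2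
      · obtain ⟨e, heJ, heI⟩ := Finset.exists_mem_notMem_of_card_lt_card hlt
        refine ⟨e, heJ, heI, ind_of_card_le ?_⟩
        rw [Finset.card_insert_of_notMem heI]
        omega
      · have hJ4 := hJ.1
        have hI3 : I.card = 3 := by omega
        have hJ4' : J.card = 4 := by omega
        obtain ⟨i, hi⟩ := exists_blk hI3
        have h6 := hJ.2 hJ4' i
        obtain ⟨e, heJ, hei⟩ := Finset.not_subset.1 h6
        exact ⟨e, heJ, fun h => hei (hi h), ind_insert hI3 hi hei⟩)
    (by intro I _; exact Set.subset_univ _)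

def M : Matroid (Fin 12) := IM.matroid

theorem M_E : M.E = Set.univ := rfl

theorem M_indep (I : Finset (Fin 12)) : M.Indep (I : Set (Fin 12)) ↔ Ind I := by
  rw [M, IndepMatroid.matroid_Indep]
  exact IndepMatroid.ofFinset_indep _ _ _ _ _ _

theorem encard_of_indep {X : Set (Fin 12)} (h : M.Indep X) : X.encard ≤ 4 := by
  classical
  obtain ⟨I, rfl⟩ : ∃ I : Finset (Fin 12), (I : Set (Fin 12)) = X := ⟨X.toFinite.toFinset, Set.Finite.coe_toFinset _⟩
  rw [M_indep] at h
  rw [Set.encard_coe_eq_coe_finsetCard]
  exact_mod_cast h.1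

theorem paving (C : Set (Fin 12)) (hC : M.IsCircuit C) : M.eRk M.E ≤ C.encard := by
  classical
  have h1 : M.eRk M.E ≤ 4 := by
    rw [Matroid.eRk_le_iff]
    intro I _ hI
    exact encard_of_indep hI
  obtain ⟨I, rfl⟩ : ∃ I : Finset (Fin 12), (I : Set (Fin 12)) = C := ⟨C.toFinite.toFinset, Set.Finite.coe_toFinset _⟩
  have h2 : ¬ I.card ≤ 3 := by
    intro h3
    exact hC.not_indep ((M_indep I).2 (ind_of_card_le h3))
  refine h1.trans ?_
  rw [Set.encard_coe_eq_coe_finsetCard]
  exact_mod_cast (by omega : 4 ≤ I.card)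

theorem flat_iff {F I : Finset (Fin 12)} (hI : Ind I) (hIF : I ⊆ F)
    (hF : M.IsFlat (F : Set (Fin 12))) (hr : M.eRk (F : Set (Fin 12)) = I.card) (e : Fin 12) :
    e ∈ F ↔ (¬ Ind (insert e I) ∨ e ∈ I) := by
  constructor
  · intro he
    by_contra hcon
    push Not at hcon
    have h1 : M.Indep ((insert e I : Finset (Fin 12)) : Set (Fin 12)) := (M_indep _).2 hcon.1
    have h2 : ((insert e I : Finset (Fin 12)) : Set (Fin 12)) ⊆ F := by
      rw [Finset.coe_subset]
      exact Finset.insert_subset he hIF
    have h3 := h1.encard_le_eRk_of_subset h2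
    rw [hr, Set.encard_coe_eq_coe_finsetCard, Finset.card_insert_of_notMem hcon.2] at h3
    have h4 : I.card + 1 ≤ I.card := by exact_mod_cast h3
    omega
  · rintro (h | h)
    · by_contra heF
      apply h
      have h1 : e ∉ M.closure (F : Set (Fin 12)) := by
        rw [hF.closure]; exact_mod_cast heF
      have h2 : e ∉ M.closure (I : Set (Fin 12)) := fun h5 =>
        h1 (M.closure_subset_closure (by exact_mod_cast hIF) h5)
      have h3 : M.Indep (I : Set (Fin 12)) := (M_indep I).2 hI
      rw [h3.notMem_closure_iff (by rw [M_E]; trivial)] at h2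
      have h4 := h2.1
      rw [← Finset.coe_insert, M_indep] at h4
      exact h4
    · exact hIF h

theorem exists_basis {F : Finset (Fin 12)} {k : ℕ} (hr : M.eRk (F : Set (Fin 12)) = k) :
    ∃ I : Finset (Fin 12), I ⊆ F ∧ Ind I ∧ I.card = k := by
  classical
  obtain ⟨I, hI⟩ := M.exists_isBasis (F : Set (Fin 12)) (by rw [M_E]; exact Set.subset_univ _)
  obtain ⟨J, rfl⟩ : ∃ J : Finset (Fin 12), (J : Set (Fin 12)) = I := ⟨I.toFinite.toFinset, Set.Finite.coe_toFinset _⟩
  refine ⟨J, by exact_mod_cast hI.subset, (M_indep J).1 hI.indep, ?_⟩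
  have := hI.encard_eq_eRk
  rw [hr, Set.encard_coe_eq_coe_finsetCard] at this
  exact_mod_cast this

theorem level_le (k : ℕ) :
    {F : Set (Fin 12) | M.IsFlat F ∧ M.eRk F = (k : ℕ∞)}.ncard ≤ 66 := by
  classical
  by_cases hk2 : k ≤ 2
  · -- flats of rank `k ≤ 2` are the `k`-subsets
    have hsub : {F : Set (Fin 12) | M.IsFlat F ∧ M.eRk F = (k : ℕ∞)} ⊆
        ((fun s : Finset (Fin 12) => (s : Set (Fin 12))) ''
          ((Finset.univ : Finset (Fin 12)).powersetCard k : Set (Finset (Fin 12)))) := by
      rintro F ⟨hF, hr⟩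
      obtain ⟨F, rfl⟩ : ∃ J : Finset (Fin 12), (J : Set (Fin 12)) = F :=
        ⟨F.toFinite.toFinset, Set.Finite.coe_toFinset _⟩
      obtain ⟨I, hIF, hI, hc⟩ := exists_basis hr
      refine ⟨I, ?_, ?_⟩
      · simp [Finset.mem_powersetCard, hc]
      · have : F = I := by
          ext e
          rw [flat_iff hI hIF hF (by rw [hr, hc]) e]
          constructor
          · rintro (h | h)
            · exfalso
              apply h
              apply ind_of_card_le
              have := Finset.card_insert_le e I
              omega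
            · exact h
          · exact fun h => Or.inr h
        simp [this]
    refine (Set.ncard_le_ncard hsub (Set.toFinite _)).trans ?_
    refine (Set.ncard_image_le (Set.toFinite _)).trans ?_
    rw [Set.ncard_coe_finset, Finset.card_powersetCard, Finset.card_univ, Fintype.card_fin]
    interval_cases k <;> decide
  · by_cases hk3 : k = 3
    · subst hk3
      have hsub : {F : Set (Fin 12) | M.IsFlat F ∧ M.eRk F = ((3 : ℕ) : ℕ∞)} ⊆
          ((fun i : Fin 66 => (blk i : Set (Fin 12))) '' Set.univ) := by
        rintro F ⟨hF, hr⟩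
        obtain ⟨F, rfl⟩ : ∃ J : Finset (Fin 12), (J : Set (Fin 12)) = F :=
          ⟨F.toFinite.toFinset, Set.Finite.coe_toFinset _⟩
        obtain ⟨I, hIF, hI, hc⟩ := exists_basis hr
        obtain ⟨i, hi⟩ := exists_blk hc
        refine ⟨i, trivial, ?_⟩
        have : F = blk i := by
          ext e
          rw [flat_iff hI hIF hF (by rw [hr, hc]) e]
          constructor
          · rintro (h | h)
            · by_contra he
              exact h (ind_insert hc hi he)
            · exact hi h
          · intro he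
            by_cases heI : e ∈ I
            · exact Or.inr heI
            · left
              intro hind
              refine hind.2 ?_ i (Finset.insert_subset he hi)
              rw [Finset.card_insert_of_notMem heI, hc]
        simp [this]
      refine (Set.ncard_le_ncard hsub (Set.toFinite _)).trans ?_
      refine (Set.ncard_image_le (Set.toFinite _)).trans ?_
      rw [Set.ncard_univ, Nat.card_eq_fintype_card, Fintype.card_fin]
    · have hsub : {F : Set (Fin 12) | M.IsFlat F ∧ M.eRk F = (k : ℕ∞)} ⊆ {Set.univ} := by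
        rintro F ⟨hF, hr⟩
        obtain ⟨F, rfl⟩ : ∃ J : Finset (Fin 12), (J : Set (Fin 12)) = F :=
          ⟨F.toFinite.toFinset, Set.Finite.coe_toFinset _⟩
        obtain ⟨I, hIF, hI, hc⟩ := exists_basis hr
        have : F = Finset.univ := by
          ext e
          rw [flat_iff hI hIF hF (by rw [hr, hc]) e]
          simp only [Finset.mem_univ, iff_true]
          by_cases heI : e ∈ I
          · exact Or.inr heI
          · left
            intro hind
            have := hind.1
            rw [Finset.card_insert_of_notMem heI] at this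
            omega
        simp [this]
      refine (Set.ncard_le_ncard hsub (Set.toFinite _)).trans ?_
      simp

/-- the antichain: pairs not inside `{0,…,5}` and triples inside it -/
def A6 : Finset (Fin 12) := {0, 1, 2, 3, 4, 5}

def AC : Finset (Finset (Fin 12)) :=
  ((Finset.univ : Finset (Fin 12)).powersetCard 2).filter (fun s => ¬ s ⊆ A6) ∪ A6.powersetCard 3

theorem AC_card : AC.card = 71 := by decide +kernel

theorem P4' : ∀ i : Fin 66, 3 ≤ (blk i ∩ A6).card → (blk i).card = 3 := by
  decide +kernel

theorem P4 (t : Finset (Fin 12)) (ht : t ∈ A6.powersetCard 3) (i : Fin 66) (h : t ⊆ blk i) :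
    blk i ⊆ t := by
  rw [Finset.mem_powersetCard] at ht
  have h1 := Finset.card_le_card (Finset.subset_inter h ht.1)
  have h2 := P4' i (by omega)
  rw [Finset.eq_of_subset_of_card_le h (by omega)]

theorem flat_of_ext {F : Finset (Fin 12)} (h : Ind F) (h2 : ∀ e, e ∉ F → Ind (insert e F)) :
    M.IsFlat (F : Set (Fin 12)) := by
  rw [Matroid.isFlat_iff_closure_eq]
  have h3 : M.Indep (F : Set (Fin 12)) := (M_indep F).2 h
  apply Set.Subset.antisymm
  · intro e he
    by_contra hcon
    have : e ∉ M.closure (F : Set (Fin 12)) := by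
      rw [h3.notMem_closure_iff (by rw [M_E]; trivial)]
      refine ⟨?_, hcon⟩
      rw [← Finset.coe_insert, M_indep]
      exact h2 e (by exact_mod_cast hcon)
    exact this he
  · exact M.subset_closure _ (by rw [M_E]; exact Set.subset_univ _)

theorem AC_flat (s : Finset (Fin 12)) (hs : s ∈ AC) : M.IsFlat (s : Set (Fin 12)) := by
  rw [AC, Finset.mem_union, Finset.mem_filter, Finset.mem_powersetCard] at hs
  rcases hs with ⟨⟨-, hs⟩, -⟩ | hs
  · apply flat_of_ext
    · exact ind_of_card_le (by omega)
    · intro e he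
      apply ind_of_card_le
      rw [Finset.card_insert_of_notMem he]
      omega
  · have hc : s.card = 3 := (Finset.mem_powersetCard.1 hs).2
    apply flat_of_ext
    · exact ind_of_card_le (by omega)
    · intro e he
      obtain ⟨i, hi⟩ := exists_blk hc
      exact ind_insert hc hi (fun h => he (P4 s hs i hi h))

theorem AC_anti (s t : Finset (Fin 12)) (hs : s ∈ AC) (ht : t ∈ AC) (hst : s ⊆ t) : s = t := by
  rw [AC, Finset.mem_union, Finset.mem_filter, Finset.mem_powersetCard,
    Finset.mem_powersetCard] at hs ht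
  rcases hs with ⟨⟨-, hs⟩, hs'⟩ | ⟨hs', hs⟩
  · rcases ht with ⟨⟨-, ht⟩, ht'⟩ | ⟨ht', ht⟩
    · exact Finset.eq_of_subset_of_card_le hst (by omega)
    · exact absurd (hst.trans ht') hs'
  · have := Finset.card_le_card hst
    rcases ht with ⟨⟨-, ht⟩, ht'⟩ | ⟨ht', ht⟩
    · omega
    · exact Finset.eq_of_subset_of_card_le hst (by omega)

/-- The negation of the preceding statement: For every matroid on a finite set whose circuits all have size at least its rank (paving), some rank level of its flats is at least as large as every antichain of flats under inclusion, i.e. the lattice of flats is Sperner. -/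
theorem result :
    ¬ (∀ (α : Type) [Finite α] (M : Matroid α),
      (∀ C : Set α, M.IsCircuit C → M.eRk M.E ≤ C.encard) →
      ∃ k : ℕ, ∀ A : Set (Set α), (∀ F ∈ A, M.IsFlat F) →
        IsAntichain (· ⊆ ·) A →
        A.ncard ≤ {F : Set α | M.IsFlat F ∧ M.eRk F = (k : ℕ∞)}.ncard) := by
  intro H
  obtain ⟨k, hk⟩ := H (Fin 12) M paving
  have h := hk ((fun s : Finset (Fin 12) => (s : Set (Fin 12))) '' (AC : Set (Finset (Fin 12))))
    (by
      rintro F ⟨s, hs, rfl⟩
      exact AC_flat s (by exact_mod_cast hs))
    (by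
      rintro F ⟨s, hs, rfl⟩ G ⟨t, ht, rfl⟩ hne hsub
      apply hne
      have := AC_anti s t (by exact_mod_cast hs) (by exact_mod_cast ht) (by exact_mod_cast hsub)
      rw [this])
  rw [Set.ncard_image_of_injective _ Finset.coe_injective, Set.ncard_coe_finset, AC_card] at h
  have := level_le k
  omega

end Pool.Agent.S2356
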