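import Pool.Statements.S2368

set_option autoImplicit false
open Pool Pool.MP_71ab31_co

namespace Pool.Agent.S2368

open Finset

/-- the characteristic as a function of the family -/
def chi {n : ℕ} (Z : Finset (Finset (Fin n))) : ℤ :=
  ∑ S ∈ Z.powerset.filter (fun S => S.Nonempty),
    (-1 : ℤ) ^ (S.card + 1) *
      (if 3 ≤ (S.inf id).card then 3 * ((S.inf id).card : ℤ) - 6
        else if (S.inf id).card = 2 then 1 else 0)

/-- all 2-subsets -/
def prs (n : ℕ) : Finset (Finset (Fin n)) := (Finset.univ : Finset (Fin n)).powersetCard 2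

theorem prs_filter {n : ℕ} (T : Finset (Fin n)) :
    ((prs n).filter (fun e => e ⊆ T)).card = T.card.choose 2 := by
  have : (prs n).filter (fun e => e ⊆ T) = T.powersetCard 2 := by
    ext e
    simp only [prs, mem_filter, mem_powersetCard, subset_univ, true_and]
    tauto
  rw [this, card_powersetCard]

theorem sub_inf {n : ℕ} (e : Finset (Fin n)) (S : Finset (Finset (Fin n))) :
    e ⊆ S.inf id ↔ ∀ A ∈ S, e ⊆ A := by
  exact (Finset.le_inf_iff (s := S) (f := id) (a := e))

theorem term_eq {n : ℕ} {Z : Finset (Finset (Fin n))}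
    (hc : ∀ A ∈ Z, A.card = 7)
    (hthin : ∀ A ∈ Z, ∀ A' ∈ Z, A ≠ A' → (A ∩ A').card ≤ 2)
    {S : Finset (Finset (Fin n))} (hS : S ⊆ Z) (hne : S.Nonempty) :
    (if 3 ≤ (S.inf id).card then 3 * ((S.inf id).card : ℤ) - 6
        else if (S.inf id).card = 2 then 1 else 0) =
      (∑ e ∈ prs n, if e ⊆ S.inf id then (1 : ℤ) else 0) + (if S.card = 1 then -6 else 0) := by
  have h1 : (∑ e ∈ prs n, if e ⊆ S.inf id then (1 : ℤ) else 0) =
      (((S.inf id).card.choose 2 : ℕ) : ℤ) := by
    rw [← prs_filter, Finset.sum_ite]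
    simp
  rw [h1]
  by_cases h : S.card = 1
  · obtain ⟨A, rfl⟩ := Finset.card_eq_one.1 h
    have hA := hc A (hS (mem_singleton_self A))
    have : (({A} : Finset (Finset (Fin n))).inf id) = A := by simp
    rw [this, hA]
    norm_num
    decide
  · have h2 : 1 < S.card := by
      have := hne.card_pos
      omega
    obtain ⟨A, hA, B, hB, hAB⟩ := Finset.one_lt_card.1 h2
    have h3 : S.inf id ⊆ A ∩ B := by
      apply Finset.subset_inter
      · exact Finset.inf_le hA
      · exact Finset.inf_le hB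
    have h4 : (S.inf id).card ≤ 2 :=
      (Finset.card_le_card h3).trans (hthin A (hS hA) B (hS hB) hAB)
    rw [if_neg h, if_neg (by omega)]
    generalize (S.inf id).card = m at h4
    interval_cases m <;> decide

theorem inner_le {n : ℕ} (Z : Finset (Finset (Fin n))) (e : Finset (Fin n)) :
    ∑ S ∈ Z.powerset.filter (fun S => S.Nonempty),
      (-1 : ℤ) ^ (S.card + 1) * (if e ⊆ S.inf id then (1 : ℤ) else 0) ≤ 1 := by
  have h1 : ∑ S ∈ Z.powerset.filter (fun S => S.Nonempty),
      (-1 : ℤ) ^ (S.card + 1) * (if e ⊆ S.inf id then (1 : ℤ) else 0) =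
      ∑ S ∈ ((Z.filter (fun A => e ⊆ A)).powerset.erase ∅), (-1 : ℤ) ^ (S.card + 1) := by
    simp only [mul_ite, mul_one, mul_zero]
    rw [← Finset.sum_filter]
    apply Finset.sum_congr _ (fun _ _ => rfl)
    ext S
    rw [mem_filter, mem_filter, mem_erase, mem_powerset, mem_powerset, sub_inf,
      Finset.nonempty_iff_ne_empty]
    constructor
    · rintro ⟨⟨h1, h2⟩, h3⟩
      exact ⟨h2, fun A hA => mem_filter.2 ⟨h1 hA, h3 A hA⟩⟩
    · rintro ⟨h2, h3⟩
      exact ⟨⟨fun A hA => (mem_filter.1 (h3 hA)).1, h2⟩, fun A hA => (mem_filter.1 (h3 hA)).2⟩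
  rw [h1]
  have h2 := Finset.sum_powerset_neg_one_pow_card (x := Z.filter (fun A => e ⊆ A))
  have h3 := Finset.add_sum_erase (Z.filter (fun A => e ⊆ A)).powerset
    (fun S => (-1 : ℤ) ^ (S.card + 1)) (Finset.empty_mem_powerset _)
  have h4 : ∑ S ∈ (Z.filter (fun A => e ⊆ A)).powerset, (-1 : ℤ) ^ (S.card + 1) =
      - ∑ S ∈ (Z.filter (fun A => e ⊆ A)).powerset, (-1 : ℤ) ^ S.card := by
    rw [← Finset.sum_neg_distrib]
    apply Finset.sum_congr rfl
    intro S _
    ring
  have h5 : 0 ≤ ∑ S ∈ (Z.filter (fun A => e ⊆ A)).powerset, (-1 : ℤ) ^ S.card := by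
    rw [h2]
    split_ifs <;> norm_num
  simp only [card_empty, zero_add, pow_one] at h3
  linarith

theorem chi_le {n : ℕ} {Z : Finset (Finset (Fin n))}
    (hc : ∀ A ∈ Z, A.card = 7)
    (hthin : ∀ A ∈ Z, ∀ A' ∈ Z, A ≠ A' → (A ∩ A').card ≤ 2) :
    chi Z ≤ (n.choose 2 : ℕ) - 6 * (Z.card : ℤ) := by
  have h1 : chi Z = (∑ e ∈ prs n, ∑ S ∈ Z.powerset.filter (fun S => S.Nonempty),
      (-1 : ℤ) ^ (S.card + 1) * (if e ⊆ S.inf id then (1 : ℤ) else 0)) +
      ∑ S ∈ Z.powerset.filter (fun S => S.Nonempty),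
        (-1 : ℤ) ^ (S.card + 1) * (if S.card = 1 then -6 else 0) := by
    rw [Finset.sum_comm, ← Finset.sum_add_distrib, chi]
    apply Finset.sum_congr rfl
    intro S hS
    rw [mem_filter, mem_powerset] at hS
    rw [term_eq hc hthin hS.1 hS.2, mul_add, Finset.mul_sum]
  have h2 : ∑ S ∈ Z.powerset.filter (fun S => S.Nonempty),
        (-1 : ℤ) ^ (S.card + 1) * (if S.card = 1 then -6 else 0) = -6 * (Z.card : ℤ) := by
    have h3 : ∀ S ∈ Z.powerset.filter (fun S => S.Nonempty),
        (-1 : ℤ) ^ (S.card + 1) * (if S.card = 1 then -6 else 0) =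
          if S.card = 1 then (-6 : ℤ) else 0 := by
      intro S _
      by_cases h : S.card = 1
      · rw [if_pos h, h]; norm_num
      · rw [if_neg h]; norm_num
    rw [Finset.sum_congr rfl h3, ← Finset.sum_filter, Finset.sum_const]
    have h4 : (Z.powerset.filter (fun S => S.Nonempty)).filter (fun S => S.card = 1) =
        Z.powersetCard 1 := by
      ext S
      simp only [mem_filter, mem_powerset, mem_powersetCard]
      constructor
      · rintro ⟨⟨h1, _⟩, h2⟩
        exact ⟨h1, h2⟩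
      · rintro ⟨h1, h2⟩
        exact ⟨⟨h1, Finset.card_pos.1 (by omega)⟩, h2⟩
    rw [h4, card_powersetCard, Nat.choose_one_right, nsmul_eq_mul]
    ring
  have h3 : (∑ e ∈ prs n, ∑ S ∈ Z.powerset.filter (fun S => S.Nonempty),
      (-1 : ℤ) ^ (S.card + 1) * (if e ⊆ S.inf id then (1 : ℤ) else 0)) ≤ (n.choose 2 : ℕ) := by
    refine (Finset.sum_le_sum (fun e _ => inner_le Z e)).trans ?_
    rw [Finset.sum_const, prs, card_powersetCard, card_univ, Fintype.card_fin]
    simp
  rw [h1, h2]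
  linarith

/-- parabolas over the field with seven elements -/
theorem roots : ∀ a b c : ZMod 7, (a ≠ 0 ∨ b ≠ 0 ∨ c ≠ 0) →
    ((Finset.univ : Finset (ZMod 7)).filter (fun x => a * x ^ 2 + b * x + c = 0)).card ≤ 2 := by
  decide +kernel

noncomputable def eqv : (ZMod 7 × ZMod 7) ≃ Fin 49 :=
  Fintype.equivFinOfCardEq (by rw [Fintype.card_prod, ZMod.card])

noncomputable def pt (t : ZMod 7 × ZMod 7 × ZMod 7) (x : ZMod 7) : Fin 49 :=
  eqv (x, t.1 * x ^ 2 + t.2.1 * x + t.2.2)

theorem pt_inj (t : ZMod 7 × ZMod 7 × ZMod 7) : Function.Injective (pt t) := by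
  intro x y h
  have := eqv.injective h
  exact (Prod.mk.inj this).1

noncomputable def par (t : ZMod 7 × ZMod 7 × ZMod 7) : Finset (Fin 49) :=
  Finset.univ.image (pt t)

theorem par_card (t : ZMod 7 × ZMod 7 × ZMod 7) : (par t).card = 7 := by
  rw [par, card_image_of_injective _ (pt_inj t), card_univ, ZMod.card]

theorem par_inter {t s : ZMod 7 × ZMod 7 × ZMod 7} (h : t ≠ s) : (par t ∩ par s).card ≤ 2 := by
  have h1 : par t ∩ par s ⊆ ((Finset.univ : Finset (ZMod 7)).filter
      (fun x => (t.1 - s.1) * x ^ 2 + (t.2.1 - s.2.1) * x + (t.2.2 - s.2.2) = 0)).image (pt t) := by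
    intro p hp
    rw [mem_inter, par, par, mem_image, mem_image] at hp
    obtain ⟨⟨x, -, hx⟩, ⟨y, -, hy⟩⟩ := hp
    rw [mem_image]
    refine ⟨x, ?_, hx⟩
    rw [mem_filter]
    refine ⟨mem_univ _, ?_⟩
    have h2 := eqv.injective (hx.trans hy.symm)
    obtain ⟨h3, h4⟩ := Prod.mk.inj h2
    subst h3
    linear_combination h4
  refine (card_le_card h1).trans (card_image_le.trans ?_)
  apply roots
  by_contra hcon
  push Not at hcon
  apply h
  obtain ⟨h1, h2, h3⟩ := hcon
  exact Prod.ext (sub_eq_zero.1 h1) (Prod.ext (sub_eq_zero.1 h2) (sub_eq_zero.1 h3))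

theorem par_injective : Function.Injective par := by
  intro t s h
  by_contra hne
  have h1 := par_inter hne
  rw [h, inter_self, par_card] at h1
  omega

noncomputable def Zp : Finset (Finset (Fin 49)) := Finset.univ.image par

theorem Zp_card : Zp.card = 343 := by
  rw [Zp, card_image_of_injective _ par_injective, card_univ]
  simp [ZMod.card]

theorem Zp_c (A : Finset (Fin 49)) (hA : A ∈ Zp) : A.card = 7 := by
  rw [Zp, mem_image] at hA
  obtain ⟨t, -, rfl⟩ := hA
  exact par_card t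

theorem Zp_thin (A : Finset (Fin 49)) (hA : A ∈ Zp) (B : Finset (Fin 49)) (hB : B ∈ Zp)
    (hne : A ≠ B) : (A ∩ B).card ≤ 2 := by
  rw [Zp, mem_image] at hA hB
  obtain ⟨t, -, rfl⟩ := hA
  obtain ⟨s, -, rfl⟩ := hB
  exact par_inter (fun h => hne (by rw [h]))

theorem chi_Zp : chi Zp < 0 := by
  have h := chi_le Zp_c Zp_thin
  rw [Zp_card] at h
  have h2 : Nat.choose 49 2 = 1176 := by decide
  rw [h2] at h
  norm_num at h
  linarith

/-- the set over which the minimum is taken -/
def vals {n : ℕ} (B : Finset (Finset (Fin n))) : Set ℤ :=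
  {x : ℤ | ∃ Z : Finset (Finset (Fin n)),
          IsAntichain (· ⊆ ·) (Z : Set (Finset (Fin n))) ∧
          (∀ A ∈ Z, ∀ A' ∈ Z, A ≠ A' → (A ∩ A').card ≤ 2) ∧
          (∀ b ∈ B, ∃ A ∈ Z, b ⊆ A) ∧
          x = ∑ S ∈ Z.powerset.filter (fun S => S.Nonempty),
                (-1 : ℤ) ^ (S.card + 1) *
                  (if 3 ≤ (S.inf id).card then 3 * ((S.inf id).card : ℤ) - 6
                   else if (S.inf id).card = 2 then 1 else 0)}

theorem exists_least {n : ℕ} (B : Finset (Finset (Fin n)))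
    (hB : B ⊆ (Finset.univ : Finset (Fin n)).powersetCard 2) : ∃ x, IsLeast (vals B) x := by
  have hfin : (vals B).Finite := by
    apply (Set.finite_range (fun Z : Finset (Finset (Fin n)) => chi Z)).subset
    rintro x ⟨Z, -, -, -, rfl⟩
    exact ⟨Z, rfl⟩
  have hcard : ∀ A ∈ B, A.card = 2 := fun A hA => (mem_powersetCard.1 (hB hA)).2
  have hne : (vals B).Nonempty := by
    refine ⟨chi B, B, ?_, ?_, ?_, rfl⟩
    · intro A hA A' hA' hne hsub
      apply hne
      apply Finset.eq_of_subset_of_card_le hsub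
      rw [hcard A (by exact_mod_cast hA), hcard A' (by exact_mod_cast hA')]
    · intro A hA A' hA' _
      exact (card_le_card inter_subset_left).trans (hcard A hA).le
    · intro b hb
      exact ⟨b, hb, Subset.rfl⟩
  refine ⟨hfin.toFinset.min' (by simpa using hne), ?_⟩
  have := hfin.toFinset.isLeast_min' (by simpa using hne)
  rwa [hfin.coe_toFinset] at this

open Classical in
noncomputable def rr (B : Finset (Finset (Fin 49))) : ℤ :=
  if h : B ⊆ (Finset.univ : Finset (Fin 49)).powersetCard 2 then (exists_least B h).choose else 0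

theorem rr_spec (B : Finset (Finset (Fin 49)))
    (h : B ⊆ (Finset.univ : Finset (Fin 49)).powersetCard 2) : IsLeast (vals B) (rr B) := by
  rw [rr, dif_pos h]
  exact (exists_least B h).choose_spec

/-- The negation of the preceding statement: For every finite set P, let r(B) be the least characteristic over thin antichains covering a bar set B. Then r satisfies the matroid rank axioms on pairs: 0 ≤ r(B) ≤ ∣B∣, r is monotone, and r is submodular. -/
theorem result :
    ¬ (∀ (n : ℕ) (r : Finset (Finset (Fin n)) → ℤ),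
    (∀ B : Finset (Finset (Fin n)),
      B ⊆ (Finset.univ : Finset (Fin n)).powersetCard 2 →
      IsLeast {x : ℤ | ∃ Z : Finset (Finset (Fin n)),
          IsAntichain (· ⊆ ·) (Z : Set (Finset (Fin n))) ∧
          (∀ A ∈ Z, ∀ A' ∈ Z, A ≠ A' → (A ∩ A').card ≤ 2) ∧
          (∀ b ∈ B, ∃ A ∈ Z, b ⊆ A) ∧
          x = ∑ S ∈ Z.powerset.filter (fun S => S.Nonempty),
                (-1 : ℤ) ^ (S.card + 1) *
                  (if 3 ≤ (S.inf id).card then 3 * ((S.inf id).card : ℤ) - 6
                   else if (S.inf id).card = 2 then 1 else 0)} (r B)) →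
    (∀ B : Finset (Finset (Fin n)),
        B ⊆ (Finset.univ : Finset (Fin n)).powersetCard 2 →
        0 ≤ r B ∧ r B ≤ (B.card : ℤ)) ∧
    (∀ B C : Finset (Finset (Fin n)), B ⊆ C →
        C ⊆ (Finset.univ : Finset (Fin n)).powersetCard 2 → r B ≤ r C) ∧
    (∀ B C : Finset (Finset (Fin n)),
        B ⊆ (Finset.univ : Finset (Fin n)).powersetCard 2 →
        C ⊆ (Finset.univ : Finset (Fin n)).powersetCard 2 →
        r (B ∪ C) + r (B ∩ C) ≤ r B + r C)) := by
  intro H
  obtain ⟨h0, -⟩ := H 49 rr rr_spec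
  have h1 := (h0 ∅ (Finset.empty_subset _)).1
  have h2 : rr ∅ ≤ chi Zp := by
    apply (rr_spec ∅ (Finset.empty_subset _)).2
    refine ⟨Zp, ?_, Zp_thin, by simp, rfl⟩
    intro A hA A' hA' hne hsub
    apply hne
    apply Finset.eq_of_subset_of_card_le hsub
    rw [Zp_c A (by exact_mod_cast hA), Zp_c A' (by exact_mod_cast hA')]
  have h3 := chi_Zp
  linarith

end Pool.Agent.S2368
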