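import Pool.Statements.S2448
import Pool.Agent.H1.SAP.Proof

set_option autoImplicit false
open Pool Pool.MP_8c7c0e_co

namespace Pool.Agent.S2448

/-- The negation of the preceding statement: For every infinite field of nonzero characteristic, every n×n zero-nonzero pattern such that every monic degree-n polynomial is the characteristic polynomial of some matrix with exactly that pattern has at least 2n nonzero positions. -/
theorem result :
    ¬ (∀ (F : Type) [Field F] [Infinite F], ringChar F ≠ 0 →
      ∀ (n : ℕ) (P : Matrix (Fin n) (Fin n) Bool),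
        (∀ p : Polynomial F, p.Monic → p.natDegree = n →
          ∃ A : Matrix (Fin n) (Fin n) F,
            (∀ i j, (A i j ≠ 0 ↔ P i j = true)) ∧ A.charpoly = p) →
        2 * n ≤ (Finset.univ.filter (fun ij : Fin n × Fin n => P ij.1 ij.2 = true)).card) := by
  intro h
  have hchar : CharP (AlgebraicClosure (ZMod 2)) 2 := inferInstance
  have hinf : Infinite (AlgebraicClosure (ZMod 2)) := inferInstance
  have hrc : ringChar (AlgebraicClosure (ZMod 2)) ≠ 0 := by
    rw [ringChar.eq (AlgebraicClosure (ZMod 2)) 2]
    exact two_ne_zero
  have h2 : (2 : AlgebraicClosure (ZMod 2)) = 0 := by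
    have := CharP.cast_eq_zero (AlgebraicClosure (ZMod 2)) 2
    exact_mod_cast this
  have h1 := h (AlgebraicClosure (ZMod 2)) hrc (4 + (2 + (2 + 2))) H1.SAP.P10
    (fun p hp hd => H1.SAP.attain10 h2 p hp hd)
  revert h1
  decide +kernel

end Pool.Agent.S2448
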