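import Pool.Statements.S2628
import Pool.Agent.H2.B98776.Geo
-- import your own Pool.Agent.* helpers here

set_option autoImplicit false
open Pool Pool.MP_b98776_co

namespace Pool.Agent.S2628

open Pool.Agent.H2.B98776

/-- The negation of the preceding statement: There is N such that for every set of at least N points in 3-space that is not coplanar, does not lie on two lines, and does not become coplanar after removing one point, the number of planes it spans is at least the number of lines it spans. -/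
theorem result :
    ¬ (∃ N : ℕ, ∀ S : Finset (EuclideanSpace ℝ (Fin 3)),
      N ≤ S.card →
      ¬ Coplanar ℝ (S : Set (EuclideanSpace ℝ (Fin 3))) →
      ¬ (∃ a b c d : EuclideanSpace ℝ (Fin 3),
          (S : Set (EuclideanSpace ℝ (Fin 3))) ⊆
            (affineSpan ℝ ({a, b} : Set (EuclideanSpace ℝ (Fin 3))) : Set (EuclideanSpace ℝ (Fin 3))) ∪
            (affineSpan ℝ ({c, d} : Set (EuclideanSpace ℝ (Fin 3))) : Set (EuclideanSpace ℝ (Fin 3)))) →
      ¬ (∃ x ∈ S, Coplanar ℝ ((S.erase x : Finset (EuclideanSpace ℝ (Fin 3))) : Set (EuclideanSpace ℝ (Fin 3)))) →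
      {L : AffineSubspace ℝ (EuclideanSpace ℝ (Fin 3)) |
          ∃ a ∈ S, ∃ b ∈ S, a ≠ b ∧
            L = affineSpan ℝ ({a, b} : Set (EuclideanSpace ℝ (Fin 3)))}.ncard ≤
      {P : AffineSubspace ℝ (EuclideanSpace ℝ (Fin 3)) |
          ∃ a ∈ S, ∃ b ∈ S, ∃ c ∈ S,
            ¬ Collinear ℝ ({a, b, c} : Set (EuclideanSpace ℝ (Fin 3))) ∧
            P = affineSpan ℝ ({a, b, c} : Set (EuclideanSpace ℝ (Fin 3)))}.ncard) := by
  rintro ⟨N, h⟩
  have hK0 : 0 < N + 3 := by omega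
  have hK1 : 1 < N + 3 := by omega
  have hK2 : 2 < N + 3 := by omega
  have hx : ∀ i < N + 3, x i ∈ S (N + 3) := fun i hi => mem_S.2 (Or.inl ⟨i, hi, rfl⟩)
  have hq : ∀ j, q j ∈ S (N + 3) := fun j => mem_S.2 (Or.inr ⟨j, rfl⟩)
  have h01 : (0 : Fin 3) ≠ 1 := by decide
  have h02 : (0 : Fin 3) ≠ 2 := by decide
  have h12 : (1 : Fin 3) ≠ 2 := by decide
  have hmain := h (S (N + 3)) ((show N ≤ N + 3 by omega).trans (card_S (N + 3)))
    (not_coplanar (i := 0) (j := 1) (by decide) h01 (hx 0 hK0) (hx 1 hK1) (hq 0) (hq 1)) ?_ ?_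
  · -- counting
    have hP : {P : AffineSubspace ℝ (EuclideanSpace ℝ (Fin 3)) |
          ∃ a ∈ S (N + 3), ∃ b ∈ S (N + 3), ∃ c ∈ S (N + 3),
            ¬ Collinear ℝ ({a, b, c} : Set (EuclideanSpace ℝ (Fin 3))) ∧
            P = affineSpan ℝ ({a, b, c} : Set (EuclideanSpace ℝ (Fin 3)))}.ncard ≤
        3 + ((N + 2) * 3 + 1) := by
      refine (Set.ncard_le_ncard (planes_sub (N + 3)) (Set.finite_range _)).trans ?_
      rw [← Set.image_univ]
      refine (Set.ncard_image_le Set.finite_univ).trans ?_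
      rw [Set.ncard_univ, Nat.card_eq_fintype_card]
      simp
    have hL : (N + 3) * 3 + 2 ≤ {L : AffineSubspace ℝ (EuclideanSpace ℝ (Fin 3)) |
          ∃ a ∈ S (N + 3), ∃ b ∈ S (N + 3), a ≠ b ∧
            L = affineSpan ℝ ({a, b} : Set (EuclideanSpace ℝ (Fin 3)))}.ncard := by
      have hfin : {L : AffineSubspace ℝ (EuclideanSpace ℝ (Fin 3)) |
          ∃ a ∈ S (N + 3), ∃ b ∈ S (N + 3), a ≠ b ∧
            L = affineSpan ℝ ({a, b} : Set (EuclideanSpace ℝ (Fin 3)))}.Finite := by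
        refine (((S (N + 3)).finite_toSet.prod (S (N + 3)).finite_toSet).image
          (fun p => affineSpan ℝ ({p.1, p.2} : Set (EuclideanSpace ℝ (Fin 3))))).subset ?_
        rintro L ⟨a, ha, b, hb, -, rfl⟩
        exact ⟨(a, b), ⟨ha, hb⟩, rfl⟩
      have hsub : Set.range (f (N + 3)) ⊆ {L : AffineSubspace ℝ (EuclideanSpace ℝ (Fin 3)) |
          ∃ a ∈ S (N + 3), ∃ b ∈ S (N + 3), a ≠ b ∧
            L = affineSpan ℝ ({a, b} : Set (EuclideanSpace ℝ (Fin 3)))} := by
        rintro L ⟨p, rfl⟩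
        rcases p with ⟨i, j⟩ | a
        · exact ⟨x i, hx i i.2, q j, hq j, x_ne_q i j, rfl⟩
        · fin_cases a
          · exact ⟨x 0, hx 0 hK0, x 1, hx 1 hK1, fun e => by simpa using x_inj e, rfl⟩
          · exact ⟨q 0, hq 0, q 1, hq 1, fun e => h01 (q_inj e), rfl⟩
      refine le_trans (le_of_eq ?_) (Set.ncard_le_ncard hsub hfin)
      rw [← Set.image_univ, Set.ncard_image_of_injective _ (f_inj (N + 3)), Set.ncard_univ,
        Nat.card_eq_fintype_card]
      simp
    exact absurd (hL.trans (hmain.trans hP)) (by omega)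
  · -- not on two lines
    rintro ⟨a, b, c, d, hsub⟩
    have ml : ∀ p ∈ S (N + 3), p ∈ affineSpan ℝ ({a, b} : Set E) ∨
        p ∈ affineSpan ℝ ({c, d} : Set E) := fun p hp => hsub hp
    have key : ∀ u v : E, (∀ i j k, i ≠ j → x i ∈ affineSpan ℝ ({u, v} : Set E) →
        x j ∈ affineSpan ℝ ({u, v} : Set E) → q k ∉ affineSpan ℝ ({u, v} : Set E)) ∧
        (∀ i j k, j ≠ k → x i ∈ affineSpan ℝ ({u, v} : Set E) →
        q j ∈ affineSpan ℝ ({u, v} : Set E) → q k ∉ affineSpan ℝ ({u, v} : Set E)) ∧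
        (q 0 ∈ affineSpan ℝ ({u, v} : Set E) → q 1 ∈ affineSpan ℝ ({u, v} : Set E) →
          q 2 ∉ affineSpan ℝ ({u, v} : Set E)) := fun u v =>
      ⟨fun i j k hij hi hj hk => c1 hij k (collinear_triple_of_mem_affineSpan_pair hi hj hk),
        fun i j k hjk hi hj hk => c2 i hjk (collinear_triple_of_mem_affineSpan_pair hi hj hk),
        fun h0 h1 h2 => c3 (collinear_triple_of_mem_affineSpan_pair h0 h1 h2)⟩
    obtain ⟨k1, k2, k3⟩ := key a b
    obtain ⟨k1', k2', k3'⟩ := key c d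
    have n01 : (0 : ℕ) ≠ 1 := by decide
    rcases ml _ (hx 0 hK0) with h0 | h0
    · rcases ml _ (hx 1 hK1) with h1 | h1
      · have e : ∀ k, q k ∈ affineSpan ℝ ({c, d} : Set E) := fun k =>
          (ml _ (hq k)).resolve_left (k1 0 1 k n01 h0 h1)
        exact k3' (e 0) (e 1) (e 2)
      · rcases ml _ (hq 0) with g0 | g0
        · have g1 := (ml _ (hq 1)).resolve_left (k2 0 0 1 h01 h0 g0)
          have g2 := (ml _ (hq 2)).resolve_left (k2 0 0 2 h02 h0 g0)
          exact k2' 1 1 2 h12 h1 g1 g2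
        · have g1 := (ml _ (hq 1)).resolve_right (k2' 1 0 1 h01 h1 g0)
          have g2 := (ml _ (hq 2)).resolve_right (k2' 1 0 2 h02 h1 g0)
          exact k2 0 1 2 h12 h0 g1 g2
    · rcases ml _ (hx 1 hK1) with h1 | h1
      · rcases ml _ (hq 0) with g0 | g0
        · have g1 := (ml _ (hq 1)).resolve_left (k2 1 0 1 h01 h1 g0)
          have g2 := (ml _ (hq 2)).resolve_left (k2 1 0 2 h02 h1 g0)
          exact k2' 0 1 2 h12 h0 g1 g2
        · have g1 := (ml _ (hq 1)).resolve_right (k2' 0 0 1 h01 h0 g0)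
          have g2 := (ml _ (hq 2)).resolve_right (k2' 0 0 2 h02 h0 g0)
          exact k2 1 1 2 h12 h1 g1 g2
      · have e : ∀ k, q k ∈ affineSpan ℝ ({a, b} : Set E) := fun k =>
          (ml _ (hq k)).resolve_right (k1' 0 1 k n01 h0 h1)
        exact k3 (e 0) (e 1) (e 2)
  · -- not coplanar after removing a point
    rintro ⟨p, hp, hcop⟩
    obtain ⟨i, j, hij, hi, hj, hi', hj'⟩ : ∃ i j : ℕ, i ≠ j ∧ i < N + 3 ∧ j < N + 3 ∧
        x i ≠ p ∧ x j ≠ p := by
      by_cases e0 : x 0 = p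
      · refine ⟨1, 2, by decide, hK1, hK2, ?_, ?_⟩ <;>
        · rw [← e0]
          intro e
          simpa using x_inj e
      · by_cases e1 : x 1 = p
        · refine ⟨0, 2, by decide, hK0, hK2, e0, ?_⟩
          rw [← e1]
          intro e
          simpa using x_inj e
        · exact ⟨0, 1, by decide, hK0, hK1, e0, e1⟩
    obtain ⟨k, l, hkl, hk', hl'⟩ : ∃ k l : Fin 3, k ≠ l ∧ q k ≠ p ∧ q l ≠ p := by
      by_cases e0 : q 0 = p
      · refine ⟨1, 2, h12, ?_, ?_⟩ <;>
        · rw [← e0]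
          intro e
          simpa using q_inj e
      · by_cases e1 : q 1 = p
        · refine ⟨0, 2, h02, e0, ?_⟩
          rw [← e1]
          intro e
          simpa using q_inj e
        · exact ⟨0, 1, h01, e0, e1⟩
    exact not_coplanar hij hkl (Finset.mem_erase.2 ⟨hi', hx i hi⟩)
      (Finset.mem_erase.2 ⟨hj', hx j hj⟩) (Finset.mem_erase.2 ⟨hk', hq k⟩)
      (Finset.mem_erase.2 ⟨hl', hq l⟩) hcop

end Pool.Agent.S2628
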