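import Pool.Statements.S2736
-- import your own Pool.Agent.* helpers here

set_option autoImplicit false
open Pool Pool.MP_d1f9c8_co

namespace Pool.Agent.S2736


/-! ### Classes of graphs -/

/-- Classes of finite graphs. -/
abbrev Cls := (n : ℕ) → SimpleGraph (Fin n) → Prop

/-- Closure under subgraphs. -/
def Her (A : Cls) : Prop :=
  ∀ (a b : ℕ) (G : SimpleGraph (Fin a)) (H : SimpleGraph (Fin b)) (f : H →g G),
    Function.Injective f → A a G → A b H

/-- `G` is isomorphic to a member of `A`. -/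
def St (A : Cls) {V : Type} (G : SimpleGraph V) : Prop :=
  ∃ (r : ℕ) (K : SimpleGraph (Fin r)), A r K ∧ Nonempty (G ≃g K)

/-- `P` is the product of `A` and `B`. -/
def IsProd (A B P : Cls) : Prop :=
  ∀ (n : ℕ) (G : SimpleGraph (Fin n)),
    (P n G ↔ ∃ S : Set (Fin n), St A (G.induce S) ∧ St B (G.induce Sᶜ))

theorem st_emb {A : Cls} (hA : Her A) {V W : Type} (G : SimpleGraph V) (H : SimpleGraph W)
    (f : H →g G) (hf : Function.Injective f) (h : St A G) : St A H := by
  obtain ⟨r, K, hK, ⟨e⟩⟩ := h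
  have hfin : Finite W := Finite.of_injective (fun w => e (f w)) (e.injective.comp hf)
  obtain ⟨n, ⟨q⟩⟩ := Finite.exists_equiv_fin W
  refine ⟨n, H.comap q.symm, ?_, ⟨?_⟩⟩
  · refine hA r n K (H.comap q.symm) ⟨fun i => e (f (q.symm i)), ?_⟩ ?_ hK
    · intro i j hij
      exact e.map_adj_iff.2 (f.map_adj hij)
    · exact (e.injective.comp hf).comp q.symm.injective
  · refine ⟨q, ?_⟩
    intro a b
    simp

theorem st_fin {A : Cls} (hA : Her A) {n : ℕ} (G : SimpleGraph (Fin n)) : St A G ↔ A n G := by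
  constructor
  · rintro ⟨r, K, hK, ⟨e⟩⟩
    exact hA r n K G e.toHom e.injective hK
  · intro h
    exact ⟨n, G, h, ⟨SimpleGraph.Iso.refl⟩⟩

theorem prod_st {A B P : Cls} (hA : Her A) (hB : Her B) (h : IsProd A B P)
    {V : Type} [Finite V] (G : SimpleGraph V) :
    St P G ↔ ∃ S : Set V, St A (G.induce S) ∧ St B (G.induce Sᶜ) := by
  constructor
  · rintro ⟨r, K, hK, ⟨e⟩⟩
    obtain ⟨S, h1, h2⟩ := (h r K).1 hK
    refine ⟨e ⁻¹' S, ?_, ?_⟩
    · refine st_emb hA _ _ ⟨fun v => ⟨e v.1, v.2⟩, ?_⟩ ?_ h1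
      · intro a b hab
        exact e.map_adj_iff.2 hab
      · intro a b hab
        exact Subtype.ext (e.injective (congrArg Subtype.val hab))
    · refine st_emb hB _ _ ⟨fun v => ⟨e v.1, v.2⟩, ?_⟩ ?_ h2
      · intro a b hab
        exact e.map_adj_iff.2 hab
      · intro a b hab
        exact Subtype.ext (e.injective (congrArg Subtype.val hab))
  · rintro ⟨S, h1, h2⟩
    obtain ⟨n, ⟨q⟩⟩ := Finite.exists_equiv_fin V
    refine ⟨n, G.comap q.symm, (h n _).2 ⟨q.symm ⁻¹' S, ?_, ?_⟩, ⟨⟨q, ?_⟩⟩⟩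
    · refine st_emb hA _ _ ⟨fun v => ⟨q.symm v.1, v.2⟩, ?_⟩ ?_ h1
      · intro a b hab
        exact hab
      · intro a b hab
        exact Subtype.ext (q.symm.injective (congrArg Subtype.val hab))
    · refine st_emb hB _ _ ⟨fun v => ⟨q.symm v.1, v.2⟩, ?_⟩ ?_ h2
      · intro a b hab
        exact hab
      · intro a b hab
        exact Subtype.ext (q.symm.injective (congrArg Subtype.val hab))
    · intro a b
      simp

/-- The join of two graphs. -/
def jn {V W : Type} (G : SimpleGraph V) (H : SimpleGraph W) : SimpleGraph (V ⊕ W) where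
  Adj
    | Sum.inl a, Sum.inl b => G.Adj a b
    | Sum.inr a, Sum.inr b => H.Adj a b
    | Sum.inl _, Sum.inr _ => True
    | Sum.inr _, Sum.inl _ => True
  symm := ⟨by
    rintro (a | a) (b | b) h
    · exact G.symm.symm _ _ h
    · trivial
    · trivial
    · exact H.symm.symm _ _ h⟩
  loopless := ⟨by
    rintro (a | a) h
    · exact G.loopless.irrefl _ h
    · exact H.loopless.irrefl _ h⟩

theorem jn_mem {A B P : Cls} (hA : Her A) (hB : Her B) (h : IsProd A B P)
    {V W : Type} [Finite V] [Finite W] (G : SimpleGraph V) (H : SimpleGraph W)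
    (hG : St A G) (hH : St B H) : St P (jn G H) := by
  refine (prod_st hA hB h _).2 ⟨{v | v.isLeft = true}, ?_, ?_⟩
  · refine st_emb hA G _ ⟨fun v => v.1.getLeft v.2, ?_⟩ ?_ hG
    · rintro ⟨a | a, ha⟩ ⟨b | b, hb⟩ hab
      · exact hab
      · exact absurd hb (by simp)
      · exact absurd ha (by simp)
      · exact absurd ha (by simp)
    · rintro ⟨a | a, ha⟩ ⟨b | b, hb⟩ hab
      · simp only [RelHom.coeFn_mk, Sum.getLeft_inl] at hab
        subst hab
        rfl
      · exact absurd hb (by simp)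
      · exact absurd ha (by simp)
      · exact absurd ha (by simp)
  · have hR : ∀ v : V ⊕ W, v ∈ ({v | v.isLeft = true}ᶜ : Set (V ⊕ W)) → v.isRight = true := by
      rintro (a | a) ha
      · exact absurd rfl ha
      · rfl
    refine st_emb hB H _ ⟨fun v => v.1.getRight (hR _ v.2), ?_⟩ ?_ hH
    · rintro ⟨a | a, ha⟩ ⟨b | b, hb⟩ hab
      · exact absurd rfl ha
      · exact absurd rfl ha
      · exact absurd rfl hb
      · exact hab
    · rintro ⟨a | a, ha⟩ ⟨b | b, hb⟩ hab
      · exact absurd rfl ha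
      · exact absurd rfl ha
      · exact absurd rfl hb
      · simp only [RelHom.coeFn_mk, Sum.getRight_inr] at hab
        subst hab
        rfl

/-! ### The building blocks -/

/-- The path `P₄` (`true`) and the graph `K₃ ∪ K₁` (`false`). -/
def gb : Bool → Fin 4 → Fin 4 → Bool
  | true, a, b => decide (a.val + 1 = b.val ∨ b.val + 1 = a.val)
  | false, a, b => decide (a ≠ b ∧ a ≠ 3 ∧ b ≠ 3)

theorem gb_symm : ∀ b : Bool, ∀ x y : Fin 4, gb b x y = gb b y x := by decide

theorem gb_irrefl : ∀ b : Bool, ∀ x : Fin 4, gb b x x = false := by decide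

/-- The join of the building blocks given by the word `w`. -/
def J {k : ℕ} (w : Fin k → Bool) : SimpleGraph (Fin k × Fin 4) where
  Adj u v := u.1 ≠ v.1 ∨ (u.1 = v.1 ∧ gb (w u.1) u.2 v.2 = true)
  symm := ⟨by
    rintro u v (h | ⟨h1, h2⟩)
    · exact Or.inl h.symm
    · right
      refine ⟨h1.symm, ?_⟩
      rw [gb_symm, ← h1]
      exact h2⟩
  loopless := ⟨by
    rintro u (h | ⟨_, h⟩)
    · exact h rfl
    · rw [gb_irrefl] at h
      exact absurd h (by decide)⟩

/-- The building block itself. -/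
def g (b : Bool) : SimpleGraph (Fin 4) where
  Adj x y := gb b x y = true
  symm := ⟨fun x y h => by rw [gb_symm]; exact h⟩
  loopless := ⟨fun x h => by rw [gb_irrefl] at h; exact absurd h (by decide)⟩

/-- The class of graphs contained in some `J w` with `W w`. -/
def Cl (k : ℕ) (W : (Fin k → Bool) → Prop) : Cls := fun _ G =>
  ∃ w, W w ∧ ∃ f : G →g J w, Function.Injective f

theorem her_Cl (k : ℕ) (W : (Fin k → Bool) → Prop) : Her (Cl k W) := by
  rintro a b G H f hf ⟨w, hw, q, hq⟩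
  exact ⟨w, hw, q.comp f, hq.comp hf⟩

theorem st_Cl (k : ℕ) (W : (Fin k → Bool) → Prop) {V : Type} [Finite V] (G : SimpleGraph V) :
    St (Cl k W) G ↔ ∃ w, W w ∧ ∃ f : G →g J w, Function.Injective f := by
  constructor
  · rintro ⟨r, K, ⟨w, hw, q, hq⟩, ⟨e⟩⟩
    exact ⟨w, hw, q.comp e.toHom, hq.comp e.injective⟩
  · rintro ⟨w, hw, q, hq⟩
    obtain ⟨n, ⟨e⟩⟩ := Finite.exists_equiv_fin V
    refine ⟨n, G.comap e.symm, ⟨w, hw, ⟨fun i => q (e.symm i), ?_⟩, ?_⟩, ⟨⟨e, ?_⟩⟩⟩
    · intro a b hab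
      exact q.map_adj hab
    · exact hq.comp e.symm.injective
    · intro a b
      simp

/-- The set of ordered adjacent pairs. -/
noncomputable def D {k : ℕ} (w : Fin k → Bool) : Finset ((Fin k × Fin 4) × (Fin k × Fin 4)) := by
  classical exact Finset.univ.filter (fun p => (J w).Adj p.1 p.2)

/-- An injective homomorphism between `J w` and `J w'` also reflects adjacency when the numbers of
adjacent pairs agree. -/
theorem reflects {k : ℕ} (w w' : Fin k → Bool) (hD : (D w).card = (D w').card)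
    (f : J w →g J w') (hf : Function.Injective f) (u v : Fin k × Fin 4)
    (h : (J w').Adj (f u) (f v)) : (J w).Adj u v := by
  classical
  by_contra hn
  have hsub : (D w).image (fun p => (f p.1, f p.2)) ⊂ D w' := by
    rw [Finset.ssubset_iff_of_subset]
    · refine ⟨(f u, f v), ?_, ?_⟩
      · simp only [D, Finset.mem_filter, Finset.mem_univ, true_and]
        exact h
      · intro hmem
        rw [Finset.mem_image] at hmem
        obtain ⟨p, hp, hpe⟩ := hmem
        simp only [D, Finset.mem_filter, Finset.mem_univ, true_and] at hp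
        rw [Prod.mk.injEq] at hpe
        rw [hf hpe.1, hf hpe.2] at hp
        exact hn hp
    · intro q hq
      rw [Finset.mem_image] at hq
      obtain ⟨p, hp, rfl⟩ := hq
      simp only [D, Finset.mem_filter, Finset.mem_univ, true_and] at hp ⊢
      exact f.map_adj hp
  have hlt := Finset.card_lt_card hsub
  rw [Finset.card_image_of_injective, hD] at hlt
  · exact absurd hlt (lt_irrefl _)
  · intro p q hpq
    rw [Prod.mk.injEq] at hpq
    exact Prod.ext (hf hpq.1) (hf hpq.2)

theorem coconn : ∀ b : Bool, ∀ s : Fin 4 → Bool, (∃ a, s a = true) → (∃ a, s a = false) →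
    ∃ a c, s a = true ∧ s c = false ∧ gb b a c = false := by decide

/-- Splitting of the generators. -/
theorem split (k : ℕ) (W : (Fin k → Bool) → Prop) (hD : ∀ w w' : Fin k → Bool,
      (D w).card = (D w').card) (A B : Cls) (hA : Her A) (hB : Her B) (A1 : A 1 ⊥) (B1 : B 1 ⊥)
    (hP : IsProd A B (Cl k W)) (w : Fin k → Bool) (hw : W w) :
    ∃ I : Set (Fin k), (∃ i, i ∈ I) ∧ (∃ i, i ∉ I) ∧
      St A ((J w).induce {v | v.1 ∈ I}) ∧ St B ((J w).induce {v | v.1 ∉ I}) := by
  classical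
  have hJ : St (Cl k W) (J w) :=
    (st_Cl k W _).2 ⟨w, hw, SimpleGraph.Hom.id, fun _ _ h => h⟩
  obtain ⟨S, hSA, hSB⟩ := (prod_st hA hB hP _).1 hJ
  -- the join along `S`
  obtain ⟨JS, hJS⟩ : ∃ JS : SimpleGraph (Fin k × Fin 4), ∀ u v, JS.Adj u v ↔
      ((J w).Adj u v ∨ (u ∈ S ∧ v ∉ S) ∨ (u ∉ S ∧ v ∈ S)) := by
    refine ⟨⟨fun u v => (J w).Adj u v ∨ (u ∈ S ∧ v ∉ S) ∨ (u ∉ S ∧ v ∈ S), ⟨?_⟩, ⟨?_⟩⟩,
      fun u v => Iff.rfl⟩
    · rintro u v (h | h | h)
      · exact Or.inl h.symm
      · exact Or.inr (Or.inr ⟨h.2, h.1⟩)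
      · exact Or.inr (Or.inl ⟨h.2, h.1⟩)
    · rintro u (h | h | h)
      · exact (J w).loopless.irrefl _ h
      · exact h.2 h.1
      · exact h.1 h.2
  have hJSt : St (Cl k W) JS := by
    refine (prod_st hA hB hP _).2 ⟨S, ?_, ?_⟩
    · refine st_emb hA _ _ ⟨fun v => v, ?_⟩ (fun _ _ h => h) hSA
      intro a b hab
      rcases (hJS a.1 b.1).1 hab with h | h | h
      · exact h
      · exact absurd b.2 h.2
      · exact absurd a.2 h.1
    · refine st_emb hB _ _ ⟨fun v => v, ?_⟩ (fun _ _ h => h) hSB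
      intro a b hab
      rcases (hJS a.1 b.1).1 hab with h | h | h
      · exact h
      · exact absurd h.1 a.2
      · exact absurd h.2 b.2
  obtain ⟨w', _, f, hf⟩ := (st_Cl k W _).1 hJSt
  have hadj : ∀ u ∈ S, ∀ v, v ∉ S → (J w).Adj u v := by
    intro u hu v hv
    refine reflects w w' (hD w w') ⟨fun x => f x, ?_⟩ hf u v ?_
    · intro a b hab
      exact f.map_adj ((hJS a b).2 (Or.inl hab))
    · exact f.map_adj ((hJS u v).2 (Or.inr (Or.inl ⟨hu, hv⟩)))
  have hblock : ∀ i : Fin k, (∃ a, (i, a) ∈ S) → ∀ a, (i, a) ∈ S := by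
    intro i hex a
    by_contra hna
    obtain ⟨a0, ha0⟩ := hex
    obtain ⟨c, d, hc, hd, hcd⟩ := coconn (w i) (fun a => decide ((i, a) ∈ S))
      ⟨a0, decide_eq_true ha0⟩ ⟨a, decide_eq_false hna⟩
    have hc' : (i, c) ∈ S := of_decide_eq_true hc
    have hd' : (i, d) ∉ S := of_decide_eq_false hd
    rcases hadj _ hc' _ hd' with h | ⟨_, h⟩
    · exact h rfl
    · rw [hcd] at h
      exact absurd h (by decide)
  have hcardlt : ¬ ∃ w' : Fin k → Bool, ∃ f : jn (⊥ : SimpleGraph (Fin 1)) (J w) →g J w',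
      Function.Injective f := by
    rintro ⟨w', f, hf⟩
    have := Fintype.card_le_of_injective f hf
    simp only [Fintype.card_sum, Fintype.card_fin, Fintype.card_prod] at this
    omega
  have hcardlt2 : ¬ ∃ w' : Fin k → Bool, ∃ f : jn (J w) (⊥ : SimpleGraph (Fin 1)) →g J w',
      Function.Injective f := by
    rintro ⟨w', f, hf⟩
    have := Fintype.card_le_of_injective f hf
    simp only [Fintype.card_sum, Fintype.card_fin, Fintype.card_prod] at this
    omega
  refine ⟨{i | ∃ a, (i, a) ∈ S}, ?_, ?_, ?_, ?_⟩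
  · by_contra hno
    have hall : ∀ v, v ∉ S := fun v hv => hno ⟨v.1, v.2, hv⟩
    have hB' : St B (J w) := by
      refine st_emb hB _ _ ⟨fun v => ⟨v, hall v⟩, ?_⟩ ?_ hSB
      · intro a b hab
        exact hab
      · intro a b hab
        exact congrArg Subtype.val hab
    obtain ⟨w', _, f, hf⟩ := (st_Cl k W _).1 (jn_mem hA hB hP
      (⊥ : SimpleGraph (Fin 1)) (J w) ⟨1, ⊥, A1, ⟨SimpleGraph.Iso.refl⟩⟩ hB')
    exact hcardlt ⟨w', f, hf⟩
  · by_contra hno
    push Not at hno
    have hall : ∀ v, v ∈ S := fun v => hblock v.1 (hno v.1) v.2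
    have hA' : St A (J w) := by
      refine st_emb hA _ _ ⟨fun v => ⟨v, hall v⟩, ?_⟩ ?_ hSA
      · intro a b hab
        exact hab
      · intro a b hab
        exact congrArg Subtype.val hab
    obtain ⟨w', _, f, hf⟩ := (st_Cl k W _).1 (jn_mem hA hB hP
      (J w) (⊥ : SimpleGraph (Fin 1)) hA' ⟨1, ⊥, B1, ⟨SimpleGraph.Iso.refl⟩⟩)
    exact hcardlt2 ⟨w', f, hf⟩
  · refine st_emb hA _ _ ⟨fun v => ⟨v.1, hblock v.1.1 v.2 v.1.2⟩, ?_⟩ ?_ hSA
    · intro a b hab
      exact hab
    · intro a b hab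
      have h2 := congrArg Subtype.val hab
      exact Subtype.ext h2
  · refine st_emb hB _ _ ⟨fun v => ⟨v.1, fun hv => v.2 ⟨v.1.2, hv⟩⟩, ?_⟩ ?_ hSB
    · intro a b hab
      exact hab
    · intro a b hab
      have h2 := congrArg Subtype.val hab
      exact Subtype.ext h2

/-! ### The two classes -/

/-- Boolean version of the adjacency of `J w`. -/
def jb {k : ℕ} (w : Fin k → Bool) (u v : Fin k × Fin 4) : Bool :=
  bif decide (u.1 = v.1) then gb (w u.1) u.2 v.2 else true

theorem jb_iff {k : ℕ} (w : Fin k → Bool) (u v : Fin k × Fin 4) :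
    jb w u v = true ↔ (J w).Adj u v := by
  unfold jb J
  by_cases h : u.1 = v.1
  · simp [h]
  · simp [h]

theorem D_card {k : ℕ} (w : Fin k → Bool) : (D w).card =
    ((Finset.univ : Finset ((Fin k × Fin 4) × (Fin k × Fin 4))).filter
      (fun p => jb w p.1 p.2 = true)).card := by
  classical
  unfold D
  congr 1
  ext p
  simp only [Finset.mem_filter, Finset.mem_univ, true_and]
  exact (jb_iff w p.1 p.2).symm

theorem D1 : ∀ w : Fin 1 → Bool, ((Finset.univ : Finset ((Fin 1 × Fin 4) × (Fin 1 × Fin 4))).filter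
      (fun p => jb w p.1 p.2 = true)).card = 6 := by decide +kernel

theorem D3 : ∀ w : Fin 3 → Bool, ((Finset.univ : Finset ((Fin 3 × Fin 4) × (Fin 3 × Fin 4))).filter
      (fun p => jb w p.1 p.2 = true)).card = 114 := by decide +kernel

/-- The words with a number of `true` entries different from two. -/
def okw (w : Fin 3 → Bool) : Bool :=
  !(decide (((w 0).toNat + (w 1).toNat + (w 2).toNat) = 2))

/-- Number of paths of length two. -/
def N3c (w : Fin 3 → Bool) : ℕ :=
  ((Finset.univ : Finset ((Fin 3 × Fin 4) × (Fin 3 × Fin 4) × (Fin 3 × Fin 4))).filter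
      (fun p => (jb w p.1 p.2.1 && jb w p.1 p.2.2) = true)).card

theorem N3 : ∀ w : Fin 3 → Bool,
    N3c w + 2 * ((w 0).toNat + (w 1).toNat + (w 2).toNat) = 1092 := by decide +kernel

theorem N3a : N3c ![true, true, false] = 1088 := by decide +kernel

theorem N3_congr (w w' : Fin 3 → Bool) (f : Fin 3 × Fin 4 → Fin 3 × Fin 4)
    (hf : Function.Bijective f) (hjb : ∀ u v, jb w u v = jb w' (f u) (f v)) :
    N3c w = N3c w' := by
  unfold N3c
  refine Finset.card_bij (fun p _ => (f p.1, f p.2.1, f p.2.2)) ?_ ?_ ?_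
  · intro p hp
    rw [Finset.mem_filter] at hp ⊢
    refine ⟨Finset.mem_univ _, ?_⟩
    simp only
    rw [← hjb, ← hjb]
    exact hp.2
  · intro p _ q _ hpq
    have e1 : f p.1 = f q.1 := congrArg Prod.fst hpq
    have e2 : f p.2.1 = f q.2.1 := congrArg (fun z => z.2.1) hpq
    have e3 : f p.2.2 = f q.2.2 := congrArg (fun z => z.2.2) hpq
    exact Prod.ext (hf.1 e1) (Prod.ext (hf.1 e2) (hf.1 e3))
  · intro q hq
    obtain ⟨a, ha⟩ := hf.2 q.1
    obtain ⟨b, hb⟩ := hf.2 q.2.1
    obtain ⟨c, hc⟩ := hf.2 q.2.2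
    refine ⟨(a, b, c), ?_, ?_⟩
    · rw [Finset.mem_filter] at hq ⊢
      refine ⟨Finset.mem_univ _, ?_⟩
      simp only
      rw [hjb, hjb, ha, hb, hc]
      exact hq.2
    · simp only [ha, hb, hc]

/-- The class of subgraphs of `P₄` and of `K₃ ∪ K₁`. -/
def PP : Cls := Cl 1 (fun _ => True)

/-- The class of subgraphs of the joins of three building blocks, with not exactly two `P₄`. -/
def RR : Cls := Cl 3 (fun w => okw w = true)

theorem PP_irred (A B : Cls) (hA : Her A) (hB : Her B) (A1 : A 1 ⊥) (B1 : B 1 ⊥)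
    (hP : IsProd A B PP) : False := by
  obtain ⟨I, ⟨i, hi⟩, ⟨j, hj⟩, _⟩ := split 1 (fun _ => True)
    (fun w w' => by rw [D_card, D_card, D1, D1]) A B hA hB A1 B1 hP (fun _ => true) trivial
  exact hj (Subsingleton.elim i j ▸ hi)

/-- A homomorphism from the join of a double block and a block. -/
theorem word_hom (h : ∃ w : Fin 3 → Bool, okw w = true ∧
    ∃ f : J (![true, true, false]) →g J w, Function.Injective f) : False := by
  classical
  obtain ⟨w, hw, f, hf⟩ := h
  have hD : (D (![true, true, false])).card = (D w).card := by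
    rw [D_card, D_card, D3, D3]
  have hrefl := reflects _ w hD f hf
  have hbij : Function.Bijective f := Finite.injective_iff_bijective.1 hf
  have hjb : ∀ u v, jb ![true, true, false] u v = jb w (f u) (f v) := by
    intro u v
    rw [Bool.eq_iff_iff, jb_iff, jb_iff]
    exact ⟨fun h => f.map_adj h, fun h => hrefl u v h⟩
  have h1 := N3a
  have h2 := N3 w
  rw [N3_congr _ w f hbij hjb] at h1
  have h5 : ((w 0).toNat + (w 1).toNat + (w 2).toNat) = 2 := by omega
  unfold okw at hw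
  rw [h5] at hw
  exact absurd hw (by decide)

/-- The embedding of a multiple block into the part indexed by `I`. -/
theorem block_emb {A : Cls} (hA : Her A) (b : Bool) (I : Fin 3 → Prop) (m : ℕ) (q : Fin m → Fin 3)
    (hq : Function.Injective q) (hI : ∀ i, I (q i))
    (h : St A ((J (fun _ : Fin 3 => b)).induce {v | I v.1})) :
    St A (J (fun _ : Fin m => b)) := by
  refine st_emb hA _ _ ⟨fun v => ⟨(q v.1, v.2), hI v.1⟩, ?_⟩ ?_ h
  · rintro ⟨i, a⟩ ⟨j, c⟩ (h | ⟨h1, h2⟩)
    · exact Or.inl (fun h' => h (hq h'))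
    · exact Or.inr ⟨congrArg q h1, h2⟩
  · rintro ⟨i, a⟩ ⟨j, c⟩ hab
    have h2 := congrArg Subtype.val hab
    have h3 := Prod.mk.inj h2
    exact Prod.ext (hq h3.1) h3.2

theorem pigeon (I : Fin 3 → Prop) : (∃ i j, i ≠ j ∧ I i ∧ I j) ∨
    (∃ i j, i ≠ j ∧ ¬ I i ∧ ¬ I j) := by
  by_cases h0 : I 0 <;> by_cases h1 : I 1 <;> by_cases h2 : I 2
  all_goals first
    | exact Or.inl ⟨0, 1, by decide, h0, h1⟩
    | exact Or.inl ⟨0, 2, by decide, h0, h2⟩
    | exact Or.inl ⟨1, 2, by decide, h1, h2⟩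
    | exact Or.inr ⟨0, 1, by decide, h0, h1⟩
    | exact Or.inr ⟨0, 2, by decide, h0, h2⟩
    | exact Or.inr ⟨1, 2, by decide, h1, h2⟩

theorem two_inj (i j : Fin 3) (h : i ≠ j) : Function.Injective (![i, j] : Fin 2 → Fin 3) := by
  intro a b hab
  fin_cases a <;> fin_cases b
  · rfl
  · exact absurd hab h
  · exact absurd hab.symm h
  · rfl

/-- Consequences of the splitting of `3·b`. -/
theorem split3 (A B : Cls) (hA : Her A) (hB : Her B) (A1 : A 1 ⊥) (B1 : B 1 ⊥)
    (hP : IsProd A B RR) (b : Bool) (hb : okw (fun _ => b) = true) :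
    St A (J (fun _ : Fin 1 => b)) ∧ St B (J (fun _ : Fin 1 => b)) ∧
    (St A (J (fun _ : Fin 2 => b)) ∨ St B (J (fun _ : Fin 2 => b))) := by
  obtain ⟨I, ⟨i, hi⟩, ⟨j, hj⟩, h1, h2⟩ := split 3 (fun w => okw w = true)
    (fun w w' => by rw [D_card, D_card, D3, D3]) A B hA hB A1 B1 hP (fun _ => b) hb
  refine ⟨?_, ?_, ?_⟩
  · exact block_emb hA b (fun i => i ∈ I) 1 (fun _ => i) (fun _ _ _ => Subsingleton.elim _ _)
      (fun _ => hi) h1
  · exact block_emb hB b (fun i => i ∉ I) 1 (fun _ => j) (fun _ _ _ => Subsingleton.elim _ _)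
      (fun _ => hj) h2
  · rcases pigeon (fun i => i ∈ I) with ⟨a, c, hac, ha, hc⟩ | ⟨a, c, hac, ha, hc⟩
    · left
      refine block_emb hA b (fun i => i ∈ I) 2 ![a, c] (two_inj a c hac) ?_ h1
      intro i
      fin_cases i
      · exact ha
      · exact hc
    · right
      refine block_emb hB b (fun i => i ∉ I) 2 ![a, c] (two_inj a c hac) ?_ h2
      intro i
      fin_cases i
      · exact ha
      · exact hc

/-- The position of a block of the word `true, true, false`. -/
def pos (v : Fin 3 × Fin 4) : (Fin 2 × Fin 4) ⊕ (Fin 1 × Fin 4) :=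
  if v.1 = 0 then Sum.inl (0, v.2) else if v.1 = 1 then Sum.inl (1, v.2) else Sum.inr (0, v.2)

/-- The position with the two summands exchanged. -/
def pos' (v : Fin 3 × Fin 4) : (Fin 1 × Fin 4) ⊕ (Fin 2 × Fin 4) :=
  if v.1 = 0 then Sum.inr (0, v.2) else if v.1 = 1 then Sum.inr (1, v.2) else Sum.inl (0, v.2)

theorem pos_inj : ∀ u v, pos u = pos v → u = v := by decide +kernel

theorem pos'_inj : ∀ u v, pos' u = pos' v → u = v := by decide +kernel

theorem pos_adj (u v : Fin 3 × Fin 4) (h : (J ![true, true, false]).Adj u v) :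
    (jn (J (fun _ : Fin 2 => true)) (J (fun _ : Fin 1 => false))).Adj (pos u) (pos v) := by
  obtain ⟨i, a⟩ := u
  obtain ⟨j, c⟩ := v
  rcases h with h | ⟨h1, h2⟩
  · fin_cases i <;> fin_cases j <;> first
      | exact absurd rfl h
      | trivial
      | exact Or.inl (fun h' => absurd (show (0 : Fin 2) = 1 from h') (by decide))
      | exact Or.inl (fun h' => absurd (show (1 : Fin 2) = 0 from h') (by decide))
  · simp only at h1 h2
    subst h1
    fin_cases i
    · exact Or.inr ⟨rfl, h2⟩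
    · exact Or.inr ⟨rfl, h2⟩
    · exact Or.inr ⟨rfl, h2⟩

theorem pos'_adj (u v : Fin 3 × Fin 4) (h : (J ![true, true, false]).Adj u v) :
    (jn (J (fun _ : Fin 1 => false)) (J (fun _ : Fin 2 => true))).Adj (pos' u) (pos' v) := by
  obtain ⟨i, a⟩ := u
  obtain ⟨j, c⟩ := v
  rcases h with h | ⟨h1, h2⟩
  · fin_cases i <;> fin_cases j <;> first
      | exact absurd rfl h
      | trivial
      | exact Or.inl (fun h' => absurd (show (0 : Fin 2) = 1 from h') (by decide))
      | exact Or.inl (fun h' => absurd (show (1 : Fin 2) = 0 from h') (by decide))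
  · simp only at h1 h2
    subst h1
    fin_cases i
    · exact Or.inr ⟨rfl, h2⟩
    · exact Or.inr ⟨rfl, h2⟩
    · exact Or.inr ⟨rfl, h2⟩

theorem RR_irred (A B : Cls) (hA : Her A) (hB : Her B) (A1 : A 1 ⊥) (B1 : B 1 ⊥)
    (hP : IsProd A B RR) : False := by
  obtain ⟨_, _, h2⟩ := split3 A B hA hB A1 B1 hP true (by decide)
  obtain ⟨h3, h4, _⟩ := split3 A B hA hB A1 B1 hP false (by decide)
  apply word_hom
  rcases h2 with h2 | h2
  · obtain ⟨w, hw, f, hf⟩ := (st_Cl 3 _ _).1 (jn_mem hA hB hP _ _ h2 h4)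
    exact ⟨w, hw, f.comp ⟨pos, fun {u v} h => pos_adj u v h⟩,
      hf.comp (fun u v h => pos_inj u v h)⟩
  · obtain ⟨w, hw, f, hf⟩ := (st_Cl 3 _ _).1 (jn_mem hA hB hP _ _ h3 h2)
    exact ⟨w, hw, f.comp ⟨pos', fun {u v} h => pos'_adj u v h⟩,
      hf.comp (fun u v h => pos'_inj u v h)⟩

theorem PP_one : PP 1 ⊥ := by
  refine ⟨fun _ => true, trivial, ⟨fun _ => (0, 0), ?_⟩, fun _ _ _ => Subsingleton.elim _ _⟩
  intro a b h
  exact absurd h (by simp)

theorem RR_one : RR 1 ⊥ := by
  refine ⟨fun _ => true, by decide, ⟨fun _ => (0, 0), ?_⟩, fun _ _ _ => Subsingleton.elim _ _⟩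
  intro a b h
  exact absurd h (by simp)

/-! ### The two products agree -/

theorem choose_word : ∀ b : Fin 4 → Bool, ∃ j : Fin 4,
    okw (fun i : Fin 3 => b (j.succAbove i)) = true := by decide +kernel

theorem prod_eq (n : ℕ) (G : SimpleGraph (Fin n)) :
    (∃ c : Fin n → Fin 2, ∀ i : Fin 2, St ((![PP, RR] : Fin 2 → Cls) i)
      (G.induce {v | c v = i})) ↔
    (∃ c : Fin n → Fin 4, ∀ _j : Fin 4, St PP (G.induce {v | c v = _j})) := by
  classical
  constructor
  · rintro ⟨c, hc⟩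
    obtain ⟨w0, _, f0, hf0⟩ := (st_Cl 1 _ _).1 (hc 0)
    obtain ⟨w1, _, f1, hf1⟩ := (st_Cl 3 _ _).1 (hc 1)
    have h1 : ∀ v : Fin n, c v ≠ 0 → c v = 1 := by
      intro v hv
      have := (c v).2
      apply Fin.ext
      have h0 : (c v).val ≠ 0 := fun h => hv (Fin.ext h)
      show (c v).val = 1
      omega
    refine ⟨fun v => if h : c v = 0 then 0 else (f1 ⟨v, h1 v h⟩).1.succ, ?_⟩
    intro j
    refine Fin.cases ?_ (fun i => ?_) j
    · have hm : ∀ v : {v : Fin n // v ∈ {v | (if h : c v = 0 then (0 : Fin 4) else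
          (f1 ⟨v, h1 v h⟩).1.succ) = 0}}, c v.1 = 0 := by
        rintro ⟨v, h⟩
        by_contra hne
        rw [Set.mem_ofPred_eq, dif_neg hne] at h
        exact absurd h (Fin.succ_ne_zero _)
      refine st_emb (her_Cl 1 _) _ _ ⟨fun v => ⟨v.1, hm v⟩, ?_⟩ ?_ (hc 0)
      · intro a b hab
        exact hab
      · intro a b hab
        have h2 := congrArg Subtype.val hab
        exact Subtype.ext h2
    · have h2 : ∀ v : {v : Fin n // v ∈ {v | (if h : c v = 0 then (0 : Fin 4) else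
          (f1 ⟨v, h1 v h⟩).1.succ) = i.succ}}, ∃ h : c v.1 ≠ 0, (f1 ⟨v.1, h1 v.1 h⟩).1 = i := by
        rintro ⟨v, hv⟩
        rw [Set.mem_ofPred_eq] at hv
        by_cases h : c v = 0
        · rw [dif_pos h] at hv
          exact absurd hv.symm (Fin.succ_ne_zero _)
        · rw [dif_neg h] at hv
          exact ⟨h, Fin.succ_injective _ hv⟩
      choose h3 h4 using h2
      refine (st_Cl 1 _ _).2 ⟨fun _ => w1 i, trivial,
        ⟨fun v => (0, (f1 ⟨v.1, h1 v.1 (h3 v)⟩).2), ?_⟩, ?_⟩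
      · intro a b hab
        have h5 : (J w1).Adj (f1 ⟨a.1, h1 a.1 (h3 a)⟩) (f1 ⟨b.1, h1 b.1 (h3 b)⟩) :=
          f1.map_adj hab
        rcases h5 with h5 | ⟨h5, h6⟩
        · exact absurd ((h4 a).trans (h4 b).symm) h5
        · right
          refine ⟨rfl, ?_⟩
          rw [h4 a] at h6
          exact h6
      · intro a b hab
        have h5 := (Prod.mk.inj hab).2
        have h6 := hf1 (Prod.ext ((h4 a).trans (h4 b).symm) h5)
        have h7 := congrArg Subtype.val h6
        exact Subtype.ext h7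
  · rintro ⟨c, hc⟩
    have h1 : ∀ j : Fin 4, ∃ b : Bool, ∃ f : G.induce {v | c v = j} →g J (fun _ : Fin 1 => b),
        Function.Injective f := by
      intro j
      obtain ⟨w, _, f, hf⟩ := (st_Cl 1 _ _).1 (hc j)
      have hw : w = fun _ => w 0 := by
        funext i
        rw [Subsingleton.elim i 0]
      refine ⟨w 0, ?_⟩
      rw [← hw]
      exact ⟨f, hf⟩
    choose b f hf using h1
    obtain ⟨j0, hj0⟩ := choose_word b
    refine ⟨fun v => if c v = j0 then 0 else 1, ?_⟩
    intro i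
    refine Fin.cases ?_ (fun i => ?_) i
    · have hm : ∀ v : {v : Fin n // v ∈ {v | (if c v = j0 then (0 : Fin 2) else 1) = 0}},
          c v.1 = j0 := by
        rintro ⟨v, h⟩
        by_contra hne
        rw [Set.mem_ofPred_eq, if_neg hne] at h
        exact absurd h (by decide)
      refine st_emb (her_Cl 1 _) _ _ ⟨fun v => ⟨v.1, hm v⟩, ?_⟩ ?_ (hc j0)
      · intro a b hab
        exact hab
      · intro a b hab
        have h2 := congrArg Subtype.val hab
        exact Subtype.ext h2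
    · have hi : i = 0 := Subsingleton.elim _ _
      subst hi
      have h2 : ∀ v : {v : Fin n // v ∈ {v | (if c v = j0 then (0 : Fin 2) else 1) =
          (0 : Fin 1).succ}}, ∃ q : Fin 3, j0.succAbove q = c v.1 := by
        rintro ⟨v, hv⟩
        rw [Set.mem_ofPred_eq] at hv
        apply Fin.exists_succAbove_eq
        intro h
        rw [if_pos h] at hv
        exact absurd hv (by decide)
      choose q hq using h2
      obtain ⟨F, hF⟩ : ∃ F : Fin n → Fin 1 × Fin 4, ∀ j v (h : c v = j), f j ⟨v, h⟩ = F v := by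
        refine ⟨fun v => f (c v) ⟨v, rfl⟩, ?_⟩
        intro j v h
        subst h
        rfl
      refine (st_Cl 3 _ _).2 ⟨_, hj0, ⟨fun v => (q v, (F v.1).2), ?_⟩, ?_⟩
      · intro u v huv
        by_cases h : q u = q v
        · right
          refine ⟨h, ?_⟩
          have hcc : c u.1 = c v.1 := by rw [← hq u, ← hq v, h]
          have h5 : (J (fun _ : Fin 1 => b (c u.1))).Adj (f (c u.1) ⟨u.1, rfl⟩)
              (f (c u.1) ⟨v.1, hcc.symm⟩) := (f (c u.1)).map_adj huv
          rw [hF, hF] at h5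
          rcases h5 with h5 | ⟨_, h5⟩
          · exact absurd (Subsingleton.elim _ _) h5
          · show gb (b (j0.succAbove (q u))) (F u.1).2 (F v.1).2 = true
            rw [hq u]
            exact h5
        · exact Or.inl h
      · intro u v huv
        have e1 : q u = q v := (Prod.mk.inj huv).1
        have e2 : (F u.1).2 = (F v.1).2 := (Prod.mk.inj huv).2
        have hcc : c u.1 = c v.1 := by rw [← hq u, ← hq v, e1]
        have e3 : f (c v.1) ⟨u.1, hcc⟩ = f (c v.1) ⟨v.1, rfl⟩ := by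
          rw [hF, hF]
          exact Prod.ext (Subsingleton.elim _ _) e2
        have e4 := congrArg Subtype.val (hf _ e3)
        exact Subtype.ext e4

/-- The negation of the preceding statement: Among subgraph-closed classes of finite graphs, with product = vertex partition into parts in the factors, any two factorizations of a class into irreducible factors (contain K1, not a product of two such classes) agree up to reordering. -/
theorem result :
    ¬ (∀ (m k : ℕ) (Ps : Fin m → (n : ℕ) → SimpleGraph (Fin n) → Prop)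
      (Qs : Fin k → (n : ℕ) → SimpleGraph (Fin n) → Prop),
      (∀ i : Fin m,
        (∀ (a b : ℕ) (G : SimpleGraph (Fin a)) (H : SimpleGraph (Fin b)) (f : H →g G),
          Function.Injective f → Ps i a G → Ps i b H) ∧
        Ps i 1 ⊥ ∧
        ∀ A B : (n : ℕ) → SimpleGraph (Fin n) → Prop,
          (∀ (a b : ℕ) (G : SimpleGraph (Fin a)) (H : SimpleGraph (Fin b)) (f : H →g G),
            Function.Injective f → A a G → A b H) →
          (∀ (a b : ℕ) (G : SimpleGraph (Fin a)) (H : SimpleGraph (Fin b)) (f : H →g G),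
            Function.Injective f → B a G → B b H) →
          A 1 ⊥ → B 1 ⊥ →
          ¬ ∀ (n : ℕ) (G : SimpleGraph (Fin n)),
            (Ps i n G ↔ ∃ S : Set (Fin n),
              (∃ (r : ℕ) (K : SimpleGraph (Fin r)), A r K ∧ Nonempty (G.induce S ≃g K)) ∧
              (∃ (r : ℕ) (K : SimpleGraph (Fin r)), B r K ∧ Nonempty (G.induce Sᶜ ≃g K)))) →
      (∀ j : Fin k,
        (∀ (a b : ℕ) (G : SimpleGraph (Fin a)) (H : SimpleGraph (Fin b)) (f : H →g G),
          Function.Injective f → Qs j a G → Qs j b H) ∧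
        Qs j 1 ⊥ ∧
        ∀ A B : (n : ℕ) → SimpleGraph (Fin n) → Prop,
          (∀ (a b : ℕ) (G : SimpleGraph (Fin a)) (H : SimpleGraph (Fin b)) (f : H →g G),
            Function.Injective f → A a G → A b H) →
          (∀ (a b : ℕ) (G : SimpleGraph (Fin a)) (H : SimpleGraph (Fin b)) (f : H →g G),
            Function.Injective f → B a G → B b H) →
          A 1 ⊥ → B 1 ⊥ →
          ¬ ∀ (n : ℕ) (G : SimpleGraph (Fin n)),
            (Qs j n G ↔ ∃ S : Set (Fin n),
              (∃ (r : ℕ) (K : SimpleGraph (Fin r)), A r K ∧ Nonempty (G.induce S ≃g K)) ∧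
              (∃ (r : ℕ) (K : SimpleGraph (Fin r)), B r K ∧ Nonempty (G.induce Sᶜ ≃g K)))) →
      (∀ (n : ℕ) (G : SimpleGraph (Fin n)),
        (∃ c : Fin n → Fin m, ∀ i : Fin m, ∃ (r : ℕ) (K : SimpleGraph (Fin r)),
            Ps i r K ∧ Nonempty (G.induce {v | c v = i} ≃g K)) ↔
        (∃ c : Fin n → Fin k, ∀ j : Fin k, ∃ (r : ℕ) (K : SimpleGraph (Fin r)),
            Qs j r K ∧ Nonempty (G.induce {v | c v = j} ≃g K))) →
      ∃ σ : Fin m ≃ Fin k, ∀ (i : Fin m) (n : ℕ) (G : SimpleGraph (Fin n)),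
        (Ps i n G ↔ Qs (σ i) n G)) := by
  intro h
  have hI : ∀ i : Fin 2, (∀ (a b : ℕ) (G : SimpleGraph (Fin a)) (H : SimpleGraph (Fin b))
      (f : H →g G), Function.Injective f → (![PP, RR] : Fin 2 → Cls) i a G →
        (![PP, RR] : Fin 2 → Cls) i b H) ∧ (![PP, RR] : Fin 2 → Cls) i 1 ⊥ ∧
      ∀ A B : Cls, Her A → Her B → A 1 ⊥ → B 1 ⊥ →
        ¬ IsProd A B ((![PP, RR] : Fin 2 → Cls) i) := by
    intro i
    refine Fin.cases ?_ (fun j => ?_) i
    · exact ⟨her_Cl 1 _, PP_one, fun A B hA hB A1 B1 hP => PP_irred A B hA hB A1 B1 hP⟩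
    · rw [Subsingleton.elim j 0]
      exact ⟨her_Cl 3 _, RR_one, fun A B hA hB A1 B1 hP => RR_irred A B hA hB A1 B1 hP⟩
  have hJ : ∀ _j : Fin 4, Her PP ∧ PP 1 ⊥ ∧
      ∀ A B : Cls, Her A → Her B → A 1 ⊥ → B 1 ⊥ → ¬ IsProd A B PP := fun _ =>
    ⟨her_Cl 1 _, PP_one, fun A B hA hB A1 B1 hP => PP_irred A B hA hB A1 B1 hP⟩
  obtain ⟨σ, _⟩ := h 2 4 ![PP, RR] (fun _ => PP) hI hJ (fun n G => prod_eq n G)
  have hc := Fintype.card_congr σ
  rw [Fintype.card_fin, Fintype.card_fin] at hc
  omega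

end Pool.Agent.S2736
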