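import Pool.Statements.S2738
-- import your own Pool.Agent.* helpers here

set_option autoImplicit false
open Pool Pool.MP_d26300_co

namespace Pool.Agent.S2738


open Matrix

/-! ### The tree `T`: a star with a pendant vertex attached to each of its six vertices -/

/-- The parent function of `T`. -/
def parT (v : Fin 12) : Fin 12 := if v.val < 6 then 0 else ⟨v.val - 6, by omega⟩

/-- Adjacency in `T`. -/
def adjT (u v : Fin 12) : Bool :=
  (decide (parT v = u) && decide (v ≠ 0)) || (decide (parT u = v) && decide (u ≠ 0))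

theorem adjT_symm : ∀ u v, adjT u v = adjT v u := by decide +kernel

theorem adjT_irrefl : ∀ u, adjT u u = false := by decide +kernel

/-- The tree `T`. -/
def TT : SimpleGraph (Fin 12) where
  Adj u v := adjT u v = true
  symm := ⟨fun u v h => by rw [adjT_symm]; exact h⟩
  loopless := ⟨fun u h => by rw [adjT_irrefl] at h; exact absurd h (by decide)⟩

instance decTT : DecidableRel TT.Adj := fun u v => inferInstanceAs (Decidable (adjT u v = true))

/-! ### The tree `S`: a spider with legs of lengths 5, 3, 3 and centre `5` -/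

/-- The parent function of `S`. -/
def parS (v : Fin 12) : Fin 12 := if v.val = 9 then 5 else ⟨v.val - 1, by omega⟩

/-- Adjacency in `S`. -/
def adjS (u v : Fin 12) : Bool :=
  (decide (parS v = u) && decide (v ≠ 0)) || (decide (parS u = v) && decide (u ≠ 0))

theorem adjS_symm : ∀ u v, adjS u v = adjS v u := by decide +kernel

theorem adjS_irrefl : ∀ u, adjS u u = false := by decide +kernel

/-- The tree `S`. -/
def SS : SimpleGraph (Fin 12) where
  Adj u v := adjS u v = true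
  symm := ⟨fun u v h => by rw [adjS_symm]; exact h⟩
  loopless := ⟨fun u h => by rw [adjS_irrefl] at h; exact absurd h (by decide)⟩

instance decSS : DecidableRel SS.Adj := fun u v => inferInstanceAs (Decidable (adjS u v = true))

/-! ### Both are trees -/

theorem conn_of_par (G : SimpleGraph (Fin 12)) (par : Fin 12 → Fin 12)
    (h : ∀ v, v ≠ 0 → G.Adj (par v) v ∧ par v < v) : G.Connected := by
  have h1 : ∀ n : ℕ, ∀ v : Fin 12, v.val < n → G.Reachable 0 v := by
    intro n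
    induction n with
    | zero => intro v hv; omega
    | succ n ih =>
      intro v hv
      by_cases h0 : v = 0
      · rw [h0]
      · obtain ⟨ha, hlt⟩ := h v h0
        have h2 : (par v).val < v.val := hlt
        exact (ih (par v) (by omega)).trans ha.reachable
  refine ⟨fun u v => (h1 12 u u.2).symm.trans (h1 12 v v.2)⟩

theorem TT_tree : TT.IsTree := by
  classical
  rw [SimpleGraph.isTree_iff_connected_and_card]
  refine ⟨conn_of_par TT parT (by decide +kernel), ?_⟩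
  rw [Nat.card_eq_fintype_card, Nat.card_eq_fintype_card, Fintype.card_fin,
    ← SimpleGraph.edgeFinset_card]
  have : TT.edgeFinset.card = 11 := by
    decide +kernel
  convert congrArg (· + 1) this

theorem SS_tree : SS.IsTree := by
  classical
  rw [SimpleGraph.isTree_iff_connected_and_card]
  refine ⟨conn_of_par SS parS (by decide +kernel), ?_⟩
  rw [Nat.card_eq_fintype_card, Nat.card_eq_fintype_card, Fintype.card_fin,
    ← SimpleGraph.edgeFinset_card]
  have : SS.edgeFinset.card = 11 := by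
    decide +kernel
  convert congrArg (· + 1) this

/-! ### The characteristic polynomial of `T` -/

theorem det_block {m n : Type} [Fintype m] [Fintype n] [DecidableEq m] [DecidableEq n]
    (A : Matrix m m ℝ) (B : Matrix m n ℝ) (C : Matrix n m ℝ) (x : ℝ) (hx : x ≠ 0) :
    (fromBlocks A B C (x • (1 : Matrix n n ℝ))).det =
      x ^ Fintype.card n * (A - x⁻¹ • (B * C)).det := by
  have hu : (x • (1 : Matrix n n ℝ)) * (x⁻¹ • (1 : Matrix n n ℝ)) = 1 := by
    rw [Matrix.smul_mul, Matrix.mul_smul, Matrix.one_mul, smul_smul, mul_inv_cancel₀ hx, one_smul]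
  have hu2 : (x⁻¹ • (1 : Matrix n n ℝ)) * (x • (1 : Matrix n n ℝ)) = 1 := by
    rw [Matrix.smul_mul, Matrix.mul_smul, Matrix.one_mul, smul_smul, inv_mul_cancel₀ hx, one_smul]
  let _ : Invertible (x • (1 : Matrix n n ℝ)) := ⟨x⁻¹ • 1, hu2, hu⟩
  rw [det_fromBlocks₂₂]
  have : ⅟(x • (1 : Matrix n n ℝ)) = x⁻¹ • 1 := rfl
  rw [this, Matrix.mul_smul, Matrix.mul_one, Matrix.smul_mul, det_smul, det_one, mul_one]

/-- The index type. -/
abbrev Ix := (Fin 1 ⊕ Fin 5) ⊕ (Fin 1 ⊕ Fin 5)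

/-- Adjacency of the star. -/
noncomputable def star : Matrix (Fin 1 ⊕ Fin 5) (Fin 1 ⊕ Fin 5) ℝ :=
  fromBlocks 0 (Matrix.of fun _ _ => 1) (Matrix.of fun _ _ => 1) 0

/-- The enumeration of the vertices. -/
def eIx : Ix ≃ Fin 12 :=
  (Equiv.sumCongr finSumFinEquiv finSumFinEquiv).trans (finSumFinEquiv (m := 6) (n := 6))

/-- Adjacency in coordinates. -/
def adjI : Ix → Ix → Bool
  | Sum.inl (Sum.inl _), Sum.inl (Sum.inr _) => true
  | Sum.inl (Sum.inr _), Sum.inl (Sum.inl _) => true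
  | Sum.inl a, Sum.inr b => decide (a = b)
  | Sum.inr a, Sum.inl b => decide (a = b)
  | _, _ => false

theorem adjI_eq : ∀ a b : Ix, adjI a b = adjT (eIx a) (eIx b) := by decide +kernel

theorem adjMatrix_T : TT.adjMatrix ℝ = reindex eIx eIx (fromBlocks star 1 1 0) := by
  ext u v
  obtain ⟨a, rfl⟩ := eIx.surjective u
  obtain ⟨b, rfl⟩ := eIx.surjective v
  rw [SimpleGraph.adjMatrix_apply, reindex_apply, submatrix_apply, Equiv.symm_apply_apply,
    Equiv.symm_apply_apply]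
  have h : TT.Adj (eIx a) (eIx b) ↔ adjI a b = true := by
    rw [adjI_eq]
    exact Iff.rfl
  simp only [h]
  rcases a with (a | a) | (a | a) <;> rcases b with (b | b) | (b | b) <;>
    simp [adjI, star, Matrix.one_apply]

theorem eval_T (x : ℝ) (hx : x ≠ 0) (hx1 : x - x⁻¹ ≠ 0) :
    (TT.adjMatrix ℝ).charpoly.eval x =
      x ^ 6 * ((x - x⁻¹) ^ 5 * ((x - x⁻¹) - (x - x⁻¹)⁻¹ * 5)) := by
  rw [adjMatrix_T, charpoly_reindex, eval_charpoly]
  have h1 : (scalar Ix x - fromBlocks star 1 1 0 : Matrix Ix Ix ℝ) =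
      fromBlocks (x • 1 - star) (-1) (-1) (x • 1) := by
    ext a b
    rcases a with a | a <;> rcases b with b | b <;>
      simp [diagonal_apply, Matrix.one_apply]
  rw [h1, det_block _ _ _ x hx]
  have h2 : (x • 1 - star - x⁻¹ • ((-1 : Matrix (Fin 1 ⊕ Fin 5) (Fin 1 ⊕ Fin 5) ℝ) * (-1))) =
      fromBlocks ((x - x⁻¹) • (1 : Matrix (Fin 1) (Fin 1) ℝ)) (Matrix.of fun _ _ => -1)
        (Matrix.of fun _ _ => -1) ((x - x⁻¹) • (1 : Matrix (Fin 5) (Fin 5) ℝ)) := by
    ext a b
    rcases a with a | a <;> rcases b with b | b <;>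
      simp [star, Matrix.one_apply]
    all_goals (split_ifs <;> ring)
  rw [h2, det_block _ _ _ _ hx1, det_fin_one]
  have h3 : Fintype.card (Fin 1 ⊕ Fin 5) = 6 := by simp
  rw [h3, Fintype.card_fin]
  congr 2
  simp [Matrix.mul_apply]

open Polynomial in
theorem charpoly_T : (TT.adjMatrix ℝ).charpoly =
    ((X : ℝ[X]) ^ 2 - 1) ^ 4 * ((X ^ 2 - 1) ^ 2 - 5 * X ^ 2) := by
  apply Polynomial.eq_of_infinite_eval_eq
  apply Set.Infinite.mono _ (Set.Ioi_infinite (1 : ℝ))
  intro x hx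
  have hx1 : 1 < x := hx
  have hx0 : x ≠ 0 := by linarith
  have hinv : x⁻¹ < 1 := inv_lt_one_of_one_lt₀ hx1
  have ht : x - x⁻¹ ≠ 0 := by linarith
  show (TT.adjMatrix ℝ).charpoly.eval x = _
  rw [eval_T x hx0 ht]
  obtain ⟨t, htt⟩ : ∃ t, t = x - x⁻¹ := ⟨_, rfl⟩
  rw [← htt] at ht ⊢
  have hxt : x * t = x ^ 2 - 1 := by
    rw [htt, mul_sub, mul_inv_cancel₀ hx0]
    ring
  have h1 : t ^ 5 * (t - t⁻¹ * 5) = t ^ 6 - 5 * t ^ 4 := by
    field_simp
  rw [h1]
  simp only [eval_mul, eval_pow, eval_sub, eval_X, eval_one, eval_ofNat]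
  rw [← hxt]
  ring

/-- The multiset of roots. -/
noncomputable def rootsT : Multiset ℝ :=
  {1, 1, 1, 1, -1, -1, -1, -1, (3 + √5) / 2, -((3 + √5) / 2), (3 - √5) / 2, -((3 - √5) / 2)}

theorem roots_T : (TT.adjMatrix ℝ).charpoly.roots = rootsT := by
  rw [← Polynomial.roots_multiset_prod_X_sub_C rootsT, charpoly_T]
  congr 1
  apply Polynomial.funext
  intro r
  have h5 : √5 ^ 2 = 5 := Real.sq_sqrt (by norm_num)
  simp only [rootsT, Multiset.insert_eq_cons, Multiset.map_cons, Multiset.map_singleton,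
    Multiset.prod_cons, Multiset.prod_singleton, Polynomial.eval_mul, Polynomial.eval_pow,
    Polynomial.eval_sub, Polynomial.eval_X, Polynomial.eval_one, Polynomial.eval_ofNat,
    Polynomial.eval_C]
  have h : (r ^ 2 - 1) ^ 2 - 5 * r ^ 2 = (r - (3 + √5) / 2) * ((r - -((3 + √5) / 2)) *
      ((r - (3 - √5) / 2) * (r - -((3 - √5) / 2)))) := by
    linear_combination ((1/2) * r ^ 2 - (1/16) * √5 ^ 2 + 13/16) * h5
  rw [h]
  ring

theorem sqrt5_lt : √5 < 3 := by
  rw [Real.sqrt_lt' (by norm_num)]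
  norm_num

theorem sum_T : ((TT.adjMatrix ℝ).charpoly.roots.map (fun x : ℝ => |x|)).sum = 14 := by
  have h1 : |(3 + √5) / 2| = (3 + √5) / 2 := abs_of_nonneg (by positivity)
  have h2 : |(3 - √5) / 2| = (3 - √5) / 2 := abs_of_nonneg (by linarith [sqrt5_lt])
  rw [roots_T]
  simp only [rootsT, Multiset.insert_eq_cons, Multiset.map_cons, Multiset.map_singleton,
    Multiset.sum_cons, Multiset.sum_singleton, abs_neg, abs_one, h1, h2]
  ring

theorem prod_T : ((TT.adjMatrix ℝ).charpoly.roots.map (fun x : ℝ => |x|)).prod = 1 := by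
  have h1 : |(3 + √5) / 2| = (3 + √5) / 2 := abs_of_nonneg (by positivity)
  have h2 : |(3 - √5) / 2| = (3 - √5) / 2 := abs_of_nonneg (by linarith [sqrt5_lt])
  have h5 : √5 ^ 2 = 5 := Real.sq_sqrt (by norm_num)
  rw [roots_T]
  simp only [rootsT, Multiset.insert_eq_cons, Multiset.map_cons, Multiset.map_singleton,
    Multiset.prod_cons, Multiset.prod_singleton, abs_neg, abs_one, h1, h2]
  linear_combination ((1/16) * √5 ^ 2 - 13/16) * h5

/-! ### Eigenvalues of `S` -/

/-- The neighbours in `S`. -/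
def nbS : Fin 12 → Finset (Fin 12) :=
  ![{1}, {0, 2}, {1, 3}, {2, 4}, {3, 5}, {4, 6, 9}, {5, 7}, {6, 8}, {7}, {5, 10}, {9, 11}, {10}]

theorem nbS_eq : ∀ i, SS.neighborFinset i = nbS i := by decide +kernel

theorem root_S (x : ℝ) (v : Fin 12 → ℝ) (hv : v ≠ 0)
    (h : ∀ i, ∑ u ∈ nbS i, v u = x * v i) : x ∈ (SS.adjMatrix ℝ).charpoly.roots := by
  rw [Polynomial.mem_roots (Matrix.charpoly_monic _).ne_zero, Polynomial.IsRoot.def,
    eval_charpoly, ← exists_mulVec_eq_zero_iff]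
  refine ⟨v, hv, ?_⟩
  rw [sub_mulVec]
  ext i
  rw [Pi.sub_apply, SimpleGraph.adjMatrix_mulVec_apply, nbS_eq, h i, scalar_apply,
    mulVec_diagonal, Pi.zero_apply, sub_self]

/-- The polynomial whose zeros are the remaining eigenvalues. -/
def q (x : ℝ) : ℝ := x ^ 8 - 9 * x ^ 6 + 26 * x ^ 4 - 27 * x ^ 2 + 8

theorem root_S_q (x : ℝ) (hx : q x = 0) (hx0 : x ≠ 0) (hx2 : x ^ 2 ≠ 2) :
    x ∈ (SS.adjMatrix ℝ).charpoly.roots := by
  have hq : x ^ 8 - 9 * x ^ 6 + 26 * x ^ 4 - 27 * x ^ 2 + 8 = 0 := hx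
  obtain ⟨c, hc⟩ : ∃ c, c = x ^ 3 - 2 * x := ⟨_, rfl⟩
  obtain ⟨d, hd⟩ : ∃ d, d = x ^ 5 - 4 * x ^ 3 + 3 * x := ⟨_, rfl⟩
  refine root_S x ![c, c * x, c * (x ^ 2 - 1), c * (x ^ 3 - 2 * x), c * (x ^ 4 - 3 * x ^ 2 + 1),
    c * d, d * (x ^ 2 - 1), d * x, d, d * (x ^ 2 - 1), d * x, d] ?_ ?_
  · intro h
    have h0 := congrFun h 0
    have hc0 : c = 0 := h0
    rw [hc] at hc0
    have : x * (x ^ 2 - 2) = 0 := by linarith
    rcases mul_eq_zero.1 this with h | h
    · exact hx0 h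
    · exact hx2 (by linarith)
  · intro i
    fin_cases i <;> simp [nbS] <;> subst hc <;> subst hd <;> try ring
    linear_combination (-x) * hq

theorem root_S_zero : (0 : ℝ) ∈ (SS.adjMatrix ℝ).charpoly.roots := by
  refine root_S 0 ![0, 0, 0, 0, 0, 0, -1, 0, 1, 1, 0, -1] ?_ ?_
  · intro h
    have h0 := congrFun h 8
    exact absurd h0 (by simp)
  · intro i
    fin_cases i <;> simp [nbS]

theorem root_S_two (x : ℝ) (hx : x ^ 2 = 2) : x ∈ (SS.adjMatrix ℝ).charpoly.roots := by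
  refine root_S x ![0, 0, 0, 0, 0, 0, 1, x, 1, -1, -x, -1] ?_ ?_
  · intro h
    have h0 := congrFun h 8
    exact absurd h0 (by simp)
  · intro i
    fin_cases i <;> simp [nbS] <;> linarith

theorem q_cont : Continuous q := by
  unfold q
  fun_prop

theorem q_neg (x : ℝ) : q (-x) = q x := by
  unfold q
  ring

theorem exists_roots : ∃ a b c d : ℝ, (7/10 ≤ a ∧ a ≤ 71/100 ∧ q a = 0) ∧
    (57/50 ≤ b ∧ b ≤ 23/20 ∧ q b = 0) ∧ (42/25 ≤ c ∧ c ≤ 169/100 ∧ q c = 0) ∧
    (52/25 ≤ d ∧ d ≤ 209/100 ∧ q d = 0) := by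
  obtain ⟨a, ⟨ha1, ha2⟩, ha⟩ := intermediate_value_Icc' (show (7/10 : ℝ) ≤ 71/100 by norm_num)
    q_cont.continuousOn (show (0 : ℝ) ∈ Set.Icc (q (71/100)) (q (7/10)) by
      constructor <;> (unfold q; norm_num))
  obtain ⟨b, ⟨hb1, hb2⟩, hb⟩ := intermediate_value_Icc (show (57/50 : ℝ) ≤ 23/20 by norm_num)
    q_cont.continuousOn (show (0 : ℝ) ∈ Set.Icc (q (57/50)) (q (23/20)) by
      constructor <;> (unfold q; norm_num))
  obtain ⟨c, ⟨hc1, hc2⟩, hc⟩ := intermediate_value_Icc' (show (42/25 : ℝ) ≤ 169/100 by norm_num)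
    q_cont.continuousOn (show (0 : ℝ) ∈ Set.Icc (q (169/100)) (q (42/25)) by
      constructor <;> (unfold q; norm_num))
  obtain ⟨d, ⟨hd1, hd2⟩, hd⟩ := intermediate_value_Icc (show (52/25 : ℝ) ≤ 209/100 by norm_num)
    q_cont.continuousOn (show (0 : ℝ) ∈ Set.Icc (q (52/25)) (q (209/100)) by
      constructor <;> (unfold q; norm_num))
  exact ⟨a, b, c, d, ⟨ha1, ha2, ha⟩, ⟨hb1, hb2, hb⟩, ⟨hc1, hc2, hc⟩, ⟨hd1, hd2, hd⟩⟩

theorem sum_S : 14 < ((SS.adjMatrix ℝ).charpoly.roots.map (fun x : ℝ => |x|)).sum := by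
  obtain ⟨a, b, c, d, ⟨ha1, ha2, ha⟩, ⟨hb1, hb2, hb⟩, ⟨hc1, hc2, hc⟩, ⟨hd1, hd2, hd⟩⟩ :=
    exists_roots
  obtain ⟨w, hw⟩ : ∃ w, w = √2 := ⟨_, rfl⟩
  have hw2 : w ^ 2 = 2 := by rw [hw]; exact Real.sq_sqrt (by norm_num)
  have hw0 : 0 ≤ w := by rw [hw]; exact Real.sqrt_nonneg _
  have hw1 : 1.4142 < w := by nlinarith
  have hw3 : w < 1.4143 := by nlinarith
  obtain ⟨l, hl⟩ : ∃ l : List ℝ, l = [-d, -c, -w, -b, -a, a, b, w, c, d] := ⟨_, rfl⟩
  have hch : l.IsChain (· < ·) := by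
    rw [hl]
    simp only [List.isChain_cons_cons, List.isChain_singleton, and_true]
    refine ⟨?_, ?_, ?_, ?_, ?_, ?_, ?_, ?_, ?_⟩ <;> linarith
  have hnd : l.Nodup := by
    have := (List.isChain_iff_pairwise.1 hch)
    exact this.imp (fun h => ne_of_lt h)
  have hmem : ∀ x ∈ l, x ∈ (SS.adjMatrix ℝ).charpoly.roots := by
    have key : ∀ x : ℝ, q x = 0 → 0 < x → x ^ 2 ≠ 2 → x ∈ (SS.adjMatrix ℝ).charpoly.roots ∧
        -x ∈ (SS.adjMatrix ℝ).charpoly.roots := by
      intro x hx h0 h2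
      refine ⟨root_S_q x hx h0.ne' h2, root_S_q (-x) (by rw [q_neg]; exact hx) ?_ ?_⟩
      · exact neg_ne_zero.2 h0.ne'
      · rw [neg_sq]
        exact h2
    have ka := key a ha (by linarith) (by nlinarith)
    have kb := key b hb (by linarith) (by nlinarith)
    have kc := key c hc (by linarith) (by nlinarith)
    have kd := key d hd (by linarith) (by nlinarith)
    have kw1 := root_S_two w hw2
    have kw2 := root_S_two (-w) (by rw [neg_sq]; exact hw2)
    intro x hx
    rw [hl] at hx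
    simp only [List.mem_cons, List.not_mem_nil, or_false] at hx
    rcases hx with h | h | h | h | h | h | h | h | h | h
    · rw [h]; exact kd.2
    · rw [h]; exact kc.2
    · rw [h]; exact kw2
    · rw [h]; exact kb.2
    · rw [h]; exact ka.2
    · rw [h]; exact ka.1
    · rw [h]; exact kb.1
    · rw [h]; exact kw1
    · rw [h]; exact kc.1
    · rw [h]; exact kd.1
  have hle : (l : Multiset ℝ) ≤ (SS.adjMatrix ℝ).charpoly.roots :=
    (Multiset.le_iff_subset (Multiset.coe_nodup.2 hnd)).2 (fun x hx => hmem x hx)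
  obtain ⟨m, hm⟩ := Multiset.le_iff_exists_add.1 hle
  rw [hm, Multiset.map_add, Multiset.sum_add]
  have h1 : 0 ≤ (m.map (fun x : ℝ => |x|)).sum := by
    apply Multiset.sum_nonneg
    intro x hx
    obtain ⟨y, _, rfl⟩ := Multiset.mem_map.1 hx
    exact abs_nonneg y
  have h2 : (((l : Multiset ℝ)).map (fun x : ℝ => |x|)).sum = 2 * (a + b + c + d + w) := by
    rw [hl]
    simp only [Multiset.map_coe, Multiset.sum_coe, List.map_cons, List.map_nil, List.sum_cons,
      List.sum_nil, abs_neg]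
    rw [abs_of_pos (show 0 < a by linarith), abs_of_pos (show 0 < b by linarith),
      abs_of_pos (show 0 < c by linarith), abs_of_pos (show 0 < d by linarith),
      abs_of_pos (show 0 < w by linarith)]
    ring
  rw [h2]
  linarith

theorem prod_S : ((SS.adjMatrix ℝ).charpoly.roots.map (fun x : ℝ => |x|)).prod = 0 := by
  apply Multiset.prod_eq_zero
  exact Multiset.mem_map.2 ⟨0, root_S_zero, abs_zero⟩

/-- The negation of the preceding statement: For trees T, S on the same even number of vertices: if the product of absolute adjacency eigenvalues is 1 for T and 0 for S, then the sum of absolute eigenvalues (energy) of T is strictly larger than that of S. -/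
theorem result :
    ¬ (∀ (n : ℕ) (T S : SimpleGraph (Fin n)) [DecidableRel T.Adj] [DecidableRel S.Adj],
      Even n → T.IsTree → S.IsTree →
      ((T.adjMatrix ℝ).charpoly.roots.map (fun x : ℝ => |x|)).prod = 1 →
      ((S.adjMatrix ℝ).charpoly.roots.map (fun x : ℝ => |x|)).prod = 0 →
      ((S.adjMatrix ℝ).charpoly.roots.map (fun x : ℝ => |x|)).sum <
        ((T.adjMatrix ℝ).charpoly.roots.map (fun x : ℝ => |x|)).sum) := by
  intro h
  have h1 := h 12 TT SS (by decide) TT_tree SS_tree prod_T prod_S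
  rw [sum_T] at h1
  exact absurd (h1.trans sum_S) (lt_irrefl _)

end Pool.Agent.S2738
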