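import Pool.Statements.S2836
-- import your own Pool.Agent.* helpers here

set_option autoImplicit false
open Pool Pool.MP_ed2cb0_co

namespace Pool.Agent.S2836

/-! ### The base graph on nine vertices -/

def nb : Fin 9 → List (Fin 9) :=
  ![[1, 2, 6, 7], [0, 2, 3, 7, 8], [0, 1, 4, 5, 6], [1, 4, 6, 7, 8], [2, 3, 5, 6, 8],
    [2, 4, 6, 7, 8], [0, 2, 3, 4, 5], [0, 1, 3, 5, 8], [1, 3, 4, 5, 7]]

def e (u v : Fin 9) : Bool := (nb u).contains v

lemma e_symm : ∀ u v, e u v = true → e v u = true := by decide +kernel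
lemma e_irrefl : ∀ u, ¬ e u u = true := by decide +kernel

def G : SimpleGraph (Fin 9) where
  Adj u v := e u v = true
  symm := ⟨fun u v h => e_symm u v h⟩
  loopless := ⟨fun u h => e_irrefl u h⟩

instance : DecidableRel G.Adj := fun u v => inferInstanceAs (Decidable (e u v = true))

/-- Irredundance, as in the statement. -/
def Irr (D : Finset (Fin 9)) : Prop :=
  ∀ v ∈ D, ∃ w : Fin 9, (w = v ∨ G.Adj v w) ∧ ∀ u ∈ D, u ≠ v → ¬ (w = u ∨ G.Adj u w)

instance (D : Finset (Fin 9)) : Decidable (Irr D) := by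
  unfold Irr
  infer_instance

/-- The seven IR-sets, in path order. -/
def S : Fin 7 → Finset (Fin 9) :=
  ![{1, 3, 8}, {1, 3, 7}, {0, 3, 7}, {0, 3, 5}, {0, 5, 6}, {2, 5, 6}, {2, 4, 5}]

def Sl : List (List (Fin 9)) :=
  [[1, 3, 8], [1, 3, 7], [0, 3, 7], [0, 3, 5], [0, 5, 6], [2, 5, 6], [2, 4, 5]]

lemma S_irr : ∀ i, Irr (S i) := by decide +kernel

lemma S_card : ∀ i, (S i).card = 3 := by decide +kernel

lemma S_inj : ∀ i j, S i = S j → i = j := by decide +kernel

lemma Sl_S : ∀ l ∈ Sl, ∃ i, S i = l.toFinset := by decide +kernel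

/-! ### All subsets -/

def allB : ℕ → List (List Bool)
  | 0 => [[]]
  | n + 1 => (allB n).flatMap (fun g => [g ++ [true], g ++ [false]])

lemma allB_step {n : ℕ} {g : List Bool} (hg : g ∈ allB n) (b : Bool) : g ++ [b] ∈ allB (n + 1) := by
  rw [allB, List.mem_flatMap]
  refine ⟨g, hg, ?_⟩
  cases b <;> simp

def ix : List (Fin 9) := [0, 1, 2, 3, 4, 5, 6, 7, 8]

lemma mem_ix : ∀ i, i ∈ ix := by decide

def m (L : List Bool) (i : Fin 9) : Bool := L.getD i.1 false

def irrB (L : List Bool) : Bool :=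
  ix.all (fun v => !(m L v) || ix.any (fun w => (w == v || e v w) &&
    ix.all (fun u => !(m L u) || u == v || !(w == u || e u w))))

def chk (L : List Bool) : Bool :=
  !(irrB L) || (Nat.ble (ix.filter (m L)).length 2 || Sl.contains (ix.filter (m L)))

lemma chk_all : ∀ L ∈ allB 9, chk L = true := by
  have : (allB 9).all chk = true := by decide +kernel
  exact List.all_eq_true.1 this

/-- Every irredundant set with at least three elements is one of the seven. -/
lemma classify (X : Finset (Fin 9)) (hX : Irr X) (h3 : 3 ≤ X.card) : ∃ i, S i = X := by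
  obtain ⟨L, hL⟩ : ∃ L : List Bool, L = [decide (0 ∈ X), decide (1 ∈ X), decide (2 ∈ X),
    decide (3 ∈ X), decide (4 ∈ X), decide (5 ∈ X), decide (6 ∈ X), decide (7 ∈ X),
    decide (8 ∈ X)] := ⟨_, rfl⟩
  have hmem : L ∈ allB 9 := by
    rw [hL]
    have r0 : ([] : List Bool) ∈ allB 0 := by simp [allB]
    exact allB_step (allB_step (allB_step (allB_step (allB_step (allB_step
      (allB_step (allB_step (allB_step r0 _) _) _) _) _) _) _) _) _
  have hm : ∀ i, m L i = decide (i ∈ X) := by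
    intro i
    rw [m, hL]
    fin_cases i <;> rfl
  have hfl : (ix.filter (m L)).toFinset = X := by
    ext i
    rw [List.mem_toFinset, List.mem_filter, hm]
    simp [mem_ix i]
  have hirr : irrB L = true := by
    rw [irrB, List.all_eq_true]
    intro v _
    rw [Bool.or_eq_true]
    by_cases hv : v ∈ X
    · right
      obtain ⟨w, hw1, hw2⟩ := hX v hv
      rw [List.any_eq_true]
      refine ⟨w, mem_ix w, ?_⟩
      rw [Bool.and_eq_true]
      constructor
      · rcases hw1 with h | h
        · simp [h]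
        · have h' : e v w = true := h
          simp [h']
      · rw [List.all_eq_true]
        intro u _
        by_cases hu : u ∈ X
        · by_cases huv : u = v
          · simp [huv]
          · have := hw2 u hu huv
            have h1 : ¬ w = u := fun h => this (Or.inl h)
            have h2 : e u w = false := by
              rcases h : e u w with _ | _
              · rfl
              · exact absurd (Or.inr h) this
            simp [h1, h2]
        · simp [hm, hu]
    · left
      simp [hm, hv]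
  have hc := chk_all L hmem
  rw [chk, hirr] at hc
  simp only [Bool.not_true, Bool.false_or, Bool.or_eq_true] at hc
  rcases hc with h | h
  · exfalso
    have h' : (ix.filter (m L)).length ≤ 2 := Nat.le_of_ble_eq_true h
    have := List.toFinset_card_le (ix.filter (m L))
    rw [hfl] at this
    omega
  · obtain ⟨i, hi⟩ := Sl_S _ (List.contains_iff_mem.1 h)
    exact ⟨i, hi.trans hfl⟩

lemma card_le (X : Finset (Fin 9)) (hX : Irr X) : X.card ≤ 3 := by
  by_contra hc
  obtain ⟨i, hi⟩ := classify X hX (by omega)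
  rw [← hi, S_card] at hc
  exact hc le_rfl

lemma adj_iff : ∀ i j : Fin 7, (i.val + 1 = j.val ∨ j.val + 1 = i.val) ↔
    (S i ≠ S j ∧ ((∃ u v : Fin 9, S i \ S j = {u} ∧ S j \ S i = {v} ∧ G.Adj u v) ∨
      (∃ u v : Fin 9, S j \ S i = {u} ∧ S i \ S j = {v} ∧ G.Adj u v))) := by
  decide +kernel

/-- The negation of the preceding statement: Every finite connected claw-free graph isomorphic to the slide IR-graph of some finite graph G is isomorphic to a complete graph or to K_m □ K_k with m, k ≥ 2. -/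
theorem result :
    ¬ (∀ (n : ℕ) (H : SimpleGraph (Fin n)), H.Connected →
    (∀ a b c d : Fin n, H.Adj a b → H.Adj a c → H.Adj a d → b ≠ c → b ≠ d → c ≠ d →
        H.Adj b c ∨ H.Adj b d ∨ H.Adj c d) →
    (∃ (p : ℕ) (G : SimpleGraph (Fin p)),
      Nonempty (H ≃g SimpleGraph.fromRel
        (fun (D E : {D : Finset (Fin p) //
            (∀ v ∈ D, ∃ w : Fin p, (w = v ∨ G.Adj v w) ∧
                ∀ u ∈ D, u ≠ v → ¬ (w = u ∨ G.Adj u w)) ∧
            ∀ F : Finset (Fin p),
              (∀ v ∈ F, ∃ w : Fin p, (w = v ∨ G.Adj v w) ∧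
                  ∀ u ∈ F, u ≠ v → ¬ (w = u ∨ G.Adj u w)) →
              F.card ≤ D.card}) =>
          ∃ u v : Fin p, D.1 \ E.1 = {u} ∧ E.1 \ D.1 = {v} ∧ G.Adj u v))) →
    (∃ k : ℕ, Nonempty (H ≃g (⊤ : SimpleGraph (Fin k)))) ∨
    (∃ m k : ℕ, 2 ≤ m ∧ 2 ≤ k ∧
      Nonempty (H ≃g SimpleGraph.boxProd (⊤ : SimpleGraph (Fin m)) (⊤ : SimpleGraph (Fin k))))) := by
  intro hall
  have hprop : ∀ i : Fin 7, (∀ v ∈ S i, ∃ w : Fin 9, (w = v ∨ G.Adj v w) ∧
                ∀ u ∈ S i, u ≠ v → ¬ (w = u ∨ G.Adj u w)) ∧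
            ∀ F : Finset (Fin 9),
              (∀ v ∈ F, ∃ w : Fin 9, (w = v ∨ G.Adj v w) ∧
                  ∀ u ∈ F, u ≠ v → ¬ (w = u ∨ G.Adj u w)) →
              F.card ≤ (S i).card := by
    intro i
    refine ⟨S_irr i, fun F hF => ?_⟩
    rw [S_card i]
    exact card_le F hF
  have hiso : Nonempty (SimpleGraph.pathGraph 7 ≃g SimpleGraph.fromRel
        (fun (D E : {D : Finset (Fin 9) //
            (∀ v ∈ D, ∃ w : Fin 9, (w = v ∨ G.Adj v w) ∧
                ∀ u ∈ D, u ≠ v → ¬ (w = u ∨ G.Adj u w)) ∧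
            ∀ F : Finset (Fin 9),
              (∀ v ∈ F, ∃ w : Fin 9, (w = v ∨ G.Adj v w) ∧
                  ∀ u ∈ F, u ≠ v → ¬ (w = u ∨ G.Adj u w)) →
              F.card ≤ D.card}) =>
          ∃ u v : Fin 9, D.1 \ E.1 = {u} ∧ E.1 \ D.1 = {v} ∧ G.Adj u v)) := by
    let f : Fin 7 → {D : Finset (Fin 9) //
            (∀ v ∈ D, ∃ w : Fin 9, (w = v ∨ G.Adj v w) ∧
                ∀ u ∈ D, u ≠ v → ¬ (w = u ∨ G.Adj u w)) ∧
            ∀ F : Finset (Fin 9),
              (∀ v ∈ F, ∃ w : Fin 9, (w = v ∨ G.Adj v w) ∧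
                  ∀ u ∈ F, u ≠ v → ¬ (w = u ∨ G.Adj u w)) →
              F.card ≤ D.card} := fun i => ⟨S i, hprop i⟩
    have hf : Function.Bijective f := by
      constructor
      · intro i j hij
        exact S_inj i j (congrArg Subtype.val hij)
      · rintro ⟨D, hD1, hD2⟩
        have h3 : 3 ≤ D.card := by
          have := hD2 (S 0) (hprop 0).1
          rwa [S_card] at this
        obtain ⟨i, hi⟩ := classify D hD1 h3
        exact ⟨i, Subtype.ext hi⟩
    refine ⟨⟨Equiv.ofBijective f hf, ?_⟩⟩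
    intro i j
    rw [SimpleGraph.fromRel_adj, SimpleGraph.pathGraph_adj, adj_iff]
    constructor
    · rintro ⟨h1, h2⟩
      exact ⟨fun h => h1 (Subtype.ext h), h2⟩
    · rintro ⟨h1, h2⟩
      exact ⟨fun h => h1 (congrArg Subtype.val h), h2⟩
  rcases hall 7 (SimpleGraph.pathGraph 7) (SimpleGraph.pathGraph_connected 6) (by
      intro a b c d hab hac had hbc hbd hcd
      rw [SimpleGraph.pathGraph_adj] at hab hac had
      exfalso
      rw [Ne, Fin.ext_iff] at hbc hbd hcd
      omega) ⟨9, G, hiso⟩ with ⟨k, ⟨φ⟩⟩ | ⟨m, k, hm, hk, ⟨φ⟩⟩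
  · have h : (⊤ : SimpleGraph (Fin k)).Adj (φ 0) (φ 2) := by
      rw [SimpleGraph.top_adj]
      intro h
      have := φ.injective h
      exact absurd this (by decide)
    rw [φ.map_adj_iff, SimpleGraph.pathGraph_adj] at h
    revert h
    decide
  · have h := Fintype.card_congr φ.toEquiv
    rw [Fintype.card_fin, Fintype.card_prod, Fintype.card_fin, Fintype.card_fin] at h
    have hm7 : m ≤ 3 := by nlinarith
    have hk7 : k ≤ 3 := by nlinarith
    interval_cases m <;> interval_cases k <;> omega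

end Pool.Agent.S2836
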