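import Pool.Statements.S2956
import Pool.Agent.H8.S2956aux
-- import your own Pool.Agent.* helpers here

set_option autoImplicit false
open Pool Pool.MP_182cc9_gt

namespace Pool.Agent.S2956

/-- The negation of the preceding statement: In every T1 normal space X, for every subset Z and every n ≥ −1: if the large inductive dimension of Z as a space is at most n, then the relative large inductive dimension of Z in X is at most n. -/
theorem result :
    ¬ (∀ (X : Type) [TopologicalSpace X] [T4Space X] (Z : Set X) (n : ℕ)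
      (D : ℕ → Set X → Set X → Prop),
      (∀ Y A : Set X, D 0 Y A ↔ A ∩ Y = ∅) →
      (∀ (k : ℕ) (Y A : Set X), D (k + 1) Y A ↔
        (A ∩ Y = ∅ ∨
          ∀ F G : Set X, (∃ C : Set X, IsClosed C ∧ F = Y ∩ C) →
            (∃ C : Set X, IsClosed C ∧ G = Y ∩ C) → Disjoint F G →
            ∃ S U V : Set X, S ⊆ Y ∧ (∃ C : Set X, IsClosed C ∧ S = Y ∩ C) ∧
              (∃ O : Set X, IsOpen O ∧ U = Y ∩ O) ∧
              (∃ O : Set X, IsOpen O ∧ V = Y ∩ O) ∧
              Disjoint U V ∧ Y \ S = U ∪ V ∧ F ⊆ U ∧ G ⊆ V ∧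
              D k S (A ∩ S))) →
      D n Z Z → D n Set.univ Z) := by
  intro h
  exact Pool.Agent.H8.S2956aux.not_D
    (h Pool.Agent.H8.S2956aux.X Pool.Agent.H8.S2956aux.Z 1 Pool.Agent.H8.S2956aux.D
      (fun _ _ => Iff.rfl) (fun _ _ _ => Iff.rfl) Pool.Agent.H8.S2956aux.D_Z)

end Pool.Agent.S2956
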