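import Pool.Statements.S2990
import Pool.Agent.H5.M28bdbe

set_option autoImplicit false
open Pool Pool.MP_28bdbe_gt

namespace Pool.Agent.S2990

/-- The negation of the preceding statement: Every compact convex planar set with nonempty interior equals the set where f1+f2+f3+f4 ≥ 0, for some measurable ridge functions f1..f4 in directions (1,0), (0,1), (2,1), (-1,2). -/
theorem result :
    ¬ (∀ K : Set (ℝ × ℝ), Convex ℝ K → IsCompact K → (interior K).Nonempty →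
      ∃ f₁ f₂ f₃ f₄ : ℝ × ℝ → ℝ,
        Measurable f₁ ∧ Measurable f₂ ∧ Measurable f₃ ∧ Measurable f₄ ∧
        (∃ g₁ : ℝ → ℝ, ∀ x : ℝ × ℝ, f₁ x = g₁ x.1) ∧
        (∃ g₂ : ℝ → ℝ, ∀ x : ℝ × ℝ, f₂ x = g₂ x.2) ∧
        (∃ g₃ : ℝ → ℝ, ∀ x : ℝ × ℝ, f₃ x = g₃ (2 * x.1 + x.2)) ∧
        (∃ g₄ : ℝ → ℝ, ∀ x : ℝ × ℝ, f₄ x = g₄ (-x.1 + 2 * x.2)) ∧
        K = {x : ℝ × ℝ | 0 ≤ f₁ x + f₂ x + f₃ x + f₄ x}) := by
  exact Pool.Agent.H5.M28bdbe.main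

end Pool.Agent.S2990
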