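import Pool.Statements.S2992
import Pool.Agent.H8.S2992aux
-- import your own Pool.Agent.* helpers here

set_option autoImplicit false
open Pool Pool.MP_28e94d_gt

namespace Pool.Agent.S2992

/-- The negation of the preceding statement: A Hausdorff topological group lies in the smallest class containing compact separable and countable groups, closed under finite products, closed subgroups and continuous homomorphic images, iff it has a compact separable subgroup with countably many cosets. -/
theorem result :
    ¬ (∀ (G : Type) [Group G] [TopologicalSpace G] [IsTopologicalGroup G] [T2Space G],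
      ((∀ P : (H : Type) → [Group H] → [TopologicalSpace H] → Prop,
          (∀ (H : Type) [Group H] [TopologicalSpace H] [IsTopologicalGroup H] [T2Space H],
              CompactSpace H → TopologicalSpace.SeparableSpace H → P H) →
          (∀ (H : Type) [Group H] [TopologicalSpace H] [IsTopologicalGroup H] [T2Space H],
              Countable H → P H) →
          (∀ (H₁ : Type) [Group H₁] [TopologicalSpace H₁] [IsTopologicalGroup H₁] [T2Space H₁]
              (H₂ : Type) [Group H₂] [TopologicalSpace H₂] [IsTopologicalGroup H₂] [T2Space H₂],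
              P H₁ → P H₂ → P (H₁ × H₂)) →
          (∀ (H : Type) [Group H] [TopologicalSpace H] [IsTopologicalGroup H] [T2Space H]
              (L : Subgroup H), IsClosed (L : Set H) → P H → P L) →
          (∀ (H₁ : Type) [Group H₁] [TopologicalSpace H₁] [IsTopologicalGroup H₁] [T2Space H₁]
              (H₂ : Type) [Group H₂] [TopologicalSpace H₂] [IsTopologicalGroup H₂] [T2Space H₂]
              (f : H₁ →* H₂), Continuous f → Function.Surjective f → P H₁ → P H₂) →
          P G) ↔
        ∃ K : Subgroup G, CompactSpace K ∧ TopologicalSpace.SeparableSpace K ∧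
          Countable (G ⧸ K))) := by
  intro h
  have h1 := (h Pool.Agent.H8.S2992aux.G).2 ⟨Pool.Agent.H8.S2992aux.K,
    isCompact_iff_compactSpace.1 Pool.Agent.H8.S2992aux.K_compact,
    Pool.Agent.H8.S2992aux.K_sep,
    Pool.Agent.H8.S2992aux.K_quot⟩
  refine Pool.Agent.H8.S2992aux.not_q (h1 (fun H i1 i2 => @Pool.Agent.H8.S2992aux.Q H i1 i2)
    ?_ ?_ ?_ ?_ ?_)
  · intro H _ _ _ _ hc _
    exact Pool.Agent.H8.S2992aux.q_compact H
  · intro H _ _ _ _ hc
    exact Pool.Agent.H8.S2992aux.q_countable H
  · intro H₁ _ _ _ _ H₂ _ _ _ _ a b
    exact Pool.Agent.H8.S2992aux.q_prod H₁ H₂ a b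
  · intro H _ _ _ _ L hL a
    exact Pool.Agent.H8.S2992aux.q_closed H L hL a
  · intro H₁ _ _ _ _ H₂ _ _ _ _ f hc hs a
    exact Pool.Agent.H8.S2992aux.q_image H₁ H₂ f hc hs a

end Pool.Agent.S2992
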