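import Pool.Statements.S3066
import Pool.Agent.H8.S3066aux
-- import your own Pool.Agent.* helpers here

set_option autoImplicit false
open Pool Pool.MP_49a423_gt

namespace Pool.Agent.S3066

/-- The negation of the preceding statement: Let K be a compact Hausdorff space with a dense Σ-subset, i.e. a Valdivia compactum, and let h be a continuous involution of K. Then K has a dense Σ-subset A that is invariant under h. -/
theorem result :
    ¬ (∀ (K : Type) [TopologicalSpace K] [CompactSpace K] [T2Space K],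
      (∃ A : Set K, Dense A ∧ ∃ (Γ : Type) (φ : K → (Γ → ℝ)),
          Topology.IsEmbedding φ ∧ A = φ ⁻¹' {x : Γ → ℝ | {γ : Γ | x γ ≠ 0}.Countable}) →
      ∀ h : K → K, Continuous h → (∀ x, h (h x) = x) →
        ∃ A : Set K, Dense A ∧ (∀ x, h x ∈ A ↔ x ∈ A) ∧
          ∃ (Γ : Type) (φ : K → (Γ → ℝ)),
            Topology.IsEmbedding φ ∧ A = φ ⁻¹' {x : Γ → ℝ | {γ : Γ | x γ ≠ 0}.Countable}) := by
  intro h
  exact Pool.Agent.H8.S3066aux.no_inv (h Pool.Agent.H8.S3066aux.KK Pool.Agent.H8.S3066aux.valdivia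
    Pool.Agent.H8.S3066aux.hh Pool.Agent.H8.S3066aux.cont_hh Pool.Agent.H8.S3066aux.hh_hh)

end Pool.Agent.S3066
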