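import Pool.Statements.S3177
import Pool.Agent.H8.Ps.Main

set_option autoImplicit false
open Pool Pool.MP_8a5d18_gt

namespace Pool.Agent.S3177

/-- For a nonprincipal ultrafilter p on ℕ and Tychonoff X: if C_p(X) is p-sequential, then every open ω-cover of X (X not a member) has a sequence Uₙ of members with {n : x ∈ Uₙ} ∈ p for every point x. -/
theorem result :
    ∀ (p : Ultrafilter ℕ), (p : Filter ℕ) ≤ Filter.cofinite →
    ∀ (X : Type) [TopologicalSpace X] [T35Space X],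
      (∀ A : Set C(X, ℝ),
        (∀ (f : ℕ → C(X, ℝ)) (g : C(X, ℝ)), (∀ n, f n ∈ A) →
          Filter.Tendsto f (p : Filter ℕ)
            (@nhds C(X, ℝ)
              (TopologicalSpace.induced (fun h : C(X, ℝ) => (h : X → ℝ)) Pi.topologicalSpace) g) →
          g ∈ A) →
        @IsClosed C(X, ℝ)
          (TopologicalSpace.induced (fun h : C(X, ℝ) => (h : X → ℝ)) Pi.topologicalSpace) A) →
      ∀ 𝒰 : Set (Set X), (∀ U ∈ 𝒰, IsOpen U) → (Set.univ : Set X) ∉ 𝒰 →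
        (∀ F : Finset X, ∃ U ∈ 𝒰, (↑F : Set X) ⊆ U) →
        ∃ u : ℕ → Set X, (∀ n, u n ∈ 𝒰) ∧
          ∀ x : X, ∀ᶠ n in (p : Filter ℕ), x ∈ u n := by
  intro p _ X _ _ hseq 𝒰 h1 h2 h3
  exact Pool.Agent.H8.Ps.main p X hseq 𝒰 h1 h2 h3

end Pool.Agent.S3177
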