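import Pool.Statements.S3205
import Pool.Agent.H8.KPc.Fin

set_option autoImplicit false
open Pool Pool.MP_9c5b30_gt

namespace Pool.Agent.S3205

/-- For every infinite cardinal κ and Tychonoff spaces X, Y with C_p(X) and C_p(Y) linearly homeomorphic: if every continuous image of X in a Tychonoff space of weight ≤ κ is compact, then the same holds for Y. -/
theorem result :
    ∀ (κ : Cardinal.{0}), Cardinal.aleph0 ≤ κ →
    ∀ (X Y : Type) [TopologicalSpace X] [T35Space X] [TopologicalSpace Y] [T35Space Y],
      (∃ T : C(X, ℝ) ≃ₗ[ℝ] C(Y, ℝ),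
        @Continuous C(X, ℝ) (Y → ℝ)
            (TopologicalSpace.induced (fun g : C(X, ℝ) => (g : X → ℝ))
              (inferInstance : TopologicalSpace (X → ℝ)))
            (inferInstance : TopologicalSpace (Y → ℝ))
            (fun g => ((T g : C(Y, ℝ)) : Y → ℝ)) ∧
        @Continuous C(Y, ℝ) (X → ℝ)
            (TopologicalSpace.induced (fun g : C(Y, ℝ) => (g : Y → ℝ))
              (inferInstance : TopologicalSpace (Y → ℝ)))
            (inferInstance : TopologicalSpace (X → ℝ))
            (fun g => ((T.symm g : C(X, ℝ)) : X → ℝ))) →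
      (∀ (Z : Type) [TopologicalSpace Z] [T35Space Z],
        (∃ B : Set (Set Z), TopologicalSpace.IsTopologicalBasis B ∧ Cardinal.mk B ≤ κ) →
        ∀ f : X → Z, Continuous f → IsCompact (Set.range f)) →
      (∀ (Z : Type) [TopologicalSpace Z] [T35Space Z],
        (∃ B : Set (Set Z), TopologicalSpace.IsTopologicalBasis B ∧ Cardinal.mk B ≤ κ) →
        ∀ f : Y → Z, Continuous f → IsCompact (Set.range f)) := by
  exact Pool.Agent.H8.KPc.main

end Pool.Agent.S3205
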