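import Pool.Statements.S3358
-- import your own Pool.Agent.* helpers here

set_option autoImplicit false
open Topology Pointwise
open Pool Pool.MP_ede847_gt

namespace Pool.Agent.S3358

open Cardinal Set

/-- A well-order of type `ω₁`. -/
abbrev W : Type := (Cardinal.aleph 1).ord.ToType

/-- `ω₁` many copies of the rationals, one after the other. -/
abbrev L : Type := W ×ₗ ℚ

lemma countable_Iic (a : W) : (Iic a).Countable := by
  have h : #(Iio a) < Cardinal.aleph 1 := Cardinal.mk_Iio_toType_ord_lt a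
  have h1 : (Iio a).Countable := by
    rw [← Cardinal.le_aleph0_iff_set_countable]
    have h0 : Cardinal.aleph 1 ≤ Order.succ ℵ₀ := by simp
    exact Order.lt_succ_iff.mp (lt_of_lt_of_le h h0)
  have : Iic a = insert a (Iio a) := by
    ext x; simp [le_iff_eq_or_lt]
  rw [this]
  exact h1.insert a

lemma not_countable_W : ¬ (univ : Set W).Countable := by
  rw [← Cardinal.le_aleph0_iff_set_countable]
  simp

lemma exists_gt (F : Set W) (hF : F.Countable) : ∃ a : W, ∀ f ∈ F, f < a := by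
  by_contra hcon
  push Not at hcon
  apply not_countable_W
  have : (univ : Set W) ⊆ ⋃ f ∈ F, Iic f := by
    intro a _
    obtain ⟨f, hf, haf⟩ := hcon a
    simp only [mem_iUnion, mem_Iic]
    exact ⟨f, hf, haf⟩
  exact (hF.biUnion fun f _ => countable_Iic f).mono this

/-- initial piece -/
def I (a : W) : Set L := {x | (ofLex x).1 ≤ a}

lemma countable_I (a : W) : (I a).Countable := by
  have : (I a) ⊆ toLex '' ((Iic a) ×ˢ (univ : Set ℚ)) := by
    intro x hx
    exact ⟨ofLex x, ⟨hx, mem_univ _⟩, rfl⟩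
  exact (((countable_Iic a).prod (Set.to_countable _)).image _).mono this

lemma I_lower (a : W) {x y : L} (hy : y ∈ I a) (hxy : x ≤ y) : x ∈ I a :=
  (Prod.Lex.monotone_fst _ _ hxy).trans hy

lemma trans_I (a : W) (x y : I a) : ∃ φ : I a ≃o I a, φ x = y := by
  have : Countable (I a) := (countable_I a).to_subtype
  have : Nonempty (I a) := ⟨x⟩
  have : DenselyOrdered (I a) := by
    constructor
    intro p q hpq
    obtain ⟨r, h1, h2⟩ := exists_between (show (p : L) < q from hpq)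
    exact ⟨⟨r, I_lower a q.2 h2.le⟩, h1, h2⟩
  have : NoMaxOrder (I a) := by
    constructor
    rintro ⟨p, hp⟩
    refine ⟨⟨toLex ((ofLex p).1, (ofLex p).2 + 1), hp⟩, ?_⟩
    show p < _
    rw [Prod.Lex.lt_iff]
    right
    simp
  have : NoMinOrder (I a) := by
    constructor
    rintro ⟨p, hp⟩
    refine ⟨⟨toLex ((ofLex p).1, (ofLex p).2 - 1), hp⟩, ?_⟩
    show _ < p
    rw [Prod.Lex.lt_iff]
    right
    simp
  obtain ⟨e⟩ := Order.iso_of_countable_dense (I a) ℚ
  refine ⟨(e.trans (OrderIso.addRight (e y - e x))).trans e.symm, ?_⟩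
  simp

lemma trans_L (x y : L) : ∃ g : L ≃o L, g x = y := by
  classical
  let a : W := max (ofLex x).1 (ofLex y).1
  have hx : x ∈ I a := le_max_left (ofLex x).1 (ofLex y).1
  have hy : y ∈ I a := le_max_right (ofLex x).1 (ofLex y).1
  obtain ⟨φ, hφ⟩ := trans_I a ⟨x, hx⟩ ⟨y, hy⟩
  let F : (I a ≃o I a) → L → L := fun ψ z => if hz : z ∈ I a then (ψ ⟨z, hz⟩ : L) else z
  have hFin : ∀ (ψ : I a ≃o I a) (z : L) (hz : z ∈ I a), F ψ z = (ψ ⟨z, hz⟩ : L) := by
    intro ψ z hz; simp [F, hz]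
  have hFout : ∀ (ψ : I a ≃o I a) (z : L) (hz : z ∉ I a), F ψ z = z := by
    intro ψ z hz; simp [F, hz]
  have hinv : ∀ (ψ : I a ≃o I a) (z : L), F ψ.symm (F ψ z) = z := by
    intro ψ z
    by_cases hz : z ∈ I a
    · rw [hFin ψ z hz, hFin _ _ (ψ ⟨z, hz⟩).2]
      simp
    · rw [hFout ψ z hz, hFout _ z hz]
  have hmono : ∀ (ψ : I a ≃o I a) (z w : L), z ≤ w → F ψ z ≤ F ψ w := by
    intro ψ z w hzw
    by_cases hw : w ∈ I a
    · have hz : z ∈ I a := I_lower a hw hzw
      rw [hFin ψ z hz, hFin ψ w hw]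
      have : (⟨z, hz⟩ : I a) ≤ ⟨w, hw⟩ := hzw
      exact ψ.monotone this
    · by_cases hz : z ∈ I a
      · rw [hFin ψ z hz, hFout ψ w hw]
        by_contra hcon
        push Not at hcon
        exact hw (I_lower a (ψ ⟨z, hz⟩).2 hcon.le)
      · rw [hFout ψ z hz, hFout ψ w hw]; exact hzw
  refine ⟨⟨⟨F φ, F φ.symm, hinv φ, fun z => ?_⟩, ?_⟩, ?_⟩
  · have := hinv φ.symm z
    simpa using this
  · intro z w
    constructor
    · intro h
      have h2 : F φ.symm (F φ z) ≤ F φ.symm (F φ w) := hmono φ.symm _ _ h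
      rwa [hinv, hinv] at h2
    · exact hmono φ z w
  · show F φ x = y
    rw [hFin φ x hx, hφ]

/-- The group. -/
abbrev G : Type := L ≃o L

/-- The topology on the group generated by the sets `{g | g y ≤ z}`. -/
def τ : TopologicalSpace G :=
  TopologicalSpace.generateFrom {s | ∃ y z : L, s = {g : G | g y ≤ z}}

lemma contMul : @ContinuousMul G τ _ := by
  let _ := τ
  constructor
  refine continuous_generateFrom_iff.mpr ?_
  rintro s ⟨y, z, rfl⟩
  have : (fun p : G × G => p.1 * p.2) ⁻¹' {g : G | g y ≤ z} =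
      ⋃ w : L, ({g : G | g w ≤ z} ×ˢ {g : G | g y ≤ w}) := by
    ext ⟨g, h⟩
    simp only [mem_preimage, mem_setOf_eq, mem_iUnion, mem_prod]
    constructor
    · intro hh
      exact ⟨h y, hh, le_refl _⟩
    · rintro ⟨w, h1, h2⟩
      exact (g.monotone h2).trans h1
  rw [this]
  refine isOpen_iUnion fun w => ?_
  have h1 : IsOpen {g : G | g w ≤ z} :=
    TopologicalSpace.isOpen_generateFrom_of_mem (g := {s | ∃ y z : L, s = {g : G | g y ≤ z}})
      ⟨w, z, rfl⟩
  have h2 : IsOpen {g : G | g y ≤ w} :=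
    TopologicalSpace.isOpen_generateFrom_of_mem (g := {s | ∃ y z : L, s = {g : G | g y ≤ z}})
      ⟨y, w, rfl⟩
  exact h1.prod h2

/-- Every open set containing one contains `{g | ∀ y ∈ E, g y ≤ y}` for some finite `E`. -/
lemma open_one (V : Set G)
    (hV : TopologicalSpace.GenerateOpen {s | ∃ y z : L, s = {g : G | g y ≤ z}} V) :
    (1 : G) ∈ V → ∃ E : Set L, E.Finite ∧ {g : G | ∀ y ∈ E, g y ≤ y} ⊆ V := by
  induction hV with
  | basic s hs =>
    intro h1
    obtain ⟨y, z, rfl⟩ := hs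
    refine ⟨{y}, finite_singleton y, ?_⟩
    intro g hg
    exact (hg y rfl).trans h1
  | univ => exact fun _ => ⟨∅, finite_empty, subset_univ _⟩
  | inter s t _ _ ihs iht =>
    intro h1
    obtain ⟨E1, hE1, h2⟩ := ihs h1.1
    obtain ⟨E2, hE2, h3⟩ := iht h1.2
    refine ⟨E1 ∪ E2, hE1.union hE2, fun g hg => ⟨h2 ?_, h3 ?_⟩⟩
    · exact fun y hy => hg y (Or.inl hy)
    · exact fun y hy => hg y (Or.inr hy)
  | sUnion S _ ih =>
    intro h1
    obtain ⟨s, hs, h1s⟩ := h1
    obtain ⟨E, hE, h2⟩ := ih s hs h1s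
    exact ⟨E, hE, h2.trans (subset_sUnion_of_mem hs)⟩

lemma nhds_one (U : Set G) (hU : U ∈ @nhds G τ 1) :
    ∃ E : Set L, E.Finite ∧ {g : G | ∀ y ∈ E, g y ≤ y} ⊆ U := by
  obtain ⟨V, hVU, hV, h1⟩ := (@mem_nhds_iff G τ 1 U).mp hU
  obtain ⟨E, hE, h⟩ := open_one V hV h1
  exact ⟨E, hE, h.trans hVU⟩

/-- Right boundedness. -/
lemma right_bdd (U : Set G) (hU : U ∈ @nhds G τ 1) :
    ∃ F : Set G, F.Countable ∧ U * F = Set.univ := by
  obtain ⟨E, hE, hEU⟩ := nhds_one U hU
  have hW : Nonempty W := by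
    obtain ⟨a, -⟩ := exists_gt ∅ countable_empty
    exact ⟨a⟩
  obtain ⟨w0⟩ := hW
  have : Nonempty L := ⟨toLex (w0, 0)⟩
  obtain ⟨b, hb⟩ := hE.bddAbove
  obtain ⟨c, hc⟩ := hE.bddBelow
  -- a countable coinitial sequence
  have hbot : ∃ a0 : W, ∀ a : W, a0 ≤ a := by
    have hwf : WellFounded (fun x y : W => x < y) := wellFounded_lt
    refine ⟨hwf.min univ ⟨w0, mem_univ _⟩, fun a => ?_⟩
    exact not_lt.mp (hwf.not_lt_min univ (mem_univ a))
  obtain ⟨a0, ha0⟩ := hbot
  choose f hf using fun n : ℕ => trans_L (toLex (a0, -(n : ℚ))) b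
  refine ⟨range f, countable_range f, ?_⟩
  rw [eq_univ_iff_forall]
  intro h
  -- choose n
  have hn : ∃ n : ℕ, (toLex (a0, -(n : ℚ)) : L) ≤ h.symm c := by
    obtain ⟨n, hn⟩ := exists_nat_ge (-(ofLex (h.symm c)).2)
    refine ⟨n, ?_⟩
    rw [Prod.Lex.le_iff]
    rcases (ha0 (ofLex (h.symm c)).1).lt_or_eq with h1 | h1
    · left; exact h1
    · right; exact ⟨h1, by simp only [ofLex_toLex]; linarith⟩
  obtain ⟨n, hn⟩ := hn
  rw [Set.mem_mul]
  refine ⟨h * (f n)⁻¹, hEU ?_, f n, mem_range_self n, by simp⟩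
  intro y hy
  have h1 : (f n).symm y ≤ toLex (a0, -(n : ℚ)) := by
    have : (f n).symm y ≤ (f n).symm b := (f n).symm.monotone (hb hy)
    rwa [← hf n, OrderIso.symm_apply_apply] at this
  have h2 : h.symm c ≤ h.symm y := h.symm.monotone (hc hy)
  have h3 : (f n).symm y ≤ h.symm y := (h1.trans hn).trans h2
  have h4 : h ((f n).symm y) ≤ h (h.symm y) := h.monotone h3
  rw [OrderIso.apply_symm_apply] at h4
  exact h4

/-- Failure of left boundedness. -/
lemma not_left (y : L) : ¬ ∃ F : Set G, F.Countable ∧ F * {g : G | g y ≤ y} = Set.univ := by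
  rintro ⟨F, hF, hFU⟩
  obtain ⟨a, ha⟩ := exists_gt ((fun f : G => (ofLex (f y)).1) '' F) (hF.image _)
  obtain ⟨h, hh⟩ := trans_L y (toLex (a, 0))
  have hmem : h ∈ F * {g : G | g y ≤ y} := by rw [hFU]; exact mem_univ _
  obtain ⟨f, hf, u, hu, rfl⟩ := Set.mem_mul.mp hmem
  have h1 : (f * u) y ≤ f y := f.monotone hu
  rw [hh] at h1
  have h2 := Prod.Lex.monotone_fst _ _ h1
  have h3 := ha _ ⟨f, hf, rfl⟩
  exact absurd h3 (not_lt.mpr h2)

/-- The negation of the preceding statement: In every group with a topology making multiplication continuous, if each neighbourhood U of the identity admits a countable F with U·F = G, then each such U also admits a countable F with F·U = G. -/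
theorem result :
    ¬ (∀ (G : Type) [Group G] [TopologicalSpace G] [ContinuousMul G],
      (∀ U ∈ 𝓝 (1 : G), ∃ F : Set G, F.Countable ∧ U * F = Set.univ) →
      (∀ U ∈ 𝓝 (1 : G), ∃ F : Set G, F.Countable ∧ F * U = Set.univ)) := by
  intro H
  obtain ⟨a, -⟩ := exists_gt ∅ countable_empty
  let y : L := toLex (a, 0)
  have hU : {g : G | g y ≤ y} ∈ @nhds G τ 1 := by
    refine (@mem_nhds_iff G τ 1 _).mpr ⟨{g : G | g y ≤ y}, subset_rfl, ?_, ?_⟩
    · exact TopologicalSpace.isOpen_generateFrom_of_mem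
        (g := {s | ∃ y z : L, s = {g : G | g y ≤ z}}) ⟨y, y, rfl⟩
    · exact le_refl y
  exact not_left y (@H G _ τ contMul right_bdd _ hU)

end Pool.Agent.S3358
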