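import Pool.Statements.S3384
import Pool.Agent.H8.S3384aux

set_option autoImplicit false
open Pool Pool.MP_fc9318_gt

namespace Pool.Agent.S3384

/-- The negation of the preceding statement: For every Tychonoff X, if C_p(X) (pointwise topology) has a uniformly dense subspace in which closures of countable sets have countable networks, then closures of countable subsets of C_p(X) have countable networks. -/
theorem result :
    ¬ (∀ (X : Type) [TopologicalSpace X] [T35Space X] (Y : Set (X → ℝ)),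
      Y ⊆ {f : X → ℝ | Continuous f} →
      (∀ f : X → ℝ, Continuous f → ∀ ε : ℝ, ε > 0 → ∃ g ∈ Y, ∀ x : X, |f x - g x| < ε) →
      (∀ A : Set (X → ℝ), A ⊆ Y → A.Countable →
        ∃ 𝒩 : Set (Set (X → ℝ)), 𝒩.Countable ∧
          ∀ h ∈ closure A ∩ Y, ∀ U : Set (X → ℝ), IsOpen U → h ∈ U →
            ∃ N ∈ 𝒩, h ∈ N ∧ N ⊆ U ∩ (closure A ∩ Y)) →
      (∀ A : Set (X → ℝ), A ⊆ {f : X → ℝ | Continuous f} → A.Countable →
        ∃ 𝒩 : Set (Set (X → ℝ)), 𝒩.Countable ∧
          ∀ h ∈ closure A ∩ {f : X → ℝ | Continuous f}, ∀ U : Set (X → ℝ), IsOpen U → h ∈ U →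
            ∃ N ∈ 𝒩, h ∈ N ∧ N ⊆ U ∩ (closure A ∩ {f : X → ℝ | Continuous f}))) := by
  exact Pool.Agent.H8.UMon.main_thm

end Pool.Agent.S3384
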