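import Pool.Statements.S3426
import Pool.Agent.H0.Rb.Col

set_option autoImplicit false
open Cardinal
open Pool Pool.MP_15d45c_lc

namespace Pool.Agent.S3426

/-- The negation of the preceding statement: For any colouring of the edges of the complete graph on ℵ₁ vertices with ℵ₁ colours such that every colour appears inside every ℵ₁-sized vertex set, there is a countably infinite vertex set whose edges all get distinct colours. -/
theorem result :
    ¬ (∀ (V ι : Type), Cardinal.mk V = Cardinal.aleph 1 → Cardinal.mk ι = Cardinal.aleph 1 →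
      ∀ c : Sym2 V → ι,
        (∀ α : ι, ∀ S : Set V, Cardinal.mk S = Cardinal.aleph 1 →
            ∃ x ∈ S, ∃ y ∈ S, x ≠ y ∧ c s(x, y) = α) →
        ∃ T : Set V, T.Infinite ∧ T.Countable ∧
          ∀ x ∈ T, ∀ y ∈ T, ∀ z ∈ T, ∀ w ∈ T, x ≠ y → z ≠ w →
            c s(x, y) = c s(z, w) → s(x, y) = s(z, w)) := by
  intro H
  let Ω : Type := (Cardinal.aleph 1).ord.ToType
  have hcard : Cardinal.mk Ω = Cardinal.aleph 1 := Cardinal.mk_ord_toType _
  have hunc : Uncountable Ω := by
    rw [← Cardinal.aleph0_lt_mk_iff, hcard]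
    exact Cardinal.aleph0_lt_aleph_one
  have hc0 : ∀ β : Ω, (Set.Iio β).Countable := by
    intro β
    rw [← Cardinal.le_aleph0_iff_set_countable, ← Order.lt_succ_iff, Cardinal.succ_aleph0]
    have := Cardinal.mk_Iio_lt β (by rw [hcard]; simp [Ω])
    rwa [hcard] at this
  have hc : ∀ β : Ω, (Set.Iic β).Countable := by
    intro β
    have : Set.Iic β = insert β (Set.Iio β) := by
      ext x
      simp [le_iff_eq_or_lt]
    rw [this]
    exact (hc0 β).insert β
  have hexe : ∀ β : Ω, ∃ f : Ω → ℕ, Set.InjOn f (Set.Iio β) := fun β => Set.countable_iff_exists_injOn.1 (hc0 β)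
  choose e he using hexe
  have hexr : Nonempty (Ω ↪ (ℕ → Bool)) := by
    rw [← Cardinal.le_def, hcard]
    have : Cardinal.mk (ℕ → Bool) = Cardinal.continuum := by simp
    rw [this]
    exact Cardinal.aleph_one_le_continuum
  obtain ⟨r⟩ := hexr
  obtain ⟨h, hh⟩ := Pool.Agent.Rb.exists_h hc e he r r.injective
  obtain ⟨o⟩ : Nonempty Ω := inferInstance
  set cc : Ω → Ω → Ω := Pool.Agent.Rb.col e r h o with hcc
  let c : Sym2 Ω → Ω := Sym2.lift ⟨fun x y => cc (min x y) (max x y), fun x y => by
    change cc (min x y) (max x y) = cc (min y x) (max y x)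
    rw [min_comm, max_comm]⟩
  have hcv : ∀ x y : Ω, x < y → c s(x, y) = cc x y := by
    intro x y hxy
    change cc (min x y) (max x y) = cc x y
    rw [min_eq_left hxy.le, max_eq_right hxy.le]
  obtain ⟨T, hTinf, -, hT⟩ := H Ω Ω hcard hcard c (by
    intro α S hS
    have hSc : ¬ S.Countable := by
      rw [← Cardinal.le_aleph0_iff_set_countable, hS, not_le]
      exact Cardinal.aleph0_lt_aleph_one
    obtain ⟨x, hx, y, hy, hlt, hxy⟩ := Pool.Agent.Rb.col_adm hc e he r r.injective hh o hSc α
    exact ⟨x, hx, y, hy, hlt.ne, (hcv x y hlt).trans hxy⟩)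
  obtain ⟨w, hw, x, hx, y, hy, hwx, hwy, hne, heq⟩ :=
    Pool.Agent.Rb.no_rainbow e he r r.injective (h := h) o hTinf
  have h1 := hT w hw x hx w hw y hy hwx.ne hwy.ne ((hcv w x hwx).trans (heq.trans (hcv w y hwy).symm))
  rw [Sym2.eq_iff] at h1
  rcases h1 with h1 | h1
  · exact hne h1.2
  · exact hwy.ne h1.1

end Pool.Agent.S3426
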