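import Pool.Statements.S3429
import Pool.Agent.H6.Gauge2

set_option autoImplicit false
open scoped NNReal ENNReal
open Pool Pool.MP_173f50_lc

namespace Pool.Agent.S3429

open H6.Gauge Set MeasureTheory

/-- code set of `x` -/
def cset (x : ℕ → Bool) : Set ℕ := {m | x (m / 2) = decide (m % 2 = 1)}

/-- free positions of `x` -/
def Fx (x : ℕ → Bool) : Set ℕ := {n | (Nat.unpair (Nat.log 4 (n + 1))).1 ∉ cset x}

theorem log_eq {k n : ℕ} (h1 : 4 ^ k ≤ n + 1) (h2 : n + 1 < 4 ^ (k + 1)) :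
    Nat.log 4 (n + 1) = k := (Nat.log_eq_iff (Or.inr ⟨by norm_num, by omega⟩)).mpr ⟨h1, h2⟩

theorem exists_sep {x y : ℕ → Bool} (h : x ≠ y) : ∃ m, m ∈ cset x ∧ m ∉ cset y := by
  obtain ⟨i, hi⟩ := Function.ne_iff.mp h
  cases hx : x i
  · refine ⟨2 * i, ?_, ?_⟩
    · show x (2 * i / 2) = decide (2 * i % 2 = 1)
      have e1 : 2 * i / 2 = i := by omega
      have e2 : ¬ (2 * i % 2 = 1) := by omega
      rw [e1, hx]; simp [e2]
    · show ¬ (y (2 * i / 2) = decide (2 * i % 2 = 1))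
      have e1 : 2 * i / 2 = i := by omega
      have e2 : ¬ (2 * i % 2 = 1) := by omega
      rw [e1]
      intro h
      apply hi
      rw [hx, h]; simp [e2]
  · refine ⟨2 * i + 1, ?_, ?_⟩
    · show x ((2 * i + 1) / 2) = decide ((2 * i + 1) % 2 = 1)
      have e1 : (2 * i + 1) / 2 = i := by omega
      have e2 : ((2 * i + 1) % 2 = 1) := by omega
      rw [e1, hx]; simp [e2]
    · show ¬ (y ((2 * i + 1) / 2) = decide ((2 * i + 1) % 2 = 1))
      have e1 : (2 * i + 1) / 2 = i := by omega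
      have e2 : ((2 * i + 1) % 2 = 1) := by omega
      rw [e1]
      intro h
      apply hi
      rw [hx, h]; simp [e2]

theorem mem_Fx_of {y : ℕ → Bool} {m : ℕ} (hm : m ∉ cset y) (j n : ℕ)
    (h1 : 4 ^ (Nat.pair m j) ≤ n + 1) (h2 : n + 1 < 4 ^ (Nat.pair m j + 1)) : n ∈ Fx y := by
  show (Nat.unpair (Nat.log 4 (n + 1))).1 ∉ cset y
  rw [log_eq h1 h2, Nat.unpair_pair]
  exact hm

theorem notMem_Fx_of {x : ℕ → Bool} {m : ℕ} (hm : m ∈ cset x) (j n : ℕ)
    (h1 : 4 ^ (Nat.pair m j) ≤ n + 1) (h2 : n + 1 < 4 ^ (Nat.pair m j + 1)) : n ∉ Fx x := by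
  intro h
  have h' : (Nat.unpair (Nat.log 4 (n + 1))).1 ∉ cset x := h
  rw [log_eq h1 h2, Nat.unpair_pair] at h'
  exact h' hm

theorem Fx_infinite (x : ℕ → Bool) : (Fx x).Infinite := by
  obtain ⟨m, -, hm⟩ := exists_sep (x := fun i => !(x i)) (y := x) (by
    intro h
    have := congrFun h 0
    simp at this)
  apply Set.infinite_of_forall_exists_gt
  intro a
  have h1 : a ≤ Nat.pair m (a + 1) := le_trans (Nat.le_succ a) (Nat.right_le_pair m (a + 1))
  have h2 : Nat.pair m (a + 1) < 4 ^ (Nat.pair m (a + 1)) := Nat.lt_pow_self (by norm_num)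
  have h3 : a + 1 ≤ Nat.pair m (a + 1) := Nat.right_le_pair m (a + 1)
  have h4 : 4 ^ (Nat.pair m (a + 1) + 1) = 4 * 4 ^ (Nat.pair m (a + 1)) := by rw [pow_succ]; ring
  refine ⟨4 ^ (Nat.pair m (a + 1)) - 1, mem_Fx_of hm (a + 1) _ (by omega) (by omega), by omega⟩

/-- the family of sets -/
def A (S : Set (ℕ → Bool)) : Set ℝ := ⋃ x ∈ S, KK (Fx x)

theorem A_pos {S : Set (ℕ → Bool)} {y : ℕ → Bool} (hy : y ∈ S) :
    0 < (OuterMeasure.mkMetric (fun r : ℝ≥0∞ => ((g (Fx y) r.toNNReal : ℝ≥0) : ℝ≥0∞)) :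
      OuterMeasure ℝ) (A S) :=
  lt_of_lt_of_le (K_pos (Fx_infinite y)) (measure_mono (subset_biUnion_of_mem (u := fun x => KK (Fx x)) hy))

theorem A_null {S : Set (ℕ → Bool)} {y : ℕ → Bool} (hy : y ∉ S) :
    (OuterMeasure.mkMetric (fun r : ℝ≥0∞ => ((g (Fx y) r.toNNReal : ℝ≥0) : ℝ≥0∞)) :
      OuterMeasure ℝ) (A S) = 0 := by
  classical
  let D : ℕ → Set ℝ := fun m => if m ∈ cset y then ∅ else
    {v | ∃ a : ℕ → Bool, (∀ j n, 4 ^ (Nat.pair m j) ≤ n + 1 → n + 1 < 4 ^ (Nat.pair m j + 1) →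
      a n = false) ∧ v = z a}
  have hsub : A S ⊆ ⋃ m, D m := by
    intro v hv
    obtain ⟨x, hx, a, ha, rfl⟩ := mem_iUnion₂.mp hv
    have hxy : x ≠ y := fun h => hy (h ▸ hx)
    obtain ⟨m, hm1, hm2⟩ := exists_sep hxy
    refine mem_iUnion.mpr ⟨m, ?_⟩
    simp only [D, hm2, if_false]
    exact ⟨a, fun j n h1 h2 => ha n (notMem_Fx_of hm1 j n h1 h2), rfl⟩
  refine measure_mono_null hsub ?_
  rw [measure_iUnion_null_iff]
  intro m
  by_cases hm : m ∈ cset y
  · simp only [D, hm, if_true]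
    exact measure_empty
  · simp only [D, hm, if_false]
    exact D_null (fun j => Nat.pair m j) (fun j => Nat.right_le_pair m j)
      (fun j n h1 h2 => mem_Fx_of hm j n h1 h2) _ (fun v hv => hv)

/-- The family of sets {gauge functions f (nondecreasing, right-continuous, f(0)=0, positive off 0) with positive f-Hausdorff measure on A}, as A ranges over subsets of the reals, has cardinality 2 to the continuum. -/
theorem result :
    Cardinal.mk
      (Set.range (fun A : Set ℝ =>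
        {f : ℝ≥0 → ℝ≥0 |
          Monotone f ∧ f 0 = 0 ∧ (∀ r : ℝ≥0, 0 < r → 0 < f r) ∧
          (∀ x : ℝ≥0, ContinuousWithinAt f (Set.Ici x) x) ∧
          0 < (MeasureTheory.OuterMeasure.mkMetric
                (fun r : ℝ≥0∞ => ((f r.toNNReal : ℝ≥0) : ℝ≥0∞)) :
                MeasureTheory.OuterMeasure ℝ) A}))
      = 2 ^ Cardinal.continuum := by
  apply le_antisymm
  · refine le_trans Cardinal.mk_range_le ?_
    rw [Cardinal.mk_set, Cardinal.mk_real]
  · have hX : Cardinal.mk (Set (ℕ → Bool)) = 2 ^ Cardinal.continuum := by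
      rw [Cardinal.mk_set]
      congr 1
      simp
    rw [← hX]
    refine Cardinal.mk_le_of_injective
      (f := fun S : Set (ℕ → Bool) => ⟨_, mem_range_self (A S)⟩) ?_
    intro S S' h
    have h' := congrArg Subtype.val h
    simp only at h'
    ext y
    have h2 := Set.ext_iff.mp h' (g (Fx y))
    simp only [mem_ofPred_eq] at h2
    have h3 : ∀ T : Set (ℕ → Bool), y ∈ T ↔ (Monotone (g (Fx y)) ∧ g (Fx y) 0 = 0 ∧
        (∀ r : ℝ≥0, 0 < r → 0 < g (Fx y) r) ∧
        (∀ x : ℝ≥0, ContinuousWithinAt (g (Fx y)) (Set.Ici x) x) ∧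
        0 < (MeasureTheory.OuterMeasure.mkMetric
          (fun r : ℝ≥0∞ => ((g (Fx y) r.toNNReal : ℝ≥0) : ℝ≥0∞)) :
          MeasureTheory.OuterMeasure ℝ) (A T)) := by
      intro T
      constructor
      · intro hT
        exact ⟨g_mono _, g_zero _, fun r hr => g_pos _ hr, g_cont _ (Fx_infinite y), A_pos hT⟩
      · rintro ⟨_, _, _, _, h5⟩
        by_contra hcon
        rw [A_null hcon] at h5
        exact lt_irrefl _ h5
    exact (h3 S).trans (h2.trans (h3 S').symm)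

end Pool.Agent.S3429
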