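import Pool.Statements.S3506
import Pool.Agent.H6.ClubSel

set_option autoImplicit false
open Pool Pool.MP_40e9ab_lc

namespace Pool.Agent.S3506

open Cardinal Set H6.ClubSel

theorem exists_K (κ : Cardinal.{0}) (hreg : κ.IsRegular) :
    ∃ (K : Type) (_ : LinearOrder K) (_ : WellFoundedLT K), #K = κ ∧
      (∀ S : Set K, #S < κ → ∃ b, ∀ y ∈ S, y < b) ∧ (∀ x : K, #(Iic x) < κ) := by
  refine ⟨κ.ord.ToType, inferInstance, inferInstance, Cardinal.mk_ord_toType κ, ?_, ?_⟩
  · intro S hS
    by_contra hcon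
    push Not at hcon
    have h1 : IsCofinal S := fun a => by
      obtain ⟨y, hy, hay⟩ := hcon a
      exact ⟨y, hy, hay⟩
    have h2 : Order.cof κ.ord.ToType ≤ #S := Order.cof_le h1
    rw [Ordinal.cof_toType, hreg.cof_ord] at h2
    exact absurd hS (not_lt.mpr h2)
  · intro x
    have h1 : #(Iio x) < κ := by
      have := Cardinal.mk_Iio_lt x (by simp)
      simpa using this
    have h2 : Iic x ⊆ Iio x ∪ {x} := by
      intro y hy
      rcases lt_or_eq_of_le (mem_Iic.mp hy) with h | h
      · exact Or.inl h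
      · exact Or.inr h
    refine lt_of_le_of_lt (Cardinal.mk_le_mk_of_subset h2) ?_
    refine lt_of_le_of_lt (Cardinal.mk_union_le _ _) ?_
    refine Cardinal.add_lt_of_lt hreg.aleph0_le h1 ?_
    rw [Cardinal.mk_singleton]
    exact lt_of_lt_of_le Cardinal.one_lt_aleph0 hreg.aleph0_le

/-- The negation of the preceding statement: Any sigma-algebra on [0,1] that contains all subintervals and contains a one-point-per-part selector for every partition of [0,1] into parts of size at least two must consist of all subsets of [0,1]. -/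
theorem result :
    ¬ (∀ N : Set (Set (Set.Icc (0:ℝ) 1)),
      (∀ a b : ℝ,
        (Subtype.val : Set.Icc (0:ℝ) 1 → ℝ) ⁻¹' Set.Icc a b ∈ N ∧
        (Subtype.val : Set.Icc (0:ℝ) 1 → ℝ) ⁻¹' Set.Ico a b ∈ N ∧
        (Subtype.val : Set.Icc (0:ℝ) 1 → ℝ) ⁻¹' Set.Ioc a b ∈ N ∧
        (Subtype.val : Set.Icc (0:ℝ) 1 → ℝ) ⁻¹' Set.Ioo a b ∈ N) →
      (∀ s ∈ N, sᶜ ∈ N) →
      (∀ f : ℕ → Set (Set.Icc (0:ℝ) 1), (∀ n, f n ∈ N) → (⋃ n, f n) ∈ N) →
      (∀ P : Set (Set (Set.Icc (0:ℝ) 1)),
        P.PairwiseDisjoint id →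
        ⋃₀ P = Set.univ →
        (∀ p ∈ P, ∃ x ∈ p, ∃ y ∈ p, x ≠ y) →
        ∃ S ∈ N, ∀ p ∈ P, ∃! x, x ∈ p ∧ x ∈ S) →
      N = Set.univ) := by
  classical
  intro H
  -- the cardinal
  set κ : Cardinal.{0} := Cardinal.continuum.ord.cof with hκdef
  have hcont : Order.IsSuccLimit Cardinal.continuum.{0}.ord :=
    Cardinal.isSuccLimit_ord Cardinal.aleph0_le_continuum
  have hreg : κ.IsRegular := Cardinal.isRegular_cof hcont
  have hκ : ℵ₀ < κ := by
    have := Cardinal.lt_cof_ord_power (a := ℵ₀) (b := 2) le_rfl Cardinal.one_lt_two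
    rwa [Cardinal.two_power_aleph0] at this
  have hκle : κ ≤ Cardinal.continuum := Ordinal.cof_ord_le _
  have hbig : Cardinal.continuum.{0} < 2 ^ κ := by
    have h1 := Cardinal.lt_power_cof_ord (c := Cardinal.continuum.{0}) Cardinal.aleph0_le_continuum
    have h2 : Cardinal.continuum.{0} ^ κ = 2 ^ κ := by
      rw [← Cardinal.two_power_aleph0, ← Cardinal.power_mul,
        Cardinal.mul_eq_max le_rfl hκ.le, max_eq_right hκ.le]
    rw [← h2]
    exact h1
  obtain ⟨K, _, _, hK, hb, hI⟩ := exists_K κ hreg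
  -- embed `K` in the interval
  obtain ⟨ι⟩ : Nonempty (K ↪ Set.Icc (0:ℝ) 1) := by
    rw [← Cardinal.le_def, hK, Cardinal.mk_Icc_real (by norm_num)]
    exact hκle
  let N : Set (Set (Set.Icc (0:ℝ) 1)) :=
    {X | ∃ B : Set (Set.Icc (0:ℝ) 1), MeasurableSet B ∧ Null {k : K | ¬ (ι k ∈ X ↔ ι k ∈ B)}}
  have hmeas : ∀ B : Set (Set.Icc (0:ℝ) 1), MeasurableSet B → B ∈ N := by
    intro B hB
    refine ⟨B, hB, id, ?_⟩
    intro δ hδ
    exact absurd Iff.rfl hδ
  have hNuniv := H N ?_ ?_ ?_ ?_
  · -- `N` is not everything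
    obtain ⟨Γ, T, hΓ, hT1, hT2⟩ := splitting hb hκ hreg hI
    have hall : ∀ X, X ∈ N := fun X => by rw [hNuniv]; exact mem_univ X
    have h1 : ∀ A : Set Γ, ∃ B : Set (Set.Icc (0:ℝ) 1), MeasurableSet B ∧
        Null {k : K | ¬ (ι k ∈ ι '' (⋃ γ ∈ A, T γ.1) ↔ ι k ∈ B)} := fun A =>
      hall (ι '' (⋃ γ ∈ A, T γ.1))
    choose β hβ1 hβ2 using h1
    have hinj : Function.Injective β := by
      have key : ∀ A A' : Set Γ, β A = β A' → A ⊆ A' := by
        intro A A' hAA γ hγ
        by_contra hγ'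
        apply hT1 γ.1 γ.2
        refine (Null.union hb hκ (hβ2 A) (hβ2 A')).mono ?_
        intro k hk
        have hkA : ι k ∈ ι '' (⋃ γ ∈ A, T γ.1) := ⟨k, mem_biUnion hγ hk, rfl⟩
        have hkA' : ι k ∉ ι '' (⋃ γ ∈ A', T γ.1) := by
          rintro ⟨k', hk', hkk⟩
          have := ι.injective hkk
          subst this
          simp only [mem_iUnion] at hk'
          obtain ⟨γ', hγ'A, hk''⟩ := hk'
          have hne : γ.1 ≠ γ'.1 := by
            intro h
            have : γ = γ' := Subtype.ext h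
            subst this
            exact hγ' hγ'A
          exact Set.disjoint_left.mp (hT2 _ _ hne) hk hk''
        by_cases hkB : ι k ∈ β A
        · right
          intro h
          exact hkA' (h.mpr (hAA ▸ hkB))
        · left
          intro h
          exact hkB (h.mp hkA)
      intro A A' h
      exact Set.Subset.antisymm (key A A' h) (key A' A h.symm)
    have hle : #(Set Γ) ≤ #{B : Set (Set.Icc (0:ℝ) 1) // MeasurableSet B} :=
      Cardinal.mk_le_of_injective (f := fun A => (⟨β A, hβ1 A⟩ : {B // MeasurableSet B}))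
        (fun A A' h => hinj (congrArg Subtype.val h))
    have hle2 : #{B : Set (Set.Icc (0:ℝ) 1) // MeasurableSet B} ≤ Cardinal.continuum := by
      obtain ⟨b, hbc, hgen⟩ :=
        (inferInstance : MeasurableSpace.CountablyGenerated (Set.Icc (0:ℝ) 1)).isCountablyGenerated
      have h4 := MeasurableSpace.cardinal_measurableSet_le_continuum (s := b)
        (le_trans (Cardinal.le_aleph0_iff_set_countable.mpr hbc) Cardinal.aleph0_le_continuum)
      rw [← hgen] at h4
      exact h4
    have h3 : (2 : Cardinal.{0}) ^ κ ≤ #(Set Γ) := by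
      rw [Cardinal.mk_set]
      exact Cardinal.power_le_power_left two_ne_zero hΓ
    exact absurd (lt_of_lt_of_le hbig (le_trans h3 (le_trans hle hle2))) (lt_irrefl _)
  · intro a b
    exact ⟨hmeas _ (measurable_subtype_coe measurableSet_Icc),
      hmeas _ (measurable_subtype_coe measurableSet_Ico),
      hmeas _ (measurable_subtype_coe measurableSet_Ioc),
      hmeas _ (measurable_subtype_coe measurableSet_Ioo)⟩
  · rintro X ⟨B, hB, hX⟩
    refine ⟨Bᶜ, hB.compl, hX.mono ?_⟩
    intro k hk h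
    apply hk
    simp only [mem_compl_iff, h]
  · intro f hf
    choose B hB1 hB2 using hf
    refine ⟨⋃ n, B n, MeasurableSet.iUnion hB1, (Null.iUnion hb hκ hB2).mono ?_⟩
    intro k hk
    by_contra hcon
    apply hk
    simp only [mem_iUnion, not_exists, mem_ofPred_eq, not_not] at hcon ⊢
    exact exists_congr hcon
  · intro P hP1 hP2 hP3
    have hc : ∀ p : P, ∃ q : Set.Icc (0:ℝ) 1 × Set.Icc (0:ℝ) 1, q.1 ∈ p.1 ∧ q.2 ∈ p.1 ∧ q.1 ≠ q.2 := by
      intro p
      obtain ⟨x, hx, y, hy, hxy⟩ := hP3 p.1 p.2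
      exact ⟨(x, y), hx, hy, hxy⟩
    choose q hq1 hq2 hq3 using hc
    -- partner function
    have hF : ∀ k : K, ∃ k' : K, ∀ p : P, ∀ k'' : K,
        (ι k = (q p).1 ∧ ι k'' = (q p).2) ∨ (ι k = (q p).2 ∧ ι k'' = (q p).1) → k'' = k' := by
      intro k
      by_cases h : ∃ p : P, ∃ k'' : K,
        (ι k = (q p).1 ∧ ι k'' = (q p).2) ∨ (ι k = (q p).2 ∧ ι k'' = (q p).1)
      · obtain ⟨p, k', hk'⟩ := h
        refine ⟨k', fun p' k'' hk'' => ?_⟩
        have hmem : ι k ∈ p.1 := by
          rcases hk' with h | h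
          · rw [h.1]; exact hq1 p
          · rw [h.1]; exact hq2 p
        have hmem' : ι k ∈ p'.1 := by
          rcases hk'' with h | h
          · rw [h.1]; exact hq1 p'
          · rw [h.1]; exact hq2 p'
        have hpp : p = p' := by
          by_contra hne
          have := hP1 p.2 p'.2 (fun h => hne (Subtype.ext h))
          exact Set.disjoint_left.mp this hmem hmem'
        subst hpp
        apply ι.injective
        rcases hk' with h | h <;> rcases hk'' with h' | h'
        · rw [h'.2, h.2]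
        · exact absurd (h.1.symm.trans h'.1) (hq3 p)
        · exact absurd (h'.1.symm.trans h.1) (hq3 p)
        · rw [h'.2, h.2]
      · push Not at h
        refine ⟨k, fun p k'' hk'' => ?_⟩
        exfalso
        rcases hk'' with h' | h'
        · exact (h p k'').1 h'.1 h'.2
        · exact (h p k'').2 h'.1 h'.2
    choose F hF using hF
    have hpair : ∀ p : P, ∃ s : Set.Icc (0:ℝ) 1, s ∈ p.1 ∧ ∀ k : K, ι k = s → k ∉ Cl F := by
      intro p
      by_cases h1 : ∃ k, ι k = (q p).1 ∧ k ∈ Cl F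
      · obtain ⟨k, hk, hkF⟩ := h1
        refine ⟨(q p).2, hq2 p, ?_⟩
        intro k' hk' hk'F
        have e1 : k' = F k := hF k p k' (Or.inl ⟨hk, hk'⟩)
        have e2 : k = F k' := hF k' p k (Or.inr ⟨hk', hk⟩)
        have hne : k ≠ k' := by
          intro h
          rw [h, hk'] at hk
          exact hq3 p hk.symm
        rcases lt_or_gt_of_ne hne with hlt | hlt
        · have := hk'F.2 k hlt
          rw [← e1] at this
          exact lt_irrefl _ this
        · have := hkF.2 k' hlt
          rw [← e2] at this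
          exact lt_irrefl _ this
      · push Not at h1
        exact ⟨(q p).1, hq1 p, h1⟩
    choose s hs1 hs2 using hpair
    refine ⟨range s, ⟨∅, MeasurableSet.empty, F, ?_⟩, ?_⟩
    · intro k hk
      have : ι k ∈ range s := by
        by_contra hcon
        exact hk (by simp [hcon])
      obtain ⟨p, hp⟩ := this
      exact hs2 p k hp.symm
    · intro p hp
      refine ⟨s ⟨p, hp⟩, ⟨hs1 ⟨p, hp⟩, ⟨_, rfl⟩⟩, ?_⟩
      rintro x ⟨hxp, ⟨p', rfl⟩⟩
      have : p' = ⟨p, hp⟩ := by
        by_contra hne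
        have := hP1 p'.2 hp (fun h => hne (Subtype.ext h))
        exact Set.disjoint_left.mp this (hs1 p') hxp
      rw [this]

end Pool.Agent.S3506
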