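import Pool.Statements.S3530

set_option autoImplicit false
open Pool Pool.MP_5708a2_lc

namespace Pool.Agent.S3530

open Cardinal in
theorem exists_dec : ∃ dec : ℝ → (ℕ → ℕ → Bool), Function.Surjective dec := by
  have h : #ℝ = #(ℕ → ℕ → Bool) := by
    rw [Cardinal.mk_real]
    simp
  obtain ⟨e⟩ := Cardinal.eq.1 h
  exact ⟨e, e.surjective⟩

/-- Sets whose membership is determined by a finite grid cell and the pattern of `G`. -/
def Q (G : Set (Set (ℝ × ℝ))) : Set (Set (ℝ × ℝ)) :=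
  {S | ∃ (α β : Type) (_ : Finite α) (_ : Finite β) (a : ℝ → α) (b : ℝ → β),
    ∀ x y x' y' : ℝ, a x = a x' → b y = b y' → (∀ g ∈ G, ((x, y) ∈ g ↔ (x', y') ∈ g)) →
      ((x, y) ∈ S ↔ (x', y') ∈ S)}

theorem Q_compl (G : Set (Set (ℝ × ℝ))) : ∀ T ∈ Q G, Tᶜ ∈ Q G := by
  rintro T ⟨α, β, hα, hβ, a, b, h⟩
  exact ⟨α, β, hα, hβ, a, b, fun x y x' y' h1 h2 h3 => not_congr (h x y x' y' h1 h2 h3)⟩

theorem Q_union (G : Set (Set (ℝ × ℝ))) : ∀ T ∈ Q G, ∀ U ∈ Q G, T ∪ U ∈ Q G := by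
  rintro T ⟨α, β, hα, hβ, a, b, h⟩ U ⟨α', β', hα', hβ', a', b', h'⟩
  refine ⟨α × α', β × β', inferInstance, inferInstance, fun x => (a x, a' x),
    fun y => (b y, b' y), fun x y x' y' h1 h2 h3 => ?_⟩
  simp only [Prod.mk.injEq] at h1 h2
  exact or_congr (h x y x' y' h1.1 h2.1 h3) (h' x y x' y' h1.2 h2.2 h3)

theorem Q_projX (G : Set (Set (ℝ × ℝ))) :
    ∀ T ∈ Q G, {p : ℝ × ℝ | p.2 = 0 ∧ ∃ y : ℝ, (p.1, y) ∈ T} ∈ Q G := by
  intro T _
  refine ⟨Prop, Prop, inferInstance, inferInstance, fun x => ∃ y : ℝ, (x, y) ∈ T,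
    fun y => y = 0, fun x y x' y' h1 h2 _ => ?_⟩
  exact and_congr (iff_of_eq h2) (iff_of_eq h1)

theorem Q_projY (G : Set (Set (ℝ × ℝ))) :
    ∀ T ∈ Q G, {p : ℝ × ℝ | p.1 = 0 ∧ ∃ x : ℝ, (x, p.2) ∈ T} ∈ Q G := by
  intro T _
  refine ⟨Prop, Prop, inferInstance, inferInstance, fun x => x = 0,
    fun y => ∃ x : ℝ, (x, y) ∈ T, fun x y x' y' h1 h2 _ => ?_⟩
  exact and_congr (iff_of_eq h1) (iff_of_eq h2)

theorem Q_prod (G : Set (Set (ℝ × ℝ))) :
    ∀ A ∈ Q G, ∀ B ∈ Q G, A ⊆ {p : ℝ × ℝ | p.2 = 0} → B ⊆ {p : ℝ × ℝ | p.1 = 0} →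
            {p : ℝ × ℝ | ((p.1, (0:ℝ)) ∈ A) ∧ (((0:ℝ), p.2) ∈ B)} ∈ Q G := by
  intro A _ B _ _ _
  refine ⟨Prop, Prop, inferInstance, inferInstance, fun x => (x, (0:ℝ)) ∈ A,
    fun y => ((0:ℝ), y) ∈ B, fun x y x' y' h1 h2 _ => ?_⟩
  exact and_congr (iff_of_eq h1) (iff_of_eq h2)

theorem Q_gen (G : Set (Set (ℝ × ℝ))) : G ⊆ Q G := by
  intro g hg
  exact ⟨Unit, Unit, inferInstance, inferInstance, fun _ => (), fun _ => (),
    fun x y x' y' _ _ h3 => h3 g hg⟩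

/-- The `n`-th set of the countable family. -/
def Cs (dec : ℝ → (ℕ → ℕ → Bool)) (n : ℕ) : Set (ℝ × ℝ) :=
  {p | ∃ k : ℕ, p.1 = k ∧ dec p.2 k n = true}

theorem mem_Cs (dec : ℝ → (ℕ → ℕ → Bool)) (n k : ℕ) (y : ℝ) :
    (((k : ℝ), y) ∈ Cs dec n) ↔ dec y k n = true := by
  constructor
  · rintro ⟨l, hl, h⟩
    have : k = l := Nat.cast_injective (R := ℝ) hl
    rw [this]
    exact h
  · intro h
    exact ⟨k, rfl, h⟩

theorem main (dec : ℝ → (ℕ → ℕ → Bool)) (hdec : Function.Surjective dec)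
    (G : Set (Set (ℝ × ℝ))) (hG : G.Finite) (h : ∀ n, Cs dec n ∈ Q G) : False := by
  classical
  haveI : Finite G := hG
  choose α β hα hβ a b hab using h
  -- number of patterns
  obtain ⟨m, hm⟩ : ∃ m : ℕ, Nat.card (G → Prop) < 2 ^ m :=
    ⟨Nat.card (G → Prop), Nat.lt_two_pow_self⟩
  let 𝔸 := (n : Fin m) → α n
  let 𝔹 := (n : Fin m) → β n
  haveI : ∀ n, Finite (α n) := hα
  haveI : ∀ n, Finite (β n) := hβ
  haveI : Finite 𝔸 := inferInstance
  haveI : Finite 𝔹 := inferInstance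
  let A : ℝ → 𝔸 := fun x n => a n x
  let B : ℝ → 𝔹 := fun y n => b n y
  have miss : ∀ (u : 𝔸) (v : 𝔹), ∃ p : Fin m → Bool, ∀ x y : ℝ, A x = u → B y = v →
      ¬ ∀ n : Fin m, ((x, y) ∈ Cs dec n ↔ p n = true) := by
    intro u v
    by_contra hcon
    push Not at hcon
    choose X Y hX hY hp using hcon
    have hinj : Function.Injective
        (fun (p : Fin m → Bool) (g : G) => ((X p, Y p) ∈ (g : Set (ℝ × ℝ)))) := by
      intro p q hpq
      funext n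
      have h1 : ∀ g ∈ G, ((X p, Y p) ∈ g ↔ (X q, Y q) ∈ g) := by
        intro g hg
        exact iff_of_eq (congrFun hpq ⟨g, hg⟩)
      have h2 : a n (X p) = a n (X q) := by
        have e1 := congrFun (hX p) n
        have e2 := congrFun (hX q) n
        exact e1.trans e2.symm
      have h3 : b n (Y p) = b n (Y q) := by
        have e1 := congrFun (hY p) n
        have e2 := congrFun (hY q) n
        exact e1.trans e2.symm
      have h4 := hab n (X p) (Y p) (X q) (Y q) h2 h3 h1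
      have h5 : p n = true ↔ q n = true := (hp p n).symm.trans (h4.trans (hp q n))
      exact Bool.eq_iff_iff.2 h5
    have hcard := Nat.card_le_card_of_injective _ hinj
    have h6 : Nat.card (Fin m → Bool) = 2 ^ m := by simp
    rw [h6] at hcard
    exact absurd hcard (not_le.2 hm)
  choose p hp using miss
  obtain ⟨u, hu⟩ := Finite.exists_infinite_fiber (fun k : ℕ => A (k : ℝ))
  haveI := hu
  obtain ⟨n0, ⟨e0⟩⟩ := Finite.exists_equiv_fin 𝔹
  let emb := Infinite.natEmbedding ((fun k : ℕ => A (k : ℝ)) ⁻¹' {u})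
  let e : 𝔹 → ℕ := fun v => (emb (e0 v) : ℕ)
  have he : Function.Injective e := by
    intro v w hvw
    have h1 : emb (e0 v) = emb (e0 w) := Subtype.ext hvw
    exact e0.injective (Fin.val_injective (emb.injective h1))
  have heu : ∀ v, A ((e v : ℕ) : ℝ) = u := fun v => (emb (e0 v)).2
  -- the diagonal function
  let Y0 : ℕ → ℕ → Bool := fun k n =>
    if h : (∃ v : 𝔹, e v = k) ∧ n < m then p u (Classical.choose h.1) ⟨n, h.2⟩ else false
  obtain ⟨y, hy⟩ := hdec Y0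
  have hval : ∀ (v : 𝔹) (n : Fin m), Y0 (e v) n = p u v n := by
    intro v n
    have h1 : (∃ w : 𝔹, e w = e v) ∧ (n : ℕ) < m := ⟨⟨v, rfl⟩, n.2⟩
    have h2 : Classical.choose h1.1 = v := he (Classical.choose_spec h1.1)
    show (if h : (∃ w : 𝔹, e w = e v) ∧ (n : ℕ) < m then
      p u (Classical.choose h.1) ⟨n, h.2⟩ else false) = p u v n
    rw [dif_pos h1, h2]
  apply hp u (B y) ((e (B y) : ℕ) : ℝ) y (heu _) rfl
  intro n
  rw [mem_Cs, hy, hval]

/-- The negation of the preceding statement: For every countable family of subsets of the real plane there is a finite family of plane sets such that every class containing it and closed under complement, union, projections onto the axes and products of axis sets contains the whole countable family. -/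
theorem result :
    ¬ (∀ F : Set (Set (ℝ × ℝ)), F.Countable →
      ∃ G : Set (Set (ℝ × ℝ)), G.Finite ∧
        ∀ S ∈ F, ∀ C : Set (Set (ℝ × ℝ)),
          (∀ T ∈ C, Tᶜ ∈ C) →
          (∀ T ∈ C, ∀ U ∈ C, T ∪ U ∈ C) →
          (∀ T ∈ C, {p : ℝ × ℝ | p.2 = 0 ∧ ∃ y : ℝ, (p.1, y) ∈ T} ∈ C) →
          (∀ T ∈ C, {p : ℝ × ℝ | p.1 = 0 ∧ ∃ x : ℝ, (x, p.2) ∈ T} ∈ C) →
          (∀ A ∈ C, ∀ B ∈ C, A ⊆ {p : ℝ × ℝ | p.2 = 0} → B ⊆ {p : ℝ × ℝ | p.1 = 0} →
            {p : ℝ × ℝ | ((p.1, (0:ℝ)) ∈ A) ∧ (((0:ℝ), p.2) ∈ B)} ∈ C) →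
          G ⊆ C → S ∈ C) := by
  intro H
  obtain ⟨dec, hdec⟩ := exists_dec
  obtain ⟨G, hG, h⟩ := H (Set.range (Cs dec)) (Set.countable_range _)
  exact main dec hdec G hG fun n => h (Cs dec n) ⟨n, rfl⟩ (Q G) (Q_compl G) (Q_union G)
    (Q_projX G) (Q_projY G) (Q_prod G) (Q_gen G)

end Pool.Agent.S3530
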