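import Pool.Statements.S3575
import Pool.Agent.H6.SPairC

set_option autoImplicit false
open Pool Pool.MP_73efbe_lc

namespace Pool.Agent.S3575

/-- There are non-c.e. sets A, B of the same enumeration degree such that every set s-reducible to both A and B is c.e. -/
theorem result :
    ∃ A B : Set ℕ,
      (∃ W : Set (ℕ × List ℕ),
        (∃ f : ℕ × List ℕ →. ℕ, Partrec f ∧ ∀ p : ℕ × List ℕ, (f p).Dom ↔ p ∈ W) ∧
        ∀ x : ℕ, x ∈ A ↔ ∃ l : List ℕ, (x, l) ∈ W ∧ ∀ y ∈ l, y ∈ B) ∧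
      (∃ W : Set (ℕ × List ℕ),
        (∃ f : ℕ × List ℕ →. ℕ, Partrec f ∧ ∀ p : ℕ × List ℕ, (f p).Dom ↔ p ∈ W) ∧
        ∀ x : ℕ, x ∈ B ↔ ∃ l : List ℕ, (x, l) ∈ W ∧ ∀ y ∈ l, y ∈ A) ∧
      (¬ ∃ f : ℕ →. ℕ, Partrec f ∧ ∀ n : ℕ, (f n).Dom ↔ n ∈ A) ∧
      (¬ ∃ f : ℕ →. ℕ, Partrec f ∧ ∀ n : ℕ, (f n).Dom ↔ n ∈ B) ∧
      ∀ C : Set ℕ,
        (∃ W : Set (ℕ × ℕ),
          (∃ f : ℕ × ℕ →. ℕ, Partrec f ∧ ∀ p : ℕ × ℕ, (f p).Dom ↔ p ∈ W) ∧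
          ∀ x : ℕ, x ∈ C ↔ ∃ y ∈ A, (x, y) ∈ W) →
        (∃ W : Set (ℕ × ℕ),
          (∃ f : ℕ × ℕ →. ℕ, Partrec f ∧ ∀ p : ℕ × ℕ, (f p).Dom ↔ p ∈ W) ∧
          ∀ x : ℕ, x ∈ C ↔ ∃ y ∈ B, (x, y) ∈ W) →
        ∃ f : ℕ →. ℕ, Partrec f ∧ ∀ n : ℕ, (f n).Dom ↔ n ∈ C := by
  obtain ⟨X, hEF, hN, hne⟩ := Pool.Agent.H6.SPair.exists_generic
  refine ⟨Pool.Agent.H6.SPair.A X, Pool.Agent.H6.SPair.B X, ?_, ?_, ?_, ?_, ?_⟩
  · refine ⟨Pool.Agent.H6.SPair.WW 0, Pool.Agent.H6.SPair.WW_ce 0, fun x => ?_⟩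
    refine Pool.Agent.H6.SPair.recover X (Pool.Agent.H6.SPair.Z X) 0 (fun i => ?_) x
    unfold Pool.Agent.H6.SPair.Z
    rcases (show i % 2 = 0 ∨ i % 2 = 1 by omega) with h | h
    · rw [if_pos h, if_pos h, if_neg (by omega)]
      cases X i <;> cases X (i + 1) <;> cases X (i + 1 + 1) <;> rfl
    · rw [if_neg (by omega), if_neg (by omega), if_pos (by omega), if_neg (by omega)]
      cases X i <;> cases X (i + 1) <;> cases X (i + 1 + 1) <;> cases X (i + 1 + 2) <;> rfl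
  · refine ⟨Pool.Agent.H6.SPair.WW 1, Pool.Agent.H6.SPair.WW_ce 1, fun x => ?_⟩
    refine Pool.Agent.H6.SPair.recover (Pool.Agent.H6.SPair.Z X) X 1 (fun i => ?_) x
    unfold Pool.Agent.H6.SPair.Z
    rcases (show i % 2 = 0 ∨ i % 2 = 1 by omega) with h | h
    · rw [if_pos h, if_neg (by omega)]
    · rw [if_neg (by omega), if_pos h]
  · intro h
    exact (hne _ h).1 rfl
  · intro h
    exact (hne _ h).2 rfl
  · rintro C ⟨W, hW, hC⟩ ⟨W', hW', hC'⟩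
    obtain ⟨s, hs⟩ := Pool.Agent.H6.SPair.main_step (X := X) (W := W) (W' := W')
      (fun x => (hEF W hW x).1) (fun x => (hEF W' hW' x).2) (hN W W' hW hW')
      (fun x => (hC x).symm.trans (hC' x))
    obtain ⟨f, hf1, hf2⟩ := Pool.Agent.H6.SPair.ce_restrict hW s (Pool.Agent.H6.SPair.A X)
    refine ⟨f, hf1, fun n => ?_⟩
    rw [hf2 n, hC n]
    exact (hs n).symm

end Pool.Agent.S3575
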