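import Pool.Statements.S3636
-- import your own Pool.Agent.* helpers here

set_option autoImplicit false
open Pool Pool.MP_9c356a_lc

namespace Pool.Agent.S3636

/-- the morphism 0 ↦ 100, 1 ↦ 0 -/
def hh : Fin 2 → List (Fin 2) := ![[1, 0, 0], [0]]

def FF (u : List (Fin 2)) : List (Fin 2) := u.flatMap hh

def w0 : List (Fin 2) := [1, 0]

lemma FF_nil : FF [] = [] := rfl

lemma FF_cons0 (u : List (Fin 2)) : FF (0 :: u) = 1 :: 0 :: 0 :: FF u := rfl

lemma FF_cons1 (u : List (Fin 2)) : FF (1 :: u) = 0 :: FF u := rfl

lemma FF_append (u v : List (Fin 2)) : FF (u ++ v) = FF u ++ FF v := by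
  simp [FF, List.flatMap_append]

lemma iter_append (k : ℕ) : ∀ u v : List (Fin 2), FF^[k] (u ++ v) = FF^[k] u ++ FF^[k] v := by
  induction k with
  | zero => intro u v; rfl
  | succ k ih => intro u v; rw [Function.iterate_succ_apply, FF_append, ih]; rfl

lemma iter_nil (k : ℕ) : FF^[k] [] = [] := by
  induction k with
  | zero => rfl
  | succ k ih => rw [Function.iterate_succ_apply, FF_nil, ih]

lemma iter_flatten (k : ℕ) (L : List (List (Fin 2))) :
    FF^[k] L.flatten = (L.map (FF^[k])).flatten := by
  induction L with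
  | nil => simpa using iter_nil k
  | cons a L ih => simp only [List.flatten_cons, List.map_cons, iter_append, ih]

lemma fin2 (a : Fin 2) : a = 0 ∨ a = 1 := by
  fin_cases a
  · left; rfl
  · right; rfl

lemma FF_inj : Function.Injective FF := by
  intro u
  induction u with
  | nil =>
    intro v hv
    cases v with
    | nil => rfl
    | cons b v =>
      rcases fin2 b with rfl | rfl
      · exact absurd hv (by simp [FF_nil, FF_cons0])
      · exact absurd hv (by simp [FF_nil, FF_cons1])
  | cons a u ih =>
    intro v hv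
    cases v with
    | nil =>
      rcases fin2 a with rfl | rfl
      · exact absurd hv (by simp [FF_nil, FF_cons0])
      · exact absurd hv (by simp [FF_nil, FF_cons1])
    | cons b v =>
      rcases fin2 a with rfl | rfl <;> rcases fin2 b with rfl | rfl
      · simp only [FF_cons0, List.cons.injEq, true_and] at hv
        rw [ih hv]
      · simp [FF_cons0, FF_cons1] at hv
      · simp [FF_cons0, FF_cons1] at hv
      · simp only [FF_cons1, List.cons.injEq, true_and] at hv
        rw [ih hv]

lemma step3 : FF^[3] w0 = FF w0 ++ (w0 ++ (FF w0 ++ (FF w0 ++ FF^[2] w0))) := by decide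

/-- a word over the two pieces `FF w0 = 0100` and `w0 = 10` is never `FF^[2] w0` -/
lemma no_fact (L : List ℕ) (hL : ∀ i ∈ L, i = 1 ∨ i = 2) :
    FF^[2] w0 ≠ (L.map (fun i => FF^[2 - i] w0)).flatten := by
  have h2 : FF^[2] w0 = [1, 0, 0, 0, 1, 0, 0, 1, 0, 0] := by decide
  have f1 : FF w0 = [0, 1, 0, 0] := by decide
  have f2 : FF [1, 0] = [0, 1, 0, 0] := by decide
  rw [h2]
  cases L with
  | nil => simp
  | cons a L =>
    rcases hL a (by simp) with rfl | rfl
    · simp [f1]
    · cases L with
      | nil => simp [w0]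
      | cons b L =>
        rcases hL b (by simp) with rfl | rfl
        · simp [f2, w0]
        · simp [w0]

lemma le_foldr (L : List ℕ) : ∀ i ∈ L, i ≤ L.foldr max 0 := by
  induction L with
  | nil => simp
  | cons a L ih =>
    intro i hi
    rcases List.mem_cons.1 hi with rfl | hi
    · simp
    · exact le_trans (ih i hi) (by simp)

/-- The negation of the preceding statement: For every D0L system over an n-letter alphabet, words w_m = h^m(w): if eventually w_m = w_{m-i_1}…w_{m-i_k} for some nonempty list of positive i_j, then such a formula exists with max i_j ≤ n!, and conversely. -/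
theorem result :
    ¬ (∀ (n : ℕ) (h : Fin n → List (Fin n)) (w : List (Fin n)),
    (∃ d : ℕ, ∃ L : List ℕ, ∃ N : ℕ, L ≠ [] ∧ (∀ i ∈ L, 0 < i) ∧ L.foldr max 0 = d ∧ d ≤ N ∧
        ∀ m : ℕ, N ≤ m →
          (fun u : List (Fin n) => u.flatMap h)^[m] w =
            (L.map (fun i => (fun u : List (Fin n) => u.flatMap h)^[m - i] w)).flatten) ↔
    (∃ d : ℕ, d ≤ n.factorial ∧ ∃ L : List ℕ, ∃ N : ℕ, L ≠ [] ∧ (∀ i ∈ L, 0 < i) ∧
        L.foldr max 0 = d ∧ d ≤ N ∧
        ∀ m : ℕ, N ≤ m →
          (fun u : List (Fin n) => u.flatMap h)^[m] w =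
            (L.map (fun i => (fun u : List (Fin n) => u.flatMap h)^[m - i] w)).flatten)) := by
  intro H
  have H2 := (H 2 hh w0).1 ?_
  · obtain ⟨d, hd, L, N, -, hpos, hmax, -, hN⟩ := H2
    have hL : ∀ i ∈ L, i = 1 ∨ i = 2 := by
      intro i hi
      have h1 := hpos i hi
      have h2 := le_foldr L i hi
      have h3 : Nat.factorial 2 = 2 := rfl
      omega
    have key : FF^[N + 2] w0 = (L.map (fun i => FF^[N + 2 - i] w0)).flatten :=
      hN (N + 2) (by omega)
    have e1 : (L.map (fun i => FF^[N + 2 - i] w0)).flatten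
        = FF^[N] (L.map (fun i => FF^[2 - i] w0)).flatten := by
      rw [iter_flatten, List.map_map]
      congr 1
      apply List.map_congr_left
      intro i hi
      have : N + 2 - i = N + (2 - i) := by
        rcases hL i hi with rfl | rfl <;> omega
      simp only [Function.comp_apply]
      rw [this, Function.iterate_add_apply]
    rw [e1, Function.iterate_add_apply] at key
    exact no_fact L hL (FF_inj.iterate N key)
  · refine ⟨3, [2, 3, 2, 2, 1], 3, by simp, by simp, by simp, le_rfl, ?_⟩
    intro m hm
    obtain ⟨k, rfl⟩ := Nat.exists_eq_add_of_le' hm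
    change FF^[k + 3] w0 = (List.map (fun i => FF^[k + 3 - i] w0) [2, 3, 2, 2, 1]).flatten
    rw [Function.iterate_add_apply, step3]
    simp only [iter_append, List.map_cons, List.map_nil, List.flatten_cons, List.flatten_nil,
      List.append_nil]
    have a1 : FF^[k + 3 - 2] w0 = FF^[k] (FF w0) := by
      rw [show k + 3 - 2 = k + 1 by omega, Function.iterate_add_apply]; rfl
    have a2 : FF^[k + 3 - 3] w0 = FF^[k] w0 := by
      rw [show k + 3 - 3 = k by omega]
    have a3 : FF^[k + 3 - 1] w0 = FF^[k] (FF^[2] w0) := by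
      rw [show k + 3 - 1 = k + 2 by omega, Function.iterate_add_apply]
    rw [a1, a2, a3]

end Pool.Agent.S3636
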