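import Pool.Statements.S3671
import Pool.Agent.H6.DownUpC

set_option autoImplicit false
open Pool Pool.MP_b29fea_lc

namespace Pool.Agent.S3671

/-- For j≥1, k≥2 and η a limit ordinal, every graph on ω^(η+jk) has an independent set of order type ω^(η+j) or a matching from A to B with A entirely below B and A of order type ω^k. -/
theorem result :
    ∀ j k : ℕ, 0 < j → 2 ≤ k → ∀ η : Ordinal.{0}, Order.IsSuccLimit η →
      ∀ G : SimpleGraph Ordinal.{0},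
        (∃ S : Set Ordinal.{0},
            S ⊆ Set.Iio (Ordinal.omega0 ^ (η + ((j * k : ℕ) : Ordinal.{0}))) ∧
            Nonempty (S ≃o Set.Iio (Ordinal.omega0 ^ (η + ((j : ℕ) : Ordinal.{0})))) ∧
            S.Pairwise (fun x y => ¬ G.Adj x y)) ∨
        (∃ A B : Set Ordinal.{0},
            A ⊆ Set.Iio (Ordinal.omega0 ^ (η + ((j * k : ℕ) : Ordinal.{0}))) ∧
            B ⊆ Set.Iio (Ordinal.omega0 ^ (η + ((j * k : ℕ) : Ordinal.{0}))) ∧
            (∀ a ∈ A, ∀ b ∈ B, a < b) ∧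
            Nonempty (A ≃o Set.Iio (Ordinal.omega0 ^ ((k : ℕ) : Ordinal.{0}))) ∧
            ∃ f : A ≃ B, ∀ a : A, G.Adj (a : Ordinal.{0}) (f a : Ordinal.{0})) := by
  intro j k hj hk η hη G
  obtain ⟨k, rfl⟩ : ∃ k', k = k' + 1 := ⟨k - 1, by omega⟩
  by_cases hno : Pool.Agent.H6.DownUp.NoMatch (k + 1) G
      (Ordinal.omega0 ^ (η + ((j * (k + 1) : ℕ) : Ordinal.{0})))
  · left
    obtain ⟨h, h1, h2, h3⟩ := Pool.Agent.H6.DownUp.P_main hno hη j 0 (by rw [zero_add])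
    refine ⟨h '' Set.Iio (Ordinal.omega0 ^ (η + ((j : ℕ) : Ordinal.{0}))), ?_, ?_, ?_⟩
    · rintro _ ⟨ξ, hξ, rfl⟩
      have := (h2 ξ hξ).2
      rwa [zero_add] at this
    · exact ⟨(h1.orderIso _ _).symm⟩
    · rintro _ ⟨ξ, hξ, rfl⟩ _ ⟨ξ', hξ', rfl⟩ _
      exact h3 ξ hξ ξ' hξ'
  · right
    unfold Pool.Agent.H6.DownUp.NoMatch at hno
    push Not at hno
    exact hno

end Pool.Agent.S3671
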