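import Pool.Statements.S4053
import Pool.Agent.H3.TransProp

set_option autoImplicit false
open N41f07a28
open Asymptotics Filter
open Pool Pool.MP_1d29c3_nt

namespace Pool.Agent.S4053

open Pool.Agent.H3.TransProp in
lemma bigO_of {g : ℕ → ℕ} (h : ∀ x, 3 ≤ x → Nat.primeCounting x ≤ 4 * g x) :
    (fun x : ℕ ↦ (x : ℝ) / Real.log x) =O[atTop] (fun x ↦ (g x : ℝ)) := by
  obtain ⟨c, hc, hev⟩ := pi_lower
  refine IsBigO.of_bound (4 / c) ?_
  filter_upwards [hev, eventually_ge_atTop 3] with x hx h3
  have h3' : (3 : ℝ) ≤ x := by exact_mod_cast h3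
  have hlog : 0 < Real.log x := Real.log_pos (by linarith)
  have h4 : (Nat.primeCounting x : ℝ) ≤ 4 * g x := by exact_mod_cast h x h3
  rw [Real.norm_eq_abs, Real.norm_eq_abs, abs_of_nonneg (by positivity), Nat.abs_cast,
    div_mul_eq_mul_div, le_div_iff₀ hc]
  linarith

/-- There exists a set P of primes with both P and its complement in the primes having ≫ x/log x elements up to x, such that the set of positive integers with all prime factors in P has the translation property. -/
theorem result :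
    ∃ P : Set ℕ, P ⊆ {p : ℕ | p.Prime} ∧ (fun x : ℕ ↦ (x : ℝ) / Real.log x) =O[atTop] (fun x ↦ ((P ∩ Set.Iic x).ncard : ℝ)) ∧ (fun x : ℕ ↦ (x : ℝ) / Real.log x) =O[atTop] (fun x ↦ ((({p : ℕ | p.Prime} \ P) ∩ Set.Iic x).ncard : ℝ)) ∧ HasTranslationProperty (composedOf P) := by
  obtain ⟨t, F, h⟩ := Pool.Agent.H3.TransProp.exists_seq
  set P0 : Set ℕ := {p | p.Prime ∧ Nat.primeCounting p % 2 = 0} with hP0
  set FF : Set ℕ := {p | ∃ n, p ∈ F n} with hFF
  have hFp : ∀ p ∈ FF, p.Prime := by
    rintro p ⟨n, hn⟩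
    exact (h n).2.2.2.1 p hn
  refine ⟨P0 ∪ FF, ?_, ?_, ?_, ?_⟩
  · rintro p (hp | hp)
    · exact hp.1
    · exact hFp p hp
  · apply bigO_of
    intro x hx
    have h1 : ((Nat.primesLE x).filter (fun p => Nat.primeCounting p % 2 = 0)).card ≤ 
        ((P0 ∪ FF) ∩ Set.Iic x).ncard := by
      rw [← Set.ncard_coe_finset]
      apply Set.ncard_le_ncard
      · intro p hp
        simp only [Finset.coe_filter, Nat.mem_primesLE, Set.mem_ofPred_eq] at hp
        exact ⟨Or.inl ⟨hp.1.2, hp.2⟩, hp.1.1⟩
      · exact (Set.finite_Iic x).subset Set.inter_subset_right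
    rw [(Pool.Agent.H3.TransProp.half x).1] at h1
    have h2 : 2 ≤ Nat.primeCounting x := by
      calc 2 = Nat.primeCounting 3 := by decide
        _ ≤ Nat.primeCounting x := Nat.monotone_primeCounting hx
    omega
  · apply bigO_of
    intro x hx
    set U : Finset ℕ := (Finset.range x).biUnion fun n => (F n).filter (· ≤ x) with hU
    have hUc : 4 * U.card ≤ Nat.primeCounting x := by
      refine le_trans (Nat.mul_le_mul_left 4 Finset.card_biUnion_le) ?_
      exact Pool.Agent.H3.TransProp.sum_bound x _ _ (fun n => (h n).2.2.2.2.2 x)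
    have h1 : (((Nat.primesLE x).filter (fun p => Nat.primeCounting p % 2 = 1)) \ U).card ≤ 
        (({p : ℕ | p.Prime} \ (P0 ∪ FF)) ∩ Set.Iic x).ncard := by
      rw [← Set.ncard_coe_finset]
      apply Set.ncard_le_ncard
      · intro p hp
        simp only [Finset.coe_sdiff, Finset.coe_filter, Nat.mem_primesLE] at hp
        obtain ⟨⟨⟨hp1, hp2⟩, hp3⟩, hp4⟩ := hp
        refine ⟨⟨hp2, ?_⟩, hp1⟩
        rintro (hq | ⟨n, hn⟩)
        · have := hq.2
          omega
        · apply hp4
          have hlt : n < p := (h n).2.2.2.2.1 p hn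
          simp only [hU, Finset.coe_biUnion, Finset.mem_coe, Finset.mem_range, Set.mem_iUnion,
            Finset.coe_filter]
          exact ⟨n, by omega, hn, hp1⟩
      · exact (Set.finite_Iic x).subset Set.inter_subset_right
    have h2 := Finset.le_card_sdiff U ((Nat.primesLE x).filter (fun p => Nat.primeCounting p % 2 = 1))
    rw [(Pool.Agent.H3.TransProp.half x).2] at h2
    omega
  · intro n
    obtain ⟨ht1, ht2, hF, -, -, -⟩ := h n
    refine ⟨t n, ht1, fun a ha1 ha2 => ?_⟩
    have hd := ht2 a ha1 ha2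
    have heq : a + t n = a * (1 + t n / a) := by
      rw [mul_add, mul_one, Nat.mul_div_cancel' hd]
    constructor
    · rintro ⟨_, ha⟩
      refine ⟨by omega, fun p hp hpd => ?_⟩
      rw [heq] at hpd
      rcases (Nat.Prime.dvd_mul hp).1 hpd with h1 | h1
      · exact ha p hp h1
      · exact Or.inr ⟨n, hF a p ha1 ha2 hp h1⟩
    · rintro ⟨_, ha⟩
      refine ⟨by omega, fun p hp hpd => ?_⟩
      apply ha p hp
      rw [heq]
      exact hpd.mul_right _

end Pool.Agent.S4053
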