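import Pool.Statements.S4132
import Pool.Agent.H3.CanHtMain

set_option autoImplicit false
open Filter Topology
open Pool Pool.MP_2ab887_nt

namespace Pool.Agent.S4132

/-- The negation of the preceding statement: For every function field K of a curve over an algebraically closed field, every degree d≥2 endomorphism of projective N-space over K and every K-point, the canonical height, the limit of height(f^n(P))/d^n, is a rational number. -/
theorem result :
    ¬ (∀ (k K : Type) [Field k] [IsAlgClosed k] [Field K] [Algebra (RatFunc k) K],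
      FunctionField k K →
      ∀ (N d : ℕ), 2 ≤ d →
      ∀ F : Fin (N + 1) → MvPolynomial (Fin (N + 1)) K,
        (∀ i, (F i).IsHomogeneous d) →
        (∀ y : Fin (N + 1) → AlgebraicClosure K,
            (∀ i, MvPolynomial.aeval y (F i) = 0) → y = 0) →
        ∀ x : Fin (N + 1) → K, x ≠ 0 →
          ∃ q : ℚ,
            Tendsto
              (fun n : ℕ =>
                (∑ᶠ v : {v : Valuation K (WithZero (Multiplicative ℤ)) //
                      Function.Surjective v ∧
                        ∀ c : k, c ≠ 0 → v (algebraMap (RatFunc k) K (RatFunc.C c)) = 1},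
                    ((sInf {m : ℤ | ∀ i,
                        v.1 (((fun (z : Fin (N + 1) → K) (j : Fin (N + 1)) =>
                                MvPolynomial.eval z (F j))^[n] x) i)
                          ≤ WithZero.coe (Multiplicative.ofAdd m)} : ℤ) : ℝ))
                  / (d : ℝ) ^ n)
              atTop (𝓝 (q : ℝ))) := by
  intro h
  obtain ⟨q, hq⟩ := h ℂ (RatFunc ℂ) inferInstance 5 2 le_rfl Pool.Agent.H3.CanHt.FF
    Pool.Agent.H3.CanHt.FF_hom
    (by
      intro y hy
      refine Pool.Agent.H3.CanHt.step_noZero
        (t := algebraMap (RatFunc ℂ) (AlgebraicClosure (RatFunc ℂ)) RatFunc.X) ?_ ?_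
      · intro h0
        rw [map_eq_zero] at h0
        exact RatFunc.X_ne_zero h0
      · intro i
        rw [← Pool.Agent.H3.CanHt.FF_aeval]
        exact hy i)
    (Pool.Agent.H3.CanHt.x0 (RatFunc ℂ))
    (by
      intro h0
      have h5 : (1 : RatFunc ℂ) = 0 := congrFun h0 5
      exact one_ne_zero h5)
  apply Pool.Agent.H3.CanHt.irr q
  refine hq.congr fun n => ?_
  have e : (fun (z : Fin (5 + 1) → RatFunc ℂ) (j : Fin (5 + 1)) =>
      MvPolynomial.eval z (Pool.Agent.H3.CanHt.FF j)) =
      Pool.Agent.H3.CanHt.step RatFunc.X := by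
    funext z j
    exact Pool.Agent.H3.CanHt.FF_eval z j
  rw [e]
  rw [← Pool.Agent.H3.CanHt.total n (fun v => Function.Surjective v ∧
    ∀ c : ℂ, c ≠ 0 → v (algebraMap (RatFunc ℂ) (RatFunc ℂ) (RatFunc.C c)) = 1) (fun v => by
      rfl)]
  rfl

end Pool.Agent.S4132
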