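import Pool.Statements.S4407
import Pool.Agent.H3.LacFrac

set_option autoImplicit false
open Nebf1142c
open Filter
open Pool Pool.MP_4ffaa3_nt

namespace Pool.Agent.S4407

/-- For every number field K ⊆ ℝ and every ε>0 there is a positive sequence t:ℕ→K with some c>1 such that eventually c·t_k<t_{k+1}, and for every real ξ∉K, limsup fract(ξ t_n) ≥ 1−ε. -/
theorem result :
    ∀ (K : IntermediateField ℚ ℝ) [FiniteDimensional ℚ K] {ε : ℝ} (hε : 0 < ε), ∃ t : ℕ → K, (∀ n, 0 < (t n : ℝ)) ∧ (∃ c > (1 : ℝ), ∀ᶠ k in atTop, c * (t k : ℝ) < (t (k + 1) : ℝ)) ∧ ∀ ξ : ℝ, ξ ∉ K → (1 - ε) ≤ limsup (fun n => Int.fract (ξ * (t n : ℝ))) atTop := by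
  intro K _ ε hε
  obtain ⟨t, ht, ⟨c, hc, hev⟩, hlim⟩ := Pool.Agent.H3.LacFrac.main ε hε
  have e : ∀ n, (((t n : ℕ) : K) : ℝ) = (t n : ℝ) := fun n => by norm_cast
  refine ⟨fun n => ((t n : ℕ) : K), ?_, ⟨c, hc, ?_⟩, ?_⟩
  · intro n
    rw [e]
    exact_mod_cast ht n
  · filter_upwards [hev] with k hk
    rw [e, e]
    exact hk
  · intro ξ hξ
    have h := hlim ξ (by
      rintro ⟨r, rfl⟩
      apply hξ
      exact SubfieldClass.ratCast_mem K r)
    have e2 : (fun n => Int.fract (ξ * (((t n : ℕ) : K) : ℝ))) =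
        fun n => Int.fract (ξ * (t n : ℝ)) := by
      funext n
      rw [e]
    rw [e2]
    exact h

end Pool.Agent.S4407
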