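import Pool.Statements.S4755
-- import your own Pool.Agent.* helpers here

set_option autoImplicit false
open Pool Pool.MP_7cf9eb_nt


namespace Pool.Agent.S4755

open Finset

lemma pi_lower (N M : ℕ) (hM : 1 ≤ M) (hMN : M ≤ N) :
    (2 : ℝ) ^ M / N - 2 ≤ ((Nat.primesLE (2 ^ M)).card : ℝ) := by
  have h := Chebyshev.pi_ge (2 ^ M)
  rw [← Nat.primesLE_card_eq_primeCounting] at h
  refine le_trans ?_ h
  push_cast
  rw [Real.log_pow]
  have hl : 0 < Real.log 2 := Real.log_pos (by norm_num)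
  have hM0 : (0 : ℝ) < M := by exact_mod_cast hM
  have hM1 : (1 : ℝ) ≤ M := by exact_mod_cast hM
  have hN0 : (M : ℝ) ≤ N := by exact_mod_cast hMN
  have h1 : Real.log ((2 : ℝ) ^ M + 1) ≤ ((M : ℝ) + 1) * Real.log 2 := by
    have : ((M : ℝ) + 1) * Real.log 2 = Real.log ((2 : ℝ) ^ (M + 1)) := by rw [Real.log_pow]; push_cast; ring
    rw [this]
    apply Real.log_le_log (by positivity)
    have : (1 : ℝ) ≤ 2 ^ M := one_le_pow₀ (by norm_num)
    rw [pow_succ]; linarith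
  rw [le_div_iff₀ (by positivity)]
  have h2 : (2 : ℝ) ^ M / N ≤ 2 ^ M / M := div_le_div_of_nonneg_left (by positivity) hM0 hN0
  have h3 : (2 : ℝ) ^ M / M * (M * Real.log 2) = 2 ^ M * Real.log 2 := by field_simp
  have h4 : ((2 : ℝ) ^ M / N - 2) * (M * Real.log 2) ≤ (2 ^ M / M - 2) * (M * Real.log 2) :=
    mul_le_mul_of_nonneg_right (by linarith) (by positivity)
  have h5 : Real.log 2 ≤ M * Real.log 2 := by nlinarith
  nlinarith

lemma gap_point (N p : ℕ) (hp : 0 < p) (hpN : p ≤ 2 ^ (N + 4)) :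
    Real.log 2 * ((if p ≤ 2 ^ (N + 3) then 1 else 0) + (if p ≤ 2 ^ (N + 2) then 1 else 0) + (if p ≤ 2 ^ (N + 1) then 1 else 0) +
      (if p ≤ 2 ^ N then 1 else 0)) ≤ ((N + 4 : ℕ) : ℝ) * Real.log 2 - Real.log p := by
  have hl : 0 < Real.log 2 := Real.log_pos (by norm_num)
  have key : ∀ j : ℕ, p ≤ 2 ^ j → Real.log p ≤ j * Real.log 2 := by
    intro j hj
    rw [← Real.log_pow]
    apply Real.log_le_log (by exact_mod_cast hp)
    exact_mod_cast hj
  have m1 : 2 ^ N ≤ 2 ^ (N + 1) := Nat.pow_le_pow_right (by norm_num) (by omega)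
  have m2 : 2 ^ (N + 1) ≤ 2 ^ (N + 2) := Nat.pow_le_pow_right (by norm_num) (by omega)
  have m3 : 2 ^ (N + 2) ≤ 2 ^ (N + 3) := Nat.pow_le_pow_right (by norm_num) (by omega)
  by_cases h0 : p ≤ 2 ^ N
  · rw [if_pos (by omega), if_pos (by omega), if_pos (by omega), if_pos h0]
    have := key N h0
    push_cast; linarith
  · rw [if_neg h0]
    by_cases h1 : p ≤ 2 ^ (N + 1)
    · rw [if_pos (by omega), if_pos (by omega), if_pos h1]
      have := key _ h1
      push_cast at this ⊢; linarith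
    · rw [if_neg h1]
      by_cases h2 : p ≤ 2 ^ (N + 2)
      · rw [if_pos (by omega), if_pos h2]
        have := key _ h2
        push_cast at this ⊢; linarith
      · rw [if_neg h2]
        by_cases h3 : p ≤ 2 ^ (N + 3)
        · rw [if_pos h3]
          have := key _ h3
          push_cast at this ⊢; linarith
        · rw [if_neg h3]
          have := key _ hpN
          push_cast at this ⊢; linarith

/-- lower bound for `G = r L - θ` -/
lemma gap_lower (N : ℕ) (hN : 1 ≤ N) :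
    Real.log 2 * ((15 / 16) * (2 ^ (N + 4) / ((N + 4 : ℕ) : ℝ)) - 8) ≤
      ((Nat.primesLE (2 ^ (N + 4))).card : ℝ) * (((N + 4 : ℕ) : ℝ) * Real.log 2) - ∑ p ∈ Nat.primesLE (2 ^ (N + 4)), Real.log p := by
  have hl : 0 < Real.log 2 := Real.log_pos (by norm_num)
  set Q := Nat.primesLE (2 ^ (N + 4)) with hQ
  have hcount : ∀ j ≤ N + 4, ∑ p ∈ Q, (if p ≤ 2 ^ j then (1 : ℝ) else 0) = ((Nat.primesLE (2 ^ j)).card : ℝ) := by
    intro j hj
    rw [← Finset.sum_filter, Finset.sum_const, nsmul_eq_mul, mul_one]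
    congr 2
    ext p
    rw [Finset.mem_filter, hQ, Nat.mem_primesLE, Nat.mem_primesLE]
    have : 2 ^ j ≤ 2 ^ (N + 4) := Nat.pow_le_pow_right (by norm_num) hj
    constructor
    · rintro ⟨⟨_, h2⟩, h3⟩; exact ⟨h3, h2⟩
    · rintro ⟨h1, h2⟩; exact ⟨⟨by omega, h2⟩, h1⟩
  have h1 : ∑ p ∈ Q, (((N + 4 : ℕ) : ℝ) * Real.log 2 - Real.log p) =
      (Q.card : ℝ) * (((N + 4 : ℕ) : ℝ) * Real.log 2) - ∑ p ∈ Q, Real.log p := by
    rw [Finset.sum_sub_distrib, Finset.sum_const, nsmul_eq_mul]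
  rw [← h1]
  have h2 : ∑ p ∈ Q, Real.log 2 * ((if p ≤ 2 ^ (N + 3) then (1 : ℝ) else 0) + (if p ≤ 2 ^ (N + 2) then 1 else 0) + (if p ≤ 2 ^ (N + 1) then 1 else 0) +
      (if p ≤ 2 ^ N then 1 else 0)) ≤ ∑ p ∈ Q, (((N + 4 : ℕ) : ℝ) * Real.log 2 - Real.log p) := by
    apply Finset.sum_le_sum
    intro p hp
    rw [hQ, Nat.mem_primesLE] at hp
    exact gap_point N p hp.2.pos hp.1
  refine le_trans ?_ h2
  rw [← Finset.mul_sum, Finset.sum_add_distrib, Finset.sum_add_distrib, Finset.sum_add_distrib,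
    hcount _ (by omega), hcount _ (by omega), hcount _ (by omega), hcount _ (by omega)]
  apply mul_le_mul_of_nonneg_left _ hl.le
  have a1 := pi_lower (N + 4) (N + 3) (by omega) (by omega)
  have a2 := pi_lower (N + 4) (N + 2) (by omega) (by omega)
  have a3 := pi_lower (N + 4) (N + 1) (by omega) (by omega)
  have a4 := pi_lower (N + 4) N (by omega) (by omega)
  have e : (15 / 16) * ((2 : ℝ) ^ (N + 4) / ((N + 4 : ℕ) : ℝ)) = 2 ^ (N + 3) / ((N + 4 : ℕ) : ℝ) + 2 ^ (N + 2) / ((N + 4 : ℕ) : ℝ) +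
      2 ^ (N + 1) / ((N + 4 : ℕ) : ℝ) + 2 ^ N / ((N + 4 : ℕ) : ℝ) := by
    rw [pow_add, pow_add, pow_add, pow_add]; ring
  linarith

/-- lower bound for `θ` in terms of `r` -/
lemma theta_lower (M : ℕ) (hM : 12 ≤ M) :
    (7 / 8 : ℝ) * (((Nat.primesLE (2 ^ (16 * M))).card : ℝ) * (((16 * M : ℕ) : ℝ) * Real.log 2)) ≤
      ∑ p ∈ Nat.primesLE (2 ^ (16 * M)), Real.log p := by
  have hl : 0 < Real.log 2 := Real.log_pos (by norm_num)
  set Q := Nat.primesLE (2 ^ (16 * M)) with hQ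
  have h2M : 256 * M ≤ 2 ^ M := by
    induction M, hM using Nat.le_induction with
    | base => norm_num
    | succ n hn ih => rw [pow_succ]; have := ih rfl; omega
  have hr := pi_lower (16 * M) (16 * M) (by omega) le_rfl
  rw [← hQ] at hr
  have hM0 : (0 : ℝ) < ((16 * M : ℕ) : ℝ) := by exact_mod_cast (by omega : 0 < 16 * M)
  have hy1 : (1 : ℝ) ≤ 2 ^ (15 * M) := one_le_pow₀ (by norm_num)
  have hr2 : 15 * (2 : ℝ) ^ (15 * M) ≤ (Q.card : ℝ) - (2 : ℝ) ^ (15 * M) + 2 ^ (15 * M) := by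
    have e1 : 17 * (2 : ℝ) ^ (15 * M) ≤ 2 ^ (16 * M) / ((16 * M : ℕ) : ℝ) + 15 * 2 ^ (15 * M) - 14 * 2 ^ (15 * M) := by
      have : 16 * (2 : ℝ) ^ (15 * M) ≤ 2 ^ (16 * M) / ((16 * M : ℕ) : ℝ) := by
        rw [le_div_iff₀ hM0]
        have e2 : (2 : ℝ) ^ (16 * M) = 2 ^ (15 * M) * 2 ^ M := by rw [← pow_add]; congr 1; ring
        have e3 : (16 : ℝ) * ((16 * M : ℕ) : ℝ) ≤ 2 ^ M := by
          have : 16 * (16 * M) ≤ 2 ^ M := by omega
          exact_mod_cast this
        rw [e2]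
        nlinarith
      linarith
    have hy2 : (2 : ℝ) ≤ 2 ^ (15 * M) := by
      calc (2 : ℝ) = 2 ^ 1 := by norm_num
        _ ≤ 2 ^ (15 * M) := pow_le_pow_right₀ (by norm_num) (by omega)
    linarith
  have hsub : Q.filter (fun p => p ≤ 2 ^ (15 * M)) ⊆ (range (2 ^ (15 * M) + 1)).erase 0 := by
    intro p hp
    rw [Finset.mem_filter, hQ, Nat.mem_primesLE] at hp
    rw [Finset.mem_erase, Finset.mem_range]
    exact ⟨hp.1.2.ne_zero, by omega⟩
  have hpos : 0 < 2 ^ (15 * M) := by positivity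
  have hc := Finset.card_le_card hsub
  rw [Finset.card_erase_of_mem (by rw [Finset.mem_range]; omega), Finset.card_range] at hc
  have hc1 : ((Q.filter (fun p => p ≤ 2 ^ (15 * M))).card : ℝ) ≤ 2 ^ (15 * M) := by
    have : (Q.filter (fun p => p ≤ 2 ^ (15 * M))).card ≤ 2 ^ (15 * M) := by omega
    exact_mod_cast this
  have hc2 : ((Q.filter (fun p => p ≤ 2 ^ (15 * M))).card : ℝ) + ((Q.filter (fun p => ¬ p ≤ 2 ^ (15 * M))).card : ℝ) = Q.card := by
    exact_mod_cast Finset.card_filter_add_card_filter_not (s := Q) (fun p => p ≤ 2 ^ (15 * M))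
  have hlow : ∑ p ∈ Q.filter (fun p => ¬ p ≤ 2 ^ (15 * M)), (((15 * M : ℕ) : ℝ) * Real.log 2) ≤ ∑ p ∈ Q, Real.log p := by
    refine le_trans (Finset.sum_le_sum (g := fun p : ℕ => Real.log p) ?_) (Finset.sum_le_sum_of_subset_of_nonneg (Finset.filter_subset _ _) ?_)
    · intro p hp
      rw [Finset.mem_filter] at hp
      rw [← Real.log_pow]
      apply Real.log_le_log (by positivity)
      have : 2 ^ (15 * M) ≤ p := by omega
      exact_mod_cast this
    · intro p hp _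
      apply Real.log_nonneg
      rw [hQ, Nat.mem_primesLE] at hp
      exact_mod_cast hp.2.one_lt.le
  rw [Finset.sum_const, nsmul_eq_mul] at hlow
  refine le_trans ?_ hlow
  set A : ℝ := ((Q.filter (fun p => ¬ p ≤ 2 ^ (15 * M))).card : ℝ) with hA
  have hA1 : (14 / 15 : ℝ) * Q.card ≤ A := by linarith
  have hML : 0 ≤ (M : ℝ) * Real.log 2 := by positivity
  push_cast
  have : (7 / 8 : ℝ) * ((Q.card : ℝ) * (16 * (M : ℝ) * Real.log 2)) = ((14 / 15 : ℝ) * Q.card) * (15 * ((M : ℝ) * Real.log 2)) := by ring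
  rw [this]
  have h3 := mul_le_mul_of_nonneg_right hA1 (by positivity : 0 ≤ 15 * ((M : ℝ) * Real.log 2))
  linarith

lemma pow4_le (N : ℕ) (hN : 16 ≤ N) : N ^ 4 ≤ 2 ^ N := by
  induction N, hN using Nat.le_induction with
  | base => norm_num
  | succ n hn ih =>
    rw [pow_succ 2 n]
    have h1 : (n + 1) ^ 4 ≤ 2 * n ^ 4 := by
      have h2 : 16 * n ^ 3 ≤ n ^ 4 := by
        calc 16 * n ^ 3 ≤ n * n ^ 3 := Nat.mul_le_mul_right _ hn
          _ = n ^ 4 := by ring
      have h3 : 16 * n ^ 2 ≤ n ^ 3 := by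
        calc 16 * n ^ 2 ≤ n * n ^ 2 := Nat.mul_le_mul_right _ hn
          _ = n ^ 3 := by ring
      have h4 : 16 * n ≤ n ^ 2 := by
        calc 16 * n ≤ n * n := Nat.mul_le_mul_right _ hn
          _ = n ^ 2 := by ring
      have e : (n + 1) ^ 4 = n ^ 4 + 4 * n ^ 3 + 6 * n ^ 2 + 4 * n + 1 := by ring
      rw [e]
      omega
    omega

lemma aux1 (N c0 : ℝ) (hN : 528 ≤ N) (hc : 48 * c0 ≤ N) : 9 + c0 * N ≤ 0.04 * N ^ 3 := by
  have h1 : 48 * c0 * N ≤ N * N := mul_le_mul_of_nonneg_right hc (by linarith)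
  have h2 : 528 * (N * N) ≤ N * (N * N) := mul_le_mul_of_nonneg_right hN (by positivity)
  have h3 : 528 * N ≤ N * N := mul_le_mul_of_nonneg_right hN (by linarith)
  have h4 : N ^ 3 = N * (N * N) := by ring
  rw [h4]
  linarith

lemma aux2 (r s T L : ℝ) (hT : 0 < T) (hL : 0 < L) (hs : 0 ≤ s) (h : (7 / 8) * (r * L) ≤ T) : r * (s / T) ≤ (8 / 7) * (s / L) := by
  rw [mul_div_assoc', mul_div_assoc', div_le_div_iff₀ hT hL]
  have := mul_le_mul_of_nonneg_left h hs
  linarith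

lemma aux3 (z l e L c0 N : ℝ) (hz : 0 < z) (hl1 : 0.6931471803 < l) (hl2 : l < 0.6931471808) (he : e ≤ 0.53074) (hL : L = N * l)
    (hN : 0 ≤ N) (hc0 : 0 ≤ c0) (hz4 : 9 + c0 * N ≤ 0.04 * z) :
    l + c0 * L + (8 / 7) * (z * e) ≤ l * ((15 / 16) * z - 8) := by
  have h1 : z * e ≤ z * 0.53074 := mul_le_mul_of_nonneg_left he hz.le
  have h2 : 0.6931471803 * z ≤ l * z := mul_le_mul_of_nonneg_right hl1.le hz.le
  have h0 : (0 : ℝ) ≤ c0 * N := by positivity
  have h3 : (c0 * N) * l ≤ (c0 * N) * 0.7 := mul_le_mul_of_nonneg_left (by linarith) h0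
  have h4 : c0 * L = (c0 * N) * l := by rw [hL]; ring
  rw [h4]
  have h5 : l * ((15 / 16) * z - 8) = (15 / 16) * (l * z) - 8 * l := by ring
  rw [h5]
  linarith

/-- The key inequality. -/
lemma key_ineq (c0 M : ℕ) (hM : 12 ≤ M) (hMc : 33 + 3 * c0 ≤ M) :
    (((16 * M : ℕ) : ℝ)) ^ 3 - 2 ≤ ((Nat.primesLE (2 ^ (16 * M))).card : ℝ) ∧
    3 ≤ ∑ p ∈ Nat.primesLE (2 ^ (16 * M)), Real.log p ∧
    (Real.log 2 + ∑ p ∈ Nat.primesLE (2 ^ (16 * M)), Real.log p) / Real.log (Real.log 2 + ∑ p ∈ Nat.primesLE (2 ^ (16 * M)), Real.log p)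
      ≤ ((Nat.primesLE (2 ^ (16 * M))).card : ℝ) - c0 := by
  have hl : 0 < Real.log 2 := Real.log_pos (by norm_num)
  have hl1 := Real.log_two_gt_d9
  have hl2 := Real.log_two_lt_d9
  have hG := gap_lower (16 * M - 4) (by omega)
  rw [show 16 * M - 4 + 4 = 16 * M by omega] at hG
  have hT := theta_lower M hM
  have hr := pi_lower (16 * M) (16 * M) (by omega) le_rfl
  set N : ℕ := 16 * M with hN
  set r : ℝ := ((Nat.primesLE (2 ^ N)).card : ℝ) with hrdef
  set T0 : ℝ := ∑ p ∈ Nat.primesLE (2 ^ N), Real.log p with hT0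
  have hN528 : (528 : ℝ) ≤ (N : ℝ) := by exact_mod_cast (by omega : 528 ≤ N)
  have hNc : 48 * (c0 : ℝ) ≤ (N : ℝ) := by exact_mod_cast (by omega : 48 * c0 ≤ N)
  have hNpos : (0 : ℝ) < N := by linarith
  have hc0 : (0 : ℝ) ≤ c0 := Nat.cast_nonneg _
  set z : ℝ := (2 : ℝ) ^ N / N with hz
  have hz3 : (N : ℝ) ^ 3 ≤ z := by
    rw [hz, le_div_iff₀ hNpos]
    have := pow4_le N (by omega)
    calc (N : ℝ) ^ 3 * N = (N : ℝ) ^ 4 := by ring
      _ ≤ (2 : ℝ) ^ N := by exact_mod_cast this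
  have hr1 : (N : ℝ) ^ 3 - 2 ≤ r := by linarith
  have hrbig : (N : ℝ) ≤ r := by
    have e1 : (528 : ℝ) * (N * N) ≤ N * (N * N) := mul_le_mul_of_nonneg_right hN528 (by positivity)
    have e2 : (528 : ℝ) * N ≤ N * N := mul_le_mul_of_nonneg_right hN528 (by positivity)
    have e3 : (N : ℝ) ^ 3 = N * (N * N) := by ring
    rw [e3] at hr1
    linarith
  set L : ℝ := (N : ℝ) * Real.log 2 with hL
  have hLpos : 0 < L := by positivity
  have hL1 : (300 : ℝ) ≤ L := by
    rw [hL]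
    calc (300 : ℝ) ≤ 528 * 0.69 := by norm_num
      _ ≤ (N : ℝ) * Real.log 2 := mul_le_mul hN528 (by linarith) (by norm_num) hNpos.le
  have hT0big : (3 : ℝ) ≤ T0 := by
    have : (528 : ℝ) * 300 ≤ r * L := mul_le_mul (by linarith) hL1 (by norm_num) (by linarith)
    linarith
  refine ⟨hr1, hT0big, ?_⟩
  set T : ℝ := Real.log 2 + T0 with hTdef
  have hTpos : 0 < T := by linarith
  set s : ℝ := (2 : ℝ) ^ N * Real.exp (-1) with hs
  have hs0 : 0 < s := by positivity
  have hlogs : Real.log s = L - 1 := by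
    rw [hs, Real.log_mul (by positivity) (by positivity), Real.log_pow, Real.log_exp, hL]; ring
  have hlogT : L - s / T ≤ Real.log T := by
    have h1 := Real.log_le_sub_one_of_pos (div_pos hs0 hTpos)
    rw [Real.log_div hs0.ne' hTpos.ne', hlogs] at h1
    linarith
  have hrs : r * (s / T) ≤ (8 / 7) * (s / L) := aux2 r s T L hTpos hLpos hs0.le (by linarith)
  have hsL : s / L = z * (Real.exp (-1) / Real.log 2) := by
    rw [hs, hL, hz]; field_simp
  have he := Real.exp_neg_one_lt_d9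
  have hel : Real.exp (-1) / Real.log 2 ≤ 0.53074 := by
    rw [div_le_iff₀ hl]; linarith
  have hzpos : 0 < z := by positivity
  have hz4 : 9 + c0 * (N : ℝ) ≤ 0.04 * z := by
    have := aux1 (N : ℝ) c0 hN528 hNc
    linarith
  have hfin : Real.log 2 + c0 * L + (8 / 7) * (s / L) ≤ Real.log 2 * ((15 / 16) * z - 8) := by
    rw [hsL]
    exact aux3 z _ _ L c0 N hzpos hl1 hl2 hel hL hNpos.le hc0 hz4
  have hlogTpos : 0 < Real.log T := Real.log_pos (by linarith)
  rw [div_le_iff₀ hlogTpos]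
  have hrc : 0 ≤ r - c0 := by linarith
  have h5 := mul_le_mul_of_nonneg_left hlogT hrc
  have h6 : 0 ≤ c0 * (s / T) := by positivity
  have h7 : (r - c0) * (L - s / T) = r * L - c0 * L - r * (s / T) + c0 * (s / T) := by ring
  rw [h7] at h5
  linarith

/-- For every constant C and threshold K, only finitely many n satisfy: for all k with K ≤ k < n, the number of distinct prime factors of n−k is less than log k / log log k + C. -/
theorem result :
    ∀ C : ℝ, ∀ K : ℕ,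
      Set.Finite {n : ℕ | ∀ k : ℕ, K ≤ k → k < n →
        (((n - k).primeFactors.card : ℕ) : ℝ) <
          Real.log (k : ℝ) / Real.log (Real.log (k : ℝ)) + C} := by
  intro C K
  obtain ⟨c0, hc0⟩ := exists_nat_ge C
  set M := 33 + 3 * c0 + K with hM
  obtain ⟨k1, k2, k3⟩ := key_ineq c0 M (by omega) (by omega)
  set Q := Nat.primesLE (2 ^ (16 * M)) with hQ
  set P := ∏ p ∈ Q, p with hP
  have hQp : ∀ p ∈ Q, p.Prime := fun p hp => Nat.prime_of_mem_primesLE hp
  have hPpos : 0 < P := Finset.prod_pos fun p hp => (hQp p hp).pos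
  have hlogP : Real.log (P : ℝ) = ∑ p ∈ Q, Real.log p := by
    rw [hP]; push_cast
    rw [Real.log_prod]
    intro p hp
    exact_mod_cast (hQp p hp).ne_zero
  have hKP : K ≤ P := by
    have h1 : 2 ^ Q.card ≤ P := by
      apply Finset.pow_card_le_prod
      intro p hp; exact (hQp p hp).two_le
    have h2 : Q.card < 2 ^ Q.card := Nat.lt_two_pow_self
    have h3 : (K : ℝ) ≤ Q.card := by
      have h4 : (K : ℝ) ≤ ((16 * M : ℕ) : ℝ) := by exact_mod_cast (by omega : K ≤ 16 * M)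
      have h5 : (528 : ℝ) ≤ ((16 * M : ℕ) : ℝ) := by exact_mod_cast (by omega : 528 ≤ 16 * M)
      have h6 : ((16 * M : ℕ) : ℝ) * 4 ≤ ((16 * M : ℕ) : ℝ) ^ 3 := by
        set w : ℝ := ((16 * M : ℕ) : ℝ)
        have : w * 4 ≤ w * (w * w) := by
          apply mul_le_mul_of_nonneg_left _ (by linarith)
          nlinarith
        calc w * 4 ≤ w * (w * w) := this
          _ = w ^ 3 := by ring
      linarith
    have h4 : K ≤ Q.card := by exact_mod_cast h3
    omega
  apply (Set.finite_lt_nat (2 * P)).subset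
  intro n hn
  rw [Set.mem_setOf_eq] at hn ⊢
  by_contra hcon
  push Not at hcon
  set k := P + n % P with hk
  have hmod : n % P < P := Nat.mod_lt _ hPpos
  have hkn : k < n := by omega
  have hlt := hn k (by omega) hkn
  have hdvd : P ∣ n - k := by
    have h1 : P ∣ n - n % P := Nat.dvd_sub_mod n
    have h2 : n - k = (n - n % P) - P := by omega
    rw [h2]
    exact Nat.dvd_sub h1 (dvd_refl P)
  have hsub : Q ⊆ (n - k).primeFactors := by
    intro p hp
    rw [Nat.mem_primeFactors]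
    exact ⟨hQp p hp, (Finset.dvd_prod_of_mem (fun p => p) hp).trans hdvd, by omega⟩
  have hcard : (Q.card : ℝ) ≤ ((n - k).primeFactors.card : ℝ) := by exact_mod_cast Finset.card_le_card hsub
  have hPR : (0 : ℝ) < P := by exact_mod_cast hPpos
  have hkR1 : (P : ℝ) ≤ (k : ℝ) := by exact_mod_cast (by omega : P ≤ k)
  have hkR2 : (k : ℝ) ≤ 2 * P := by exact_mod_cast (by omega : k ≤ 2 * P)
  have hlk1 : 3 ≤ Real.log k := by
    have := Real.log_le_log hPR hkR1
    rw [hlogP] at this; linarith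
  have hlk2 : Real.log k ≤ Real.log 2 + ∑ p ∈ Q, Real.log p := by
    have := Real.log_le_log (by linarith) hkR2
    rw [Real.log_mul (by norm_num) hPR.ne', hlogP] at this
    exact this
  have he : Real.exp 1 ≤ 3 := by
    have := Real.exp_one_lt_d9; linarith
  have hanti := Real.log_div_self_antitoneOn (show Real.log k ∈ Set.Ici (Real.exp 1) from by rw [Set.mem_Ici]; linarith)
    (show Real.log 2 + ∑ p ∈ Q, Real.log p ∈ Set.Ici (Real.exp 1) from by rw [Set.mem_Ici]; linarith) hlk2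
  simp only at hanti
  set T := Real.log 2 + ∑ p ∈ Q, Real.log p with hT
  have hT3 : 3 ≤ T := hlk1.trans hlk2
  have hll1 : 0 < Real.log (Real.log k) := Real.log_pos (by linarith)
  have hll2 : 0 < Real.log T := Real.log_pos (by linarith)
  have hmono : Real.log k / Real.log (Real.log k) ≤ T / Real.log T := by
    rw [div_le_div_iff₀ (by linarith) (by linarith)] at hanti
    rw [div_le_div_iff₀ hll1 hll2]
    linarith
  linarith

end Pool.Agent.S4755
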