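import Pool.Statements.S4853
-- import your own Pool.Agent.* helpers here

set_option autoImplicit false
open Pool Pool.MP_8d3aca_nt

namespace Pool.Agent.S4853

lemma no_four (n : ℕ) (h : n * ArithmeticFunction.sigma 1 n ≡ 2 [MOD n.totient])
    (h1 : 4 ∣ n.totient) (h2 : 4 ∣ n * ArithmeticFunction.sigma 1 n) : False := by
  have h3 : n * ArithmeticFunction.sigma 1 n ≡ 2 [MOD 4] := h.of_dvd h1
  have h4 : (n * ArithmeticFunction.sigma 1 n) % 4 = 2 % 4 := h3
  omega

lemma sq_not_dvd (n p : ℕ) (hp : p.Prime) (hp2 : p ≠ 2)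
    (h : n * ArithmeticFunction.sigma 1 n ≡ 2 [MOD n.totient]) (hpn : p ∣ n) : ¬ p ^ 2 ∣ n := by
  intro hsq
  have h1 : p ∣ n.totient := by
    refine dvd_trans ?_ (Nat.totient_dvd_of_dvd hsq)
    rw [Nat.totient_prime_pow hp (by norm_num)]
    exact ⟨p - 1, by norm_num⟩
  have h2 : n * ArithmeticFunction.sigma 1 n ≡ 2 [MOD p] := h.of_dvd h1
  have h3 : n * ArithmeticFunction.sigma 1 n ≡ 0 [MOD p] :=
    (Nat.modEq_zero_iff_dvd).mpr (dvd_mul_of_dvd_left hpn _)
  have h4 : p ∣ 2 := (Nat.modEq_zero_iff_dvd).mp (h2.symm.trans h3)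
  exact hp2 ((Nat.prime_dvd_prime_iff_eq hp Nat.prime_two).mp h4)

lemma split_prime (n p : ℕ) (hp : p.Prime) (hpn : p ∣ n) (hsq : ¬ p ^ 2 ∣ n) :
    ∃ m, n = p * m ∧ Nat.Coprime p m ∧
      ArithmeticFunction.sigma 1 n = (p + 1) * ArithmeticFunction.sigma 1 m := by
  obtain ⟨m, rfl⟩ := hpn
  have hc : Nat.Coprime p m := by
    rw [Nat.Prime.coprime_iff_not_dvd hp]
    intro hd
    apply hsq
    rw [sq]
    exact mul_dvd_mul_left p hd
  refine ⟨m, rfl, hc, ?_⟩
  rw [ArithmeticFunction.isMultiplicative_sigma.map_mul_of_coprime hc]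
  congr 1
  rw [ArithmeticFunction.sigma_one_apply, Nat.Prime.sum_divisors hp]

/-- For every composite natural number n, n times the sum of divisors of n is congruent to 2 modulo Euler's totient of n exactly when n is 4, 6 or 22. -/
theorem result :
    ∀ n : ℕ, 1 < n → ¬ n.Prime →
      (n * ArithmeticFunction.sigma 1 n ≡ 2 [MOD n.totient] ↔ (n = 4 ∨ n = 6 ∨ n = 22)) := by
  intro n hn hnp
  constructor
  · intro h
    by_cases h4 : 4 ∣ n
    · left
      by_contra hne
      obtain ⟨m, rfl⟩ := h4
      have hm1 : m ≠ 1 := by rintro rfl; exact hne rfl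
      obtain ⟨p, hp, hpm⟩ := Nat.exists_prime_and_dvd hm1
      have h4t : 4 ∣ (4 * m).totient := by
        by_cases hp2 : p = 2
        · subst hp2
          have : 8 ∣ 4 * m := by omega
          refine dvd_trans ?_ (Nat.totient_dvd_of_dvd this)
          decide
        · have hodd : p % 2 = 1 := hp.eq_two_or_odd.resolve_left hp2
          have : 4 * p ∣ 4 * m := mul_dvd_mul_left 4 hpm
          refine dvd_trans ?_ (Nat.totient_dvd_of_dvd this)
          have hc : Nat.Coprime 4 p := by
            have : Nat.Coprime (2^2) p :=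
              Nat.Coprime.pow_left 2 ((Nat.coprime_primes Nat.prime_two hp).mpr (Ne.symm hp2))
            exact this
          rw [Nat.totient_mul hc, Nat.totient_prime hp]
          have : Nat.totient 4 = 2 := by decide
          rw [this]
          omega
      exact no_four _ h h4t (dvd_mul_of_dvd_left (dvd_mul_right 4 m) _)
    · right
      -- an odd prime factor
      have hex : ∀ m : ℕ, ¬ 4 ∣ m → m ≠ 1 → m ≠ 2 → m ≠ 0 → ∃ p, p.Prime ∧ p ≠ 2 ∧ p ∣ m := by
        intro m hm4 hm1 hm2 hm0
        by_contra hcon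
        push Not at hcon
        obtain ⟨p, hp, hpm⟩ := Nat.exists_prime_and_dvd hm1
        have hp2 : p = 2 := by
          by_contra h2; exact hcon p hp h2 hpm
        subst hp2
        obtain ⟨k, rfl⟩ := hpm
        have hk1 : k ≠ 1 := by rintro rfl; exact hm2 rfl
        obtain ⟨q, hq, hqk⟩ := Nat.exists_prime_and_dvd hk1
        have hq2 : q = 2 := by
          by_contra h2; exact hcon q hq h2 (dvd_mul_of_dvd_right hqk 2)
        subst hq2
        omega
      obtain ⟨p, hp, hp2, hpn⟩ := hex n h4 (by omega) (by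
        rintro rfl; exact hnp Nat.prime_two) (by omega)
      obtain ⟨m, hm, hc, hsig⟩ := split_prime n p hp hpn (sq_not_dvd n p hp hp2 h hpn)
      have hm1 : m ≠ 1 := by
        rintro rfl; rw [mul_one] at hm; exact hnp (hm ▸ hp)
      have hpodd : p % 2 = 1 := hp.eq_two_or_odd.resolve_left hp2
      by_cases hm2 : m = 2
      · subst hm2
        have ht : n.totient = p - 1 := by
          rw [hm, Nat.totient_mul hc, Nat.totient_prime hp]; simp
        have hs2 : ArithmeticFunction.sigma 1 2 = 3 := by
          rw [ArithmeticFunction.sigma_one_apply]; decide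
        rw [hs2] at hsig
        rw [hsig, ht] at h
        have h3 := hp.two_le
        obtain ⟨t, rfl⟩ : ∃ t, p = t + 1 := ⟨p - 1, by omega⟩
        have e : n * ((t + 1 + 1) * 3) = 2 + (t * (6 * t + 18) + 10) := by rw [hm]; ring
        rw [e, show t + 1 - 1 = t by omega] at h
        have h5 : t ∣ t * (6 * t + 18) + 10 := by
          have : 2 + (t * (6 * t + 18) + 10) ≡ 2 + 0 [MOD t] := by simpa using h
          have h6 := Nat.ModEq.add_left_cancel' 2 this
          exact (Nat.modEq_zero_iff_dvd).mp h6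
        have h6 : t ∣ 10 := (Nat.dvd_add_right (dvd_mul_right t _)).mp h5
        have h7 : t ≤ 10 := Nat.le_of_dvd (by norm_num) h6
        interval_cases t <;> omega
      · exfalso
        have hm4 : ¬ 4 ∣ m := fun hd => h4 (by rw [hm]; exact dvd_mul_of_dvd_right hd p)
        have hm0 : m ≠ 0 := by rintro rfl; rw [mul_zero] at hm; omega
        obtain ⟨q, hq, hq2, hqm⟩ := hex m hm4 hm1 hm2 hm0
        have hqodd : q % 2 = 1 := hq.eq_two_or_odd.resolve_left hq2
        have hqn : q ∣ n := by rw [hm]; exact dvd_mul_of_dvd_right hqm p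
        have hqsq : ¬ q ^ 2 ∣ m := fun hd =>
          sq_not_dvd n q hq hq2 h hqn (by rw [hm]; exact dvd_mul_of_dvd_right hd p)
        obtain ⟨m', hm', hc', hsig'⟩ := split_prime m q hq hqm hqsq
        have hpq : Nat.Coprime p q := Nat.Coprime.coprime_dvd_right hqm hc
        refine no_four n h ?_ ?_
        · have : p * q ∣ n := by rw [hm]; exact mul_dvd_mul_left p hqm
          refine dvd_trans ?_ (Nat.totient_dvd_of_dvd this)
          rw [Nat.totient_mul hpq, Nat.totient_prime hp, Nat.totient_prime hq]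
          have h1 : 2 ∣ p - 1 := by omega
          have h2 : 2 ∣ q - 1 := by omega
          exact mul_dvd_mul h1 h2
        · apply dvd_mul_of_dvd_right
          rw [hsig, hsig', ← mul_assoc]
          apply dvd_mul_of_dvd_left
          have h1 : 2 ∣ p + 1 := by omega
          have h2 : 2 ∣ q + 1 := by omega
          exact mul_dvd_mul h1 h2
  · rintro (rfl | rfl | rfl)
    · have : ArithmeticFunction.sigma 1 4 = 7 := by
        rw [ArithmeticFunction.sigma_one_apply]; decide
      rw [this]; decide
    · have : ArithmeticFunction.sigma 1 6 = 12 := by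
        rw [ArithmeticFunction.sigma_one_apply]; decide
      rw [this]; decide
    · have : ArithmeticFunction.sigma 1 22 = 36 := by
        rw [ArithmeticFunction.sigma_one_apply]; decide
      rw [this]; decide

end Pool.Agent.S4853
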