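import Pool.Statements.S5399
import Pool.Agent.H3.Sv.Sieve

set_option autoImplicit false
open Pool Pool.MP_e7cd8d_nt

namespace Pool.Agent.S5399

open Filter

lemma omega_le (a m : ℕ) (ha : a ≠ 0) (hm : 2 ≤ m) (h : a ≤ 2 * m) : (a.primeFactors.card : ℝ) ≤ 4 * Real.log m := by
  have h1 : 2 ^ a.primeFactors.card ≤ a := by
    calc 2 ^ a.primeFactors.card ≤ ∏ p ∈ a.primeFactors, p := by
          apply Finset.pow_card_le_prod
          intro p hp
          exact (Nat.prime_of_mem_primeFactors hp).two_le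
      _ ≤ a := Nat.le_of_dvd (Nat.pos_of_ne_zero ha) (Nat.prod_primeFactors_dvd a)
  have h2 : (2 : ℝ) ^ a.primeFactors.card ≤ (m : ℝ) ^ 2 := by
    have : 2 ^ a.primeFactors.card ≤ m ^ 2 := by nlinarith
    exact_mod_cast this
  have h3 := Real.log_le_log (by positivity) h2
  rw [Real.log_pow, Real.log_pow] at h3
  have h4 : (1 / 2 : ℝ) ≤ Real.log 2 := by
    have := Real.log_two_gt_d9; linarith
  have h5 : (0 : ℝ) ≤ (a.primeFactors.card : ℝ) := by positivity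
  push_cast at h3
  nlinarith

/-- There is c0 such that for every c at least c0: every maximal pairwise coprime set of integers in (m, m + floor((log m)^c)] has size tending to infinity as m grows. -/
theorem result :
    ∃ c₀ : ℝ, ∀ c : ℝ, c₀ ≤ c → ∀ N : ℕ, ∃ M : ℕ, ∀ m : ℕ, M ≤ m →
      ∀ A : Finset ℕ,
        A ⊆ Finset.Ioc m (m + ⌊(Real.log (m : ℝ)) ^ c⌋₊) →
        (A : Set ℕ).Pairwise Nat.Coprime →
        (∀ n ∈ Finset.Ioc m (m + ⌊(Real.log (m : ℝ)) ^ c⌋₊),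
            n ∉ A → ∃ a ∈ A, ¬ Nat.Coprime a n) →
        N ≤ A.card := by
  refine ⟨442, fun c hc N => ?_⟩
  have ev1 : ∀ᶠ x : ℝ in atTop, Real.log x ^ c ≤ x := by
    have h := isLittleO_log_rpow_rpow_atTop c (zero_lt_one (α := ℝ))
    have h2 := h.bound (zero_lt_one (α := ℝ))
    filter_upwards [h2, eventually_ge_atTop 1] with x hx hx1
    rw [one_mul, Real.rpow_one, Real.norm_eq_abs, Real.norm_eq_abs, abs_of_nonneg (by linarith : (0 : ℝ) ≤ x)] at hx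
    exact (le_abs_self _).trans hx
  have ev2 : ∀ᶠ x : ℝ in atTop, (2 ^ 40 + 4 * N : ℝ) ≤ Real.log x := Real.tendsto_log_atTop.eventually_ge_atTop _
  have ev3 : ∀ᶠ m : ℕ in atTop, (Real.log (m : ℝ) ^ c ≤ (m : ℝ)) ∧ ((2 ^ 40 + 4 * N : ℝ) ≤ Real.log (m : ℝ)) ∧ 2 ≤ m :=
    (tendsto_natCast_atTop_atTop.eventually ev1).and ((tendsto_natCast_atTop_atTop.eventually ev2).and (eventually_ge_atTop 2))
  obtain ⟨M, hM⟩ := eventually_atTop.1 ev3
  refine ⟨M, fun m hm A hA _ hmax => ?_⟩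
  obtain ⟨h1, h2, h3⟩ := hM m hm
  by_contra hcon
  push Not at hcon
  set x : ℝ := Real.log (m : ℝ) with hx
  set k : ℕ := ⌊x ^ c⌋₊ with hk
  have hN0 : (0 : ℝ) ≤ (N : ℝ) := Nat.cast_nonneg _
  have hx40 : (2 ^ 40 : ℝ) ≤ x := by linarith
  have hx4N : 4 * (N : ℝ) ≤ x := by
    have : (0 : ℝ) ≤ 2 ^ 40 := by positivity
    linarith
  have hx2 : (2 : ℝ) ≤ x := le_trans (by norm_num) hx40
  have hx0 : (0 : ℝ) < x := by linarith
  have hkm : k ≤ m := by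
    have : (k : ℝ) ≤ m := (Nat.floor_le (by positivity)).trans h1
    exact_mod_cast this
  -- k is large
  have hkx : x ^ 441 ≤ (k : ℝ) := by
    have e1 : x ^ c < (k : ℝ) + 1 := Nat.lt_floor_add_one _
    have e2 : x ^ (442 : ℝ) ≤ x ^ c := Real.rpow_le_rpow_of_exponent_le (by linarith) hc
    have e3 : x ^ (442 : ℝ) = x ^ (442 : ℕ) := by exact_mod_cast Real.rpow_natCast x 442
    have e4 : x ^ (442 : ℕ) = x * x ^ 441 := by ring
    have e5 : (1 : ℝ) ≤ x ^ 441 := one_le_pow₀ (by linarith)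
    have e6 : 2 * x ^ 441 ≤ x * x ^ 441 := mul_le_mul_of_nonneg_right hx2 (by positivity)
    have e7 : x ^ 441 + 1 < (k : ℝ) + 1 := by
      calc x ^ 441 + 1 ≤ 2 * x ^ 441 := by linarith
        _ ≤ x * x ^ 441 := e6
        _ = x ^ (442 : ℕ) := e4.symm
        _ = x ^ (442 : ℝ) := e3.symm
        _ ≤ x ^ c := e2
        _ < (k : ℝ) + 1 := e1
    exact ((add_lt_add_iff_right 1).1 e7).le
  -- choose I
  have hex : ∃ I : ℕ, x ^ 2 ≤ (2 : ℝ) ^ 2 ^ I := by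
    obtain ⟨n, hn⟩ := exists_nat_ge (x ^ 2)
    refine ⟨n, hn.trans ?_⟩
    have e1 : n ≤ 2 ^ 2 ^ n := (Nat.lt_two_pow_self (n := n)).le.trans (Nat.lt_two_pow_self (n := 2 ^ n)).le
    exact_mod_cast e1
  classical
  set I := Nat.find hex with hI
  have hIspec : x ^ 2 ≤ (2 : ℝ) ^ 2 ^ I := Nat.find_spec hex
  have hI7 : 7 ≤ I := by
    by_contra h
    have e1 : (2 : ℝ) ^ 2 ^ I ≤ 2 ^ 2 ^ 6 := pow_le_pow_right₀ (by norm_num) (Nat.pow_le_pow_right (by norm_num) (by omega))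
    have e2 : (2 ^ 40 : ℝ) ^ 2 ≤ x ^ 2 := pow_le_pow_left₀ (by positivity) hx40 2
    have e3 : (2 : ℝ) ^ 2 ^ 6 < (2 ^ 40 : ℝ) ^ 2 := by norm_num
    linarith
  have hImin : (2 : ℝ) ^ 2 ^ (I - 1) < x ^ 2 := by
    have := Nat.find_min hex (m := I - 1) (by omega)
    push Not at this
    exact this
  have hI4 : (2 : ℝ) ^ 2 ^ I ≤ x ^ 4 := by
    have e1 : (2 : ℝ) ^ 2 ^ I = ((2 : ℝ) ^ 2 ^ (I - 1)) ^ 2 := by
      rw [← pow_mul, ← pow_succ]
      congr 2; omega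
    rw [e1]
    calc ((2 : ℝ) ^ 2 ^ (I - 1)) ^ 2 ≤ (x ^ 2) ^ 2 := pow_le_pow_left₀ (by positivity) hImin.le 2
      _ = x ^ 4 := by ring
  set Q := A.biUnion Nat.primeFactors with hQ
  have hQp : ∀ p ∈ Q, p.Prime := by
    intro p hp
    rw [hQ, Finset.mem_biUnion] at hp
    obtain ⟨a, _, ha⟩ := hp
    exact Nat.prime_of_mem_primeFactors ha
  have hAm : ∀ a ∈ A, m < a ∧ a ≤ 2 * m := by
    intro a ha
    have := Finset.mem_Ioc.1 (hA ha)
    omega
  have hQc : Q.card ≤ 2 ^ 2 ^ I := by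
    have e1 : (Q.card : ℝ) ≤ ∑ a ∈ A, (a.primeFactors.card : ℝ) := by
      exact_mod_cast Finset.card_biUnion_le
    have e2 : ∑ a ∈ A, (a.primeFactors.card : ℝ) ≤ ∑ a ∈ A, 4 * x := by
      apply Finset.sum_le_sum
      intro a ha
      have := hAm a ha
      exact omega_le a m (by omega) h3 this.2
    rw [Finset.sum_const, nsmul_eq_mul] at e2
    have e3 : (A.card : ℝ) ≤ N := by exact_mod_cast hcon.le
    have e4 : (A.card : ℝ) * (4 * x) ≤ N * (4 * x) := mul_le_mul_of_nonneg_right e3 (by positivity)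
    have e5 : (N : ℝ) * (4 * x) ≤ x ^ 2 := by nlinarith
    have e6 : (Q.card : ℝ) ≤ 2 ^ 2 ^ I := by linarith
    exact_mod_cast e6
  have hkI : 2 ^ (110 * 2 ^ I) ≤ k := by
    have e1 : ((2 : ℝ) ^ (110 * 2 ^ I)) ≤ k := by
      calc (2 : ℝ) ^ (110 * 2 ^ I) = (2 ^ 2 ^ I) ^ 110 := by rw [← pow_mul, mul_comm]
        _ ≤ (x ^ 4) ^ 110 := pow_le_pow_left₀ (by positivity) hI4 _
        _ = x ^ 440 := by rw [← pow_mul]
        _ ≤ x ^ 441 := pow_le_pow_right₀ (by linarith) (by norm_num)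
        _ ≤ k := hkx
    exact_mod_cast e1
  obtain ⟨n, hn, hnQ⟩ := Pool.Agent.H3.Sv.sieve I hI7 Q hQp hQc m k hkI
  have hcop : ∀ a ∈ A, Nat.Coprime a n := by
    intro a ha
    by_contra h
    obtain ⟨p, hp, hpa, hpn⟩ := Nat.Prime.not_coprime_iff_dvd.1 h
    have := hAm a ha
    apply hnQ p _ hpn
    rw [hQ, Finset.mem_biUnion]
    exact ⟨a, ha, Nat.mem_primeFactors.2 ⟨hp, hpa, by omega⟩⟩
  have hnA : n ∉ A := by
    intro h
    have h4 := hcop n h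
    rw [Nat.coprime_self] at h4
    have := hAm n h
    omega
  obtain ⟨a, ha, hna⟩ := hmax n hn hnA
  exact hna (hcop a ha)

end Pool.Agent.S5399
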