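import Pool.Statements.S5786
import Pool.Agent.H0.Rbm.Final

set_option autoImplicit false
open Pool Pool.MP_d45cb4_pr

namespace Pool.Agent.S5786

/-- The negation of the preceding statement: Every probability distribution on {0,1}^4 can be approximated arbitrarily well, in every coordinate, by the visible marginal of a restricted Boltzmann machine with 4 visible and 3 hidden binary units and real parameters. -/
theorem result :
    ¬ (∀ q : (Fin 4 → Bool) → ℝ, (∀ v, 0 ≤ q v) → ∑ v, q v = 1 →
    ∀ ε : ℝ, 0 < ε → ∃ (W : Fin 3 → Fin 4 → ℝ) (b : Fin 4 → ℝ) (c : Fin 3 → ℝ),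
      ∀ v : Fin 4 → Bool,
        |(∑ h : Fin 3 → Bool, Real.exp (∑ i : Fin 3, ∑ j : Fin 4,
              W i j * (if h i then (1:ℝ) else 0) * (if v j then (1:ℝ) else 0)
              + ∑ j : Fin 4, b j * (if v j then (1:ℝ) else 0)
              + ∑ i : Fin 3, c i * (if h i then (1:ℝ) else 0)))
          / (∑ v' : Fin 4 → Bool, ∑ h : Fin 3 → Bool, Real.exp (∑ i : Fin 3, ∑ j : Fin 4,
              W i j * (if h i then (1:ℝ) else 0) * (if v' j then (1:ℝ) else 0)
              + ∑ j : Fin 4, b j * (if v' j then (1:ℝ) else 0)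
              + ∑ i : Fin 3, c i * (if h i then (1:ℝ) else 0)))
          - q v| < ε) := by
  intro h
  obtain ⟨W, b, c, hW⟩ := h Pool.Agent.H0.Rbm.q
    (fun v => le_trans (by norm_num) (Pool.Agent.H0.Rbm.q_ge v)) Pool.Agent.H0.Rbm.q_sum
    (1 / 77600) (by norm_num)
  refine Pool.Agent.H0.Rbm.final W b c (fun v => ?_)
  have := hW v
  simp only [Pool.Agent.H0.Rbm.Num_eq] at this
  exact this


end Pool.Agent.S5786
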